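import Mathlib

/-!
# Algebraic part: commutators, double commutators, ground state identities

`A` is a commutative real algebra (smooth functions), `D j` derivations (invariant vector fields),
`I` the integral, `I (D j u) = 0`.
-/

namespace Pool.Agent.H906R3.YM

noncomputable section

section Alg

variable {A : Type*} [CommRing A] [Algebra ℝ A] {J : Type*} [Fintype J]
  (D : J → Derivation ℝ A A)

/-- The scalar product of the gradients. -/
def Gam (f h : A) : A := ∑ j, D j f * D j h

/-- The Laplacian. -/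
def Lap (f : A) : A := ∑ j, D j (D j f)

/-- The antisymmetric operator `∇ f · ∇ + (Δ f) / 2`. -/
def XX (f w : A) : A := Gam D f w + (1 / 2 : ℝ) • (Lap D f * w)

/-- The Hamiltonian. -/
def HH (g : ℝ) (V u : A) : A := -((g ^ 2 / 2 : ℝ) • Lap D u) + (1 / g ^ 2 : ℝ) • (V * u)

variable {D}

lemma Gam_comm (f h : A) : Gam D f h = Gam D h f := by
  unfold Gam; exact Finset.sum_congr rfl fun j _ => mul_comm _ _

lemma Gam_mul (f u v : A) : Gam D f (u * v) = u * Gam D f v + v * Gam D f u := by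
  unfold Gam
  rw [Finset.mul_sum, Finset.mul_sum, ← Finset.sum_add_distrib]
  refine Finset.sum_congr rfl fun j _ => ?_
  rw [Derivation.leibniz, smul_eq_mul, smul_eq_mul]; ring

lemma Gam_add (f u v : A) : Gam D f (u + v) = Gam D f u + Gam D f v := by
  unfold Gam
  rw [← Finset.sum_add_distrib]
  refine Finset.sum_congr rfl fun j _ => ?_
  rw [map_add]; ring

lemma Gam_smul (f : A) (c : ℝ) (u : A) : Gam D f (c • u) = c • Gam D f u := by
  unfold Gam
  rw [Finset.smul_sum]
  refine Finset.sum_congr rfl fun j _ => ?_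
  rw [Derivation.map_smul, mul_smul_comm]

lemma Gam_sum {K : Type*} (s : Finset K) (f : A) (u : K → A) :
    Gam D f (∑ k ∈ s, u k) = ∑ k ∈ s, Gam D f (u k) := by
  unfold Gam
  rw [Finset.sum_comm]
  refine Finset.sum_congr rfl fun j _ => ?_
  rw [map_sum, Finset.mul_sum]

lemma XX_add (f u v : A) : XX D f (u + v) = XX D f u + XX D f v := by
  unfold XX
  rw [Gam_add, mul_add, smul_add]; abel

lemma XX_smul (f : A) (c : ℝ) (u : A) : XX D f (c • u) = c • XX D f u := by
  unfold XX
  rw [Gam_smul, smul_add, mul_smul_comm, smul_comm]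

lemma XX_neg (f u : A) : XX D f (-u) = -XX D f u := by
  have := XX_smul (D := D) f (-1) u
  simpa using this

lemma XX_sub (f u v : A) : XX D f (u - v) = XX D f u - XX D f v := by
  rw [sub_eq_add_neg, XX_add, XX_neg, ← sub_eq_add_neg]

lemma XX_sum {K : Type*} (s : Finset K) (f : A) (u : K → A) :
    XX D f (∑ k ∈ s, u k) = ∑ k ∈ s, XX D f (u k) := by
  unfold XX
  rw [Gam_sum, Finset.mul_sum, Finset.smul_sum, Finset.sum_add_distrib]

lemma XX_mul (f h w : A) : XX D f (h * w) = h * XX D f w + Gam D f h * w := by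
  unfold XX
  rw [Gam_mul, mul_add, mul_smul_comm]
  have : Lap D f * (h * w) = h * (Lap D f * w) := by ring
  rw [this]; ring

lemma Lap_mul (f w : A) : Lap D (f * w) = Lap D f * w + f * Lap D w + (2 : ℝ) • Gam D f w := by
  unfold Lap Gam
  rw [Finset.sum_mul, Finset.mul_sum, Finset.smul_sum, ← Finset.sum_add_distrib,
    ← Finset.sum_add_distrib]
  refine Finset.sum_congr rfl fun j _ => ?_
  simp only [Derivation.leibniz, smul_eq_mul, map_add, two_smul]
  ring

/-- `H (f Ω) = f H Ω - g² X_f Ω`. -/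
lemma HH_mul (g : ℝ) (V f w : A) :
    HH D g V (f * w) = f * HH D g V w - (g ^ 2 : ℝ) • XX D f w := by
  unfold HH XX
  rw [Lap_mul]
  have e1 : f * (-((g ^ 2 / 2 : ℝ) • Lap D w) + (1 / g ^ 2 : ℝ) • (V * w)) =
      -((g ^ 2 / 2 : ℝ) • (f * Lap D w)) + (1 / g ^ 2 : ℝ) • (V * (f * w)) := by
    simp only [Algebra.smul_def]; ring
  rw [e1]
  have e2 : (g ^ 2 : ℝ) • (Gam D f w + (1 / 2 : ℝ) • (Lap D f * w)) =
      (g ^ 2 / 2 : ℝ) • ((2 : ℝ) • Gam D f w) + (g ^ 2 / 2 : ℝ) • (Lap D f * w) := by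
    rw [smul_add, smul_smul, smul_smul]
    congr 2
    · ring
    · ring
  rw [e2, smul_add, smul_add]
  abel

lemma HH_sub (g : ℝ) (V u v : A) : HH D g V (u - v) = HH D g V u - HH D g V v := by
  have hL : Lap D (u - v) = Lap D u - Lap D v := by
    unfold Lap
    rw [← Finset.sum_sub_distrib]
    exact Finset.sum_congr rfl fun j _ => by rw [map_sub, map_sub]
  unfold HH
  rw [hL, mul_sub, smul_sub, smul_sub]; abel

lemma HH_smul (g : ℝ) (V : A) (c : ℝ) (u : A) : HH D g V (c • u) = c • HH D g V u := by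
  have hL : Lap D (c • u) = c • Lap D u := by
    unfold Lap
    rw [Finset.smul_sum]
    exact Finset.sum_congr rfl fun j _ => by rw [Derivation.map_smul, Derivation.map_smul]
  unfold HH
  rw [hL, mul_smul_comm, smul_add, smul_neg, smul_comm, smul_comm c (1 / g ^ 2 : ℝ)]

variable (I : A →ₗ[ℝ] ℝ) (hI : ∀ j u, I (D j u) = 0)

include hI

lemma I_D (j : J) (u v : A) : I (D j u * v) = -I (u * D j v) := by
  have h := hI j (u * v)
  rw [Derivation.leibniz, smul_eq_mul, smul_eq_mul, map_add] at h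
  rw [mul_comm (D j u) v]; linarith

lemma I_Gam (f h w : A) : I (Gam D f h * w) = -I (Lap D f * h * w) - I (h * Gam D f w) := by
  have hj : ∀ j, I (D j f * D j h * w) = -I (D j (D j f) * h * w) - I (h * (D j f * D j w)) := by
    intro j
    have h1 := hI j (D j f * h * w)
    rw [Derivation.leibniz, Derivation.leibniz] at h1
    simp only [smul_eq_mul] at h1
    have h2 : D j f * h * D j w + w * (D j f * D j h + h * D j (D j f)) =
      D j f * D j h * w + D j (D j f) * h * w + h * (D j f * D j w) := by ring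
    rw [h2, map_add, map_add] at h1
    linarith
  unfold Gam Lap
  rw [Finset.sum_mul, map_sum, Finset.sum_congr rfl fun j _ => hj j, Finset.sum_sub_distrib,
    Finset.sum_neg_distrib, Finset.sum_mul, Finset.sum_mul, map_sum, Finset.mul_sum, map_sum]

lemma I_XX (f u w : A) : I (XX D f u * w) = -I (u * XX D f w) := by
  unfold XX
  rw [add_mul, mul_add, map_add, map_add, I_Gam I hI f u w, smul_mul_assoc, mul_smul_comm,
    map_smul, map_smul]
  have : u * (Lap D f * w) = Lap D f * u * w := by ring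
  rw [this]; simp only [smul_eq_mul]; ring

/-- ground state identity: `⟨h Ω, X_f Ω⟩ = - ⟨∇h·∇f⟩ / 2`. -/
lemma I_hX (f h w : A) : I (h * w * XX D f w) = -(1 / 2) * I (Gam D f h * (w * w)) := by
  have h1 := I_XX I hI f w (h * w)
  rw [XX_mul, mul_add, map_add] at h1
  have e1 : XX D f w * (h * w) = h * w * XX D f w := by ring
  have e2 : w * (h * XX D f w) = h * w * XX D f w := by ring
  have e3 : w * (Gam D f h * w) = Gam D f h * (w * w) := by ring
  rw [e1, e2, e3] at h1
  linarith

/-- the double commutator identity. -/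
lemma double_comm (g E : ℝ) (V f w : A) (hw : HH D g V w = E • w) (hg : g ≠ 0) :
    I (XX D f w * (HH D g V (XX D f w) - E • XX D f w)) =
      g ^ 2 / 2 * ∑ j, (I ((D j (XX D f w) - XX D f (D j w)) * (D j (XX D f w) - XX D f (D j w)))
        - I (D j w * (XX D f (D j (XX D f w) - XX D f (D j w)) -
            (D j (XX D f (XX D f w)) - XX D f (D j (XX D f w))))))
      + 1 / (2 * g ^ 2) * I (Gam D f (Gam D f V) * (w * w)) := by
  set X : A → A := XX D f with hX
  have hXd : ∀ u, XX D f u = X u := fun u => rfl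
  have hE : E • X w = X (HH D g V w) := by rw [hw, hX, XX_smul]
  have h1 : HH D g V (X w) - X (HH D g V w) =
      -((g ^ 2 / 2 : ℝ) • ∑ j, (D j (D j (X w)) - X (D j (D j w)))) -
        (1 / g ^ 2 : ℝ) • (Gam D f V * w) := by
    have hXV : X (V * w) = V * X w + Gam D f V * w := XX_mul f V w
    have hXL : X (Lap D w) = ∑ j, X (D j (D j w)) := by
      unfold Lap; exact XX_sum _ _ _
    unfold HH
    rw [hX, XX_add, XX_neg, XX_smul, XX_smul, ← hX, hXV, hXL, smul_add, Finset.sum_sub_distrib,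
      smul_sub]
    unfold Lap
    abel
  have hT : ∀ j, I (X w * (D j (D j (X w)) - X (D j (D j w)))) =
      -I ((D j (X w) - X (D j w)) * (D j (X w) - X (D j w))) +
        I (D j w * (X (D j (X w) - X (D j w)) - (D j (X (X w)) - X (D j (X w))))) := by
    intro j
    -- `D_j D_j X - X D_j D_j = D_j Y + Y D_j`
    have k1 : D j (D j (X w)) - X (D j (D j w)) =
        D j (D j (X w) - X (D j w)) + (D j (X (D j w)) - X (D j (D j w))) := by
      rw [map_sub]; abel
    have k2 : I (X w * D j (D j (X w) - X (D j w))) =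
        -I ((D j (X w) - X (D j w)) * (D j (X w) - X (D j w))) +
          I (D j w * X (D j (X w) - X (D j w))) := by
      have a1 := I_D I hI j (X w) (D j (X w) - X (D j w))
      have a2 := I_XX I hI f (D j w) (D j (X w) - X (D j w))
      rw [hXd, hXd] at a2
      have a3 : D j (X w) * (D j (X w) - X (D j w)) =
          (D j (X w) - X (D j w)) * (D j (X w) - X (D j w)) +
            X (D j w) * (D j (X w) - X (D j w)) := by ring
      rw [a3, map_add, a2] at a1
      linarith
    have k3 : I (X w * (D j (X (D j w)) - X (D j (D j w)))) =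
        -I (D j w * (D j (X (X w)) - X (D j (X w)))) := by
      have a1 := I_D I hI j (X w) (X (D j w))
      have a2 := I_XX I hI f (D j (X w)) (D j w)
      have a3 := I_XX I hI f (X w) (D j (D j w))
      have a4 := I_D I hI j (X (X w)) (D j w)
      rw [hXd, hXd] at a2 a3
      rw [mul_sub, map_sub, mul_sub, map_sub]
      have b1 : I (D j w * D j (X (X w))) = I (D j (X (X w)) * D j w) := by rw [mul_comm]
      have b2 : I (D j w * X (D j (X w))) = I (X (D j (X w)) * D j w) := by rw [mul_comm]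
      rw [b1, b2, a2, a4]
      linarith
    have k4 : I (D j w * (X (D j (X w) - X (D j w)) - (D j (X (X w)) - X (D j (X w))))) =
        I (D j w * X (D j (X w) - X (D j w))) - I (D j w * (D j (X (X w)) - X (D j (X w)))) := by
      rw [← map_sub, ← mul_sub]
    rw [k1, mul_add, map_add, k2, k3, k4]
    ring
  have hV : I (X w * (Gam D f V * w)) = -(1 / 2) * I (Gam D f (Gam D f V) * (w * w)) := by
    have := I_hX I hI f (Gam D f V) w
    rw [← this]
    congr 1
    rw [hXd]; ring
  rw [hE, h1, mul_sub, mul_neg, mul_smul_comm, mul_smul_comm, map_sub, map_neg, map_smul,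
    map_smul, Finset.mul_sum, map_sum, Finset.sum_congr rfl fun j _ => hT j, hV, smul_eq_mul,
    smul_eq_mul, Finset.sum_add_distrib, Finset.sum_neg_distrib, Finset.sum_sub_distrib]
  field_simp
  ring

end Alg

section Radial

variable {A : Type*} [CommRing A] [Algebra ℝ A] {J : Type*} [Fintype J]
  {D : J → Derivation ℝ A A} {K : Type*} [Fintype K] (Φ : K → A) (r t : A) (s : ℝ)

/-- `Θ = t (∑ |∇Φ_a|² - |∇ r|²)`. -/
def Theta (D : J → Derivation ℝ A A) (Φ : K → A) (r t : A) : A :=
  t * (∑ a, Gam D (Φ a) (Φ a)) - t * Gam D r r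

variable {Φ r t s}

lemma r_mul_D (hr : r * r = algebraMap ℝ A (s ^ 2) + ∑ a, Φ a * Φ a)
    (d : Derivation ℝ A A) : r * d r = ∑ a, Φ a * d (Φ a) := by
  have h := congrArg d hr
  rw [Derivation.leibniz, map_add, Derivation.map_algebraMap, zero_add, map_sum] at h
  simp only [Derivation.leibniz, smul_eq_mul] at h
  have h2 : (2 : ℝ) • (r * d r) = (2 : ℝ) • ∑ a, Φ a * d (Φ a) := by
    rw [two_smul, h, two_smul, ← Finset.sum_add_distrib]
  have h3 := congrArg (fun x => (1 / 2 : ℝ) • x) h2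
  simpa [smul_smul] using h3

lemma D_r (ht : t * r = 1) (hr : r * r = algebraMap ℝ A (s ^ 2) + ∑ a, Φ a * Φ a)
    (d : Derivation ℝ A A) : d r = t * ∑ a, Φ a * d (Φ a) := by
  rw [← r_mul_D hr, ← mul_assoc, ht, one_mul]

lemma D_t (ht : t * r = 1) (d : Derivation ℝ A A) : d t = -(t * t * d r) := by
  have h := congrArg d ht
  rw [Derivation.leibniz, Derivation.map_one_eq_zero, smul_eq_mul, smul_eq_mul] at h
  have h2 : t * (t * d r + r * d t) = 0 := by rw [h, mul_zero]
  have h3 : t * (t * d r + r * d t) = t * t * d r + (t * r) * d t := by ring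
  rw [h3, ht, one_mul] at h2
  linear_combination h2

lemma Gam_r (ht : t * r = 1) (hr : r * r = algebraMap ℝ A (s ^ 2) + ∑ a, Φ a * Φ a) (u : A) :
    Gam D u r = t * ∑ a, Φ a * Gam D u (Φ a) := by
  unfold Gam
  simp only [Finset.mul_sum]
  rw [Finset.sum_comm]
  refine Finset.sum_congr rfl fun j _ => ?_
  rw [D_r ht hr, Finset.mul_sum, Finset.mul_sum]
  refine Finset.sum_congr rfl fun a _ => ?_
  ring

lemma Gam_t (ht : t * r = 1) (u : A) : Gam D u t = -(t * t * Gam D u r) := by
  unfold Gam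
  rw [Finset.mul_sum, ← Finset.sum_neg_distrib]
  refine Finset.sum_congr rfl fun j _ => ?_
  rw [D_t ht]; ring

lemma sum_Phi_Gam (ht : t * r = 1) (hr : r * r = algebraMap ℝ A (s ^ 2) + ∑ a, Φ a * Φ a)
    (u : A) : ∑ a, Φ a * Gam D u (Φ a) = r * Gam D u r := by
  rw [Gam_r ht hr, ← mul_assoc, mul_comm r t, ht, one_mul]

lemma Gam_r_r (ht : t * r = 1) (hr : r * r = algebraMap ℝ A (s ^ 2) + ∑ a, Φ a * Φ a) :
    Gam D r r = t * t * ∑ a, ∑ b, Φ a * Φ b * Gam D (Φ a) (Φ b) := by
  rw [Gam_r ht hr]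
  have : ∀ a, Gam D r (Φ a) = t * ∑ b, Φ b * Gam D (Φ a) (Φ b) := by
    intro a
    rw [Gam_comm, Gam_r ht hr]
  simp only [this, Finset.mul_sum]
  refine Finset.sum_congr rfl fun a _ => Finset.sum_congr rfl fun b _ => ?_
  ring

lemma Lap_r (ht : t * r = 1) (hr : r * r = algebraMap ℝ A (s ^ 2) + ∑ a, Φ a * Φ a) :
    Lap D r = t * (∑ a, Φ a * Lap D (Φ a)) + Theta D Φ r t := by
  have h1 : ∀ j, D j (D j r) = t * (∑ a, D j (Φ a) * D j (Φ a)) +
      t * (∑ a, Φ a * D j (D j (Φ a))) - t * (D j r * D j r) := by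
    intro j
    have h2 := congrArg (D j) (D_r ht hr (D j))
    rw [Derivation.leibniz, map_sum, D_t ht, ← r_mul_D hr, smul_eq_mul, smul_eq_mul] at h2
    have h3 : ∑ a, (D j) (Φ a * (D j) (Φ a)) =
      ∑ a, Φ a * D j (D j (Φ a)) + ∑ a, D j (Φ a) * D j (Φ a) := by
      rw [← Finset.sum_add_distrib]
      exact Finset.sum_congr rfl fun a _ => by
        rw [Derivation.leibniz, smul_eq_mul, smul_eq_mul]
    rw [h3] at h2
    rw [h2]
    have h4 : r * (D j) r * -(t * t * (D j) r) = -((t * r) * t * (D j r * D j r)) := by ring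
    rw [h4, ht]; ring
  unfold Lap Theta Gam
  simp only [h1, Finset.sum_add_distrib, Finset.sum_sub_distrib, ← Finset.mul_sum]
  rw [Finset.sum_comm (f := fun (a : K) (j : J) => D j (Φ a) * D j (Φ a))]
  have h5 : ∑ a, Φ a * ∑ j, (D j) ((D j) (Φ a)) = ∑ j, ∑ a, Φ a * (D j) ((D j) (Φ a)) := by
    rw [Finset.sum_comm]
    exact Finset.sum_congr rfl fun a _ => by rw [Finset.mul_sum]
  rw [h5]; ring

lemma XX_r (ht : t * r = 1) (hr : r * r = algebraMap ℝ A (s ^ 2) + ∑ a, Φ a * Φ a) (w : A) :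
    XX D r w = ∑ a, (t * Φ a) * XX D (Φ a) w + (1 / 2 : ℝ) • (Theta D Φ r t * w) := by
  have h1 : Gam D r w = ∑ a, (t * Φ a) * Gam D (Φ a) w := by
    rw [Gam_comm, Gam_r ht hr, Finset.mul_sum]
    refine Finset.sum_congr rfl fun a _ => ?_
    rw [Gam_comm w]; ring
  unfold XX
  rw [Lap_r ht hr, h1]
  simp only [mul_add, mul_smul_comm, Finset.sum_add_distrib, ← Finset.smul_sum, add_mul, smul_add]
  have h2 : t * (∑ a, Φ a * Lap D (Φ a)) * w = ∑ a, t * Φ a * (Lap D (Φ a) * w) := by
    rw [Finset.mul_sum, Finset.sum_mul]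
    exact Finset.sum_congr rfl fun a _ => by ring
  rw [h2]; abel

lemma sum_Gam_tPhi (ht : t * r = 1) (hr : r * r = algebraMap ℝ A (s ^ 2) + ∑ a, Φ a * Φ a) :
    ∑ a, Gam D (Φ a) (t * Φ a) = Theta D Φ r t := by
  have h1 : ∀ a, Gam D (Φ a) (t * Φ a) = t * Gam D (Φ a) (Φ a) -
      t * t * (Φ a * Gam D r (Φ a)) := by
    intro a
    rw [Gam_mul, Gam_t ht, Gam_comm (Φ a) r]; ring
  simp only [h1, Finset.sum_sub_distrib, ← Finset.mul_sum]
  rw [sum_Phi_Gam ht hr]
  unfold Theta
  have : t * t * (r * Gam D r r) = (t * r) * (t * Gam D r r) := by ring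
  rw [this, ht, one_mul]

lemma I_Theta (I : A →ₗ[ℝ] ℝ) (hI : ∀ j u, I (D j u) = 0) (ht : t * r = 1)
    (hr : r * r = algebraMap ℝ A (s ^ 2) + ∑ a, Φ a * Φ a) (w : A) :
    ∑ a, I ((t * Φ a * w) * XX D (Φ a) w) = -(1 / 2) * I (Theta D Φ r t * (w * w)) := by
  rw [← sum_Gam_tPhi ht hr, Finset.sum_mul, map_sum, Finset.mul_sum]
  refine Finset.sum_congr rfl fun a _ => ?_
  rw [I_hX I hI]

end Radial

section FirstOrder

variable {A : Type*} [CommRing A] [Algebra ℝ A] {K : Type*} [Fintype K]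
  (D : K → Derivation ℝ A A)

/-- first order operator. -/
def Op (c : K → A) (c0 : A) (u : A) : A := ∑ k, c k * D k u + c0 * u

/-- coefficients of the commutator of two first order operators. -/
def brC (σ : K → K → K → ℝ) (c c' : K → A) (k : K) : A :=
  ∑ i, (c i * D i (c' k) - c' i * D i (c k)) + ∑ i, ∑ l, σ i l k • (c i * c' l)

/-- zeroth order coefficient of the commutator. -/
def br0 (c : K → A) (c0 : A) (c' : K → A) (c0' : A) : A :=
  ∑ i, (c i * D i c0' - c' i * D i c0)

variable {D}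

lemma Op_Op (c c' : K → A) (c0 c0' u : A) :
    Op D c c0 (Op D c' c0' u) = ∑ i, ∑ l, (c i * D i (c' l) * D l u + c i * c' l * D i (D l u))
      + ∑ i, (c i * D i c0' * u + c i * c0' * D i u) + ∑ l, c0 * c' l * D l u + c0 * c0' * u := by
  unfold Op
  have h1 : ∀ i, c i * D i (∑ l, c' l * D l u + c0' * u) =
      ∑ l, (c i * D i (c' l) * D l u + c i * c' l * D i (D l u)) +
        (c i * D i c0' * u + c i * c0' * D i u) := by
    intro i
    rw [map_add, map_sum, Derivation.leibniz, mul_add, Finset.mul_sum]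
    congr 1
    · refine Finset.sum_congr rfl fun l _ => ?_
      rw [Derivation.leibniz, smul_eq_mul, smul_eq_mul]; ring
    · rw [smul_eq_mul, smul_eq_mul]; ring
  rw [Finset.sum_congr rfl fun i _ => h1 i, Finset.sum_add_distrib, mul_add, Finset.mul_sum]
  have h2 : ∑ l, c0 * (c' l * D l u) = ∑ l, c0 * c' l * D l u :=
    Finset.sum_congr rfl fun l _ => by ring
  rw [h2]; ring

lemma Op_comm (σ : K → K → K → ℝ)
    (hσ : ∀ i l u, D i (D l u) - D l (D i u) = ∑ k, σ i l k • D k u)
    (c c' : K → A) (c0 c0' u : A) :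
    Op D c c0 (Op D c' c0' u) - Op D c' c0' (Op D c c0 u) =
      Op D (brC D σ c c') (br0 D c c0 c' c0') u := by
  rw [Op_Op, Op_Op]
  have h1 : ∑ i, ∑ l, c i * c' l * D i (D l u) - ∑ i, ∑ l, c' i * c l * D i (D l u) =
      ∑ k, (∑ i, ∑ l, σ i l k • (c i * c' l)) * D k u := by
    have e1 : ∑ i, ∑ l, c' i * c l * D i (D l u) = ∑ i, ∑ l, c i * c' l * D l (D i u) := by
      rw [Finset.sum_comm]
      exact Finset.sum_congr rfl fun i _ => Finset.sum_congr rfl fun l _ => by ring
    rw [e1, ← Finset.sum_sub_distrib]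
    have e2 : ∀ i, (∑ l, c i * c' l * D i (D l u) - ∑ l, c i * c' l * D l (D i u)) =
        ∑ k, (∑ l, σ i l k • (c i * c' l)) * D k u := by
      intro i
      rw [← Finset.sum_sub_distrib]
      have e3 : ∀ l, c i * c' l * D i (D l u) - c i * c' l * D l (D i u) =
          ∑ k, (σ i l k • (c i * c' l)) * D k u := by
        intro l
        rw [← mul_sub, hσ, Finset.mul_sum]
        exact Finset.sum_congr rfl fun k _ => by rw [mul_smul_comm, smul_mul_assoc]
      rw [Finset.sum_congr rfl fun l _ => e3 l, Finset.sum_comm]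
      exact Finset.sum_congr rfl fun k _ => by rw [Finset.sum_mul]
    rw [Finset.sum_congr rfl fun i _ => e2 i, Finset.sum_comm]
    exact Finset.sum_congr rfl fun k _ => by rw [Finset.sum_mul]
  have h2 : ∀ (x y : K → A), ∑ i, ∑ l, x i * D i (y l) * D l u =
      ∑ k, (∑ i, x i * D i (y k)) * D k u := by
    intro x y
    rw [Finset.sum_comm]
    exact Finset.sum_congr rfl fun k _ => by rw [Finset.sum_mul]
  have h3 : ∑ l, c0 * c' l * D l u = ∑ i, c' i * c0 * D i u :=
    Finset.sum_congr rfl fun i _ => by ring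
  have h4 : ∑ l, c0' * c l * D l u = ∑ i, c i * c0' * D i u :=
    Finset.sum_congr rfl fun i _ => by ring
  unfold Op brC br0
  simp only [Finset.sum_add_distrib, Finset.sum_sub_distrib, add_mul, sub_mul, ← Finset.sum_mul]
  rw [h2, h2, h3, h4, ← h1]
  ring

end FirstOrder

end

end Pool.Agent.H906R3.YM
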