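import Mathlib
import Pool.Agent.H906R3.YM.Alg

/-!
# Calculus on `E → G`, `G` a compact group with a unitary representation
-/

open MeasureTheory Matrix
open scoped Matrix.Norms.Frobenius ContDiff

namespace Pool.Agent.H906R3.YM

set_option linter.unusedSectionVars false

noncomputable section

/-- square complex matrices -/
abbrev Mat (N : ℕ) := Matrix (Fin N) (Fin N) ℂ

/-- A unitary representation of `G`, an orthonormal basis `X` of the Lie algebra (as matrices), and
the corresponding one-parameter subgroups. -/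
structure LD (G : Type*) [Group G] [TopologicalSpace G] (N n : ℕ) where
  rho : G →* Mat N
  cont : Continuous rho
  unit : ∀ g, rho g * (rho g)ᴴ = 1
  X : Fin n → Mat N
  ex : Fin n → ℝ → G
  ex_add : ∀ a s t, ex a (s + t) = ex a s * ex a t
  deriv_ex : ∀ a, HasDerivAt (fun t => rho (ex a t)) (X a) 0
  orth : ∀ a b, (trace ((X a)ᴴ * X b)).re = if a = b then 1 else 0
  conj_mem : ∀ g a, rho g * X a * (rho g)ᴴ ∈ Submodule.span ℝ (Set.range X)
  brk_mem : ∀ a b, X a * X b - X b * X a ∈ Submodule.span ℝ (Set.range X)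

variable {G : Type*} [Group G] [TopologicalSpace G] {N n : ℕ} (L : LD G N n)
  {E : Type*} [Fintype E] [DecidableEq E]

lemma LD.ex_zero (a : Fin n) : L.ex a 0 = 1 := by
  have := L.ex_add a 0 0
  rw [add_zero] at this
  exact (mul_eq_left.mp this.symm)

/-- the matrices of a configuration -/
def LD.mat (U : E → G) : E → Mat N := fun e => L.rho (U e)

omit [Fintype E] [DecidableEq E] in
lemma LD.mat_apply (U : E → G) (e : E) : L.mat U e = L.rho (U e) := rfl

/-- The smooth functions on `G^E`: restrictions of smooth functions of the matrices. -/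
def Sm (E : Type*) [Fintype E] : Subalgebra ℝ ((E → G) → ℝ) where
  carrier := {F | ∃ Ft : (E → Mat N) → ℝ, ContDiff ℝ ∞ Ft ∧ ∀ U, F U = Ft (L.mat U)}
  mul_mem' := by
    rintro F F' ⟨f, hf, h⟩ ⟨f', hf', h'⟩
    exact ⟨fun M => f M * f' M, hf.mul hf', fun U => by rw [Pi.mul_apply, h, h']⟩
  add_mem' := by
    rintro F F' ⟨f, hf, h⟩ ⟨f', hf', h'⟩
    exact ⟨fun M => f M + f' M, hf.add hf', fun U => by rw [Pi.add_apply, h, h']⟩
  algebraMap_mem' := fun r => ⟨fun _ => r, contDiff_const, fun U => rfl⟩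

/-- left translation of one link by `exp (t X_a)` -/
def LD.shift (e : E) (a : Fin n) (t : ℝ) (U : E → G) : E → G := Pi.mulSingle e (L.ex a t) * U

/-- the vector field `U_e ↦ X_a U_e` -/
def LD.vf (e : E) (a : Fin n) (M : E → Mat N) : E → Mat N := Pi.single e (L.X a * M e)

lemma LD.shift_add (e : E) (a : Fin n) (s t : ℝ) (U : E → G) :
    L.shift e a (s + t) U = L.shift e a s (L.shift e a t U) := by
  unfold LD.shift
  rw [L.ex_add, Pi.mulSingle_mul, mul_assoc]

lemma LD.shift_zero (e : E) (a : Fin n) (U : E → G) : L.shift e a 0 U = U := by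
  unfold LD.shift
  rw [L.ex_zero, Pi.mulSingle_one, one_mul]

lemma LD.hasDerivAt_mat (e : E) (a : Fin n) (U : E → G) :
    HasDerivAt (fun t => L.mat (L.shift e a t U)) (L.vf e a (L.mat U)) 0 := by
  refine hasDerivAt_pi.2 fun e' => ?_
  by_cases h : e' = e
  · subst h
    have h1 : (fun t => L.mat (L.shift e' a t U) e') = fun t => L.rho (L.ex a t) * L.rho (U e') := by
      funext t
      simp [LD.mat, LD.shift]
    rw [h1]
    have h2 : L.vf e' a (L.mat U) e' = L.X a * L.rho (U e') := by simp [LD.vf, LD.mat]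
    rw [h2]
    exact (L.deriv_ex a).mul_const _
  · have h1 : (fun t => L.mat (L.shift e a t U) e') = fun _ => L.rho (U e') := by
      funext t
      simp [LD.mat, LD.shift, Pi.mulSingle_eq_of_ne h]
    rw [h1]
    have h2 : L.vf e a (L.mat U) e' = 0 := by simp [LD.vf, Pi.single_eq_of_ne h]
    rw [h2]
    exact hasDerivAt_const _ _

lemma LD.contDiff_vf (e : E) (a : Fin n) : ContDiff ℝ ∞ (L.vf e a : (E → Mat N) → (E → Mat N)) := by
  rw [contDiff_pi]
  intro e'
  by_cases h : e' = e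
  · subst h
    have : (fun M : E → Mat N => L.vf e' a M e') = fun M => L.X a * M e' := by
      funext M; simp [LD.vf]
    rw [this]
    exact contDiff_const.mul (contDiff_apply ℝ (Mat N) e')
  · have : (fun M : E → Mat N => L.vf e a M e') = fun M => 0 := by
      funext M; simp [LD.vf, Pi.single_eq_of_ne h]
    rw [this]
    exact contDiff_const

/-- derivative along `U_e ↦ exp (t X_a) U_e` -/
def LD.dF (e : E) (a : Fin n) (F : (E → G) → ℝ) (U : E → G) : ℝ :=
  deriv (fun t => F (L.shift e a t U)) 0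

variable {L}

lemma hasDerivAt_ext {Ft : (E → Mat N) → ℝ} (hf : ContDiff ℝ ∞ Ft) {F : (E → G) → ℝ}
    (h : ∀ U, F U = Ft (L.mat U)) (e : E) (a : Fin n) (U : E → G) :
    HasDerivAt (fun t => F (L.shift e a t U)) (fderiv ℝ Ft (L.mat U) (L.vf e a (L.mat U))) 0 := by
  have h1 : (fun t => F (L.shift e a t U)) = fun t => Ft (L.mat (L.shift e a t U)) := by
    funext t; exact h _
  rw [h1]
  have h2 : HasFDerivAt Ft (fderiv ℝ Ft (L.mat U)) (L.mat (L.shift e a 0 U)) := by
    rw [L.shift_zero]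
    exact (hf.differentiable (by simp)).differentiableAt.hasFDerivAt
  exact h2.comp_hasDerivAt (0 : ℝ) (L.hasDerivAt_mat e a U)

lemma dF_ext {Ft : (E → Mat N) → ℝ} (hf : ContDiff ℝ ∞ Ft) {F : (E → G) → ℝ}
    (h : ∀ U, F U = Ft (L.mat U)) (e : E) (a : Fin n) (U : E → G) :
    L.dF e a F U = fderiv ℝ Ft (L.mat U) (L.vf e a (L.mat U)) :=
  (hasDerivAt_ext hf h e a U).deriv

lemma hasDerivAt_dF {F : (E → G) → ℝ} (hF : F ∈ Sm L E) (e : E) (a : Fin n) (U : E → G) (s : ℝ) :
    HasDerivAt (fun t => F (L.shift e a t U)) (L.dF e a F (L.shift e a s U)) s := by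
  obtain ⟨f, hf, h⟩ := hF
  have h1 := hasDerivAt_ext hf h e a (L.shift e a s U)
  rw [dF_ext hf h]
  have h2 : (fun t => F (L.shift e a t U)) =
      (fun t => F (L.shift e a t (L.shift e a s U))) ∘ fun t => t - s := by
    funext t
    simp only [Function.comp]
    rw [← L.shift_add, sub_add_cancel]
  rw [h2]
  have h3 : HasDerivAt (fun t : ℝ => t - s) 1 s := by simpa using (hasDerivAt_id s).sub_const s
  have h4 : HasDerivAt (fun t => F (L.shift e a t (L.shift e a s U)))
      (fderiv ℝ f (L.mat (L.shift e a s U)) (L.vf e a (L.mat (L.shift e a s U)))) (s - s) := by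
    rw [sub_self]; exact h1
  have h5 := HasDerivAt.comp (h := fun t : ℝ => t - s) s h4 h3
  simpa using h5

lemma contDiff_dext {Ft : (E → Mat N) → ℝ} (hf : ContDiff ℝ ∞ Ft) (e : E) (a : Fin n) :
    ContDiff ℝ ∞ fun M => fderiv ℝ Ft M (L.vf e a M) :=
  (hf.fderiv_right (m := ∞) (by simp)).clm_apply (L.contDiff_vf e a)

lemma dF_mem {F : (E → G) → ℝ} (hF : F ∈ Sm L E) (e : E) (a : Fin n) : L.dF e a F ∈ Sm L E := by
  obtain ⟨f, hf, h⟩ := hF
  exact ⟨_, contDiff_dext hf e a, fun U => dF_ext hf h e a U⟩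

variable (L) in
/-- The derivations of the algebra of smooth functions. -/
def LD.Dv (j : E × Fin n) : Derivation ℝ (Sm L E) (Sm L E) :=
  Derivation.mk'
    { toFun := fun F => ⟨L.dF j.1 j.2 F.1, dF_mem F.2 j.1 j.2⟩
      map_add' := by
        intro F H
        apply Subtype.ext
        funext U
        have h1 := hasDerivAt_dF F.2 j.1 j.2 U 0
        have h2 := hasDerivAt_dF H.2 j.1 j.2 U 0
        have h3 := (h1.add h2).deriv
        rw [L.shift_zero] at h3
        exact h3
      map_smul' := by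
        intro c F
        apply Subtype.ext
        funext U
        have h1 := hasDerivAt_dF F.2 j.1 j.2 U 0
        have h3 := (h1.const_mul c).deriv
        rw [L.shift_zero] at h3
        exact h3 }
    (by
      intro F H
      apply Subtype.ext
      funext U
      have h1 := hasDerivAt_dF F.2 j.1 j.2 U 0
      have h2 := hasDerivAt_dF H.2 j.1 j.2 U 0
      have h3 := (h1.mul h2).deriv
      simp only [L.shift_zero] at h3
      refine h3.trans ?_
      show _ = F.1 U * L.dF j.1 j.2 H.1 U + H.1 U * L.dF j.1 j.2 F.1 U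
      ring)

lemma Dv_apply (j : E × Fin n) (F : Sm L E) (U : E → G) :
    (L.Dv j F).1 U = L.dF j.1 j.2 F.1 U := rfl

/-! ### commutators -/

variable (L) in
/-- the vector field as a continuous linear map -/
def LD.vfL (e : E) (a : Fin n) : (E → Mat N) →L[ℝ] (E → Mat N) :=
  LinearMap.toContinuousLinearMap
    ((LinearMap.single ℝ (fun _ : E => Mat N) e) ∘ₗ (LinearMap.mulLeft ℝ (L.X a)) ∘ₗ
      (LinearMap.proj e))

lemma vfL_apply (e : E) (a : Fin n) (M : E → Mat N) : L.vfL e a M = L.vf e a M := rfl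

lemma fderiv_dext {f : (E → Mat N) → ℝ} (hf : ContDiff ℝ ∞ f) (e : E) (a : Fin n)
    (M w : E → Mat N) :
    fderiv ℝ (fun M => fderiv ℝ f M (L.vf e a M)) M w =
      fderiv ℝ (fderiv ℝ f) M w (L.vf e a M) + fderiv ℝ f M (L.vf e a w) := by
  have h1 : HasFDerivAt (fderiv ℝ f) (fderiv ℝ (fderiv ℝ f) M) M := by
    have := (hf.fderiv_right (m := ∞) (by simp)).differentiable (by simp)
    exact (this M).hasFDerivAt
  have h2 : HasFDerivAt (fun M => L.vf e a M) (L.vfL e a) M := (L.vfL e a).hasFDerivAt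
  have h3 := (h1.clm_apply h2).fderiv
  refine (congrArg (fun T => T w) h3).trans ?_
  rw [add_comm]
  rfl

variable (L) in
/-- structure constants -/
def LD.sc (a c : Fin n) : Fin n → ℝ :=
  Classical.choose ((Submodule.mem_span_range_iff_exists_fun ℝ).1 (L.brk_mem a c))

lemma sc_spec (a c : Fin n) : ∑ b, L.sc a c b • L.X b = L.X a * L.X c - L.X c * L.X a :=
  Classical.choose_spec ((Submodule.mem_span_range_iff_exists_fun ℝ).1 (L.brk_mem a c))

variable (L) in
/-- structure constants for the derivations -/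
def LD.sig {S : Type*} [DecidableEq S] (i l k : S × Fin n) : ℝ :=
  if i.1 = l.1 ∧ k.1 = i.1 then -L.sc i.2 l.2 k.2 else 0

lemma sum_sig {V : Type*} [AddCommGroup V] [Module ℝ V] (i l : E × Fin n)
    (v : E × Fin n → V) :
    ∑ k, L.sig i l k • v k = if i.1 = l.1 then -∑ b, L.sc i.2 l.2 b • v (i.1, b) else 0 := by
  rw [Fintype.sum_prod_type]
  split_ifs with h
  · rw [Finset.sum_eq_single i.1, ← Finset.sum_neg_distrib]
    · refine Finset.sum_congr rfl fun b _ => ?_
      simp [LD.sig, h]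
    · intro e _ he
      refine Finset.sum_eq_zero fun b _ => ?_
      simp [LD.sig, he]
    · simp
  · refine Finset.sum_eq_zero fun e _ => Finset.sum_eq_zero fun b _ => ?_
    simp [LD.sig, h]

lemma vf_comm (e e' : E) (a c : Fin n) (M : E → Mat N) :
    L.vf e' c (L.vf e a M) - L.vf e a (L.vf e' c M) =
      if e = e' then -∑ b, L.sc a c b • L.vf e b M else 0 := by
  split_ifs with h
  · subst h
    have h1 : L.vf e c (L.vf e a M) - L.vf e a (L.vf e c M) =
        Pi.single e (-((L.X a * L.X c - L.X c * L.X a) * M e)) := by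
      unfold LD.vf
      rw [Pi.single_eq_same, Pi.single_eq_same, ← Pi.single_sub]
      congr 1
      noncomm_ring
    rw [h1, ← sc_spec, Finset.sum_mul]
    unfold LD.vf
    rw [Pi.single_neg]
    congr 1
    have h2 : ∀ b, L.sc a c b • (Pi.single e (L.X b * M e) : E → Mat N) =
        Pi.single e (L.sc a c b • L.X b * M e) := by
      intro b
      rw [← Pi.single_smul, smul_mul_assoc]
    simp only [h2]
    exact map_sum (AddMonoidHom.single (fun _ : E => Mat N) e)
      (fun b => L.sc a c b • L.X b * M e) Finset.univ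
  · have h' : e' ≠ e := fun hh => h hh.symm
    unfold LD.vf
    rw [Pi.single_eq_of_ne h', Pi.single_eq_of_ne h]
    simp

lemma Dv_comm (i l : E × Fin n) (F : Sm L E) :
    L.Dv i (L.Dv l F) - L.Dv l (L.Dv i F) = ∑ k, L.sig i l k • L.Dv k F := by
  apply Subtype.ext
  funext U
  obtain ⟨F, hF⟩ := F
  obtain ⟨f, hf, h⟩ := id hF
  have hval : ∀ j k : E × Fin n, (L.Dv j (L.Dv k ⟨F, hF⟩)).1 U =
      fderiv ℝ (fderiv ℝ f) (L.mat U) (L.vf j.1 j.2 (L.mat U)) (L.vf k.1 k.2 (L.mat U)) +
        fderiv ℝ f (L.mat U) (L.vf k.1 k.2 (L.vf j.1 j.2 (L.mat U))) := by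
    intro j k
    refine (dF_ext (contDiff_dext hf k.1 k.2) (fun U => dF_ext hf h k.1 k.2 U) j.1 j.2 U).trans ?_
    exact fderiv_dext hf _ _ _ _
  have hsym : fderiv ℝ (fderiv ℝ f) (L.mat U) (L.vf i.1 i.2 (L.mat U))
      (L.vf l.1 l.2 (L.mat U)) = fderiv ℝ (fderiv ℝ f) (L.mat U) (L.vf l.1 l.2 (L.mat U))
      (L.vf i.1 i.2 (L.mat U)) := by
    have := (hf.contDiffAt (x := L.mat U)).isSymmSndFDerivAt
      (by simp only [minSmoothness_of_isRCLikeNormedField]; exact WithTop.coe_le_coe.2 (le_top : (2 : ℕ∞) ≤ ⊤))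
    exact this _ _
  have h0 : (L.Dv i (L.Dv l ⟨F, hF⟩) - L.Dv l (L.Dv i ⟨F, hF⟩)).1 U =
      (L.Dv i (L.Dv l ⟨F, hF⟩)).1 U - (L.Dv l (L.Dv i ⟨F, hF⟩)).1 U := rfl
  rw [h0, hval, hval, hsym, add_sub_add_left_eq_sub, ← map_sub, vf_comm, sum_sig]
  split_ifs with hil
  · rw [map_neg, map_sum]
    have h1 : (-∑ b, L.sc i.2 l.2 b • L.Dv (i.1, b) (⟨F, hF⟩ : Sm L E)).1 U =
        -∑ b, L.sc i.2 l.2 b * (L.Dv (i.1, b) (⟨F, hF⟩ : Sm L E)).1 U := by
      have : (-∑ b, L.sc i.2 l.2 b • L.Dv (i.1, b) (⟨F, hF⟩ : Sm L E)).1 =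
        -∑ b, (L.sc i.2 l.2 b • L.Dv (i.1, b) (⟨F, hF⟩ : Sm L E)).1 := by
        push_cast; rfl
      rw [this, Pi.neg_apply, Finset.sum_apply]
      rfl
    rw [h1]
    congr 1
    refine Finset.sum_congr rfl fun b _ => ?_
    rw [map_smul, smul_eq_mul, Dv_apply, dF_ext hf h]
  · rw [map_zero]; rfl

/-! ### pull back -/

/-- the pull back of functions of the links of a block -/
def pull {S : Type*} [Fintype S] (ι : S → E) : Sm L S →ₐ[ℝ] Sm L E where
  toFun F := ⟨fun U => F.1 (U ∘ ι), by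
    obtain ⟨F, f, hf, h⟩ := F
    refine ⟨fun M => f (M ∘ ι), ?_, fun U => h _⟩
    refine hf.comp ?_
    rw [contDiff_pi]
    intro s
    exact contDiff_apply ℝ (Mat N) (ι s)⟩
  map_one' := rfl
  map_mul' _ _ := rfl
  map_zero' := rfl
  map_add' _ _ := rfl
  commutes' _ := rfl

lemma pull_apply {S : Type*} [Fintype S] (ι : S → E) (F : Sm L S) (U : E → G) :
    (pull ι F).1 U = F.1 (U ∘ ι) := rfl

lemma Dv_pull {S : Type*} [Fintype S] [DecidableEq S] {ι : S → E} (hι : Function.Injective ι)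
    (k : S × Fin n) (F : Sm L S) : L.Dv (ι k.1, k.2) (pull ι F) = pull ι (L.Dv k F) := by
  apply Subtype.ext
  funext U
  rw [pull_apply, Dv_apply, Dv_apply]
  unfold LD.dF
  congr 1
  funext t
  rw [pull_apply]
  refine congrArg F.1 (funext fun s => ?_)
  unfold LD.shift
  simp only [Function.comp, Pi.mul_apply]
  by_cases h : s = k.1
  · rw [h, Pi.mulSingle_eq_same, Pi.mulSingle_eq_same]
  · rw [Pi.mulSingle_eq_of_ne h, Pi.mulSingle_eq_of_ne (fun hh => h (hι hh))]

lemma Dv_pull_zero {S : Type*} [Fintype S] {ι : S → E} (e : E) (he : ∀ s, ι s ≠ e) (a : Fin n)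
    (F : Sm L S) : L.Dv (e, a) (pull ι F) = 0 := by
  apply Subtype.ext
  funext U
  rw [Dv_apply]
  unfold LD.dF
  have : (fun t => (pull ι F).1 (L.shift e a t U)) = fun t => (pull ι F).1 U := by
    funext t
    rw [pull_apply, pull_apply]
    refine congrArg F.1 (funext fun s => ?_)
    unfold LD.shift
    simp only [Function.comp, Pi.mul_apply]
    rw [Pi.mulSingle_eq_of_ne (he s), one_mul]
  rw [this]
  simp

end

end Pool.Agent.H906R3.YM
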