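import Mathlib
import Pool.Agent.H906R3.YM.Grp

/-!
# The Haar integral on `E → G`
-/

open MeasureTheory Matrix
open scoped Matrix.Norms.Frobenius ContDiff

namespace Pool.Agent.H906R3.YM

set_option linter.unusedSectionVars false

noncomputable section

variable {G : Type*} [Group G] [TopologicalSpace G] {N n : ℕ} (L : LD G N n)
  {E : Type*} [Fintype E] [DecidableEq E]

/-- evaluation at a configuration -/
def LD.ev (U : E → G) : Sm L E →ₐ[ℝ] ℝ := (Pi.evalAlgHom ℝ _ U).comp (Sm L E).val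

variable {L}

lemma ev_apply (U : E → G) (F : Sm L E) : L.ev U F = F.1 U := rfl

lemma ev_ext {F H : Sm L E} (h : ∀ U, L.ev U F = L.ev U H) : F = H :=
  Subtype.ext (funext h)

lemma Sm_cont (F : Sm L E) : Continuous F.1 := by
  obtain ⟨F, f, hf, h⟩ := F
  have : F = fun U => f (L.mat U) := funext h
  show Continuous F
  rw [this]
  refine hf.continuous.comp (continuous_pi fun e => ?_)
  exact L.cont.comp (continuous_apply e)

variable [IsTopologicalGroup G] [CompactSpace G] [SecondCountableTopology G]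
  [MeasurableSpace G] [BorelSpace G] (μ : Measure G) [IsProbabilityMeasure μ]

/-- product measure -/
abbrev ME (E : Type*) [Fintype E] : Measure (E → G) := Measure.pi fun _ => μ

lemma integrable_cont {F : (E → G) → ℝ} (hF : Continuous F) : Integrable F (ME μ E) :=
  hF.integrable_of_hasCompactSupport (HasCompactSupport.of_compactSpace _)

variable (L) in
/-- the integral, as a linear form on the smooth functions -/
def LD.I : Sm L E →ₗ[ℝ] ℝ where
  toFun F := ∫ U, F.1 U ∂(ME μ E)
  map_add' F H := integral_add (integrable_cont μ (Sm_cont F)) (integrable_cont μ (Sm_cont H))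
  map_smul' c F := integral_const_mul c F.1

lemma I_apply (F : Sm L E) : L.I μ F = ∫ U, F.1 U ∂(ME μ E) := rfl

lemma I_mono {F H : Sm L E} (h : ∀ U, L.ev U F ≤ L.ev U H) : L.I μ F ≤ L.I μ H :=
  integral_mono (integrable_cont μ (Sm_cont F)) (integrable_cont μ (Sm_cont H)) h

lemma I_nonneg {F : Sm L E} (h : ∀ U, 0 ≤ L.ev U F) : 0 ≤ L.I μ F :=
  integral_nonneg h

lemma I_sq_nonneg (F : Sm L E) : 0 ≤ L.I μ (F * F) :=
  I_nonneg μ fun U => by rw [map_mul]; exact mul_self_nonneg _

lemma I_one : L.I μ (1 : Sm L E) = 1 := by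
  rw [I_apply]
  have : ∀ U, (1 : Sm L E).1 U = 1 := fun U => rfl
  simp [this]

lemma eq_zero_of_I [μ.IsOpenPosMeasure] {F : Sm L E} (h : L.I μ (F * F) = 0) : F = 0 := by
  have h1 : ∀ U, 0 ≤ (F * F).1 U := fun U => mul_self_nonneg _
  have h2 := (Continuous.integral_pos_of_hasCompactSupport_nonneg_nonzero
    (μ := ME μ E) (f := (F * F).1) (x := ·) (Sm_cont _) (HasCompactSupport.of_compactSpace _) h1)
  refine Subtype.ext (funext fun U => ?_)
  by_contra hne
  have h3 : (F * F).1 U ≠ 0 := mul_self_ne_zero.2 hne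
  have := h2 U h3
  rw [I_apply] at h
  linarith

lemma I_D_zero [μ.IsMulLeftInvariant] (j : E × Fin n) (u : Sm L E) : L.I μ (L.Dv j u) = 0 := by
  obtain ⟨C, hC⟩ : ∃ C, ∀ U, |(L.Dv j u).1 U| ≤ C := by
    have hcont := Sm_cont (L.Dv j u)
    obtain ⟨C, hC⟩ := (isCompact_univ.image hcont.norm).bddAbove
    exact ⟨C, fun U => hC ⟨U, trivial, rfl⟩⟩
  have hconst : ∀ t, ∫ U, u.1 (L.shift j.1 j.2 t U) ∂(ME μ E) = ∫ U, u.1 U ∂(ME μ E) := by
    intro t
    exact integral_mul_left_eq_self (μ := ME μ E) u.1 (Pi.mulSingle j.1 (L.ex j.2 t))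
  have hshift : ∀ t, Continuous (fun U : E → G => L.shift j.1 j.2 t U) := by
    intro t
    unfold LD.shift
    exact continuous_const.mul continuous_id
  have hder := hasDerivAt_integral_of_dominated_loc_of_deriv_le (μ := ME μ E)
    (F := fun t U => u.1 (L.shift j.1 j.2 t U))
    (F' := fun t U => (L.Dv j u).1 (L.shift j.1 j.2 t U)) (x₀ := (0 : ℝ)) (s := Set.univ)
    (bound := fun _ => C) Filter.univ_mem
    (Filter.Eventually.of_forall fun t =>
      ((Sm_cont u).comp (hshift t)).aestronglyMeasurable)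
    (integrable_cont μ ((Sm_cont u).comp (hshift 0)))
    (((Sm_cont (L.Dv j u)).comp (hshift 0)).aestronglyMeasurable)
    (Filter.Eventually.of_forall fun U t _ => hC _) (integrable_const _)
    (Filter.Eventually.of_forall fun U t _ => hasDerivAt_dF u.2 j.1 j.2 U t)
  have h1 := hder.2.deriv
  have h2 : (fun t => ∫ U, u.1 (L.shift j.1 j.2 t U) ∂(ME μ E)) =
      fun _ => ∫ U, u.1 U ∂(ME μ E) := funext hconst
  rw [h2, deriv_const] at h1
  rw [I_apply]
  simpa [L.shift_zero] using h1.symm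

lemma sq_le_of_forall {a b c : ℝ} (h : ∀ t : ℝ, 0 ≤ a + 2 * t * b + t ^ 2 * c) :
    b ^ 2 ≤ a * c := by
  have h1 : ∀ t : ℝ, 0 ≤ c * (t * t) + 2 * b * t + a := fun t => by
    have := h t; nlinarith
  have h2 := discrim_le_zero h1
  unfold discrim at h2
  nlinarith

lemma I_cs {K : Type*} [Fintype K] (u v : K → Sm L E) :
    (∑ a, L.I μ (u a * v a)) ^ 2 ≤ (∑ a, L.I μ (u a * u a)) * ∑ a, L.I μ (v a * v a) := by
  refine sq_le_of_forall fun t => ?_
  have h1 : ∀ a, 0 ≤ L.I μ (u a * u a) + 2 * t * L.I μ (u a * v a) + t ^ 2 * L.I μ (v a * v a) := by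
    intro a
    have h2 := I_sq_nonneg μ (u a + t • v a)
    have h3 : (u a + t • v a) * (u a + t • v a) =
        u a * u a + (2 * t) • (u a * v a) + (t ^ 2) • (v a * v a) := by
      refine ev_ext fun U => ?_
      simp only [map_mul, map_add, map_smul, smul_eq_mul]; ring
    rw [h3, map_add, map_add, map_smul, map_smul, smul_eq_mul, smul_eq_mul] at h2
    exact h2
  have h4 := Finset.sum_nonneg fun a (_ : a ∈ Finset.univ) => h1 a
  rw [Finset.sum_add_distrib, Finset.sum_add_distrib, ← Finset.mul_sum, ← Finset.mul_sum] at h4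
  exact h4

lemma I_cs1 (u v : Sm L E) : (L.I μ (u * v)) ^ 2 ≤ L.I μ (u * u) * L.I μ (v * v) := by
  have := I_cs μ (fun _ : Unit => u) (fun _ : Unit => v)
  simpa using this

end

end Pool.Agent.H906R3.YM
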