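import Mathlib
import Pool.Agent.H906R3.YM.Int

/-!
# Smooth matrix valued functions of the links
-/

open MeasureTheory Matrix
open scoped Matrix.Norms.Frobenius ContDiff

namespace Pool.Agent.H906R3.YM

set_option linter.unusedSectionVars false

noncomputable section

variable {G : Type*} [Group G] [TopologicalSpace G] {N n : ℕ} (L : LD G N n)
  {E : Type*} [Fintype E] [DecidableEq E]

/-- Smooth matrix valued functions. -/
def SmM (F : (E → G) → Mat N) : Prop :=
  ∃ Ft : (E → Mat N) → Mat N, ContDiff ℝ ∞ Ft ∧ ∀ U, F U = Ft (L.mat U)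

variable {L}

lemma SmM.const (A : Mat N) : SmM L (fun _ : E → G => A) := ⟨fun _ => A, contDiff_const, fun _ => rfl⟩

lemma SmM.link (e : E) : SmM L (fun U : E → G => L.rho (U e)) :=
  ⟨fun M => M e, contDiff_apply ℝ (Mat N) e, fun _ => rfl⟩

lemma SmM.mul {F H : (E → G) → Mat N} (hF : SmM L F) (hH : SmM L H) :
    SmM L (fun U => F U * H U) := by
  obtain ⟨f, hf, h⟩ := hF
  obtain ⟨f', hf', h'⟩ := hH
  exact ⟨fun M => f M * f' M, hf.mul hf', fun U => by simp only [h, h']⟩

lemma SmM.add {F H : (E → G) → Mat N} (hF : SmM L F) (hH : SmM L H) :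
    SmM L (fun U => F U + H U) := by
  obtain ⟨f, hf, h⟩ := hF
  obtain ⟨f', hf', h'⟩ := hH
  exact ⟨fun M => f M + f' M, hf.add hf', fun U => by simp only [h, h']⟩

lemma SmM.sub {F H : (E → G) → Mat N} (hF : SmM L F) (hH : SmM L H) :
    SmM L (fun U => F U - H U) := by
  obtain ⟨f, hf, h⟩ := hF
  obtain ⟨f', hf', h'⟩ := hH
  exact ⟨fun M => f M - f' M, hf.sub hf', fun U => by simp only [h, h']⟩

lemma SmM.smul {F : (E → G) → Mat N} (hF : SmM L F) (c : ℝ) : SmM L (fun U => c • F U) := by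
  obtain ⟨f, hf, h⟩ := hF
  exact ⟨fun M => c • f M, hf.const_smul c, fun U => by simp only [h]⟩

lemma SmM.sum {K : Type*} (s : Finset K) {F : K → (E → G) → Mat N} (hF : ∀ k, SmM L (F k)) :
    SmM L (fun U => ∑ k ∈ s, F k U) := by
  choose f hf h using hF
  refine ⟨fun M => ∑ k ∈ s, f k M, ContDiff.sum fun k _ => hf k, fun U => ?_⟩
  exact Finset.sum_congr rfl fun k _ => h k U

/-- conjugate transpose as a real linear map -/
def ctL (N : ℕ) : Mat N →L[ℝ] Mat N :=
  LinearMap.toContinuousLinearMap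
    { toFun := fun A => Aᴴ
      map_add' := fun A B => conjTranspose_add A B
      map_smul' := fun c A => by
        ext i j
        simp [conjTranspose_apply] }

lemma ctL_apply (A : Mat N) : ctL N A = Aᴴ := rfl

lemma SmM.ct {F : (E → G) → Mat N} (hF : SmM L F) : SmM L (fun U => (F U)ᴴ) := by
  obtain ⟨f, hf, h⟩ := hF
  exact ⟨fun M => ctL N (f M), (ctL N).contDiff.comp hf, fun U => by simp only [h]; rfl⟩

lemma SmM.hasDeriv {F : (E → G) → Mat N} (hF : SmM L F) (e : E) (a : Fin n) (U : E → G) :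
    ∃ Y, HasDerivAt (fun t => F (L.shift e a t U)) Y 0 := by
  obtain ⟨f, hf, h⟩ := hF
  have h1 : (fun t => F (L.shift e a t U)) = fun t => f (L.mat (L.shift e a t U)) := by
    funext t; exact h _
  have h2 : HasFDerivAt f (fderiv ℝ f (L.mat U)) (L.mat (L.shift e a 0 U)) := by
    rw [L.shift_zero]
    exact (hf.differentiable (by simp)).differentiableAt.hasFDerivAt
  rw [h1]
  exact ⟨_, h2.comp_hasDerivAt (0 : ℝ) (L.hasDerivAt_mat e a U)⟩

/-- a real linear functional of a smooth matrix function -/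
def lin (ℓ : Mat N →L[ℝ] ℝ) (F : (E → G) → Mat N) (hF : SmM L F) : Sm L E :=
  ⟨fun U => ℓ (F U), by
    obtain ⟨f, hf, h⟩ := hF
    exact ⟨fun M => ℓ (f M), ℓ.contDiff.comp hf, fun U => by simp only [h]⟩⟩

lemma lin_apply (ℓ : Mat N →L[ℝ] ℝ) (F : (E → G) → Mat N) (hF : SmM L F) (U : E → G) :
    (lin ℓ F hF).1 U = ℓ (F U) := rfl

lemma Dv_lin (ℓ : Mat N →L[ℝ] ℝ) (F : (E → G) → Mat N) (hF : SmM L F) (j : E × Fin n)
    (U : E → G) {Y : Mat N} (hY : HasDerivAt (fun t => F (L.shift j.1 j.2 t U)) Y 0) :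
    (L.Dv j (lin ℓ F hF)).1 U = ℓ Y := by
  rw [Dv_apply]
  unfold LD.dF
  exact (ℓ.hasFDerivAt.comp_hasDerivAt (0 : ℝ) hY).deriv

/-- the real scalar product with a matrix -/
def ip (A : Mat N) : Mat N →L[ℝ] ℝ :=
  LinearMap.toContinuousLinearMap
    { toFun := fun M => (trace (Aᴴ * M)).re
      map_add' := fun M M' => by rw [mul_add, trace_add, Complex.add_re]
      map_smul' := fun c M => by
        rw [mul_smul_comm, trace_smul, RingHom.id_apply]
        simp }

lemma ip_apply (A M : Mat N) : ip A M = (trace (Aᴴ * M)).re := rfl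

/-- real coordinates of a matrix -/
def co (c : Fin N × Fin N × Bool) : Mat N →L[ℝ] ℝ :=
  LinearMap.toContinuousLinearMap
    { toFun := fun M => if c.2.2 then (M c.1 c.2.1).re else (M c.1 c.2.1).im
      map_add' := fun M M' => by split_ifs <;> simp
      map_smul' := fun r M => by split_ifs <;> simp }

lemma sum_co_sq (M : Mat N) : ∑ c, co c M ^ 2 = (trace (Mᴴ * M)).re := by
  have h1 : ∀ c, co c M = if c.2.2 then (M c.1 c.2.1).re else (M c.1 c.2.1).im := fun c => rfl
  simp only [h1]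
  rw [Fintype.sum_prod_type]
  simp only [Fintype.sum_prod_type, Fintype.sum_bool, if_true, Bool.false_eq_true, if_false]
  rw [trace, Complex.re_sum, Finset.sum_comm]
  refine Finset.sum_congr rfl fun j _ => ?_
  rw [diag_apply, mul_apply, Complex.re_sum]
  refine Finset.sum_congr rfl fun i _ => ?_
  rw [conjTranspose_apply]
  simp [Complex.mul_re, sq]

lemma LD.unit' (g : G) : (L.rho g)ᴴ * L.rho g = 1 := by
  have h := L.unit g
  exact mul_eq_one_comm.1 h

lemma LD.rho_inv (g : G) : L.rho g⁻¹ = (L.rho g)ᴴ := by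
  have h1 : L.rho g⁻¹ * L.rho g = 1 := by rw [← map_mul, inv_mul_cancel, map_one]
  have h2 := L.unit g
  calc L.rho g⁻¹ = L.rho g⁻¹ * (L.rho g * (L.rho g)ᴴ) := by rw [h2, mul_one]
    _ = (L.rho g)ᴴ := by rw [← mul_assoc, h1, one_mul]

lemma skew (a : Fin n) : (L.X a)ᴴ = -L.X a := by
  have h1 : HasDerivAt (fun t => L.rho (L.ex a t)) (L.X a) 0 := L.deriv_ex a
  have h2 : HasDerivAt (fun t => (L.rho (L.ex a t))ᴴ) ((L.X a)ᴴ) 0 :=
    (ctL N).hasFDerivAt.comp_hasDerivAt (0 : ℝ) h1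
  have h3 := h1.mul h2
  have h4 : (fun t => L.rho (L.ex a t)) * (fun t => (L.rho (L.ex a t))ᴴ) = fun _ => (1 : Mat N) := by
    funext t; exact L.unit _
  rw [h4] at h3
  have h5 := h3.unique (hasDerivAt_const (0 : ℝ) (1 : Mat N))
  rw [L.ex_zero, map_one, conjTranspose_one, mul_one, one_mul] at h5
  exact eq_neg_of_add_eq_zero_right h5

end

end Pool.Agent.H906R3.YM
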