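import Mathlib
import Pool.Agent.H906R3.YM.Mtx

/-!
# Transports in a block of the lattice
-/

open Matrix

namespace Pool.Agent.H906R3.YM

set_option linter.unusedSectionVars false

noncomputable section

variable {D : ℕ}

/-- lattice points with nonnegative coordinates -/
abbrev Pt (D : ℕ) := Fin D → ℕ

/-- unit vectors -/
def es (μ : Fin D) : Pt D := Pi.single μ 1

lemma es_same (μ : Fin D) : es μ μ = 1 := by simp [es]

lemma es_ne {μ i : Fin D} (h : i ≠ μ) : es μ i = 0 := by simp [es, h]

/-- the smallest direction in which `w` is positive -/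
def mi (w : Pt D) (h : ∃ i, 0 < w i) : Fin D :=
  (Finset.univ.filter fun i => 0 < w i).min' (by
    obtain ⟨i, hi⟩ := h
    exact ⟨i, by simpa using hi⟩)

lemma mi_pos (w : Pt D) (h : ∃ i, 0 < w i) : 0 < w (mi w h) := by
  have := Finset.min'_mem (Finset.univ.filter fun i => 0 < w i) (by
    obtain ⟨i, hi⟩ := h
    exact ⟨i, by simpa using hi⟩)
  exact (Finset.mem_filter.1 this).2

lemma mi_le (w : Pt D) (h : ∃ i, 0 < w i) {j : Fin D} (hj : 0 < w j) : mi w h ≤ j :=
  Finset.min'_le _ _ (by simpa using hj)

lemma mi_eq (w : Pt D) (h : ∃ i, 0 < w i) {j : Fin D} (hj : 0 < w j) (hlt : ∀ i < j, w i = 0) :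
    mi w h = j := by
  refine le_antisymm (mi_le w h hj) ?_
  by_contra hc
  rw [not_le] at hc
  have := mi_pos w h
  rw [hlt _ hc] at this
  exact lt_irrefl _ this

variable {G : Type*} [Group G]

/-- transport from `0` to `w` along the comb path, with fuel -/
def gam (u : Pt D → Fin D → G) : ℕ → Pt D → G
  | 0, _ => 1
  | k + 1, w => if h : ∃ i, 0 < w i then gam u k (w - es (mi w h)) * u (w - es (mi w h)) (mi w h)
      else 1

/-- sum of the coordinates -/
def sz (w : Pt D) : ℕ := ∑ i, w i

/-- transport from `0` to `w` along the comb path -/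
def fr (u : Pt D → Fin D → G) (w : Pt D) : G := gam u (sz w) w

lemma sz_sub {w : Pt D} {μ : Fin D} (h : 0 < w μ) : sz w = sz (w - es μ) + 1 := by
  unfold sz
  have h1 : w = (w - es μ) + es μ := by
    funext i
    by_cases hi : i = μ
    · subst hi; simp [es]; omega
    · simp [es, hi]
  conv_lhs => rw [h1]
  simp only [Pi.add_apply, Finset.sum_add_distrib]
  congr 1
  simp [es]

lemma fr_zero (u : Pt D → Fin D → G) {w : Pt D} (h : ¬∃ i, 0 < w i) : fr u w = 1 := by
  unfold fr
  have h1 : sz w = 0 := by
    unfold sz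
    refine Finset.sum_eq_zero fun i _ => ?_
    by_contra hi
    exact h ⟨i, Nat.pos_of_ne_zero hi⟩
  rw [h1]; rfl

lemma fr_succ (u : Pt D → Fin D → G) {w : Pt D} (h : ∃ i, 0 < w i) :
    fr u w = fr u (w - es (mi w h)) * u (w - es (mi w h)) (mi w h) := by
  unfold fr
  rw [sz_sub (mi_pos w h)]
  simp only [gam]
  rw [dif_pos h]

lemma sub_add_es {w : Pt D} {μ : Fin D} (h : 0 < w μ) : w - es μ + es μ = w := by
  funext i
  by_cases hi : i = μ
  · subst hi; simp [es]; omega
  · simp [es, hi]

lemma fr_congr {u u' : Pt D → Fin D → G} (w : Pt D) (h : ∀ v ≤ w, ∀ μ, u v μ = u' v μ) :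
    fr u w = fr u' w := by
  induction hn : sz w generalizing w with
  | zero =>
    have h1 : ¬∃ i, 0 < w i := by
      rintro ⟨i, hi⟩
      have := sz_sub hi
      omega
    rw [fr_zero u h1, fr_zero u' h1]
  | succ k ih =>
    by_cases hw : ∃ i, 0 < w i
    · rw [fr_succ u hw, fr_succ u' hw]
      have hle : w - es (mi w hw) ≤ w := fun i => Nat.sub_le _ _
      have hs := sz_sub (mi_pos w hw)
      rw [ih (w - es (mi w hw)) (fun v hv => h v (hv.trans hle)) (by omega), h _ hle]
    · rw [fr_zero u hw, fr_zero u' hw]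

section flat

variable {M : Type*} [Monoid M] (ρ : G →* M) (u : Pt D → Fin D → G) (m : ℕ)

/-- flat in the block of side `m` -/
def Flat : Prop :=
  ∀ v : Pt D, ∀ μ ν : Fin D, μ < ν → (∀ i, v i < m) → v μ + 1 < m → v ν + 1 < m →
    ρ (u v μ) * ρ (u (v + es μ) ν) = ρ (u v ν) * ρ (u (v + es ν) μ)

variable {ρ u m}

lemma fr_add (hf : Flat ρ u m) (w : Pt D) (ν : Fin D) (hw : ∀ i, (w + es ν) i < m) :
    ρ (fr u (w + es ν)) = ρ (fr u w) * ρ (u w ν) := by
  induction hn : sz w generalizing w with
  | zero =>
    have h1 : ¬∃ i, 0 < w i := by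
      rintro ⟨i, hi⟩
      have := sz_sub hi
      omega
    have hwi : ∀ i, w i = 0 := fun i => by
      by_contra hc
      exact h1 ⟨i, Nat.pos_of_ne_zero hc⟩
    have h2 : ∃ i, 0 < (w + es ν) i := ⟨ν, by simp [es]⟩
    have h3 : mi (w + es ν) h2 = ν := by
      refine mi_eq _ _ (by simp [es]) fun i hi => ?_
      simp [es, hwi i, hi.ne]
    rw [fr_succ u h2, h3, add_tsub_cancel_right, map_mul]
  | succ k ih =>
    have h2 : ∃ i, 0 < (w + es ν) i := ⟨ν, by simp [es]⟩
    by_cases hz : ∀ i < ν, w i = 0
    · have h3 : mi (w + es ν) h2 = ν := by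
        refine mi_eq _ _ (by simp [es]) fun i hi => ?_
        simp [es, hz i hi, hi.ne]
      rw [fr_succ u h2, h3, add_tsub_cancel_right, map_mul]
    · push Not at hz
      obtain ⟨i, hi, hwi⟩ := hz
      have hwp : ∃ i, 0 < w i := ⟨i, Nat.pos_of_ne_zero hwi⟩
      set μ := mi w hwp with hμ
      have hμi : μ ≤ i := mi_le w hwp (Nat.pos_of_ne_zero hwi)
      have hμν : μ < ν := lt_of_le_of_lt hμi hi
      have hμp : 0 < w μ := mi_pos w hwp
      have h3 : mi (w + es ν) h2 = μ := by
        refine mi_eq _ _ (by simp only [Pi.add_apply]; omega) fun j hj => ?_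
        have : w j = 0 := by
          by_contra hc
          have := mi_le w hwp (Nat.pos_of_ne_zero hc)
          exact absurd hj (not_lt.2 this)
        simp [es, this, (hj.trans hμν).ne]
      set v := w - es μ with hv
      have hvw : v + es μ = w := sub_add_es hμp
      have h4 : w + es ν - es μ = v + es ν := by
        rw [← hvw, add_right_comm, add_tsub_cancel_right]
      have hs := sz_sub hμp
      rw [← hv] at hs
      have hle : ∀ j, v j ≤ w j := fun j => Nat.sub_le _ _
      have hwlt : ∀ j, w j < m := fun j => lt_of_le_of_lt (by simp) (hw j)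
      have hvμ : v μ + 1 = w μ := by
        rw [hv]; simp [es]; omega
      have hvν : v ν = w ν := by
        rw [hv]; simp [es, hμν.ne']
      have hih := ih v (fun j => lt_of_le_of_lt (by
        simp only [Pi.add_apply]; exact Nat.add_le_add_right (hle j) _) (hw j)) (by omega)
      have hflat := hf v μ ν hμν (fun j => lt_of_le_of_lt (hle j) (hwlt j))
        (by rw [hvμ]; exact hwlt μ) (by
          rw [hvν]
          have := hw ν
          simpa [es] using this)
      have h5 : fr u (w + es ν) = fr u (v + es ν) * u (v + es ν) μ := by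
        rw [fr_succ u h2]
        simp only [h3, h4]
      have h6 : fr u w = fr u v * u v μ := by
        rw [fr_succ u hwp]
      rw [h5, h6, map_mul, map_mul, hih, mul_assoc, ← hflat, hvw, mul_assoc]

lemma fr_inner (hf : Flat ρ u m) (w : Pt D) (hw : ∀ i, w i + 1 < m) :
    ρ (fr u 1) * ρ (fr (fun x μ => u (x + 1) μ) w) = ρ (fr u (w + 1)) := by
  induction hn : sz w generalizing w with
  | zero =>
    have h1 : ¬∃ i, 0 < w i := by
      rintro ⟨i, hi⟩
      have := sz_sub hi
      omega
    have hwi : w = 0 := by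
      funext i
      by_contra hc
      exact h1 ⟨i, Nat.pos_of_ne_zero hc⟩
    rw [fr_zero _ h1, map_one, mul_one, hwi, zero_add]
  | succ k ih =>
    by_cases hwp : ∃ i, 0 < w i
    · set μ := mi w hwp with hμ
      have hμp : 0 < w μ := mi_pos w hwp
      have hs := sz_sub hμp
      set v := w - es μ with hv
      have hvw : v + es μ = w := sub_add_es hμp
      have hle : ∀ j, v j ≤ w j := fun j => Nat.sub_le _ _
      have h6 : fr (fun x μ => u (x + 1) μ) w = fr (fun x μ => u (x + 1) μ) v * u (v + 1) μ := by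
        rw [fr_succ _ hwp]
      have h7 : w + 1 = (v + 1) + es μ := by rw [← hvw]; abel
      have h8 := fr_add hf (v + 1) μ (by
        intro i
        rw [← h7]
        exact hw i)
      rw [h7, h8, h6, map_mul, ← mul_assoc, ih v (fun i => lt_of_le_of_lt
        (Nat.add_le_add_right (hle i) 1) (hw i)) (by omega)]
    · exfalso
      have : sz w = 0 := by
        unfold sz
        refine Finset.sum_eq_zero fun i _ => ?_
        by_contra hi
        exact hwp ⟨i, Nat.pos_of_ne_zero hi⟩
      omega

end flat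

end

end Pool.Agent.H906R3.YM
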