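import Mathlib
import Pool.Agent.H906R3.YM.Frame

/-!
# The adjoint action and the plaquette variables of a block
-/

open Matrix
open scoped Matrix.Norms.Frobenius ContDiff

namespace Pool.Agent.H906R3.YM

set_option linter.unusedSectionVars false

noncomputable section

variable {G : Type*} [Group G] [TopologicalSpace G] {N n : ℕ} {L : LD G N n}

lemma ip_comm (A B : Mat N) : ip A B = ip B A := by
  rw [ip_apply, ip_apply]
  have h : trace (Bᴴ * A) = star (trace (Aᴴ * B)) := by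
    rw [← trace_conjTranspose, conjTranspose_mul, conjTranspose_conjTranspose]
  rw [h]; simp

lemma ip_add_left (A A' B : Mat N) : ip (A + A') B = ip A B + ip A' B := by
  rw [ip_comm, map_add, ip_comm B A, ip_comm B A']

lemma ip_conj (U A B : Mat N) : ip A (U * B * Uᴴ) = ip (Uᴴ * A * U) B := by
  rw [ip_apply, ip_apply]
  have h : (Uᴴ * A * U)ᴴ * B = Uᴴ * (Aᴴ * U * B) := by
    rw [conjTranspose_mul, conjTranspose_mul, conjTranspose_conjTranspose]; noncomm_ring
  have h2 : Aᴴ * (U * B * Uᴴ) = Aᴴ * U * B * Uᴴ := by noncomm_ring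
  rw [h, h2, trace_mul_comm]

variable (L) in
/-- matrix coefficients of the adjoint action -/
def LD.adm (g : G) (b a : Fin n) : ℝ := ip (L.X b) (L.rho g * L.X a * (L.rho g)ᴴ)

lemma ip_X (a b : Fin n) : ip (L.X a) (L.X b) = if a = b then 1 else 0 := L.orth a b

lemma adm_inv (g : G) (a b : Fin n) : L.adm g⁻¹ a b = L.adm g b a := by
  unfold LD.adm
  rw [L.rho_inv, ip_conj, conjTranspose_conjTranspose, ip_comm]

lemma conj_eq (g : G) (a : Fin n) :
    L.rho g * L.X a * (L.rho g)ᴴ = ∑ b, L.adm g b a • L.X b := by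
  obtain ⟨c, hc⟩ := (Submodule.mem_span_range_iff_exists_fun ℝ).1 (L.conj_mem g a)
  rw [← hc]
  refine Finset.sum_congr rfl fun b _ => ?_
  congr 1
  unfold LD.adm
  rw [← hc, map_sum]
  simp only [map_smul, ip_X, smul_eq_mul, mul_ite, mul_one, mul_zero, Finset.sum_ite_eq,
    Finset.mem_univ, if_true]

lemma sum_adm_conj (g : G) (b : Fin n) :
    ∑ a, L.adm g b a • (L.rho g * L.X a * (L.rho g)ᴴ) = L.X b := by
  have h1 : ∑ a, L.adm g b a • (L.rho g * L.X a * (L.rho g)ᴴ) =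
      L.rho g * (∑ a, L.adm g⁻¹ a b • L.X a) * (L.rho g)ᴴ := by
    rw [Finset.mul_sum, Finset.sum_mul]
    refine Finset.sum_congr rfl fun a _ => ?_
    rw [adm_inv, mul_smul_comm, smul_mul_assoc]
  rw [h1, ← conj_eq, L.rho_inv, conjTranspose_conjTranspose]
  have h2 := L.unit g
  calc L.rho g * ((L.rho g)ᴴ * L.X b * L.rho g) * (L.rho g)ᴴ
      = (L.rho g * (L.rho g)ᴴ) * L.X b * (L.rho g * (L.rho g)ᴴ) := by noncomm_ring
    _ = L.X b := by rw [h2, one_mul, mul_one]

lemma sum_adm_adm (g : G) (b b' : Fin n) :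
    ∑ a, L.adm g b a * L.adm g b' a = if b = b' then 1 else 0 := by
  have h := congrArg (ip (L.X b')) (sum_adm_conj (L := L) g b)
  rw [map_sum, ip_X] at h
  simp only [map_smul, smul_eq_mul] at h
  rw [show (if b = b' then (1 : ℝ) else 0) = if b' = b then 1 else 0 by
    simp only [eq_comm], ← h]
  rfl

/-! ### the block -/

variable {D m : ℕ}

/-- the links of a block -/
abbrev Sb (D m : ℕ) := (Fin D → Fin m) × Fin D

/-- the coordinates as natural numbers -/
def cv (x : Fin D → Fin m) : Pt D := fun i => (x i : ℕ)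

/-- extension of a configuration of the block by `1` -/
def ext (U : Sb D m → G) (w : Pt D) (μ : Fin D) : G :=
  if h : ∀ i, w i < m then U (fun i => ⟨w i, h i⟩, μ) else 1

lemma ext_cv (U : Sb D m → G) (x : Fin D → Fin m) (μ : Fin D) : ext U (cv x) μ = U (x, μ) := by
  unfold ext
  rw [dif_pos (show ∀ i, cv x i < m from fun i => (x i).2)]
  rfl

/-- plaquette variable -/
def plq (u : Pt D → Fin D → G) (w : Pt D) (μ ν : Fin D) : G :=
  u w μ * u (w + es μ) ν * (u (w + es ν) μ)⁻¹ * (u w ν)⁻¹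

/-- indicator of a link -/
def ei (w : Pt D) (μ : Fin D) (s : Sb D m) : ℝ := if w = cv s.1 ∧ μ = s.2 then 1 else 0

/-- incidence number -/
def inc (w : Pt D) (μ ν : Fin D) (s : Sb D m) : ℝ :=
  ei w μ s + ei (w + es μ) ν s - ei (w + es ν) μ s - ei w ν s

variable (L)

/-- smooth group valued functions -/
def SmG {E : Type*} [Fintype E] [DecidableEq E] (F : (E → G) → G) : Prop :=
  SmM L fun U => L.rho (F U)

variable {L}

section
variable {E : Type*} [Fintype E] [DecidableEq E]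

lemma SmG.mul {F H : (E → G) → G} (hF : SmG L F) (hH : SmG L H) :
    SmG L fun U => F U * H U := by
  unfold SmG
  simp only [map_mul]
  exact SmM.mul hF hH

lemma SmG.inv {F : (E → G) → G} (hF : SmG L F) : SmG L fun U => (F U)⁻¹ := by
  unfold SmG
  simp only [L.rho_inv]
  exact SmM.ct hF

lemma SmG.const (g : G) : SmG L fun _ : E → G => g := SmM.const _

end

lemma SmG.ext (w : Pt D) (μ : Fin D) : SmG L fun U : Sb D m → G => YM.ext U w μ := by
  unfold YM.ext
  by_cases h : ∀ i, w i < m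
  · simp only [dif_pos h]
    exact SmM.link _
  · simp only [dif_neg h]
    exact SmG.const 1

lemma SmG.plq (w : Pt D) (μ ν : Fin D) : SmG L fun U : Sb D m → G => plq (YM.ext U) w μ ν :=
  (((SmG.ext _ _).mul (SmG.ext _ _)).mul (SmG.ext _ _).inv).mul (SmG.ext _ _).inv

lemma SmG.gam (u : (Sb D m → G) → Pt D → Fin D → G) (hu : ∀ w μ, SmG L fun U => u U w μ)
    (k : ℕ) (w : Pt D) : SmG L fun U : Sb D m → G => gam (u U) k w := by
  induction k generalizing w with
  | zero => exact SmG.const 1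
  | succ k ih =>
    by_cases h : ∃ i, 0 < w i
    · simp only [YM.gam, dif_pos h]
      exact (ih _).mul (hu _ _)
    · simp only [YM.gam, dif_neg h]
      exact SmG.const 1

/-- transports from `(1, ..., 1)` to `x` -/
def trI (U : Sb D m → G) (x : Pt D) : G := fr (fun y μ => ext U (y + 1) μ) (x - 1)

lemma SmG.trI (x : Pt D) : SmG L fun U : Sb D m → G => trI U x :=
  SmG.gam (fun U y μ => YM.ext U (y + 1) μ) (fun _ _ => SmG.ext _ _) _ _

/-! ### derivatives -/

lemma hasDeriv_ext (s : Sb D m) (a : Fin n) (U : Sb D m → G) (w : Pt D) (μ : Fin D) :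
    HasDerivAt (fun t => L.rho (ext (L.shift s a t U) w μ))
      (ei w μ s • (L.X a * L.rho (ext U w μ))) 0 := by
  by_cases h : ∀ i, w i < m
  · have hx : cv (fun i => (⟨w i, h i⟩ : Fin m)) = w := rfl
    by_cases hs : (fun i => (⟨w i, h i⟩ : Fin m), μ) = s
    · have h1 : ei w μ s = 1 := by
        unfold ei
        rw [if_pos]
        rw [← hs]; exact ⟨rfl, rfl⟩
      rw [h1, one_smul]
      have h2 : (fun t => L.rho (ext (L.shift s a t U) w μ)) =
          fun t => L.rho (L.ex a t) * L.rho (ext U w μ) := by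
        funext t
        unfold ext
        rw [dif_pos h, dif_pos h]
        unfold LD.shift
        rw [Pi.mul_apply, hs, Pi.mulSingle_eq_same, map_mul]
      rw [h2]
      exact (L.deriv_ex a).mul_const _
    · have h1 : ei w μ s = 0 := by
        unfold ei
        rw [if_neg]
        rintro ⟨hw, hμ⟩
        apply hs
        refine Prod.ext ?_ hμ
        funext i
        apply Fin.ext
        exact congrFun hw i
      rw [h1, zero_smul]
      have h2 : (fun t => L.rho (ext (L.shift s a t U) w μ)) =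
          fun t => L.rho (ext U w μ) := by
        funext t
        unfold ext
        rw [dif_pos h, dif_pos h]
        unfold LD.shift
        rw [Pi.mul_apply, Pi.mulSingle_eq_of_ne hs, one_mul]
      rw [h2]
      exact hasDerivAt_const _ _
  · have h1 : ei w μ s = 0 := by
      unfold ei
      rw [if_neg]
      rintro ⟨hw, -⟩
      exact h fun i => by rw [hw]; exact (s.1 i).2
    rw [h1, zero_smul]
    have h2 : (fun t => L.rho (ext (L.shift s a t U) w μ)) = fun t => 1 := by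
      funext t
      unfold ext
      rw [dif_neg h, map_one]
    rw [h2]
    exact hasDerivAt_const _ _

lemma hasDeriv_ct {F : ℝ → Mat N} {Y : Mat N} (h : HasDerivAt F Y 0) :
    HasDerivAt (fun t => (F t)ᴴ) Yᴴ 0 :=
  (ctL N).hasFDerivAt.comp_hasDerivAt (0 : ℝ) h

/-- algebra for one plaquette in a flat configuration -/
lemma plq_alg {A1 A2 A3 A4 X : Mat N} (u1 : A1ᴴ * A1 = 1) (u1' : A1 * A1ᴴ = 1)
    (u3 : A3 * A3ᴴ = 1) (u4 : A4ᴴ * A4 = 1) (u4' : A4 * A4ᴴ = 1)
    (hX : Xᴴ = -X) (hfl : A1 * A2 = A4 * A3) (c1 c2 c3 c4 : ℝ) :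
    c1 • (X * A1) * A2 * A3ᴴ * A4ᴴ + A1 * (c2 • (X * A2)) * A3ᴴ * A4ᴴ +
      A1 * A2 * (c3 • (X * A3))ᴴ * A4ᴴ + A1 * A2 * A3ᴴ * (c4 • (X * A4))ᴴ =
    c1 • X + c2 • (A1 * X * A1ᴴ) - c3 • (A4 * X * A4ᴴ) - c4 • X := by
  have hc : ∀ (c : ℝ) (B : Mat N), (c • B)ᴴ = c • Bᴴ := fun c B => by
    have := (ctL N).map_smul c B
    simpa [ctL_apply] using this
  have e1 : A1 * A2 * A3ᴴ = A4 := by rw [hfl, mul_assoc, u3, mul_one]
  have e2 : A2 * A3ᴴ * A4ᴴ = A1ᴴ := by
    have : A1ᴴ * (A1 * A2 * A3ᴴ) * A4ᴴ = A1ᴴ := by rw [e1, mul_assoc, u4', mul_one]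
    rw [← this]
    calc A2 * A3ᴴ * A4ᴴ = (A1ᴴ * A1) * A2 * A3ᴴ * A4ᴴ := by rw [u1, one_mul]
      _ = _ := by noncomm_ring
  have t1 : c1 • (X * A1) * A2 * A3ᴴ * A4ᴴ = c1 • X := by
    rw [smul_mul_assoc, smul_mul_assoc, smul_mul_assoc]
    have : X * A1 * A2 * A3ᴴ * A4ᴴ = X * (A1 * A2 * A3ᴴ) * A4ᴴ := by
      simp only [Matrix.mul_assoc]
    rw [this, e1, mul_assoc, u4', mul_one]
  have t2 : A1 * (c2 • (X * A2)) * A3ᴴ * A4ᴴ = c2 • (A1 * X * A1ᴴ) := by
    rw [mul_smul_comm, smul_mul_assoc, smul_mul_assoc]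
    have : A1 * (X * A2) * A3ᴴ * A4ᴴ = A1 * X * (A2 * A3ᴴ * A4ᴴ) := by
      simp only [Matrix.mul_assoc]
    rw [this, e2]
  have t3 : A1 * A2 * (c3 • (X * A3))ᴴ * A4ᴴ = -(c3 • (A4 * X * A4ᴴ)) := by
    rw [hc, conjTranspose_mul, hX, mul_smul_comm, smul_mul_assoc, ← smul_neg]
    have : A1 * A2 * (A3ᴴ * -X) * A4ᴴ = -((A1 * A2 * A3ᴴ) * X * A4ᴴ) := by
      simp only [Matrix.mul_assoc, mul_neg, neg_mul]
    rw [this, e1]
  have t4 : A1 * A2 * A3ᴴ * (c4 • (X * A4))ᴴ = -(c4 • X) := by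
    rw [hc, conjTranspose_mul, hX, e1, mul_smul_comm, ← smul_neg]
    have : A4 * (A4ᴴ * -X) = -((A4 * A4ᴴ) * X) := by
      simp only [Matrix.mul_assoc, mul_neg]
    rw [this, u4', one_mul]
  rw [t1, t2, t3, t4]; abel

/-- derivative of a plaquette at a flat configuration, in the frame -/
lemma hasDeriv_plq {U : Sb D m → G} (hf : Flat L.rho (ext U) m) {w : Pt D} {μ ν : Fin D}
    (hμν : μ < ν) (hw : ∀ i, w i < m) (hwμ : w μ + 1 < m) (hwν : w ν + 1 < m)
    (s : Sb D m) (a : Fin n) :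
    HasDerivAt (fun t => L.rho (plq (ext (L.shift s a t U)) w μ ν))
      (inc w μ ν s • (L.rho ((fr (ext U) w)⁻¹ * fr (ext U) (cv s.1)) * L.X a *
        (L.rho ((fr (ext U) w)⁻¹ * fr (ext U) (cv s.1)))ᴴ)) 0 := by
  have h1 := hasDeriv_ext (L := L) s a U w μ
  have h2 := hasDeriv_ext (L := L) s a U (w + es μ) ν
  have h3 := hasDeriv_ct (hasDeriv_ext (L := L) s a U (w + es ν) μ)
  have h4 := hasDeriv_ct (hasDeriv_ext (L := L) s a U w ν)
  have h5 := ((h1.mul h2).mul h3).mul h4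
  have e0 : (fun t => L.rho (plq (ext (L.shift s a t U)) w μ ν)) =
      (((fun t => L.rho (ext (L.shift s a t U) w μ)) *
        (fun t => L.rho (ext (L.shift s a t U) (w + es μ) ν))) *
        (fun t => (L.rho (ext (L.shift s a t U) (w + es ν) μ))ᴴ)) *
        (fun t => (L.rho (ext (L.shift s a t U) w ν))ᴴ) := by
    funext t
    unfold plq
    simp only [map_mul, L.rho_inv, Pi.mul_apply]
  rw [e0]
  refine h5.congr_deriv ?_
  simp only [L.shift_zero, Pi.mul_apply]
  have hfl := hf w μ ν hμν hw hwμ hwν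
  have halg := plq_alg (L.unit' (ext U w μ)) (L.unit (ext U w μ)) (L.unit (ext U (w + es ν) μ))
    (L.unit' (ext U w ν)) (L.unit (ext U w ν)) (skew (L := L) a) hfl (ei w μ s)
    (ei (w + es μ) ν s) (ei (w + es ν) μ s) (ei w ν s)
  have e6 : (ei w μ s • (L.X a * L.rho (ext U w μ)) * L.rho (ext U (w + es μ) ν) +
      L.rho (ext U w μ) * ei (w + es μ) ν s • (L.X a * L.rho (ext U (w + es μ) ν))) *
      (L.rho (ext U (w + es ν) μ))ᴴ * (L.rho (ext U w ν))ᴴ =
      ei w μ s • (L.X a * L.rho (ext U w μ)) * L.rho (ext U (w + es μ) ν) *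
      (L.rho (ext U (w + es ν) μ))ᴴ * (L.rho (ext U w ν))ᴴ +
      L.rho (ext U w μ) * ei (w + es μ) ν s • (L.X a * L.rho (ext U (w + es μ) ν)) *
      (L.rho (ext U (w + es ν) μ))ᴴ * (L.rho (ext U w ν))ᴴ := by
    rw [add_mul, add_mul]
  rw [add_mul, e6, halg]
  -- frames
  have hμin : ∀ i, (w + es μ) i < m := fun i => by
    by_cases hi : i = μ
    · subst hi; simpa [es] using hwμ
    · simpa [es, hi] using hw i
  have hνin : ∀ i, (w + es ν) i < m := fun i => by
    by_cases hi : i = ν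
    · subst hi; simpa [es] using hwν
    · simpa [es, hi] using hw i
  have f1 := fr_add hf w μ hμin
  have f4 := fr_add hf w ν hνin
  have q1 : L.rho (ext U w μ) = L.rho ((fr (ext U) w)⁻¹ * fr (ext U) (w + es μ)) := by
    rw [map_mul, f1, ← mul_assoc, ← map_mul, inv_mul_cancel, map_one, one_mul]
  have q4 : L.rho (ext U w ν) = L.rho ((fr (ext U) w)⁻¹ * fr (ext U) (w + es ν)) := by
    rw [map_mul, f4, ← mul_assoc, ← map_mul, inv_mul_cancel, map_one, one_mul]
  have q0 : L.X a = L.rho ((fr (ext U) w)⁻¹ * fr (ext U) w) * L.X a *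
      (L.rho ((fr (ext U) w)⁻¹ * fr (ext U) w))ᴴ := by
    rw [inv_mul_cancel, map_one, conjTranspose_one, one_mul, mul_one]
  have key : ∀ (w' : Pt D) (μ' : Fin D),
      ei w' μ' s • (L.rho ((fr (ext U) w)⁻¹ * fr (ext U) w') * L.X a *
        (L.rho ((fr (ext U) w)⁻¹ * fr (ext U) w'))ᴴ) =
      ei w' μ' s • (L.rho ((fr (ext U) w)⁻¹ * fr (ext U) (cv s.1)) * L.X a *
        (L.rho ((fr (ext U) w)⁻¹ * fr (ext U) (cv s.1)))ᴴ) := by
    intro w' μ'
    unfold ei
    split_ifs with hh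
    · rw [hh.1]
    · rw [zero_smul, zero_smul]
  rw [q1, q4, key (w + es μ) ν, key (w + es ν) μ]
  have r1 : ei w μ s • L.X a = ei w μ s • (L.rho ((fr (ext U) w)⁻¹ * fr (ext U) (cv s.1)) *
      L.X a * (L.rho ((fr (ext U) w)⁻¹ * fr (ext U) (cv s.1)))ᴴ) := by
    rw [← key w μ, ← q0]
  have r4 : ei w ν s • L.X a = ei w ν s • (L.rho ((fr (ext U) w)⁻¹ * fr (ext U) (cv s.1)) *
      L.X a * (L.rho ((fr (ext U) w)⁻¹ * fr (ext U) (cv s.1)))ᴴ) := by
    rw [← key w ν, ← q0]
  rw [r1, r4]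
  unfold inc
  rw [← add_smul, ← sub_smul, ← sub_smul]

end

end Pool.Agent.H906R3.YM
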