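import Mathlib
import Pool.Agent.H906R3.YM.Alg

/-!
# The chain of inequalities: an excitation of small energy
-/

namespace Pool.Agent.H906R3.YM

set_option linter.unusedSectionVars false

noncomputable section

/-- An algebra of functions with derivations and an integral. -/
structure Fn (A : Type*) [CommRing A] [Algebra ℝ A] (P J : Type*) where
  ev : P → A →ₐ[ℝ] ℝ
  ext : ∀ F H : A, (∀ x, ev x F = ev x H) → F = H
  D : J → Derivation ℝ A A
  I : A →ₗ[ℝ] ℝ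
  I_D : ∀ j u, I (D j u) = 0
  I_mono : ∀ F H : A, (∀ x, ev x F ≤ ev x H) → I F ≤ I H

variable {A : Type*} [CommRing A] [Algebra ℝ A] {P J : Type*} [Fintype J] (S : Fn A P J)

namespace Fn

lemma I_nonneg {F : A} (h : ∀ x, 0 ≤ S.ev x F) : 0 ≤ S.I F := by
  have := S.I_mono 0 F (fun x => by rw [map_zero]; exact h x)
  rwa [map_zero] at this

lemma sq_nonneg' (F : A) : 0 ≤ S.I (F * F) :=
  S.I_nonneg fun x => by rw [map_mul]; exact mul_self_nonneg _

lemma sq_le_of_forall {a b c : ℝ} (h : ∀ t : ℝ, 0 ≤ a + 2 * t * b + t ^ 2 * c) :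
    b ^ 2 ≤ a * c := by
  have h1 : ∀ t : ℝ, 0 ≤ c * (t * t) + 2 * b * t + a := fun t => by
    have := h t; nlinarith
  have h2 := discrim_le_zero h1
  unfold discrim at h2
  nlinarith

lemma I_cs {K : Type*} [Fintype K] (u v : K → A) :
    (∑ a, S.I (u a * v a)) ^ 2 ≤ (∑ a, S.I (u a * u a)) * ∑ a, S.I (v a * v a) := by
  refine sq_le_of_forall fun t => ?_
  have h1 : ∀ a, 0 ≤ S.I (u a * u a) + 2 * t * S.I (u a * v a) + t ^ 2 * S.I (v a * v a) := by
    intro a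
    have h2 := S.sq_nonneg' (u a + t • v a)
    have h3 : (u a + t • v a) * (u a + t • v a) =
        u a * u a + (2 * t) • (u a * v a) + (t ^ 2) • (v a * v a) := by
      simp only [Algebra.smul_def, map_mul, map_pow, map_ofNat]; ring
    rw [h3, map_add, map_add, map_smul, map_smul, smul_eq_mul, smul_eq_mul] at h2
    exact h2
  have h4 := Finset.sum_nonneg fun a (_ : a ∈ Finset.univ) => h1 a
  rw [Finset.sum_add_distrib, Finset.sum_add_distrib, ← Finset.mul_sum, ← Finset.mul_sum] at h4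
  exact h4

lemma I_cs1 (u v : A) : (S.I (u * v)) ^ 2 ≤ S.I (u * u) * S.I (v * v) := by
  have := S.I_cs (fun _ : Unit => u) (fun _ : Unit => v)
  simpa using this

/-- energy form above `E0` -/
def enr (g : ℝ) (V : A) (E0 : ℝ) (u v : A) : ℝ :=
  S.I (u * (HH S.D g V v - E0 • v))

lemma HH_add (g : ℝ) (V u v : A) : HH S.D g V (u + v) = HH S.D g V u + HH S.D g V v := by
  have h := HH_sub (D := S.D) g V (u + v) v
  rw [add_sub_cancel_right] at h
  rw [h]; abel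

lemma I_Lap (u v : A) : S.I (u * Lap S.D v) = -S.I (Gam S.D u v) := by
  unfold Lap Gam
  rw [Finset.mul_sum, map_sum, map_sum, ← Finset.sum_neg_distrib]
  refine Finset.sum_congr rfl fun j _ => ?_
  have := YM.I_D (D := S.D) S.I S.I_D j u (S.D j v)
  linarith

lemma enr_eq (g : ℝ) (V : A) (E0 : ℝ) (u v : A) :
    S.enr g V E0 u v = g ^ 2 / 2 * S.I (Gam S.D u v) + 1 / g ^ 2 * S.I (V * (u * v))
      - E0 * S.I (u * v) := by
  unfold enr HH
  have h : u * (-((g ^ 2 / 2 : ℝ) • Lap S.D v) + (1 / g ^ 2 : ℝ) • (V * v) - E0 • v) =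
      -((g ^ 2 / 2 : ℝ) • (u * Lap S.D v)) + (1 / g ^ 2 : ℝ) • (V * (u * v)) - E0 • (u * v) := by
    simp only [Algebra.smul_def]; ring
  rw [h, map_sub, map_add, map_neg, map_smul, map_smul, map_smul, I_Lap]
  simp only [smul_eq_mul]; ring

lemma enr_symm (g : ℝ) (V : A) (E0 : ℝ) (u v : A) :
    S.enr g V E0 u v = S.enr g V E0 v u := by
  rw [enr_eq, enr_eq, Gam_comm, mul_comm u v]

lemma enr_cs (g : ℝ) (V : A) (E0 : ℝ) (hpos : ∀ u : A, 0 ≤ S.enr g V E0 u u)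
    (u v : A) : (S.enr g V E0 u v) ^ 2 ≤ S.enr g V E0 u u * S.enr g V E0 v v := by
  refine sq_le_of_forall fun t => ?_
  have h := hpos (u + t • v)
  have e1 : S.enr g V E0 (u + t • v) (u + t • v) = S.enr g V E0 u u + t * S.enr g V E0 u v +
      t * S.enr g V E0 v u + t ^ 2 * S.enr g V E0 v v := by
    unfold enr
    rw [HH_add, HH_smul]
    have : (u + t • v) * (HH S.D g V u + t • HH S.D g V v - E0 • (u + t • v)) =
        u * (HH S.D g V u - E0 • u) + t • (u * (HH S.D g V v - E0 • v)) +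
          t • (v * (HH S.D g V u - E0 • u)) + (t ^ 2) • (v * (HH S.D g V v - E0 • v)) := by
      simp only [Algebra.smul_def, map_pow]; ring
    rw [this]
    simp only [map_add, map_smul, smul_eq_mul]
  rw [e1, S.enr_symm g V E0 v u] at h
  linarith

end Fn

open Fn

section chain

variable {S}
variable {n : ℕ} (hn : 0 < n) {g : ℝ} (hg : 0 < g) {V w : A} {E0 : ℝ}
  (hw : HH S.D g V w = E0 • w) (hpos : ∀ u : A, 0 ≤ S.enr g V E0 u u)
  (hnorm : S.I (w * w) = 1) (Φ : Fin n → A) {ah τ : ℝ} (hah : 0 < ah) (hτ : 0 < τ)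
  (H1 : ∀ a, S.enr g V E0 (XX S.D (Φ a) w) (XX S.D (Φ a) w) ≤ τ ^ 2 * ah / g ^ 2)
  (H2 : ∀ a, S.I (Gam S.D (Φ a) (Φ a) * (w * w)) ≤ 2 * ah)

include hw

lemma enr_mul (f u : A) : S.enr g V E0 u (f * w) = -(g ^ 2) * S.I (u * XX S.D f w) := by
  unfold Fn.enr
  rw [HH_mul, hw]
  have : u * (f * E0 • w - (g ^ 2 : ℝ) • XX S.D f w - E0 • (f * w)) =
      -((g ^ 2 : ℝ) • (u * XX S.D f w)) := by
    simp only [Algebra.smul_def]; ring
  rw [this, map_neg, map_smul, smul_eq_mul]; ring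

lemma enr_mul_mul (f h : A) :
    S.enr g V E0 (h * w) (f * w) = g ^ 2 / 2 * S.I (Gam S.D f h * (w * w)) := by
  rw [enr_mul hw, I_hX S.I S.I_D]; ring

include hg hpos hah hτ H1 H2

lemma chain_S1 (a : Fin n) : S.I (XX S.D (Φ a) w * XX S.D (Φ a) w) ≤ τ * ah / g ^ 2 := by
  have hg2 : 0 < g ^ 2 := by positivity
  set x := S.I (XX S.D (Φ a) w * XX S.D (Φ a) w) with hx
  have hx0 : 0 ≤ x := S.sq_nonneg' _
  have h1 := S.enr_cs g V E0 hpos (XX S.D (Φ a) w) (Φ a * w)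
  rw [enr_mul hw, enr_mul_mul hw] at h1
  have h2 : g ^ 2 / 2 * S.I (Gam S.D (Φ a) (Φ a) * (w * w)) ≤ g ^ 2 * ah := by
    have := H2 a; nlinarith
  have h20 : 0 ≤ g ^ 2 / 2 * S.I (Gam S.D (Φ a) (Φ a) * (w * w)) := by
    have := hpos (Φ a * w)
    rwa [enr_mul_mul hw] at this
  have h3 : (-g ^ 2 * x) ^ 2 ≤ (τ ^ 2 * ah / g ^ 2) * (g ^ 2 * ah) :=
    h1.trans (mul_le_mul (H1 a) h2 h20 (by positivity))
  have h4 : (τ ^ 2 * ah / g ^ 2) * (g ^ 2 * ah) = (τ * ah) ^ 2 := by field_simp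
  rw [h4] at h3
  have h5 : (g ^ 2 * x) ^ 2 ≤ (τ * ah) ^ 2 := by nlinarith
  have h6 : g ^ 2 * x ≤ τ * ah :=
    (pow_le_pow_iff_left₀ (by positivity) (by positivity) two_ne_zero).1 h5
  rw [le_div_iff₀ hg2]; linarith

lemma chain_S2 : ∑ a, S.I (XX S.D (Φ a) w * XX S.D (Φ a) w) ≤ n * τ * ah / g ^ 2 := by
  have h := Finset.sum_le_sum fun a (_ : a ∈ Finset.univ) =>
    chain_S1 hg hw hpos Φ hah hτ H1 H2 a
  refine h.trans (le_of_eq ?_)
  rw [Finset.sum_const, Finset.card_univ, Fintype.card_fin, nsmul_eq_mul]; ring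

end chain

section final

variable {S}
variable {n : ℕ} {w : A} {Φ : Fin n → A} {r t : A} {s ah : ℝ}
  (hs : 0 < s) (hah : 0 < ah) (ht : t * r = 1)
  (hr : r * r = algebraMap ℝ A (s ^ 2) + ∑ a, Φ a * Φ a)
  (htp : ∀ x, 0 < S.ev x t)
  {ρ : A} (hρ : ∀ x, ∑ a, ∑ b, |S.ev x (Gam S.D (Φ a) (Φ b)) - if a = b then ah else 0| ≤
    S.ev x ρ)

/-- `P = t² |Φ|²` -/
def PP (Φ : Fin n → A) (t : A) : A := ∑ a, (t * Φ a) * (t * Φ a)

include ht hr htp

lemma PP_add (x : P) : S.ev x (PP Φ t) + (s * S.ev x t) ^ 2 = 1 := by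
  have h1 : t * t * (r * r) = 1 := by
    have : t * t * (r * r) = (t * r) * (t * r) := by ring
    rw [this, ht, one_mul]
  rw [hr] at h1
  have h2 : PP Φ t + (s ^ 2) • (t * t) = 1 := by
    rw [← h1, mul_add, Algebra.smul_def]
    unfold PP
    rw [Finset.mul_sum, mul_comm (t * t) (algebraMap ℝ A (s ^ 2)), add_comm]
    congr 1
    exact Finset.sum_congr rfl fun a _ => by ring
  have h3 := congrArg (S.ev x) h2
  rw [map_add, map_smul, map_mul, map_one, smul_eq_mul] at h3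
  linarith

lemma PP_nonneg (x : P) : 0 ≤ S.ev x (PP Φ t) := by
  unfold PP
  rw [map_sum]
  exact Finset.sum_nonneg fun a _ => by rw [map_mul]; exact mul_self_nonneg _

lemma tPhi_le (x : P) (a b : Fin n) : |S.ev x (t * Φ a) * S.ev x (t * Φ b)| ≤ 1 := by
  have h1 := PP_add (S := S) ht hr htp x
  have h2 : ∀ c : Fin n, (S.ev x (t * Φ c)) ^ 2 ≤ 1 := by
    intro c
    have h3 : (S.ev x (t * Φ c)) ^ 2 ≤ S.ev x (PP Φ t) := by
      unfold PP
      rw [map_sum]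
      have h4 := Finset.single_le_sum (f := fun a => S.ev x ((t * Φ a) * (t * Φ a)))
        (fun a _ => by rw [map_mul]; exact mul_self_nonneg _) (Finset.mem_univ c)
      refine le_trans (le_of_eq ?_) h4
      simp only [map_mul]; ring
    nlinarith [sq_nonneg (s * S.ev x t)]
  rw [abs_mul]
  have ha : |S.ev x (t * Φ a)| ≤ 1 := by
    rw [← sq_le_one_iff_abs_le_one]; exact h2 a
  have hb : |S.ev x (t * Φ b)| ≤ 1 := by
    rw [← sq_le_one_iff_abs_le_one]; exact h2 b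
  exact mul_le_one₀ ha (abs_nonneg _) hb

include hρ

lemma Gam_r_bound (x : P) :
    |S.ev x (Gam S.D r r) - ah * S.ev x (PP Φ t)| ≤ S.ev x ρ := by
  have h1 : S.ev x (Gam S.D r r) - ah * S.ev x (PP Φ t) =
      ∑ a, ∑ b, (S.ev x (t * Φ a) * S.ev x (t * Φ b)) *
        (S.ev x (Gam S.D (Φ a) (Φ b)) - if a = b then ah else 0) := by
    rw [Gam_r_r ht hr]
    unfold PP
    simp only [mul_sub, Finset.sum_sub_distrib, mul_ite, mul_zero, Finset.sum_ite_eq,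
      Finset.mem_univ, if_true, map_mul, map_sum, Finset.mul_sum]
    congr 1
    · exact Finset.sum_congr rfl fun a _ => Finset.sum_congr rfl fun b _ => by ring
    · exact Finset.sum_congr rfl fun a _ => by ring
  rw [h1]
  refine (Finset.abs_sum_le_sum_abs _ _).trans (le_trans ?_ (hρ x))
  refine Finset.sum_le_sum fun a _ => ?_
  refine (Finset.abs_sum_le_sum_abs _ _).trans ?_
  refine Finset.sum_le_sum fun b _ => ?_
  rw [abs_mul]
  have := tPhi_le (S := S) ht hr htp x a b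
  calc _ ≤ 1 * |S.ev x (Gam S.D (Φ a) (Φ b)) - if a = b then ah else 0| :=
        mul_le_mul_of_nonneg_right this (abs_nonneg _)
    _ = _ := one_mul _

lemma sumGam_bound (x : P) :
    |S.ev x (∑ a, Gam S.D (Φ a) (Φ a)) - n * ah| ≤ S.ev x ρ := by
  have h1 : S.ev x (∑ a, Gam S.D (Φ a) (Φ a)) - n * ah =
      ∑ a, (S.ev x (Gam S.D (Φ a) (Φ a)) - ah) := by
    rw [Finset.sum_sub_distrib, Finset.sum_const, Finset.card_univ, Fintype.card_fin,
      nsmul_eq_mul, map_sum]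
  rw [h1]
  refine (Finset.abs_sum_le_sum_abs _ _).trans (le_trans ?_ (hρ x))
  refine Finset.sum_le_sum fun a _ => ?_
  have h2 := Finset.single_le_sum
    (f := fun b => |S.ev x (Gam S.D (Φ a) (Φ b)) - if a = b then ah else 0|)
    (fun b _ => abs_nonneg _) (Finset.mem_univ a)
  simpa using h2

lemma rho_nonneg (x : P) : 0 ≤ S.ev x ρ := (abs_nonneg _).trans (Gam_r_bound ht hr htp hρ x)

include hs hah

lemma Theta_lower (hn : 0 < n) (x : P) :
    ah / s * (1 - 3 / 2 * S.ev x (PP Φ t)) - 2 / s * S.ev x ρ ≤ S.ev x (Theta S.D Φ r t) := by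
  have h1 := abs_le.1 (Gam_r_bound ht hr htp hρ x)
  have h2 := abs_le.1 (sumGam_bound ht hr htp hρ x)
  have h3 := PP_add (S := S) ht hr htp x
  have h4 := rho_nonneg ht hr htp hρ x
  have h5 := PP_nonneg (S := S) ht hr htp x
  have h6 := htp x
  set p := S.ev x (PP Φ t)
  set T := S.ev x t
  set R := S.ev x ρ
  have hn1 : (1 : ℝ) ≤ n := by exact_mod_cast hn
  have h7 : S.ev x (Theta S.D Φ r t) =
      T * (S.ev x (∑ a, Gam S.D (Φ a) (Φ a)) - S.ev x (Gam S.D r r)) := by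
    unfold Theta
    rw [map_sub, map_mul, map_mul]; ring
  rw [h7]
  have h8 : ah * (1 - p) - 2 * R ≤
      S.ev x (∑ a, Gam S.D (Φ a) (Φ a)) - S.ev x (Gam S.D r r) := by nlinarith [h1.1, h1.2, h2.1, h2.2]
  have h9 : T * (ah * (1 - p) - 2 * R) ≤ T * (S.ev x (∑ a, Gam S.D (Φ a) (Φ a)) -
      S.ev x (Gam S.D r r)) := mul_le_mul_of_nonneg_left h8 h6.le
  refine le_trans ?_ h9
  -- with `y = s T ∈ (0,1]`
  set y := s * T with hy
  have hy0 : 0 < y := by positivity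
  have hy1 : y ≤ 1 := by nlinarith
  have hT : T = y / s := by rw [hy]; field_simp
  have hp : 1 - p = y ^ 2 := by linarith
  rw [hp, hT]
  have h10 : 1 - 3 / 2 * p = (3 * y ^ 2 - 1) / 2 := by linarith
  rw [h10]
  have h11 : (3 * y ^ 2 - 1) / 2 ≤ y ^ 3 := by nlinarith [mul_nonneg (sq_nonneg (1 - y)) (by positivity : (0:ℝ) ≤ 1 + 2 * y)]
  have h12 : ah / s * ((3 * y ^ 2 - 1) / 2) ≤ ah / s * y ^ 3 :=
    mul_le_mul_of_nonneg_left h11 (by positivity)
  have h13 : y / s * (2 * R) ≤ 2 / s * R := by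
    have : y / s * (2 * R) = y * (2 / s * R) := by ring
    rw [this]
    exact mul_le_of_le_one_left (by positivity) hy1
  have h14 : y / s * (ah * y ^ 2 - 2 * R) = ah / s * y ^ 3 - y / s * (2 * R) := by ring
  rw [h14]; linarith

omit hρ in
lemma Theta_upper (x : P) :
    0 ≤ S.ev x (Theta S.D Φ r t) ∧
      S.ev x (Theta S.D Φ r t) ≤ 1 / s * S.ev x (∑ a, Gam S.D (Φ a) (Φ a)) := by
  have h6 := htp x
  have h3 := PP_add (S := S) ht hr htp x
  have h5 := PP_nonneg (S := S) ht hr htp x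
  have h7 : S.ev x (Theta S.D Φ r t) =
      S.ev x t * (S.ev x (∑ a, Gam S.D (Φ a) (Φ a)) - S.ev x (Gam S.D r r)) := by
    unfold Theta
    rw [map_sub, map_mul, map_mul]; ring
  have h8 : S.ev x (Gam S.D r r) ≤ S.ev x (∑ a, Gam S.D (Φ a) (Φ a)) := by
    unfold Gam
    rw [Finset.sum_comm, map_sum, map_sum]
    refine Finset.sum_le_sum fun j _ => ?_
    have h9 : S.ev x (S.D j r) = ∑ a, S.ev x (t * Φ a) * S.ev x (S.D j (Φ a)) := by
      rw [D_r ht hr, map_mul, map_sum, Finset.mul_sum]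
      refine Finset.sum_congr rfl fun a _ => ?_
      rw [map_mul, map_mul]; ring
    rw [map_mul, h9, map_sum]
    have h10 := Finset.sum_mul_sq_le_sq_mul_sq Finset.univ
      (fun a => S.ev x (t * Φ a)) (fun a => S.ev x (S.D j (Φ a)))
    have h11 : ∑ a, (S.ev x (t * Φ a)) ^ 2 = S.ev x (PP Φ t) := by
      unfold PP
      rw [map_sum]
      exact Finset.sum_congr rfl fun a _ => by rw [map_mul (S.ev x) (t * Φ a)]; ring
    rw [h11] at h10
    have h12 : S.ev x (PP Φ t) ≤ 1 := by nlinarith [sq_nonneg (s * S.ev x t)]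
    have h13 : 0 ≤ ∑ a, (S.ev x (S.D j (Φ a))) ^ 2 := Finset.sum_nonneg fun a _ => sq_nonneg _
    calc (∑ a, S.ev x (t * Φ a) * S.ev x (S.D j (Φ a))) *
          (∑ a, S.ev x (t * Φ a) * S.ev x (S.D j (Φ a)))
        ≤ S.ev x (PP Φ t) * ∑ a, (S.ev x (S.D j (Φ a))) ^ 2 := by nlinarith [h10]
      _ ≤ 1 * ∑ a, (S.ev x (S.D j (Φ a))) ^ 2 := mul_le_mul_of_nonneg_right h12 h13
      _ = ∑ a, S.ev x (S.D j (Φ a) * S.D j (Φ a)) := by
          rw [one_mul]; exact Finset.sum_congr rfl fun a _ => by rw [map_mul]; ring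
  have h14 : 0 ≤ S.ev x (Gam S.D r r) := by
    unfold Gam
    rw [map_sum]
    exact Finset.sum_nonneg fun j _ => by rw [map_mul]; exact mul_self_nonneg _
  have h15 : S.ev x t ≤ 1 / s := by
    have h16 : s * S.ev x t ≤ 1 := by
      nlinarith [sq_nonneg (s * S.ev x t), mul_pos hs h6]
    rw [le_div_iff₀ hs]; linarith
  rw [h7]
  constructor
  · exact mul_nonneg h6.le (by linarith)
  · calc S.ev x t * (S.ev x (∑ a, Gam S.D (Φ a) (Φ a)) - S.ev x (Gam S.D r r))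
        ≤ S.ev x t * S.ev x (∑ a, Gam S.D (Φ a) (Φ a)) :=
          mul_le_mul_of_nonneg_left (by linarith) h6.le
      _ ≤ 1 / s * S.ev x (∑ a, Gam S.D (Φ a) (Φ a)) :=
          mul_le_mul_of_nonneg_right h15 (by linarith)

end final

section main

variable {S}

lemma Gam_sub_const (f r : A) (c : ℝ) : Gam S.D f (r - c • (1 : A)) = Gam S.D f r := by
  unfold Gam
  refine Finset.sum_congr rfl fun j _ => ?_
  rw [map_sub, Derivation.map_smul, Derivation.map_one_eq_zero, smul_zero, sub_zero]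

lemma XX_sub_const (r u : A) (c : ℝ) : XX S.D (r - c • (1 : A)) u = XX S.D r u := by
  have h : Lap S.D (r - c • (1 : A)) = Lap S.D r := by
    unfold Lap
    refine Finset.sum_congr rfl fun j _ => ?_
    rw [map_sub, Derivation.map_smul, Derivation.map_one_eq_zero, smul_zero, sub_zero]
  unfold XX
  rw [Gam_comm, Gam_sub_const, Gam_comm, h]

lemma last_step {g : ℝ} {V w : A} {E0 : ℝ} (hw : HH S.D g V w = E0 • w) (r : A) (c : ℝ) :
    S.enr g V E0 ((r - c • 1) * w) ((r - c • 1) * w) =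
      g ^ 2 / 2 * S.I (Gam S.D r r * (w * w)) ∧
    (S.I (Gam S.D r r * (w * w))) ^ 2 ≤
      4 * S.I ((r - c • 1) * w * ((r - c • 1) * w)) * S.I (XX S.D r w * XX S.D r w) := by
  have hpsiX : S.I ((r - c • 1) * w * XX S.D r w) = -(1 / 2) * S.I (Gam S.D r r * (w * w)) := by
    rw [I_hX S.I S.I_D, Gam_sub_const]
  constructor
  · rw [enr_mul hw, XX_sub_const, hpsiX]; ring
  · have hcs2 := S.I_cs1 ((r - c • 1) * w) (XX S.D r w)
    rw [hpsiX] at hcs2
    linarith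

lemma final_arith {Gr N2 Wr K2 ah g τ : ℝ} {n : ℕ} (hg : 0 < g) (hah : 0 < ah)
    (hGr8 : ah / 8 ≤ Gr) (h20 : Gr ^ 2 ≤ 4 * N2 * Wr) (hN20 : 0 ≤ N2)
    (hWr_le : Wr ≤ (2 + 4 * n ^ 2) * K2) (hK2 : K2 = n * τ * ah / g ^ 2) :
    0 < N2 ∧ g ^ 2 / 2 * Gr ≤ 16 * (2 + 4 * n ^ 2) * n * τ * N2 := by
  have hGr0 : 0 < Gr := by linarith
  have hN2pos : 0 < N2 := by
    rcases hN20.lt_or_eq with h | h
    · exact h
    · exfalso
      rw [← h] at h20
      have h1 : Gr ^ 2 ≤ 0 := by simpa using h20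
      have h2 := pow_pos hGr0 2
      linarith
  refine ⟨hN2pos, ?_⟩
  have h21 : Gr ^ 2 ≤ 4 * N2 * ((2 + 4 * n ^ 2) * K2) :=
    h20.trans (mul_le_mul_of_nonneg_left hWr_le (by positivity))
  have h22 : ah / 8 * Gr ≤ Gr ^ 2 := by
    rw [pow_two]; exact mul_le_mul_of_nonneg_right hGr8 hGr0.le
  have h23 : Gr ≤ 32 * N2 * ((2 + 4 * n ^ 2) * K2) / ah := by
    rw [le_div_iff₀ hah]; linarith
  calc g ^ 2 / 2 * Gr ≤ g ^ 2 / 2 * (32 * N2 * ((2 + 4 * n ^ 2) * K2) / ah) :=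
        mul_le_mul_of_nonneg_left h23 (by positivity)
    _ = 16 * (2 + 4 * n ^ 2) * n * τ * N2 := by
        rw [hK2]; field_simp; ring

lemma pt_arith {X1 T W Gm Q s : ℝ} (h14 : X1 ^ 2 ≤ Q) (h15 : T ^ 2 ≤ (1 / s) ^ 2 * Gm ^ 2) :
    (X1 + 1 / 2 * (T * W)) * (X1 + 1 / 2 * (T * W)) ≤
      2 * Q + 1 / 2 * (1 / s) ^ 2 * (Gm * Gm * (W * W)) := by
  have h16 : (X1 + 1 / 2 * (T * W)) * (X1 + 1 / 2 * (T * W)) ≤
      2 * X1 ^ 2 + 1 / 2 * (T ^ 2 * W ^ 2) := by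
    nlinarith [sq_nonneg (X1 - 1 / 2 * (T * W))]
  have h17 : T ^ 2 * W ^ 2 ≤ (1 / s) ^ 2 * Gm ^ 2 * W ^ 2 :=
    mul_le_mul_of_nonneg_right h15 (sq_nonneg _)
  have h18 : (1 / s) ^ 2 * Gm ^ 2 * W ^ 2 = (1 / s) ^ 2 * (Gm * Gm * (W * W)) := by ring
  linarith

/-- The chain of inequalities.  `w` is the vacuum. -/
theorem chain_main {n : ℕ} (hn : 0 < n) {g : ℝ} (hg : 0 < g) {V w : A} {E0 : ℝ}
    (hw : HH S.D g V w = E0 • w) (hpos : ∀ u : A, 0 ≤ S.enr g V E0 u u)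
    (hnorm : S.I (w * w) = 1) (Φ : Fin n → A) {ah τ : ℝ} (hah : 0 < ah) (hτ : 0 < τ)
    (H1 : ∀ a, S.enr g V E0 (XX S.D (Φ a) w) (XX S.D (Φ a) w) ≤ τ ^ 2 * ah / g ^ 2)
    (H2 : ∀ a, S.I (Gam S.D (Φ a) (Φ a) * (w * w)) ≤ 2 * ah)
    {r t : A} {s : ℝ} (hs : s = ah / (2 * Real.sqrt (n * τ * ah / g ^ 2))) (ht : t * r = 1)
    (hr : r * r = algebraMap ℝ A (s ^ 2) + ∑ a, Φ a * Φ a) (htp : ∀ x, 0 < S.ev x t)
    {ρ : A} (hρ : ∀ x, ∑ a, ∑ b, |S.ev x (Gam S.D (Φ a) (Φ b)) - if a = b then ah else 0| ≤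
      S.ev x ρ) (H3 : S.I (ρ * (w * w)) ≤ ah / 16)
    (H4 : S.I ((∑ a, Gam S.D (Φ a) (Φ a)) * (∑ a, Gam S.D (Φ a) (Φ a)) * (w * w)) ≤
      2 * n ^ 2 * ah ^ 2) (c : ℝ) :
    0 < S.I ((r - c • 1) * w * ((r - c • 1) * w)) ∧
    S.enr g V E0 ((r - c • 1) * w) ((r - c • 1) * w) ≤
      16 * (2 + 4 * n ^ 2) * n * τ * S.I ((r - c • 1) * w * ((r - c • 1) * w)) := by
  have hn1 : (1 : ℝ) ≤ n := by exact_mod_cast hn
  have hg2 : 0 < g ^ 2 := by positivity
  have hK0 : 0 < n * τ * ah / g ^ 2 := by positivity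
  obtain ⟨K2, hK2⟩ : ∃ K2 : ℝ, K2 = n * τ * ah / g ^ 2 := ⟨_, rfl⟩
  rw [← hK2] at hK0 hs
  have hsq : 0 < Real.sqrt K2 := Real.sqrt_pos.2 hK0
  have hs0 : 0 < s := by rw [hs]; positivity
  have hahs : ah / s = 2 * Real.sqrt K2 := by
    rw [hs]; field_simp
  have hahs2 : (ah / s) ^ 2 = 4 * K2 := by
    rw [hahs, mul_pow, Real.sq_sqrt hK0.le]; norm_num
  have hS2 : ∑ a, S.I (XX S.D (Φ a) w * XX S.D (Φ a) w) ≤ K2 :=
    hK2 ▸ chain_S2 hg hw hpos Φ hah hτ H1 H2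
  have hS20 : 0 ≤ ∑ a, S.I (XX S.D (Φ a) w * XX S.D (Φ a) w) :=
    Finset.sum_nonneg fun a _ => S.sq_nonneg' _
  -- η
  obtain ⟨η, hη⟩ : ∃ η, η = S.I (PP Φ t * (w * w)) := ⟨_, rfl⟩
  have hη0 : 0 ≤ η := by
    rw [hη]
    refine S.I_nonneg fun x => ?_
    rw [map_mul, map_mul]
    exact mul_nonneg (PP_nonneg (S := S) ht hr htp x) (mul_self_nonneg _)
  have hηsum : ∑ a, S.I ((t * Φ a * w) * (t * Φ a * w)) = η := by
    rw [hη]
    unfold PP
    rw [Finset.sum_mul, map_sum]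
    exact Finset.sum_congr rfl fun a _ => by congr 1; ring
  have hIT := I_Theta S.I S.I_D ht hr w
  have hcs := S.I_cs (fun a => t * Φ a * w) (fun a => XX S.D (Φ a) w)
  rw [hIT, hηsum] at hcs
  -- lower bound of `I Θ`
  have hlow : ah / s * (7 / 8 - 3 / 2 * η) ≤ S.I (Theta S.D Φ r t * (w * w)) := by
    have h1 : S.I (((ah / s) • (1 - (3 / 2 : ℝ) • PP Φ t) - (2 / s) • ρ) * (w * w)) ≤
        S.I (Theta S.D Φ r t * (w * w)) := by
      refine S.I_mono _ _ fun x => ?_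
      rw [map_mul, map_mul (S.ev x) (Theta S.D Φ r t)]
      refine mul_le_mul_of_nonneg_right ?_ (by rw [map_mul]; exact mul_self_nonneg _)
      have := Theta_lower hs0 hah ht hr htp hρ hn x
      simpa only [map_sub, map_smul, map_one, smul_eq_mul] using this
    have h2 : ((ah / s) • (1 - (3 / 2 : ℝ) • PP Φ t) - (2 / s) • ρ) * (w * w) =
        (ah / s) • (w * w) - (ah / s * (3 / 2)) • (PP Φ t * (w * w)) -
          (2 / s) • (ρ * (w * w)) := by
      simp only [Algebra.smul_def, map_mul]; ring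
    rw [h2, map_sub, map_sub, map_smul, map_smul, map_smul, hnorm, ← hη] at h1
    simp only [smul_eq_mul] at h1
    have h3 : 2 / s * S.I (ρ * (w * w)) ≤ 2 / s * (ah / 16) :=
      mul_le_mul_of_nonneg_left H3 (by positivity)
    have h4 : 2 / s * (ah / 16) = ah / s * (1 / 8) := by ring
    rw [h4] at h3
    linarith
  have hη4 : 1 / 4 ≤ η := by
    by_contra hlt
    rw [not_le] at hlt
    have h1 : 1 / 2 < 7 / 8 - 3 / 2 * η := by linarith
    have h2 : ah / s * (1 / 2) ≤ S.I (Theta S.D Φ r t * (w * w)) := by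
      refine le_trans ?_ hlow
      exact mul_le_mul_of_nonneg_left h1.le (by positivity)
    have h3 : (-(1 / 2) * S.I (Theta S.D Φ r t * (w * w))) ^ 2 ≤ η * K2 :=
      hcs.trans (mul_le_mul_of_nonneg_left hS2 hη0)
    have h4 : (ah / s * (1 / 2)) ^ 2 ≤ (S.I (Theta S.D Φ r t * (w * w))) ^ 2 :=
      pow_le_pow_left₀ (by positivity) h2 2
    have h5 : (ah / s * (1 / 2)) ^ 2 = K2 := by rw [mul_pow, hahs2]; ring
    rw [h5] at h4
    have h6 : K2 * (1 / 4) ≤ η * K2 := by nlinarith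
    have h7 : η * K2 < 1 / 4 * K2 := mul_lt_mul_of_pos_right hlt hK0
    linarith
  -- `G_r`
  have hGr8 : ah / 8 ≤ S.I (Gam S.D r r * (w * w)) := by
    have h1 : S.I ((ah • PP Φ t - ρ) * (w * w)) ≤ S.I (Gam S.D r r * (w * w)) := by
      refine S.I_mono _ _ fun x => ?_
      rw [map_mul, map_mul (S.ev x) (Gam S.D r r)]
      refine mul_le_mul_of_nonneg_right ?_ (by rw [map_mul]; exact mul_self_nonneg _)
      have := (abs_le.1 (Gam_r_bound ht hr htp hρ x)).1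
      rw [map_sub, map_smul, smul_eq_mul]; linarith
    have h2 : (ah • PP Φ t - ρ) * (w * w) = ah • (PP Φ t * (w * w)) - ρ * (w * w) := by
      rw [sub_mul, smul_mul_assoc]
    rw [h2, map_sub, map_smul, ← hη, smul_eq_mul] at h1
    nlinarith
  -- `W_r`
  have hWr_le : S.I (XX S.D r w * XX S.D r w) ≤ (2 + 4 * n ^ 2) * K2 := by
    have h1 : S.I (XX S.D r w * XX S.D r w) ≤
        S.I ((2 : ℝ) • (∑ a, XX S.D (Φ a) w * XX S.D (Φ a) w) +
        (1 / 2 * (1 / s) ^ 2 : ℝ) • ((∑ a, Gam S.D (Φ a) (Φ a)) *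
          (∑ a, Gam S.D (Φ a) (Φ a)) * (w * w))) := by
      refine S.I_mono _ _ fun x => ?_
      rw [XX_r ht hr]
      have hP1 : S.ev x (PP Φ t) ≤ 1 := by
        have := PP_add (S := S) ht hr htp x
        nlinarith [sq_nonneg (s * S.ev x t)]
      have hT := Theta_upper hs0 hah ht hr htp x
      have h10 := Finset.sum_mul_sq_le_sq_mul_sq Finset.univ
        (fun a => S.ev x (t * Φ a)) (fun a => S.ev x (XX S.D (Φ a) w))
      have h11 : ∑ a, (S.ev x (t * Φ a)) ^ 2 = S.ev x (PP Φ t) := by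
        unfold PP
        rw [map_sum]
        exact Finset.sum_congr rfl fun a _ => by rw [map_mul (S.ev x) (t * Φ a)]; ring
      rw [h11] at h10
      have h13 : 0 ≤ ∑ a, (S.ev x (XX S.D (Φ a) w)) ^ 2 :=
        Finset.sum_nonneg fun a _ => sq_nonneg _
      have h14 : (∑ a, S.ev x (t * Φ a) * S.ev x (XX S.D (Φ a) w)) ^ 2 ≤
          ∑ a, (S.ev x (XX S.D (Φ a) w)) ^ 2 :=
        h10.trans (mul_le_of_le_one_left h13 hP1)
      have h15 : (S.ev x (Theta S.D Φ r t)) ^ 2 ≤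
          (1 / s) ^ 2 * (S.ev x (∑ a, Gam S.D (Φ a) (Φ a))) ^ 2 := by
        rw [← mul_pow]
        exact pow_le_pow_left₀ hT.1 hT.2 2
      have e1 : S.ev x (∑ a, t * Φ a * XX S.D (Φ a) w) =
          ∑ a, S.ev x (t * Φ a) * S.ev x (XX S.D (Φ a) w) := by
        rw [map_sum]; exact Finset.sum_congr rfl fun a _ => map_mul _ _ _
      have e2 : S.ev x (∑ a, XX S.D (Φ a) w * XX S.D (Φ a) w) =
          ∑ a, (S.ev x (XX S.D (Φ a) w)) ^ 2 := by
        rw [map_sum]; exact Finset.sum_congr rfl fun a _ => by rw [map_mul]; ring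
      rw [map_mul, map_add, map_add, map_smul, map_smul, map_smul, e1, e2, map_mul, map_mul,
        map_mul, map_mul]
      simp only [smul_eq_mul]
      generalize (∑ a, S.ev x (t * Φ a) * S.ev x (XX S.D (Φ a) w)) = X1 at h14 ⊢
      generalize S.ev x (Theta S.D Φ r t) = T at h15 ⊢
      generalize S.ev x w = W
      generalize S.ev x (∑ a, Gam S.D (Φ a) (Φ a)) = Gm at h15 ⊢
      exact pt_arith h14 h15
    rw [map_add, map_smul, map_smul, map_sum] at h1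
    simp only [smul_eq_mul] at h1
    have h2 : 1 / 2 * (1 / s) ^ 2 * S.I ((∑ a, Gam S.D (Φ a) (Φ a)) *
        (∑ a, Gam S.D (Φ a) (Φ a)) * (w * w)) ≤ 4 * n ^ 2 * K2 := by
      have h3 : 1 / 2 * (1 / s) ^ 2 * S.I ((∑ a, Gam S.D (Φ a) (Φ a)) *
          (∑ a, Gam S.D (Φ a) (Φ a)) * (w * w)) ≤ 1 / 2 * (1 / s) ^ 2 * (2 * n ^ 2 * ah ^ 2) :=
        mul_le_mul_of_nonneg_left H4 (by positivity)
      have h4 : 1 / 2 * (1 / s) ^ 2 * (2 * n ^ 2 * ah ^ 2) = n ^ 2 * (ah / s) ^ 2 := by ring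
      rw [h4, hahs2] at h3
      linarith
    linarith
  have hWr0 : 0 ≤ S.I (XX S.D r w * XX S.D r w) := S.sq_nonneg' _
  obtain ⟨henr, h20⟩ := last_step hw r c
  have hN20 : 0 ≤ S.I ((r - c • 1) * w * ((r - c • 1) * w)) := S.sq_nonneg' _
  rw [henr]
  exact final_arith hg hah hGr8 h20 hN20 hWr_le hK2

end main

end

end Pool.Agent.H906R3.YM
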