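import Mathlib
import Pool.Agent.H906R3.YM.Chain

/-!
# Functions of the variables of a block: bounds uniform in the volume
-/

namespace Pool.Agent.H906R3.YM

set_option linter.unusedSectionVars false

noncomputable section

/-- A block: an algebra `B` of functions of the variables of a block, embedded in `A`. -/
structure Blk {A : Type*} [CommRing A] [Algebra ℝ A] {P J : Type*} (S : Fn A P J)
    (B : Type*) [CommRing B] [Algebra ℝ B] {K : Type*} [Fintype K]
    (DB : K → Derivation ℝ B B) (σ : K → K → K → ℝ) (nrm : B → ℝ) where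
  pl : B →ₐ[ℝ] A
  kap : K → J
  inj : Function.Injective kap
  h1 : ∀ k F, S.D (kap k) (pl F) = pl (DB k F)
  h2 : ∀ j, (∀ k, kap k ≠ j) → ∀ F, S.D j (pl F) = 0
  h3 : ∀ i l u, S.D (kap i) (S.D (kap l) u) - S.D (kap l) (S.D (kap i) u) =
    ∑ k, σ i l k • S.D (kap k) u
  h4 : ∀ j, (∀ k, kap k ≠ j) → ∀ k u, S.D j (S.D (kap k) u) = S.D (kap k) (S.D j u)
  hnrm : ∀ b x, |S.ev x (pl b)| ≤ nrm b

variable {A : Type*} [CommRing A] [Algebra ℝ A] {P J : Type*} [Fintype J] {S : Fn A P J}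
  {B : Type*} [CommRing B] [Algebra ℝ B] {K : Type*} [Fintype K] [DecidableEq K]
  {DB : K → Derivation ℝ B B} {σ : K → K → K → ℝ} {nrm : B → ℝ} (T : Blk S B DB σ nrm)

namespace Blk

lemma sum_red {M : Type*} [AddCommMonoid M] (f : J → M) (hf : ∀ j, (∀ k, T.kap k ≠ j) → f j = 0) :
    ∑ j, f j = ∑ k, f (T.kap k) := by
  classical
  have h0 : ∑ k, f (T.kap k) = ∑ j ∈ Finset.univ.map ⟨T.kap, T.inj⟩, f j :=
    (Finset.sum_map Finset.univ ⟨T.kap, T.inj⟩ f).symm
  rw [h0]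
  symm
  refine Finset.sum_subset (Finset.subset_univ _) fun j _ hj => hf j fun k hk => hj ?_
  rw [Finset.mem_map]
  exact ⟨k, Finset.mem_univ _, hk⟩

/-- the derivations in the block -/
def D' (k : K) : Derivation ℝ A A := S.D (T.kap k)

lemma Gam_pl (φ : B) (u : A) : Gam S.D (T.pl φ) u = ∑ k, T.pl (DB k φ) * T.D' k u := by
  unfold Gam
  rw [T.sum_red _ fun j hj => by rw [T.h2 j hj, zero_mul]]
  exact Finset.sum_congr rfl fun k _ => by rw [T.h1]; rfl

lemma Lap_pl (φ : B) : Lap S.D (T.pl φ) = T.pl (Lap DB φ) := by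
  unfold Lap
  rw [T.sum_red _ fun j hj => by rw [T.h2 j hj, map_zero], map_sum]
  exact Finset.sum_congr rfl fun k _ => by rw [T.h1, T.h1]

lemma Gam_pl_pl (φ χ : B) : Gam S.D (T.pl φ) (T.pl χ) = T.pl (Gam DB φ χ) := by
  rw [Gam_pl]
  unfold Gam
  rw [map_sum]
  refine Finset.sum_congr rfl fun k _ => ?_
  rw [map_mul]
  congr 1
  exact T.h1 k χ

lemma XX_pl (φ : B) (u : A) :
    XX S.D (T.pl φ) u = Op T.D' (fun k => T.pl (DB k φ)) (T.pl ((1 / 2 : ℝ) • Lap DB φ)) u := by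
  unfold XX Op
  rw [Gam_pl, Lap_pl, map_smul, smul_mul_assoc]

/-- coefficients of a coordinate derivation -/
def del (R : Type*) [CommRing R] (i : K) : K → R := fun k => if k = i then 1 else 0

lemma D'_eq (i : K) (u : A) : T.D' i u = Op T.D' (fun k => T.pl (del B i k)) (T.pl 0) u := by
  unfold Op del
  simp only [apply_ite T.pl, map_one, map_zero, ite_mul, one_mul, zero_mul, Finset.sum_ite_eq',
    Finset.mem_univ, if_true, add_zero]

lemma D'_pl (k : K) (b : B) : T.D' k (T.pl b) = T.pl (DB k b) := T.h1 k b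

lemma Op_comm_pl (c c' : K → B) (c0 c0' : B) (u : A) :
    Op T.D' (fun k => T.pl (c k)) (T.pl c0) (Op T.D' (fun k => T.pl (c' k)) (T.pl c0') u) -
      Op T.D' (fun k => T.pl (c' k)) (T.pl c0') (Op T.D' (fun k => T.pl (c k)) (T.pl c0) u) =
      Op T.D' (fun k => T.pl (brC DB σ c c' k)) (T.pl (br0 DB c c0 c' c0')) u := by
  rw [Op_comm (D := T.D') σ T.h3]
  congr 1
  · funext k
    unfold brC
    simp only [map_add, map_sum, map_sub, map_mul, map_smul, D'_pl]
  · unfold br0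
    simp only [map_sum, map_sub, map_mul, D'_pl]

/-- the norm of a first order operator -/
def nOp (nrm : B → ℝ) (c : K → B) (c0 : B) : ℝ := ∑ k, nrm (c k) ^ 2 + nrm c0 ^ 2

/-- the local energy -/
def loc (w : A) : ℝ := ∑ k, S.I (T.D' k w * T.D' k w) + S.I (w * w)

lemma loc_nonneg (w : A) : 0 ≤ T.loc w :=
  add_nonneg (Finset.sum_nonneg fun k _ => S.sq_nonneg' _) (S.sq_nonneg' _)

lemma Op_bound (c : K → B) (c0 : B) (w : A) :
    S.I (Op T.D' (fun k => T.pl (c k)) (T.pl c0) w * Op T.D' (fun k => T.pl (c k)) (T.pl c0) w) ≤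
      nOp nrm c c0 * T.loc w := by
  have h1 : S.I (Op T.D' (fun k => T.pl (c k)) (T.pl c0) w *
      Op T.D' (fun k => T.pl (c k)) (T.pl c0) w) ≤
      S.I (nOp nrm c c0 • (∑ k, T.D' k w * T.D' k w + w * w)) := by
    refine S.I_mono _ _ fun x => ?_
    rw [map_mul, map_smul, map_add, map_sum, map_mul, smul_eq_mul]
    unfold Op
    rw [map_add, map_sum, map_mul]
    simp only [map_mul]
    have h2 := Finset.sum_mul_sq_le_sq_mul_sq (Finset.univ : Finset (Option K))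
      (fun o => Option.elim o (S.ev x (T.pl c0)) fun k => S.ev x (T.pl (c k)))
      (fun o => Option.elim o (S.ev x w) fun k => S.ev x (T.D' k w))
    simp only [Fintype.sum_option, Option.elim_none, Option.elim_some] at h2
    have h3 : S.ev x (T.pl c0) ^ 2 + ∑ k, S.ev x (T.pl (c k)) ^ 2 ≤ nOp nrm c c0 := by
      unfold nOp
      rw [add_comm]
      have h4 : ∀ b, S.ev x (T.pl b) ^ 2 ≤ nrm b ^ 2 := fun b => by
        rw [← sq_abs]
        exact pow_le_pow_left₀ (abs_nonneg _) (T.hnrm b x) 2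
      exact add_le_add (Finset.sum_le_sum fun k _ => h4 _) (h4 _)
    have h5 : 0 ≤ S.ev x w ^ 2 + ∑ k, S.ev x (T.D' k w) ^ 2 :=
      add_nonneg (sq_nonneg _) (Finset.sum_nonneg fun k _ => sq_nonneg _)
    have h6 : ∑ k, S.ev x (T.D' k w) * S.ev x (T.D' k w) = ∑ k, S.ev x (T.D' k w) ^ 2 :=
      Finset.sum_congr rfl fun k _ => by ring
    rw [h6]
    calc _ = (S.ev x (T.pl c0) * S.ev x w + ∑ k, S.ev x (T.pl (c k)) * S.ev x (T.D' k w)) ^ 2 := by
          ring
      _ ≤ _ := h2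
      _ ≤ nOp nrm c c0 * (S.ev x w ^ 2 + ∑ k, S.ev x (T.D' k w) ^ 2) :=
          mul_le_mul_of_nonneg_right h3 h5
      _ = _ := by ring
  refine h1.trans (le_of_eq ?_)
  rw [map_smul, map_add, map_sum, smul_eq_mul]
  rfl

/-- coefficients of `Y_i = [D_i, X]` -/
def yC (DB : K → Derivation ℝ B B) (σ : K → K → K → ℝ) (φ : B) (i : K) : K → B :=
  brC DB σ (del B i) (fun k => DB k φ)

/-- zeroth coefficient of `Y_i` -/
def y0 (DB : K → Derivation ℝ B B) (φ : B) (i : K) : B :=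
  br0 DB (del B i) 0 (fun k => DB k φ) ((1 / 2 : ℝ) • Lap DB φ)

/-- coefficients of `Z_i = [X, Y_i]` -/
def zC (DB : K → Derivation ℝ B B) (σ : K → K → K → ℝ) (φ : B) (i : K) : K → B :=
  brC DB σ (fun k => DB k φ) (yC DB σ φ i)

/-- zeroth coefficient of `Z_i` -/
def z0 (DB : K → Derivation ℝ B B) (σ : K → K → K → ℝ) (φ : B) (i : K) : B :=
  br0 DB (fun k => DB k φ) ((1 / 2 : ℝ) • Lap DB φ) (yC DB σ φ i) (y0 DB φ i)

lemma Y_eq (φ : B) (i : K) (u : A) :
    T.D' i (XX S.D (T.pl φ) u) - XX S.D (T.pl φ) (T.D' i u) =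
      Op T.D' (fun k => T.pl (yC DB σ φ i k)) (T.pl (y0 DB φ i)) u := by
  rw [XX_pl, XX_pl, D'_eq, D'_eq, Op_comm_pl]
  rfl

lemma Z_eq (φ : B) (i : K) (u : A) :
    XX S.D (T.pl φ) (T.D' i (XX S.D (T.pl φ) u) - XX S.D (T.pl φ) (T.D' i u)) -
      (T.D' i (XX S.D (T.pl φ) (XX S.D (T.pl φ) u)) -
        XX S.D (T.pl φ) (T.D' i (XX S.D (T.pl φ) u))) =
      Op T.D' (fun k => T.pl (zC DB σ φ i k)) (T.pl (z0 DB σ φ i)) u := by
  rw [T.Y_eq φ i u, T.Y_eq φ i (XX S.D (T.pl φ) u), T.XX_pl φ u, T.XX_pl φ, Op_comm_pl]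
  rfl

lemma Y_out (φ : B) (j : J) (hj : ∀ k, T.kap k ≠ j) (u : A) :
    S.D j (XX S.D (T.pl φ) u) - XX S.D (T.pl φ) (S.D j u) = 0 := by
  rw [XX_pl, XX_pl]
  unfold Op
  rw [map_add, map_sum]
  have h1 : ∀ k, S.D j (T.pl (DB k φ) * T.D' k u) = T.pl (DB k φ) * T.D' k (S.D j u) := by
    intro k
    rw [Derivation.leibniz, T.h2 j hj, smul_zero, add_zero, smul_eq_mul]
    unfold D'
    rw [T.h4 j hj]
  rw [Finset.sum_congr rfl fun k _ => h1 k, Derivation.leibniz, T.h2 j hj, smul_zero, add_zero,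
    smul_eq_mul, sub_self]

/-- the constant in the bound of the double commutator -/
def CC (DB : K → Derivation ℝ B B) (σ : K → K → K → ℝ) (nrm : B → ℝ) (φ : B) : ℝ :=
  ∑ i, (nOp nrm (yC DB σ φ i) (y0 DB φ i) + 1 / 2 * (1 + nOp nrm (zC DB σ φ i) (z0 DB σ φ i)))

/-- the electric part of the double commutator is bounded by the local energy -/
theorem dc_bound (φ : B) (w : A) :
    ∑ j, (S.I ((S.D j (XX S.D (T.pl φ) w) - XX S.D (T.pl φ) (S.D j w)) *
        (S.D j (XX S.D (T.pl φ) w) - XX S.D (T.pl φ) (S.D j w)))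
      - S.I (S.D j w * (XX S.D (T.pl φ) (S.D j (XX S.D (T.pl φ) w) - XX S.D (T.pl φ) (S.D j w)) -
            (S.D j (XX S.D (T.pl φ) (XX S.D (T.pl φ) w)) -
              XX S.D (T.pl φ) (S.D j (XX S.D (T.pl φ) w)))))) ≤
      CC DB σ nrm φ * T.loc w := by
  rw [T.sum_red]
  · unfold CC
    rw [Finset.sum_mul]
    refine Finset.sum_le_sum fun i _ => ?_
    have hY := T.Y_eq φ i w
    have hZ := T.Z_eq φ i w
    unfold D' at hY hZ
    rw [hZ, hY]
    have hYb := T.Op_bound (yC DB σ φ i) (y0 DB φ i) w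
    have hZb := T.Op_bound (zC DB σ φ i) (z0 DB σ φ i) w
    unfold D' at hYb hZb
    set Zw := Op (fun k => S.D (T.kap k)) (fun k => T.pl (zC DB σ φ i k))
      (T.pl (z0 DB σ φ i)) w with hZw
    have h5 : -S.I (S.D (T.kap i) w * Zw) ≤
        1 / 2 * (S.I (S.D (T.kap i) w * S.D (T.kap i) w) + S.I (Zw * Zw)) := by
      have h6 := S.sq_nonneg' (S.D (T.kap i) w + Zw)
      have h7 : (S.D (T.kap i) w + Zw) * (S.D (T.kap i) w + Zw) =
          S.D (T.kap i) w * S.D (T.kap i) w + (2 : ℝ) • (S.D (T.kap i) w * Zw) + Zw * Zw := by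
        rw [two_smul]; ring
      rw [h7, map_add, map_add, map_smul, smul_eq_mul] at h6
      linarith
    have h8 : S.I (S.D (T.kap i) w * S.D (T.kap i) w) ≤ T.loc w := by
      unfold loc
      have h9 := Finset.single_le_sum (f := fun k => S.I (T.D' k w * T.D' k w))
        (fun k _ => S.sq_nonneg' _) (Finset.mem_univ i)
      have h10 := S.sq_nonneg' w
      have h11 : S.I (S.D (T.kap i) w * S.D (T.kap i) w) ≤ ∑ k, S.I (T.D' k w * T.D' k w) := h9
      linarith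
    have h12 : (nOp nrm (yC DB σ φ i) (y0 DB φ i) +
        1 / 2 * (1 + nOp nrm (zC DB σ φ i) (z0 DB σ φ i))) * T.loc w =
        nOp nrm (yC DB σ φ i) (y0 DB φ i) * T.loc w + 1 / 2 * (T.loc w +
          nOp nrm (zC DB σ φ i) (z0 DB σ φ i) * T.loc w) := by ring
    rw [h12]
    linarith
  · intro j hj
    rw [T.Y_out φ j hj, T.Y_out φ j hj]
    have : XX S.D (T.pl φ) 0 = 0 := by
      have := XX_smul (D := S.D) (T.pl φ) 0 0
      simpa using this
    rw [this]; simp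

end Blk

end

end Pool.Agent.H906R3.YM
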