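import Mathlib
import Pool.Agent.H906R3.YM.Block

/-!
# The chain of inequalities for approximate vacua
-/

namespace Pool.Agent.H906R3.YM

set_option linter.unusedSectionVars false

noncomputable section

section Alg2

variable {A : Type*} [CommRing A] [Algebra ℝ A] {J : Type*} [Fintype J]
  {D : J → Derivation ℝ A A}
variable (I : A →ₗ[ℝ] ℝ) (hI : ∀ j u, I (D j u) = 0)

include hI

/-- the double commutator identity, for all `w`. -/
lemma double_comm2 (g : ℝ) (V f w : A) (hg : g ≠ 0) :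
    I (XX D f w * (HH D g V (XX D f w) - XX D f (HH D g V w))) =
      g ^ 2 / 2 * ∑ j, (I ((D j (XX D f w) - XX D f (D j w)) * (D j (XX D f w) - XX D f (D j w)))
        - I (D j w * (XX D f (D j (XX D f w) - XX D f (D j w)) -
            (D j (XX D f (XX D f w)) - XX D f (D j (XX D f w))))))
      + 1 / (2 * g ^ 2) * I (Gam D f (Gam D f V) * (w * w)) := by
  set X : A → A := XX D f with hX
  have hXd : ∀ u, XX D f u = X u := fun u => rfl
  have h1 : HH D g V (X w) - X (HH D g V w) =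
      -((g ^ 2 / 2 : ℝ) • ∑ j, (D j (D j (X w)) - X (D j (D j w)))) -
        (1 / g ^ 2 : ℝ) • (Gam D f V * w) := by
    have hXV : X (V * w) = V * X w + Gam D f V * w := XX_mul f V w
    have hXL : X (Lap D w) = ∑ j, X (D j (D j w)) := by
      unfold Lap; exact XX_sum _ _ _
    unfold HH
    rw [hX, XX_add, XX_neg, XX_smul, XX_smul, ← hX, hXV, hXL, smul_add, Finset.sum_sub_distrib,
      smul_sub]
    unfold Lap
    abel
  have hT : ∀ j, I (X w * (D j (D j (X w)) - X (D j (D j w)))) =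
      -I ((D j (X w) - X (D j w)) * (D j (X w) - X (D j w))) +
        I (D j w * (X (D j (X w) - X (D j w)) - (D j (X (X w)) - X (D j (X w))))) := by
    intro j
    -- `D_j D_j X - X D_j D_j = D_j Y + Y D_j`
    have k1 : D j (D j (X w)) - X (D j (D j w)) =
        D j (D j (X w) - X (D j w)) + (D j (X (D j w)) - X (D j (D j w))) := by
      rw [map_sub]; abel
    have k2 : I (X w * D j (D j (X w) - X (D j w))) =
        -I ((D j (X w) - X (D j w)) * (D j (X w) - X (D j w))) +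
          I (D j w * X (D j (X w) - X (D j w))) := by
      have a1 := I_D I hI j (X w) (D j (X w) - X (D j w))
      have a2 := I_XX I hI f (D j w) (D j (X w) - X (D j w))
      rw [hXd, hXd] at a2
      have a3 : D j (X w) * (D j (X w) - X (D j w)) =
          (D j (X w) - X (D j w)) * (D j (X w) - X (D j w)) +
            X (D j w) * (D j (X w) - X (D j w)) := by ring
      rw [a3, map_add, a2] at a1
      linarith
    have k3 : I (X w * (D j (X (D j w)) - X (D j (D j w)))) =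
        -I (D j w * (D j (X (X w)) - X (D j (X w)))) := by
      have a1 := I_D I hI j (X w) (X (D j w))
      have a2 := I_XX I hI f (D j (X w)) (D j w)
      have a3 := I_XX I hI f (X w) (D j (D j w))
      have a4 := I_D I hI j (X (X w)) (D j w)
      rw [hXd, hXd] at a2 a3
      rw [mul_sub, map_sub, mul_sub, map_sub]
      have b1 : I (D j w * D j (X (X w))) = I (D j (X (X w)) * D j w) := by rw [mul_comm]
      have b2 : I (D j w * X (D j (X w))) = I (X (D j (X w)) * D j w) := by rw [mul_comm]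
      rw [b1, b2, a2, a4]
      linarith
    have k4 : I (D j w * (X (D j (X w) - X (D j w)) - (D j (X (X w)) - X (D j (X w))))) =
        I (D j w * X (D j (X w) - X (D j w))) - I (D j w * (D j (X (X w)) - X (D j (X w)))) := by
      rw [← map_sub, ← mul_sub]
    rw [k1, mul_add, map_add, k2, k3, k4]
    ring
  have hV : I (X w * (Gam D f V * w)) = -(1 / 2) * I (Gam D f (Gam D f V) * (w * w)) := by
    have := I_hX I hI f (Gam D f V) w
    rw [← this]
    congr 1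
    rw [hXd]; ring
  rw [h1, mul_sub, mul_neg, mul_smul_comm, mul_smul_comm, map_sub, map_neg, map_smul,
    map_smul, Finset.mul_sum, map_sum, Finset.sum_congr rfl fun j _ => hT j, hV, smul_eq_mul,
    smul_eq_mul, Finset.sum_add_distrib, Finset.sum_neg_distrib, Finset.sum_sub_distrib]
  field_simp
  ring

/-- the double commutator identity with a remainder -/
lemma double_comm3 (g E : ℝ) (V f w : A) (hg : g ≠ 0) :
    I (XX D f w * (HH D g V (XX D f w) - E • XX D f w)) =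
      g ^ 2 / 2 * ∑ j, (I ((D j (XX D f w) - XX D f (D j w)) * (D j (XX D f w) - XX D f (D j w)))
        - I (D j w * (XX D f (D j (XX D f w) - XX D f (D j w)) -
            (D j (XX D f (XX D f w)) - XX D f (D j (XX D f w))))))
      + 1 / (2 * g ^ 2) * I (Gam D f (Gam D f V) * (w * w))
      - I (XX D f (XX D f w) * (HH D g V w - E • w)) := by
  rw [← double_comm2 I hI g V f w hg, I_XX I hI f (XX D f w) (HH D g V w - E • w), sub_neg_eq_add,
    ← map_add, ← mul_add]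
  congr 2
  rw [XX_sub, XX_smul]; abel

end Alg2

section main2

variable {A : Type*} [CommRing A] [Algebra ℝ A] {P J : Type*} [Fintype J] {S : Fn A P J}

/-- The chain of inequalities, for any `w`. -/
theorem chain_core {n : ℕ} (hn : 0 < n) {g : ℝ} (hg : 0 < g) {w : A}
    (hnorm : S.I (w * w) = 1) (Φ : Fin n → A) {ah τ : ℝ} (hah : 0 < ah) (hτ : 0 < τ)
    (hS2 : ∑ a, S.I (XX S.D (Φ a) w * XX S.D (Φ a) w) ≤ n * τ * ah / g ^ 2)
    {r t : A} {s : ℝ} (hs : s = ah / (2 * Real.sqrt (n * τ * ah / g ^ 2))) (ht : t * r = 1)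
    (hr : r * r = algebraMap ℝ A (s ^ 2) + ∑ a, Φ a * Φ a) (htp : ∀ x, 0 < S.ev x t)
    {ρ : A} (hρ : ∀ x, ∑ a, ∑ b, |S.ev x (Gam S.D (Φ a) (Φ b)) - if a = b then ah else 0| ≤
      S.ev x ρ) (H3 : S.I (ρ * (w * w)) ≤ ah / 16)
    (H4 : S.I ((∑ a, Gam S.D (Φ a) (Φ a)) * (∑ a, Gam S.D (Φ a) (Φ a)) * (w * w)) ≤
      2 * n ^ 2 * ah ^ 2) (c : ℝ) :
    ah ^ 2 / 64 ≤ 4 * S.I ((r - c • 1) * w * ((r - c • 1) * w)) *
      ((2 + 4 * n ^ 2) * (n * τ * ah / g ^ 2)) ∧
    g ^ 2 / 2 * S.I (Gam S.D r r * (w * w)) ≤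
      16 * (2 + 4 * n ^ 2) * n * τ * S.I ((r - c • 1) * w * ((r - c • 1) * w)) := by
  have hn1 : (1 : ℝ) ≤ n := by exact_mod_cast hn
  have hg2 : 0 < g ^ 2 := by positivity
  have hK0 : 0 < n * τ * ah / g ^ 2 := by positivity
  obtain ⟨K2, hK2⟩ : ∃ K2 : ℝ, K2 = n * τ * ah / g ^ 2 := ⟨_, rfl⟩
  rw [← hK2] at hK0 hs hS2 ⊢
  have hsq : 0 < Real.sqrt K2 := Real.sqrt_pos.2 hK0
  have hs0 : 0 < s := by rw [hs]; positivity
  have hahs : ah / s = 2 * Real.sqrt K2 := by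
    rw [hs]; field_simp
  have hahs2 : (ah / s) ^ 2 = 4 * K2 := by
    rw [hahs, mul_pow, Real.sq_sqrt hK0.le]; norm_num
  have hS20 : 0 ≤ ∑ a, S.I (XX S.D (Φ a) w * XX S.D (Φ a) w) :=
    Finset.sum_nonneg fun a _ => S.sq_nonneg' _
  -- η
  obtain ⟨η, hη⟩ : ∃ η, η = S.I (PP Φ t * (w * w)) := ⟨_, rfl⟩
  have hη0 : 0 ≤ η := by
    rw [hη]
    refine S.I_nonneg fun x => ?_
    rw [map_mul, map_mul]
    exact mul_nonneg (PP_nonneg (S := S) ht hr htp x) (mul_self_nonneg _)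
  have hηsum : ∑ a, S.I ((t * Φ a * w) * (t * Φ a * w)) = η := by
    rw [hη]
    unfold PP
    rw [Finset.sum_mul, map_sum]
    exact Finset.sum_congr rfl fun a _ => by congr 1; ring
  have hIT := I_Theta S.I S.I_D ht hr w
  have hcs := S.I_cs (fun a => t * Φ a * w) (fun a => XX S.D (Φ a) w)
  rw [hIT, hηsum] at hcs
  -- lower bound of `I Θ`
  have hlow : ah / s * (7 / 8 - 3 / 2 * η) ≤ S.I (Theta S.D Φ r t * (w * w)) := by
    have h1 : S.I (((ah / s) • (1 - (3 / 2 : ℝ) • PP Φ t) - (2 / s) • ρ) * (w * w)) ≤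
        S.I (Theta S.D Φ r t * (w * w)) := by
      refine S.I_mono _ _ fun x => ?_
      rw [map_mul, map_mul (S.ev x) (Theta S.D Φ r t)]
      refine mul_le_mul_of_nonneg_right ?_ (by rw [map_mul]; exact mul_self_nonneg _)
      have := Theta_lower hs0 hah ht hr htp hρ hn x
      simpa only [map_sub, map_smul, map_one, smul_eq_mul] using this
    have h2 : ((ah / s) • (1 - (3 / 2 : ℝ) • PP Φ t) - (2 / s) • ρ) * (w * w) =
        (ah / s) • (w * w) - (ah / s * (3 / 2)) • (PP Φ t * (w * w)) -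
          (2 / s) • (ρ * (w * w)) := by
      simp only [Algebra.smul_def, map_mul]; ring
    rw [h2, map_sub, map_sub, map_smul, map_smul, map_smul, hnorm, ← hη] at h1
    simp only [smul_eq_mul] at h1
    have h3 : 2 / s * S.I (ρ * (w * w)) ≤ 2 / s * (ah / 16) :=
      mul_le_mul_of_nonneg_left H3 (by positivity)
    have h4 : 2 / s * (ah / 16) = ah / s * (1 / 8) := by ring
    rw [h4] at h3
    linarith
  have hη4 : 1 / 4 ≤ η := by
    by_contra hlt
    rw [not_le] at hlt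
    have h1 : 1 / 2 < 7 / 8 - 3 / 2 * η := by linarith
    have h2 : ah / s * (1 / 2) ≤ S.I (Theta S.D Φ r t * (w * w)) := by
      refine le_trans ?_ hlow
      exact mul_le_mul_of_nonneg_left h1.le (by positivity)
    have h3 : (-(1 / 2) * S.I (Theta S.D Φ r t * (w * w))) ^ 2 ≤ η * K2 :=
      hcs.trans (mul_le_mul_of_nonneg_left hS2 hη0)
    have h4 : (ah / s * (1 / 2)) ^ 2 ≤ (S.I (Theta S.D Φ r t * (w * w))) ^ 2 :=
      pow_le_pow_left₀ (by positivity) h2 2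
    have h5 : (ah / s * (1 / 2)) ^ 2 = K2 := by rw [mul_pow, hahs2]; ring
    rw [h5] at h4
    have h6 : K2 * (1 / 4) ≤ η * K2 := by nlinarith
    have h7 : η * K2 < 1 / 4 * K2 := mul_lt_mul_of_pos_right hlt hK0
    linarith
  -- `G_r`
  have hGr8 : ah / 8 ≤ S.I (Gam S.D r r * (w * w)) := by
    have h1 : S.I ((ah • PP Φ t - ρ) * (w * w)) ≤ S.I (Gam S.D r r * (w * w)) := by
      refine S.I_mono _ _ fun x => ?_
      rw [map_mul, map_mul (S.ev x) (Gam S.D r r)]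
      refine mul_le_mul_of_nonneg_right ?_ (by rw [map_mul]; exact mul_self_nonneg _)
      have := (abs_le.1 (Gam_r_bound ht hr htp hρ x)).1
      rw [map_sub, map_smul, smul_eq_mul]; linarith
    have h2 : (ah • PP Φ t - ρ) * (w * w) = ah • (PP Φ t * (w * w)) - ρ * (w * w) := by
      rw [sub_mul, smul_mul_assoc]
    rw [h2, map_sub, map_smul, ← hη, smul_eq_mul] at h1
    nlinarith
  -- `W_r`
  have hWr_le : S.I (XX S.D r w * XX S.D r w) ≤ (2 + 4 * n ^ 2) * K2 := by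
    have h1 : S.I (XX S.D r w * XX S.D r w) ≤
        S.I ((2 : ℝ) • (∑ a, XX S.D (Φ a) w * XX S.D (Φ a) w) +
        (1 / 2 * (1 / s) ^ 2 : ℝ) • ((∑ a, Gam S.D (Φ a) (Φ a)) *
          (∑ a, Gam S.D (Φ a) (Φ a)) * (w * w))) := by
      refine S.I_mono _ _ fun x => ?_
      rw [XX_r ht hr]
      have hP1 : S.ev x (PP Φ t) ≤ 1 := by
        have := PP_add (S := S) ht hr htp x
        nlinarith [sq_nonneg (s * S.ev x t)]
      have hT := Theta_upper hs0 hah ht hr htp x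
      have h10 := Finset.sum_mul_sq_le_sq_mul_sq Finset.univ
        (fun a => S.ev x (t * Φ a)) (fun a => S.ev x (XX S.D (Φ a) w))
      have h11 : ∑ a, (S.ev x (t * Φ a)) ^ 2 = S.ev x (PP Φ t) := by
        unfold PP
        rw [map_sum]
        exact Finset.sum_congr rfl fun a _ => by rw [map_mul (S.ev x) (t * Φ a)]; ring
      rw [h11] at h10
      have h13 : 0 ≤ ∑ a, (S.ev x (XX S.D (Φ a) w)) ^ 2 :=
        Finset.sum_nonneg fun a _ => sq_nonneg _
      have h14 : (∑ a, S.ev x (t * Φ a) * S.ev x (XX S.D (Φ a) w)) ^ 2 ≤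
          ∑ a, (S.ev x (XX S.D (Φ a) w)) ^ 2 :=
        h10.trans (mul_le_of_le_one_left h13 hP1)
      have h15 : (S.ev x (Theta S.D Φ r t)) ^ 2 ≤
          (1 / s) ^ 2 * (S.ev x (∑ a, Gam S.D (Φ a) (Φ a))) ^ 2 := by
        rw [← mul_pow]
        exact pow_le_pow_left₀ hT.1 hT.2 2
      have e1 : S.ev x (∑ a, t * Φ a * XX S.D (Φ a) w) =
          ∑ a, S.ev x (t * Φ a) * S.ev x (XX S.D (Φ a) w) := by
        rw [map_sum]; exact Finset.sum_congr rfl fun a _ => map_mul _ _ _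
      have e2 : S.ev x (∑ a, XX S.D (Φ a) w * XX S.D (Φ a) w) =
          ∑ a, (S.ev x (XX S.D (Φ a) w)) ^ 2 := by
        rw [map_sum]; exact Finset.sum_congr rfl fun a _ => by rw [map_mul]; ring
      rw [map_mul, map_add, map_add, map_smul, map_smul, map_smul, e1, e2, map_mul, map_mul,
        map_mul, map_mul]
      simp only [smul_eq_mul]
      generalize (∑ a, S.ev x (t * Φ a) * S.ev x (XX S.D (Φ a) w)) = X1 at h14 ⊢
      generalize S.ev x (Theta S.D Φ r t) = T at h15 ⊢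
      generalize S.ev x w = W
      generalize S.ev x (∑ a, Gam S.D (Φ a) (Φ a)) = Gm at h15 ⊢
      exact pt_arith h14 h15
    rw [map_add, map_smul, map_smul, map_sum] at h1
    simp only [smul_eq_mul] at h1
    have h2 : 1 / 2 * (1 / s) ^ 2 * S.I ((∑ a, Gam S.D (Φ a) (Φ a)) *
        (∑ a, Gam S.D (Φ a) (Φ a)) * (w * w)) ≤ 4 * n ^ 2 * K2 := by
      have h3 : 1 / 2 * (1 / s) ^ 2 * S.I ((∑ a, Gam S.D (Φ a) (Φ a)) *
          (∑ a, Gam S.D (Φ a) (Φ a)) * (w * w)) ≤ 1 / 2 * (1 / s) ^ 2 * (2 * n ^ 2 * ah ^ 2) :=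
        mul_le_mul_of_nonneg_left H4 (by positivity)
      have h4 : 1 / 2 * (1 / s) ^ 2 * (2 * n ^ 2 * ah ^ 2) = n ^ 2 * (ah / s) ^ 2 := by ring
      rw [h4, hahs2] at h3
      linarith
    linarith
  have hWr0 : 0 ≤ S.I (XX S.D r w * XX S.D r w) := S.sq_nonneg' _
  have h20 : (S.I (Gam S.D r r * (w * w))) ^ 2 ≤
      4 * S.I ((r - c • 1) * w * ((r - c • 1) * w)) * S.I (XX S.D r w * XX S.D r w) := by
    have hpsiX : S.I ((r - c • 1) * w * XX S.D r w) =
        -(1 / 2) * S.I (Gam S.D r r * (w * w)) := by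
      rw [I_hX S.I S.I_D, Gam_sub_const]
    have hcs2 := S.I_cs1 ((r - c • 1) * w) (XX S.D r w)
    rw [hpsiX] at hcs2
    linarith
  have hN20 : 0 ≤ S.I ((r - c • 1) * w * ((r - c • 1) * w)) := S.sq_nonneg' _
  refine ⟨?_, (final_arith hg hah hGr8 h20 hN20 hWr_le hK2).2⟩
  have h30 : (ah / 8) ^ 2 ≤ (S.I (Gam S.D r r * (w * w))) ^ 2 :=
    pow_le_pow_left₀ (by positivity) hGr8 2
  have h31 : 4 * S.I ((r - c • 1) * w * ((r - c • 1) * w)) * S.I (XX S.D r w * XX S.D r w) ≤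
      4 * S.I ((r - c • 1) * w * ((r - c • 1) * w)) * ((2 + 4 * n ^ 2) * K2) :=
    mul_le_mul_of_nonneg_left hWr_le (by positivity)
  have h32 : (ah / 8) ^ 2 = ah ^ 2 / 64 := by ring
  linarith

end main2

section S2

variable {A : Type*} [CommRing A] [Algebra ℝ A] {P J : Type*} [Fintype J] {S : Fn A P J}

lemma enr_mul2 (g : ℝ) (V : A) (E0 : ℝ) (w f u : A) : S.enr g V E0 u (f * w) =
    -(g ^ 2) * S.I (u * XX S.D f w) + S.I (u * f * (HH S.D g V w - E0 • w)) := by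
  unfold Fn.enr
  rw [HH_mul]
  have : u * (f * HH S.D g V w - (g ^ 2 : ℝ) • XX S.D f w - E0 • (f * w)) =
      -((g ^ 2 : ℝ) • (u * XX S.D f w)) + u * f * (HH S.D g V w - E0 • w) := by
    simp only [Algebra.smul_def]; ring
  rw [this, map_add, map_neg, map_smul, smul_eq_mul]; ring

lemma enr_mul_mul2 (g : ℝ) (V : A) (E0 : ℝ) (w f : A) : S.enr g V E0 (f * w) (f * w) =
    g ^ 2 / 2 * S.I (Gam S.D f f * (w * w)) + S.I (f * w * f * (HH S.D g V w - E0 • w)) := by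
  rw [enr_mul2, I_hX S.I S.I_D]; ring

/-- Second step of the chain, from the positivity of the energy on a family of vectors. -/
lemma S2_err {n : ℕ} {g : ℝ} (hg : 0 < g) {V w : A} {E0 : ℝ} (Φ : Fin n → A) {ah τ : ℝ}
    (hah : 0 < ah) (hτ : 0 < τ)
    (hvec : ∀ t : ℝ, 0 ≤ ∑ a, S.enr g V E0 (XX S.D (Φ a) w + t • (Φ a * w))
      (XX S.D (Φ a) w + t • (Φ a * w)))
    (H1 : ∀ a, S.enr g V E0 (XX S.D (Φ a) w) (XX S.D (Φ a) w) ≤ τ ^ 2 * ah / g ^ 2)
    (H2 : ∀ a, S.I (Gam S.D (Φ a) (Φ a) * (w * w)) ≤ 7 / 4 * ah)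
    (e1 : ∀ a, |S.I (XX S.D (Φ a) w * Φ a * (HH S.D g V w - E0 • w))| ≤ τ * ah)
    (e2 : ∀ a, |S.I (Φ a * w * Φ a * (HH S.D g V w - E0 • w))| ≤ g ^ 2 * ah / 8) :
    ∑ a, S.I (XX S.D (Φ a) w * XX S.D (Φ a) w) ≤ n * (2 * τ) * ah / g ^ 2 := by
  have hg2 : 0 < g ^ 2 := by positivity
  set x := ∑ a, S.I (XX S.D (Φ a) w * XX S.D (Φ a) w) with hx
  have hx0 : 0 ≤ x := Finset.sum_nonneg fun a _ => S.sq_nonneg' _
  have h1 : (∑ a, S.enr g V E0 (XX S.D (Φ a) w) (Φ a * w)) ^ 2 ≤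
      (∑ a, S.enr g V E0 (XX S.D (Φ a) w) (XX S.D (Φ a) w)) *
        ∑ a, S.enr g V E0 (Φ a * w) (Φ a * w) := by
    refine Fn.sq_le_of_forall fun t => ?_
    have h := hvec t
    have e : ∀ a, S.enr g V E0 (XX S.D (Φ a) w + t • (Φ a * w))
      (XX S.D (Φ a) w + t • (Φ a * w)) = S.enr g V E0 (XX S.D (Φ a) w) (XX S.D (Φ a) w) +
        2 * t * S.enr g V E0 (XX S.D (Φ a) w) (Φ a * w) +
        t ^ 2 * S.enr g V E0 (Φ a * w) (Φ a * w) := by
      intro a
      set u := XX S.D (Φ a) w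
      set v := Φ a * w
      have e1 : S.enr g V E0 (u + t • v) (u + t • v) = S.enr g V E0 u u + t * S.enr g V E0 u v +
          t * S.enr g V E0 v u + t ^ 2 * S.enr g V E0 v v := by
        unfold Fn.enr
        rw [S.HH_add, HH_smul]
        have : (u + t • v) * (HH S.D g V u + t • HH S.D g V v - E0 • (u + t • v)) =
            u * (HH S.D g V u - E0 • u) + t • (u * (HH S.D g V v - E0 • v)) +
              t • (v * (HH S.D g V u - E0 • u)) + (t ^ 2) • (v * (HH S.D g V v - E0 • v)) := by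
          simp only [Algebra.smul_def, map_pow]; ring
        rw [this]
        simp only [map_add, map_smul, smul_eq_mul]
      rw [e1, S.enr_symm g V E0 v u]; ring
    rw [Finset.sum_congr rfl fun a _ => e a, Finset.sum_add_distrib, Finset.sum_add_distrib,
      ← Finset.mul_sum, ← Finset.mul_sum] at h
    exact h
  set E1 := ∑ a, S.I (XX S.D (Φ a) w * Φ a * (HH S.D g V w - E0 • w)) with hE1
  have h2 : ∑ a, S.enr g V E0 (XX S.D (Φ a) w) (Φ a * w) = -(g ^ 2) * x + E1 := by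
    rw [Finset.sum_congr rfl fun a _ => enr_mul2 g V E0 w (Φ a) (XX S.D (Φ a) w),
      Finset.sum_add_distrib, ← Finset.mul_sum]
  have hE1' : |E1| ≤ n * (τ * ah) := by
    refine (Finset.abs_sum_le_sum_abs _ _).trans ?_
    refine (Finset.sum_le_sum fun a _ => e1 a).trans (le_of_eq ?_)
    rw [Finset.sum_const, Finset.card_univ, Fintype.card_fin, nsmul_eq_mul]
  have h3 : ∑ a, S.enr g V E0 (XX S.D (Φ a) w) (XX S.D (Φ a) w) ≤ n * (τ ^ 2 * ah / g ^ 2) := by
    refine (Finset.sum_le_sum fun a _ => H1 a).trans (le_of_eq ?_)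
    rw [Finset.sum_const, Finset.card_univ, Fintype.card_fin, nsmul_eq_mul]
  have h4 : ∑ a, S.enr g V E0 (Φ a * w) (Φ a * w) ≤ n * (g ^ 2 * ah) := by
    have h41 : ∀ a, S.enr g V E0 (Φ a * w) (Φ a * w) ≤ g ^ 2 * ah := by
      intro a
      rw [enr_mul_mul2]
      have h42 := (le_abs_self _).trans (e2 a)
      have h43 := mul_le_mul_of_nonneg_left (H2 a) (show 0 ≤ g ^ 2 / 2 by positivity)
      linarith
    refine (Finset.sum_le_sum fun a _ => h41 a).trans (le_of_eq ?_)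
    rw [Finset.sum_const, Finset.card_univ, Fintype.card_fin, nsmul_eq_mul]
  have hn0 : (0 : ℝ) ≤ n := Nat.cast_nonneg n
  have h50 : 0 ≤ ∑ a, S.enr g V E0 (XX S.D (Φ a) w) (XX S.D (Φ a) w) := by
    have := hvec 0
    simpa only [zero_smul, add_zero] using this
  have h5 : (-(g ^ 2) * x + E1) ^ 2 ≤ (n * (τ * ah)) ^ 2 := by
    rw [← h2]
    refine h1.trans ?_
    have h51 : (∑ a, S.enr g V E0 (XX S.D (Φ a) w) (XX S.D (Φ a) w)) *
        ∑ a, S.enr g V E0 (Φ a * w) (Φ a * w) ≤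
        (∑ a, S.enr g V E0 (XX S.D (Φ a) w) (XX S.D (Φ a) w)) * (n * (g ^ 2 * ah)) :=
      mul_le_mul_of_nonneg_left h4 h50
    have h52 : (∑ a, S.enr g V E0 (XX S.D (Φ a) w) (XX S.D (Φ a) w)) * (n * (g ^ 2 * ah)) ≤
        (n * (τ ^ 2 * ah / g ^ 2)) * (n * (g ^ 2 * ah)) :=
      mul_le_mul_of_nonneg_right h3 (by positivity)
    refine (h51.trans h52).trans (le_of_eq ?_)
    field_simp
  have h6 := abs_le_of_sq_le_sq h5 (by positivity)
  have h7 := abs_le.1 h6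
  have h8 := abs_le.1 hE1'
  rw [le_div_iff₀ hg2]
  have h9 : x * g ^ 2 ≤ n * (τ * ah) + n * (τ * ah) := by linarith [h7.1, h8.2]
  refine h9.trans (le_of_eq ?_)
  ring

end S2

namespace Blk

variable {A : Type*} [CommRing A] [Algebra ℝ A] {P J : Type*} [Fintype J] {S : Fn A P J}
  {B : Type*} [CommRing B] [Algebra ℝ B] {K : Type*} [Fintype K] [DecidableEq K]
  {DB : K → Derivation ℝ B B} {σ : K → K → K → ℝ} {nrm : B → ℝ} (T : Blk S B DB σ nrm)

lemma nOp_nonneg (c : K → B) (c0 : B) : 0 ≤ nOp nrm c c0 := by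
  unfold nOp; positivity

lemma I_add_sq (a b : A) : S.I ((a + b) * (a + b)) ≤ 2 * S.I (a * a) + 2 * S.I (b * b) := by
  have h1 := S.sq_nonneg' (a - b)
  have h2 : (a + b) * (a + b) + (a - b) * (a - b) = (2 : ℝ) • (a * a) + (2 : ℝ) • (b * b) := by
    simp only [Algebra.smul_def, map_ofNat]; ring
  have h3 := congrArg S.I h2
  rw [map_add, map_add, map_smul, map_smul, smul_eq_mul, smul_eq_mul] at h3
  linarith

/-- constant of the next bound -/
def c2 (DB : K → Derivation ℝ B B) (σ : K → K → K → ℝ) (nrm : B → ℝ) (φ : B) : ℝ :=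
  nOp nrm (fun k => DB k φ) ((1 / 2 : ℝ) • Lap DB φ) *
    (2 * nOp nrm (fun k => DB k φ) ((1 / 2 : ℝ) • Lap DB φ) +
      2 * ∑ k, nOp nrm (yC DB σ φ k) (y0 DB φ k))

lemma c2_nonneg (φ : B) : 0 ≤ c2 DB σ nrm φ := by
  have h1 : 0 ≤ nOp nrm (fun k => DB k φ) ((1 / 2 : ℝ) • Lap DB φ) := nOp_nonneg _ _
  have h2 : 0 ≤ ∑ k, nOp nrm (yC DB σ φ k) (y0 DB φ k) :=
    Finset.sum_nonneg fun k _ => nOp_nonneg _ _
  unfold c2; positivity

lemma XX2_bound (φ : B) (w : A) :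
    S.I (XX S.D (T.pl φ) (XX S.D (T.pl φ) w) * XX S.D (T.pl φ) (XX S.D (T.pl φ) w)) ≤
      c2 DB σ nrm φ * (T.loc w + ∑ k, T.loc (T.D' k w)) := by
  set a := nOp nrm (fun k => DB k φ) ((1 / 2 : ℝ) • Lap DB φ) with ha
  set b : K → ℝ := fun k => nOp nrm (yC DB σ φ k) (y0 DB φ k) with hb
  have ha0 : 0 ≤ a := nOp_nonneg _ _
  have hb0 : ∀ k, 0 ≤ b k := fun k => nOp_nonneg _ _
  have hX : ∀ u, S.I (XX S.D (T.pl φ) u * XX S.D (T.pl φ) u) ≤ a * T.loc u := by
    intro u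
    rw [T.XX_pl]
    exact T.Op_bound _ _ u
  refine (hX _).trans ?_
  have h1 : T.loc (XX S.D (T.pl φ) w) ≤
      ∑ k, (2 * (a * T.loc (T.D' k w)) + 2 * (b k * T.loc w)) + a * T.loc w := by
    have h11 : T.loc (XX S.D (T.pl φ) w) = ∑ k, S.I (T.D' k (XX S.D (T.pl φ) w) *
      T.D' k (XX S.D (T.pl φ) w)) + S.I (XX S.D (T.pl φ) w * XX S.D (T.pl φ) w) := rfl
    rw [h11]
    refine add_le_add (Finset.sum_le_sum fun k _ => ?_) (hX w)
    have h2 : T.D' k (XX S.D (T.pl φ) w) = XX S.D (T.pl φ) (T.D' k w) +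
        Op T.D' (fun l => T.pl (yC DB σ φ k l)) (T.pl (y0 DB φ k)) w := by
      rw [← T.Y_eq φ k w]; abel
    rw [h2]
    refine (I_add_sq _ _).trans ?_
    refine add_le_add (mul_le_mul_of_nonneg_left (hX _) (by norm_num))
      (mul_le_mul_of_nonneg_left ?_ (by norm_num))
    exact T.Op_bound _ _ w
  have hl0 := T.loc_nonneg w
  have hl1 : 0 ≤ ∑ k, T.loc (T.D' k w) := Finset.sum_nonneg fun k _ => T.loc_nonneg _
  have hB0 : 0 ≤ ∑ k, b k := Finset.sum_nonneg fun k _ => hb0 k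
  have h3 : ∑ k, (2 * (a * T.loc (T.D' k w)) + 2 * (b k * T.loc w)) + a * T.loc w =
      2 * a * (∑ k, T.loc (T.D' k w)) + (2 * ∑ k, b k) * T.loc w + a * T.loc w := by
    rw [Finset.sum_add_distrib]
    simp only [← Finset.mul_sum, ← Finset.sum_mul]
    ring
  rw [h3] at h1
  have h4 : c2 DB σ nrm φ = a * (2 * a + 2 * ∑ k, b k) := rfl
  rw [h4]
  have h5 : 2 * a * (∑ k, T.loc (T.D' k w)) + (2 * ∑ k, b k) * T.loc w + a * T.loc w ≤
      (2 * a + 2 * ∑ k, b k) * (T.loc w + ∑ k, T.loc (T.D' k w)) := by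
    nlinarith [mul_nonneg ha0 hl0, mul_nonneg ha0 hl1, mul_nonneg hB0 hl0, mul_nonneg hB0 hl1]
  calc a * T.loc (XX S.D (T.pl φ) w) ≤
        a * ((2 * a + 2 * ∑ k, b k) * (T.loc w + ∑ k, T.loc (T.D' k w))) :=
        mul_le_mul_of_nonneg_left (h1.trans h5) ha0
    _ = _ := by ring

lemma sum_kap_le (f : J → ℝ) (hf : ∀ j, 0 ≤ f j) : ∑ k, f (T.kap k) ≤ ∑ j, f j := by
  classical
  have h0 : ∑ k, f (T.kap k) = ∑ j ∈ Finset.univ.map ⟨T.kap, T.inj⟩, f j :=
    (Finset.sum_map Finset.univ ⟨T.kap, T.inj⟩ f).symm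
  rw [h0]
  exact Finset.sum_le_sum_of_subset_of_nonneg (Finset.subset_univ _) fun j _ _ => hf j

lemma sum_loc_le (w : A) : ∑ k, T.loc (T.D' k w) ≤
    ∑ j, ∑ j', S.I (S.D j' (S.D j w) * S.D j' (S.D j w)) + S.I (Gam S.D w w) := by
  have h1 : ∀ k, T.loc (T.D' k w) ≤
      ∑ j', S.I (S.D j' (S.D (T.kap k) w) * S.D j' (S.D (T.kap k) w)) +
        S.I (S.D (T.kap k) w * S.D (T.kap k) w) := by
    intro k
    exact add_le_add (T.sum_kap_le (fun j' => S.I (S.D j' (S.D (T.kap k) w) *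
      S.D j' (S.D (T.kap k) w))) fun j' => S.sq_nonneg' _) le_rfl
  have h2 := T.sum_kap_le (fun j => ∑ j', S.I (S.D j' (S.D j w) * S.D j' (S.D j w)) +
    S.I (S.D j w * S.D j w)) (fun j => add_nonneg (Finset.sum_nonneg fun j' _ => S.sq_nonneg' _)
    (S.sq_nonneg' _))
  have h3 := Finset.sum_le_sum fun k (_ : k ∈ Finset.univ) => h1 k
  refine h3.trans (h2.trans (le_of_eq ?_))
  rw [Finset.sum_add_distrib]
  unfold Gam
  rw [map_sum]

end Blk

end

end Pool.Agent.H906R3.YM
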