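import Mathlib
import Pool.Agent.H906R3.YM.Chain2

/-!
# Existence of approximate eigenfunctions at the bottom of the spectrum, abstract part
-/

namespace Pool.Agent.H906R3.YM

set_option linter.unusedSectionVars false

noncomputable section

variable {A : Type*} [CommRing A] [Algebra ℝ A] {P J : Type*} [Fintype J] (S : Fn A P J)

/-- the norm -/
def Fn.nr (u : A) : ℝ := Real.sqrt (S.I (u * u))

variable {S}

lemma nr_nonneg (u : A) : 0 ≤ S.nr u := Real.sqrt_nonneg _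

lemma nr_sq (u : A) : S.nr u ^ 2 = S.I (u * u) := Real.sq_sqrt (S.sq_nonneg' u)

lemma nr_cs (u v : A) : |S.I (u * v)| ≤ S.nr u * S.nr v := by
  have h := S.I_cs1 u v
  rw [← nr_sq, ← nr_sq, ← mul_pow] at h
  exact abs_le_of_sq_le_sq h (mul_nonneg (nr_nonneg _) (nr_nonneg _))

lemma nr_add (u v : A) : S.nr (u + v) ≤ S.nr u + S.nr v := by
  have h : S.nr (u + v) ^ 2 ≤ (S.nr u + S.nr v) ^ 2 := by
    rw [nr_sq]
    have e : (u + v) * (u + v) = u * u + (2 : ℝ) • (u * v) + v * v := by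
      rw [two_smul]; ring
    rw [e, map_add, map_add, map_smul, smul_eq_mul, ← nr_sq, ← nr_sq]
    have h1 := (le_abs_self _).trans (nr_cs (S := S) u v)
    nlinarith
  exact (pow_le_pow_iff_left₀ (nr_nonneg _) (add_nonneg (nr_nonneg _) (nr_nonneg _))
    two_ne_zero).1 h

lemma nr_smul (c : ℝ) (u : A) : S.nr (c • u) = |c| * S.nr u := by
  unfold Fn.nr
  have e : c • u * c • u = (c ^ 2) • (u * u) := by
    rw [smul_mul_smul_comm, sq]
  rw [e, map_smul, smul_eq_mul, Real.sqrt_mul (sq_nonneg c), Real.sqrt_sq_eq_abs]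

lemma nr_neg (u : A) : S.nr (-u) = S.nr u := by
  unfold Fn.nr
  rw [neg_mul_neg]

lemma nr_sub_comm (u v : A) : S.nr (u - v) = S.nr (v - u) := by
  rw [← nr_neg, neg_sub]

lemma nr_sub_le (u v : A) : S.nr (u - v) ≤ S.nr u + S.nr v := by
  rw [sub_eq_add_neg]
  refine (nr_add _ _).trans (le_of_eq ?_)
  rw [nr_neg]

lemma nr_zero : S.nr (0 : A) = 0 := by
  have := nr_smul (S := S) 0 (0 : A)
  rwa [zero_smul, abs_zero, zero_mul] at this

lemma nr_sum {ι : Type*} (s : Finset ι) (u : ι → A) :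
    S.nr (∑ i ∈ s, u i) ≤ ∑ i ∈ s, S.nr (u i) := by
  classical
  induction s using Finset.induction_on with
  | empty => rw [Finset.sum_empty, Finset.sum_empty, nr_zero]
  | insert i s hi ih =>
    rw [Finset.sum_insert hi, Finset.sum_insert hi]
    exact (nr_add _ _).trans (by linarith)

/-- The range of `B` is dense. -/
theorem dense_range (Pr : A → Prop) (hadd : ∀ u v, Pr u → Pr v → Pr (u + v))
    (hsmul : ∀ (c : ℝ) u, Pr u → Pr (c • u)) (B : A →ₗ[ℝ] A) (hB : ∀ u, Pr u → Pr (B u))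
    {Λ : ℝ} (hΛ : 0 ≤ Λ)
    (hT : ∀ r, Pr r → ∀ η : ℝ, 0 < η → ∃ T : A →ₗ[ℝ] A, (∀ u, Pr u → Pr (T u)) ∧
      S.nr (T r - r) ≤ η ∧ (∀ u, S.nr (T u) ≤ S.nr u) ∧
      (∀ u, S.nr u ^ 2 - Λ * S.nr u * S.nr (T u - u) ≤ S.I (u * B (T u))) ∧
      ∃ C : ℝ, 0 ≤ C ∧ ∀ u, S.nr (B (T u)) ≤ C * S.nr u)
    {f : A} (hf : Pr f) {δ : ℝ} (hδ : 0 < δ) : ∃ w, Pr w ∧ S.nr (B w - f) ≤ δ := by
  by_contra hc
  push Not at hc
  have hsub : ∀ u v, Pr u → Pr v → Pr (u - v) := fun u v hu hv => by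
    have h1 := hadd u ((-1 : ℝ) • v) hu (hsmul _ v hv)
    rwa [neg_one_smul, ← sub_eq_add_neg] at h1
  set Q : Set ℝ := {x | ∃ w, Pr w ∧ x = S.nr (B w - f) ^ 2} with hQ
  have hPr0 : Pr 0 := by
    have := hsmul 0 f hf
    rwa [zero_smul] at this
  have hQne : Q.Nonempty := ⟨_, 0, hPr0, rfl⟩
  have hQlow : ∀ x ∈ Q, δ ^ 2 ≤ x := by
    rintro x ⟨w, hw, rfl⟩
    exact pow_le_pow_left₀ hδ.le (hc w hw).le 2
  have hQb : BddBelow Q := ⟨δ ^ 2, fun x hx => hQlow x hx⟩
  set q := sInf Q with hq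
  have hqδ : δ ^ 2 ≤ q := le_csInf hQne hQlow
  have hq0 : 0 < q := lt_of_lt_of_le (by positivity) hqδ
  have hqle : ∀ w, Pr w → q ≤ S.nr (B w - f) ^ 2 := fun w hw => csInf_le hQb ⟨w, hw, rfl⟩
  set s := Real.sqrt q with hs
  have hs0 : 0 < s := Real.sqrt_pos.2 hq0
  have hsq : s ^ 2 = q := Real.sq_sqrt hq0.le
  set η := s / (2 * (5 * Λ + 1)) with hη
  have hη0 : 0 < η := by positivity
  obtain ⟨x0, ⟨w0, hw0, rfl⟩, hx0⟩ := exists_lt_of_csInf_lt hQne
    (show q < q + η ^ 2 by have := pow_pos hη0 2; linarith)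
  set r0 := B w0 - f with hr0
  have hr0P : Pr r0 := hsub _ _ (hB _ hw0) hf
  obtain ⟨T, hTP, hT1, hT2, hT3, C, hC0, hT4⟩ := hT r0 hr0P η hη0
  set e1 := (η / (C + 1)) ^ 2 with he1
  have he10 : 0 < e1 := by positivity
  have he1η : e1 ≤ η ^ 2 := by
    rw [he1]
    refine pow_le_pow_left₀ (by positivity) ?_ 2
    rw [div_le_iff₀ (by positivity)]
    nlinarith
  obtain ⟨x1, ⟨w1, hw1, rfl⟩, hx1⟩ := exists_lt_of_csInf_lt hQne
    (show q < q + e1 by linarith)
  set r1 := B w1 - f with hr1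
  have hr1P : Pr r1 := hsub _ _ (hB _ hw1) hf
  -- first order condition
  have hfirst : ∀ u, Pr u → (S.I (r1 * B u)) ^ 2 ≤ e1 * S.nr (B u) ^ 2 := by
    intro u hu
    refine Fn.sq_le_of_forall fun t => ?_
    have h1 := hqle (w1 + t • u) (hadd _ _ hw1 (hsmul t u hu))
    have h2 : B (w1 + t • u) - f = r1 + t • B u := by
      rw [map_add, map_smul, hr1]; abel
    have h3 : (r1 + t • B u) * (r1 + t • B u) = r1 * r1 + (2 * t) • (r1 * B u) +
        (t ^ 2) • (B u * B u) := by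
      simp only [Algebra.smul_def, map_mul, map_pow, map_ofNat]; ring
    rw [h2, nr_sq, h3, map_add, map_add, map_smul, map_smul, smul_eq_mul, smul_eq_mul,
      ← nr_sq, ← nr_sq] at h1
    linarith
  -- the two residuals are close
  have hclose : S.nr (r1 - r0) ≤ 2 * η := by
    have h1 := hqle ((1 / 2 : ℝ) • (w1 + w0)) (hsmul _ _ (hadd _ _ hw1 hw0))
    have h2 : B ((1 / 2 : ℝ) • (w1 + w0)) - f = (1 / 2 : ℝ) • (r1 + r0) := by
      rw [map_smul, map_add, hr1, hr0]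
      have : f = (1 / 2 : ℝ) • (f + f) := by
        rw [← two_smul ℝ f, smul_smul]; norm_num
      nth_rewrite 1 [this]
      rw [← smul_sub]
      congr 1; abel
    rw [h2, nr_smul, mul_pow, nr_sq] at h1
    have h3 : (r1 + r0) * (r1 + r0) + (r1 - r0) * (r1 - r0) =
        (2 : ℝ) • (r1 * r1) + (2 : ℝ) • (r0 * r0) := by
      simp only [Algebra.smul_def, map_ofNat]; ring
    have h4 := congrArg S.I h3
    rw [map_add, map_add, map_smul, map_smul, smul_eq_mul, smul_eq_mul, ← nr_sq (r1 - r0),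
      ← nr_sq r1, ← nr_sq r0] at h4
    have h5 : |(1 / 2 : ℝ)| ^ 2 = 1 / 4 := by norm_num
    rw [h5] at h1
    have h6 : S.nr (r1 - r0) ^ 2 ≤ (2 * η) ^ 2 := by nlinarith
    exact (pow_le_pow_iff_left₀ (nr_nonneg _) (by positivity) two_ne_zero).1 h6
  have hTr1 : S.nr (T r1 - r1) ≤ 5 * η := by
    have h1 : T r1 - r1 = T (r1 - r0) + ((T r0 - r0) + (r0 - r1)) := by
      rw [map_sub T r1 r0]; abel
    rw [h1]
    refine (nr_add _ _).trans ?_
    have h2 := nr_add (S := S) (T r0 - r0) (r0 - r1)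
    have h3 := hT2 (r1 - r0)
    rw [nr_sub_comm r0 r1] at h2
    linarith
  have hr1s : s ≤ S.nr r1 := by
    have h1 := hqle w1 hw1
    rw [← hsq] at h1
    exact (pow_le_pow_iff_left₀ hs0.le (nr_nonneg _) two_ne_zero).1 h1
  have hr1pos : 0 < S.nr r1 := lt_of_lt_of_le hs0 hr1s
  have h1 := hT3 r1
  have h2 : S.I (r1 * B (T r1)) ≤ η * S.nr r1 := by
    have h3 := hfirst (T r1) (hTP _ hr1P)
    have h4 : e1 * S.nr (B (T r1)) ^ 2 ≤ (η * S.nr r1) ^ 2 := by
      rw [he1, ← mul_pow]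
      refine pow_le_pow_left₀ (mul_nonneg (by positivity) (nr_nonneg _)) ?_ 2
      have h5 := mul_le_mul_of_nonneg_left (hT4 r1) (show 0 ≤ η / (C + 1) by positivity)
      refine h5.trans ?_
      rw [← mul_assoc]
      refine mul_le_mul_of_nonneg_right ?_ (nr_nonneg _)
      rw [div_mul_eq_mul_div, div_le_iff₀ (by positivity)]
      nlinarith
    exact (le_abs_self _).trans (abs_le_of_sq_le_sq (h3.trans h4) (by positivity))
  have h3 : S.nr r1 ^ 2 ≤ (5 * Λ + 1) * η * S.nr r1 := by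
    have h4 : Λ * S.nr r1 * S.nr (T r1 - r1) ≤ Λ * S.nr r1 * (5 * η) :=
      mul_le_mul_of_nonneg_left hTr1 (by positivity)
    nlinarith
  have h4 : (5 * Λ + 1) * η = s / 2 := by
    rw [hη]; field_simp
  rw [h4, sq] at h3
  have h5 := le_of_mul_le_mul_right h3 hr1pos
  linarith

/-- approximate eigenfunctions at the bottom of the spectrum -/
theorem approx_eig (Pr : A → Prop)
    (hadd : ∀ u v, Pr u → Pr v → Pr (u + v)) (hsmul : ∀ (c : ℝ) u, Pr u → Pr (c • u))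
    {g : ℝ} {V : A} {E0 : ℝ} (hE0 : 0 ≤ E0)
    (hpos : ∀ u, Pr u → 0 ≤ S.enr g V E0 u u)
    (hinf : ∀ δ : ℝ, 0 < δ → ∃ f, Pr f ∧ S.I (f * f) = 1 ∧ S.enr g V E0 f f ≤ δ)
    (hdense : ∀ f, Pr f → ∀ δ : ℝ, 0 < δ → ∃ w, Pr w ∧ S.nr (HH S.D g V w + w - f) ≤ δ)
    {δ : ℝ} (hδ : 0 < δ) :
    ∃ w, Pr w ∧ S.I (w * w) = 1 ∧ S.nr (HH S.D g V w - E0 • w) ≤ δ := by
  set M := E0 + 1 with hM
  have hM1 : 1 ≤ M := by linarith
  have hM0 : 0 < M := by linarith
  set d := min (1 / 4) (δ / (8 * M)) with hd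
  have hd0 : 0 < d := lt_min (by norm_num) (by positivity)
  have hd4 : d ≤ 1 / 4 := min_le_left _ _
  have hdδ : 8 * M * d ≤ δ := by
    have := min_le_right (1 / 4) (δ / (8 * M))
    rw [← hd, le_div_iff₀ (by positivity)] at this
    linarith
  obtain ⟨f, hf, hf1, hf2⟩ := hinf (d ^ 2) (by positivity)
  obtain ⟨w, hw, hwd⟩ := hdense f hf d hd0
  set e := HH S.D g V w + w - f with he
  set a := HH S.D g V w - E0 • w with ha
  have hae : a + M • w = f + e := by
    rw [he, ha, hM, add_smul, one_smul]; abel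
  have hq0 : 0 ≤ S.enr g V E0 w w := hpos w hw
  have hqa : S.enr g V E0 w w = S.I (a * w) := by
    unfold Fn.enr; rw [mul_comm]
  -- Cauchy-Schwarz in the invariant sector
  have hcs : (S.I (a * f)) ^ 2 ≤ d ^ 2 * S.enr g V E0 w w := by
    have h1 : (S.enr g V E0 f w) ^ 2 ≤ S.enr g V E0 f f * S.enr g V E0 w w := by
      refine Fn.sq_le_of_forall fun t => ?_
      have h := hpos (f + t • w) (hadd _ _ hf (hsmul t w hw))
      have e1 : S.enr g V E0 (f + t • w) (f + t • w) = S.enr g V E0 f f + t * S.enr g V E0 f w +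
          t * S.enr g V E0 w f + t ^ 2 * S.enr g V E0 w w := by
        unfold Fn.enr
        rw [S.HH_add, HH_smul]
        have : (f + t • w) * (HH S.D g V f + t • HH S.D g V w - E0 • (f + t • w)) =
            f * (HH S.D g V f - E0 • f) + t • (f * (HH S.D g V w - E0 • w)) +
              t • (w * (HH S.D g V f - E0 • f)) + (t ^ 2) • (w * (HH S.D g V w - E0 • w)) := by
          simp only [Algebra.smul_def, map_pow]; ring
        rw [this]
        simp only [map_add, map_smul, smul_eq_mul]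
      rw [e1, S.enr_symm g V E0 w f] at h
      linarith
    have h2 : S.enr g V E0 f w = S.I (a * f) := by
      unfold Fn.enr; rw [mul_comm]
    rw [h2] at h1
    exact h1.trans (mul_le_mul_of_nonneg_right hf2 hq0)
  have hx : S.I (a * f) ≤ (d ^ 2 + S.enr g V E0 w w) / 2 := by
    refine (le_abs_self _).trans (abs_le_of_sq_le_sq (hcs.trans ?_) (by positivity))
    nlinarith [sq_nonneg (d ^ 2 - S.enr g V E0 w w)]
  have hy : S.I (a * e) ≤ (S.nr a ^ 2 + d ^ 2) / 2 := by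
    have h1 := (le_abs_self _).trans (nr_cs (S := S) a e)
    have h2 : S.nr a * S.nr e ≤ S.nr a * d := mul_le_mul_of_nonneg_left hwd (nr_nonneg _)
    nlinarith [sq_nonneg (S.nr a - d)]
  have hsum : S.nr a ^ 2 + M * S.enr g V E0 w w = S.I (a * f) + S.I (a * e) := by
    rw [← map_add, ← mul_add, ← hae, mul_add, map_add, mul_smul_comm, map_smul, smul_eq_mul,
      nr_sq, hqa]
  have hMq : S.enr g V E0 w w ≤ M * S.enr g V E0 w w := le_mul_of_one_le_left hq0 hM1
  have ha2 : S.nr a ^ 2 ≤ (2 * d) ^ 2 := by nlinarith [sq_nonneg d]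
  have ha' : S.nr a ≤ 2 * d := (pow_le_pow_iff_left₀ (nr_nonneg _) (by positivity)
    two_ne_zero).1 ha2
  have hf1' : S.nr f = 1 := by
    unfold Fn.nr
    rw [hf1, Real.sqrt_one]
  have hnw : 1 / (4 * M) ≤ S.nr w := by
    have h1 : f = M • w + (a - e) := by
      rw [← add_sub_assoc, add_comm (M • w) a, hae, add_sub_cancel_right]
    have h2 : S.nr f ≤ M * S.nr w + (S.nr a + S.nr e) := by
      rw [h1]
      refine (nr_add _ _).trans ?_
      rw [nr_smul, abs_of_pos hM0]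
      have := nr_sub_le (S := S) a e
      linarith
    rw [hf1'] at h2
    rw [div_le_iff₀ (by positivity)]
    nlinarith
  have hnw0 : 0 < S.nr w := lt_of_lt_of_le (by positivity) hnw
  refine ⟨(1 / S.nr w) • w, hsmul _ _ hw, ?_, ?_⟩
  · rw [smul_mul_smul_comm, map_smul, ← nr_sq, smul_eq_mul]
    field_simp
  · have h1 : HH S.D g V ((1 / S.nr w) • w) - E0 • (1 / S.nr w) • w = (1 / S.nr w) • a := by
      rw [HH_smul, ha, smul_sub, smul_comm]
    rw [h1, nr_smul, abs_of_pos (by positivity), div_mul_eq_mul_div, one_mul,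
      div_le_iff₀ hnw0]
    have h2 : 8 * M * d * (1 / (4 * M)) = 2 * d := by field_simp; ring
    have h3 : 8 * M * d * (1 / (4 * M)) ≤ δ * S.nr w :=
      mul_le_mul hdδ hnw (by positivity) hδ.le
    linarith

end

end Pool.Agent.H906R3.YM
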