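import Mathlib
import Pool.Agent.H906R3.YM.Adj

/-!
# The smeared magnetic flux of a block and its derivatives at flat configurations
-/

open Matrix
open scoped Matrix.Norms.Frobenius ContDiff

namespace Pool.Agent.H906R3.YM

set_option linter.unusedSectionVars false

noncomputable section

section abs

variable {A : Type*} [CommRing A] [Algebra ℝ A] {J : Type*} [Fintype J]
  {D : J → Derivation ℝ A A} {K : Type*} [Fintype K]

lemma Gam_halfsq (φ : A) (f : K → A) :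
    Gam D φ ((1 / 2 : ℝ) • ∑ k, f k * f k) = ∑ k, f k * Gam D φ (f k) := by
  rw [Gam_smul, Gam_sum, Finset.smul_sum]
  refine Finset.sum_congr rfl fun k _ => ?_
  rw [Gam_mul, ← two_smul ℝ, smul_smul]
  norm_num

lemma Gam_Gam_halfsq (φ : A) (f : K → A) :
    Gam D φ (Gam D φ ((1 / 2 : ℝ) • ∑ k, f k * f k)) =
      ∑ k, (f k * Gam D φ (Gam D φ (f k)) + Gam D φ (f k) * Gam D φ (f k)) := by
  rw [Gam_halfsq, Gam_sum]
  exact Finset.sum_congr rfl fun k _ => Gam_mul _ _ _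

lemma ev_Gam_Gam (e : A →ₐ[ℝ] ℝ) (φ : A) (f : K → A) (h : ∀ k, e (f k) = 0) :
    e (Gam D φ (Gam D φ ((1 / 2 : ℝ) • ∑ k, f k * f k))) = ∑ k, e (Gam D φ (f k)) ^ 2 := by
  rw [Gam_Gam_halfsq, map_sum]
  refine Finset.sum_congr rfl fun k _ => ?_
  rw [map_add, map_mul, map_mul, h, zero_mul, zero_add, sq]

end abs

variable {G : Type*} [Group G] [TopologicalSpace G] {N n : ℕ} {L : LD G N n} {D m : ℕ}

/-- admissible plaquettes of the block -/
def cond (q : (Fin D → Fin m) × Fin D × Fin D) : Prop :=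
  q.2.1 < q.2.2 ∧ (q.1 q.2.1 : ℕ) + 1 < m ∧ (q.1 q.2.2 : ℕ) + 1 < m

instance : DecidablePred (cond (D := D) (m := m)) := fun q => by unfold cond; infer_instance

/-- index set of the plaquettes of the block -/
abbrev Qi (D m : ℕ) := {q : (Fin D → Fin m) × Fin D × Fin D // cond q}

/-- one minus the plaquette matrix -/
def pmf (L : LD G N n) (q : Qi D m) (U : Sb D m → G) : Mat N :=
  1 - L.rho (plq (ext U) (cv q.1.1) q.1.2.1 q.1.2.2)

lemma SmM_pmf (q : Qi D m) : SmM L (pmf L q) := (SmM.const 1).sub (SmG.plq _ _ _)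

/-- coordinate functions of the plaquettes -/
def ff (L : LD G N n) (k : Qi D m × (Fin N × Fin N × Bool)) : Sm L (Sb D m) :=
  lin (co k.2) (pmf L k.1) (SmM_pmf k.1)

/-- the magnetic energy of the block -/
def VS (L : LD G N n) (D m : ℕ) : Sm L (Sb D m) :=
  (1 / 2 : ℝ) • ∑ k : Qi D m × (Fin N × Fin N × Bool), ff L k * ff L k

/-- plaquette energy -/
def we (L : LD G N n) (g : G) : ℝ := (trace (1 - L.rho g)).re

lemma we_eq (g : G) : we L g = 1 / 2 * (trace ((1 - L.rho g)ᴴ * (1 - L.rho g))).re := by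
  have h1 : (1 - L.rho g)ᴴ * (1 - L.rho g) = (1 - L.rho g) + (1 - L.rho g)ᴴ := by
    rw [conjTranspose_sub, conjTranspose_one, sub_mul, mul_sub, mul_sub, one_mul, one_mul,
      mul_one, L.unit']
    abel
  rw [h1, trace_add, Complex.add_re, trace_conjTranspose]
  unfold we
  simp
  ring

lemma sum_ff (q : Qi D m) (U : Sb D m → G) :
    (1 / 2 : ℝ) * ∑ c, (L.ev U (ff L (q, c))) ^ 2 = we L (plq (ext U) (cv q.1.1) q.1.2.1 q.1.2.2) := by
  rw [we_eq, ← sum_co_sq]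
  rfl

lemma VS_apply (U : Sb D m → G) :
    L.ev U (VS L D m) = ∑ q : Qi D m, we L (plq (ext U) (cv q.1.1) q.1.2.1 q.1.2.2) := by
  unfold VS
  rw [map_smul, map_sum, smul_eq_mul, Fintype.sum_prod_type, Finset.mul_sum]
  refine Finset.sum_congr rfl fun q _ => ?_
  rw [← sum_ff]
  congr 1
  exact Finset.sum_congr rfl fun c _ => by rw [map_mul]; ring

lemma we_nonneg (g : G) : 0 ≤ we L g := by
  rw [we_eq, ← sum_co_sq]
  exact mul_nonneg (by norm_num) (Finset.sum_nonneg fun _ _ => sq_nonneg _)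

lemma we_zero {g : G} (h : we L g = 0) : L.rho g = 1 := by
  rw [we_eq, ← sum_co_sq] at h
  have h1 : ∑ c, co c (1 - L.rho g) ^ 2 = 0 := by linarith
  rw [Finset.sum_eq_zero_iff_of_nonneg fun _ _ => sq_nonneg _] at h1
  have h2 : 1 - L.rho g = 0 := by
    ext i j
    have hr : co (i, j, true) (1 - L.rho g) = 0 := by
      have := h1 (i, j, true) (Finset.mem_univ _)
      exact pow_eq_zero_iff two_ne_zero |>.1 this
    have hi : co (i, j, false) (1 - L.rho g) = 0 := by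
      have := h1 (i, j, false) (Finset.mem_univ _)
      exact pow_eq_zero_iff two_ne_zero |>.1 this
    exact Complex.ext hr hi
  exact (sub_eq_zero.1 h2).symm

/-- vanishing magnetic energy -/
def IsFl (L : LD G N n) (U : Sb D m → G) : Prop := L.ev U (VS L D m) = 0

lemma IsFl.plq {U : Sb D m → G} (h : IsFl L U) (q : Qi D m) :
    L.rho (plq (ext U) (cv q.1.1) q.1.2.1 q.1.2.2) = 1 := by
  unfold IsFl at h
  rw [VS_apply, Finset.sum_eq_zero_iff_of_nonneg fun _ _ => we_nonneg _] at h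
  exact we_zero (h q (Finset.mem_univ _))

lemma IsFl.ff {U : Sb D m → G} (h : IsFl L U) (k : Qi D m × (Fin N × Fin N × Bool)) :
    L.ev U (ff L k) = 0 := by
  show co k.2 (1 - L.rho _) = 0
  rw [h.plq k.1, sub_self, map_zero]

lemma IsFl.flat {U : Sb D m → G} (h : IsFl L U) : Flat L.rho (ext U) m := by
  intro v μ ν hμν hv h1 h2
  have h3 := h.plq ⟨(fun i => ⟨v i, hv i⟩, μ, ν), hμν, h1, h2⟩
  have h4 : cv (fun i => (⟨v i, hv i⟩ : Fin m)) = v := rfl
  simp only [h4] at h3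
  unfold YM.plq at h3
  rw [map_mul, map_mul, map_mul, L.rho_inv, L.rho_inv] at h3
  have h5 := L.unit' (ext U v ν)
  have h6 := L.unit' (ext U (v + es ν) μ)
  calc L.rho (ext U v μ) * L.rho (ext U (v + es μ) ν)
      = L.rho (ext U v μ) * L.rho (ext U (v + es μ) ν) *
          ((L.rho (ext U (v + es ν) μ))ᴴ * L.rho (ext U (v + es ν) μ)) := by rw [h6, mul_one]
    _ = (L.rho (ext U v μ) * L.rho (ext U (v + es μ) ν) * (L.rho (ext U (v + es ν) μ))ᴴ) *
          ((L.rho (ext U v ν))ᴴ * L.rho (ext U v ν)) * L.rho (ext U (v + es ν) μ) := by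
        rw [h5]; simp only [Matrix.mul_assoc, Matrix.one_mul]
    _ = (L.rho (ext U v μ) * L.rho (ext U (v + es μ) ν) * (L.rho (ext U (v + es ν) μ))ᴴ *
          (L.rho (ext U v ν))ᴴ) * L.rho (ext U v ν) * L.rho (ext U (v + es ν) μ) := by
        simp only [Matrix.mul_assoc]
    _ = _ := by rw [h3, one_mul]

section flux

variable (K : Pt D → ℝ) (i0 i1 : Fin D)

/-- smeared magnetic flux, transported to the corner of the inner block -/
def MMf (L : LD G N n) (K : Pt D → ℝ) (i0 i1 : Fin D) (U : Sb D m → G) : Mat N :=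
  ∑ x : Fin D → Fin m, K (cv x) • (L.rho (trI U (cv x)) *
    (L.rho (plq (ext U) (cv x) i0 i1) - 1) * (L.rho (trI U (cv x)))ᴴ)

lemma SmM_MMf : SmM L (MMf (m := m) L K i0 i1) := by
  refine SmM.sum _ fun x => SmM.smul ?_ _
  exact SmM.mul (SmM.mul (SmG.trI _) (SmM.sub (SmG.plq _ _ _) (SmM.const 1)))
    (SmM.ct (SmG.trI _))

/-- components of the flux -/
def Phi (L : LD G N n) (m : ℕ) (K : Pt D → ℝ) (i0 i1 : Fin D) (a : Fin n) : Sm L (Sb D m) :=
  lin (ip (L.X a)) (MMf L K i0 i1) (SmM_MMf K i0 i1)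

/-- the covariant curl of `K` -/
def hh (K : Pt D → ℝ) (i0 i1 : Fin D) (s : Sb D m) : ℝ :=
  ∑ x : Fin D → Fin m, K (cv x) * inc (cv x) i0 i1 s

variable {K i0 i1} (h01 : i0 < i1) (hK : ∀ x : Pt D, K x ≠ 0 → ∀ i, 2 ≤ x i ∧ x i + 3 ≤ m)

include h01 hK

lemma hasDeriv_MM {U : Sb D m → G} (hU : IsFl L U) (s : Sb D m) (a : Fin n) :
    HasDerivAt (fun t => MMf L K i0 i1 (L.shift s a t U))
      (hh K i0 i1 s • (L.rho ((fr (ext U) 1)⁻¹ * fr (ext U) (cv s.1)) * L.X a *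
        (L.rho ((fr (ext U) 1)⁻¹ * fr (ext U) (cv s.1)))ᴴ)) 0 := by
  have hf := hU.flat
  unfold MMf hh
  rw [Finset.sum_smul]
  have h0 : HasDerivAt (fun t => ∑ x : Fin D → Fin m, K (cv x) •
      (L.rho (trI (L.shift s a t U) (cv x)) *
        (L.rho (plq (ext (L.shift s a t U)) (cv x) i0 i1) - 1) *
        (L.rho (trI (L.shift s a t U) (cv x)))ᴴ))
      (∑ x : Fin D → Fin m, (K (cv x) * inc (cv x) i0 i1 s) •
        (L.rho ((fr (ext U) 1)⁻¹ * fr (ext U) (cv s.1)) * L.X a *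
        (L.rho ((fr (ext U) 1)⁻¹ * fr (ext U) (cv s.1)))ᴴ)) 0 := by
    refine HasDerivAt.fun_sum fun x _ => ?_
    by_cases hx : K (cv x) = 0
    · rw [hx]
      simp only [zero_smul, zero_mul]
      exact hasDerivAt_const _ _
    · have hsup := hK _ hx
      have hxm : ∀ i, cv x i < m := fun i => (x i).2
      have hcond : cond (x, i0, i1) := ⟨h01, by
          have := (hsup i0).2
          show (x i0 : ℕ) + 1 < m
          unfold cv at this; omega, by
          have := (hsup i1).2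
          show (x i1 : ℕ) + 1 < m
          unfold cv at this; omega⟩
      have hone : L.rho (plq (ext U) (cv x) i0 i1) = 1 := hU.plq ⟨(x, i0, i1), hcond⟩
      obtain ⟨P', hP'⟩ := (SmG.trI (L := L) (m := m) (cv x)).hasDeriv s a U
      have hY := hasDeriv_plq hf (w := cv x) h01 hxm hcond.2.1 hcond.2.2 s a
      have h5 := ((hP'.mul (hY.sub_const 1)).mul (hasDeriv_ct hP')).const_smul (K (cv x))
      refine h5.congr_deriv ?_
      simp only [L.shift_zero, Pi.mul_apply, hone, sub_self, mul_zero, zero_mul, zero_add, add_zero]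
      have h6 : cv x - 1 + 1 = cv x := by
        funext i
        have := (hsup i).1
        simp only [Pi.add_apply, Pi.sub_apply, Pi.one_apply]; omega
      have h7 := fr_inner hf (cv x - 1) (fun i => by
        have := (hsup i).2
        simp only [Pi.sub_apply, Pi.one_apply]; omega)
      rw [h6] at h7
      have h8 : L.rho (trI U (cv x)) = L.rho ((fr (ext U) 1)⁻¹ * fr (ext U) (cv x)) := by
        rw [map_mul, ← h7, ← mul_assoc, ← map_mul, inv_mul_cancel, map_one, one_mul]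
        rfl
      rw [h8, mul_smul_comm, smul_mul_assoc, smul_smul]
      congr 1
      have h9 : ∀ p q r : G, L.rho (p⁻¹ * q) * (L.rho (q⁻¹ * r) * L.X a * (L.rho (q⁻¹ * r))ᴴ) *
          (L.rho (p⁻¹ * q))ᴴ = L.rho (p⁻¹ * r) * L.X a * (L.rho (p⁻¹ * r))ᴴ := by
        intro p q r
        have h10 : L.rho (p⁻¹ * r) = L.rho (p⁻¹ * q) * L.rho (q⁻¹ * r) := by
          rw [← map_mul]; congr 1; group
        rw [h10, conjTranspose_mul]
        simp only [Matrix.mul_assoc]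
      exact h9 _ _ _
  exact h0

lemma Dv_Phi {U : Sb D m → G} (hU : IsFl L U) (j : Sb D m × Fin n) (b : Fin n) :
    L.ev U (L.Dv j (Phi L m K i0 i1 b)) =
      hh K i0 i1 j.1 * L.adm ((fr (ext U) 1)⁻¹ * fr (ext U) (cv j.1.1)) b j.2 := by
  have h1 := Dv_lin (ip (L.X b)) (MMf (m := m) L K i0 i1) (SmM_MMf K i0 i1) j U
    (hasDeriv_MM h01 hK hU j.1 j.2)
  refine h1.trans ?_
  rw [map_smul, smul_eq_mul]
  rfl

omit h01 hK in
lemma Dv_ff {U : Sb D m → G} (hU : IsFl L U) (j : Sb D m × Fin n)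
    (k : Qi D m × (Fin N × Fin N × Bool)) :
    L.ev U (L.Dv j (ff L k)) =
      -(inc (cv k.1.1.1) k.1.1.2.1 k.1.1.2.2 j.1 * co k.2
        (L.rho ((fr (ext U) (cv k.1.1.1))⁻¹ * fr (ext U) (cv j.1.1)) * L.X j.2 *
        (L.rho ((fr (ext U) (cv k.1.1.1))⁻¹ * fr (ext U) (cv j.1.1)))ᴴ)) := by
  have hq := k.1.2
  have hY := hasDeriv_plq hU.flat (w := cv k.1.1.1) hq.1 (fun i => (k.1.1.1 i).2) hq.2.1 hq.2.2
    j.1 j.2
  have h1 := Dv_lin (co k.2) (pmf L k.1) (SmM_pmf k.1) j U (hY.const_sub 1)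
  refine h1.trans ?_
  rw [map_neg, map_smul, smul_eq_mul]

/-- flux of the curl through a plaquette -/
def ll (K : Pt D → ℝ) (i0 i1 : Fin D) (q : Qi D m) : ℝ :=
  ∑ s : Sb D m, hh K i0 i1 s * inc (cv q.1.1) q.1.2.1 q.1.2.2 s

lemma Gam_Phi_Phi {U : Sb D m → G} (hU : IsFl L U) (b b' : Fin n) :
    L.ev U (Gam L.Dv (Phi L m K i0 i1 b) (Phi L m K i0 i1 b')) =
      if b = b' then ∑ s : Sb D m, hh K i0 i1 s ^ 2 else 0 := by
  unfold Gam
  rw [map_sum, Fintype.sum_prod_type]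
  have h1 : ∀ s : Sb D m, ∑ a : Fin n, L.ev U (L.Dv (s, a) (Phi L m K i0 i1 b) *
      L.Dv (s, a) (Phi L m K i0 i1 b')) = hh K i0 i1 s ^ 2 * if b = b' then 1 else 0 := by
    intro s
    rw [← sum_adm_adm (L := L) ((fr (ext U) 1)⁻¹ * fr (ext U) (cv s.1)) b b', Finset.mul_sum]
    refine Finset.sum_congr rfl fun a _ => ?_
    rw [map_mul, Dv_Phi h01 hK hU, Dv_Phi h01 hK hU]
    ring
  rw [Finset.sum_congr rfl fun s _ => h1 s, ← Finset.sum_mul]
  split_ifs <;> simp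

lemma Gam_Phi_ff {U : Sb D m → G} (hU : IsFl L U) (b : Fin n)
    (k : Qi D m × (Fin N × Fin N × Bool)) :
    L.ev U (Gam L.Dv (Phi L m K i0 i1 b) (ff L k)) =
      -(ll K i0 i1 k.1 * co k.2
        (L.rho ((fr (ext U) (cv k.1.1.1))⁻¹ * fr (ext U) 1) * L.X b *
        (L.rho ((fr (ext U) (cv k.1.1.1))⁻¹ * fr (ext U) 1))ᴴ)) := by
  unfold Gam ll
  rw [map_sum, Fintype.sum_prod_type, Finset.sum_mul, ← Finset.sum_neg_distrib]
  refine Finset.sum_congr rfl fun s _ => ?_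
  have h1 := sum_adm_conj (L := L) ((fr (ext U) 1)⁻¹ * fr (ext U) (cv s.1)) b
  rw [← h1, Finset.mul_sum, Finset.sum_mul, map_sum, Finset.mul_sum, ← Finset.sum_neg_distrib]
  refine Finset.sum_congr rfl fun a _ => ?_
  rw [map_mul, Dv_Phi h01 hK hU, Dv_ff hU]
  have h10 : ∀ p q r : G, L.rho (p⁻¹ * r) = L.rho (p⁻¹ * q) * L.rho (q⁻¹ * r) := by
    intro p q r
    rw [← map_mul]; congr 1; group
  rw [h10 (fr (ext U) (cv k.1.1.1)) (fr (ext U) 1) (fr (ext U) (cv s.1)), conjTranspose_mul,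
    mul_smul_comm, smul_mul_assoc, map_smul, smul_eq_mul]
  have h11 : ∀ P R Y : Mat N, P * R * Y * (Rᴴ * Pᴴ) = P * (R * Y * Rᴴ) * Pᴴ := by
    intro P R Y
    simp only [Matrix.mul_assoc]
  rw [h11]
  ring

lemma GamGam_VS {U : Sb D m → G} (hU : IsFl L U) (b : Fin n) :
    L.ev U (Gam L.Dv (Phi L m K i0 i1 b) (Gam L.Dv (Phi L m K i0 i1 b) (VS L D m))) =
      ∑ q : Qi D m, ll K i0 i1 q ^ 2 := by
  unfold VS
  rw [ev_Gam_Gam (L.ev U) _ (ff L) hU.ff, Fintype.sum_prod_type]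
  refine Finset.sum_congr rfl fun q _ => ?_
  have h1 : ∀ c, (L.ev U (Gam L.Dv (Phi L m K i0 i1 b) (ff L (q, c)))) ^ 2 =
      ll K i0 i1 q ^ 2 * co c (L.rho ((fr (ext U) (cv q.1.1))⁻¹ * fr (ext U) 1) * L.X b *
        (L.rho ((fr (ext U) (cv q.1.1))⁻¹ * fr (ext U) 1))ᴴ) ^ 2 := by
    intro c
    rw [Gam_Phi_ff h01 hK hU, neg_sq, mul_pow]
  rw [Finset.sum_congr rfl fun c _ => h1 c, ← Finset.mul_sum, sum_co_sq]
  have h2 := ip_X (L := L) b b
  rw [if_pos rfl] at h2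
  have h3 : (trace ((L.rho ((fr (ext U) (cv q.1.1))⁻¹ * fr (ext U) 1) * L.X b *
        (L.rho ((fr (ext U) (cv q.1.1))⁻¹ * fr (ext U) 1))ᴴ)ᴴ *
        (L.rho ((fr (ext U) (cv q.1.1))⁻¹ * fr (ext U) 1) * L.X b *
        (L.rho ((fr (ext U) (cv q.1.1))⁻¹ * fr (ext U) 1))ᴴ))).re = 1 := by
    set R := L.rho ((fr (ext U) (cv q.1.1))⁻¹ * fr (ext U) 1) with hR
    have h4 : (trace ((R * L.X b * Rᴴ)ᴴ * (R * L.X b * Rᴴ))).re =
        ip (R * L.X b * Rᴴ) (R * L.X b * Rᴴ) := rfl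
    rw [h4, ip_conj]
    have h5 : Rᴴ * (R * L.X b * Rᴴ) * R = L.X b := by
      have h6 : Rᴴ * R = 1 := L.unit' _
      calc Rᴴ * (R * L.X b * Rᴴ) * R = (Rᴴ * R) * L.X b * (Rᴴ * R) := by
            simp only [Matrix.mul_assoc]
        _ = L.X b := by rw [h6, one_mul, mul_one]
    rw [h5, h2]
  rw [h3, mul_one]

end flux

end

end Pool.Agent.H906R3.YM
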