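import Mathlib
import Pool.Agent.H906R3.YM.Phi
import Pool.Agent.H906R3.YM.Block

/-!
# The local theorem: a low excitation supported in a block
-/

open MeasureTheory Matrix
open scoped Matrix.Norms.Frobenius ContDiff

namespace Pool.Agent.H906R3.YM

set_option linter.unusedSectionVars false

noncomputable section

variable {G : Type*} [Group G] [TopologicalSpace G] {N n : ℕ} {L : LD G N n} {D m : ℕ}

/-! ### dependence on the inner links only -/

/-- inner links of the block -/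
def Inner (s : Sb D m) : Prop := ∀ i, 1 ≤ (s.1 i : ℕ) ∧ (s.1 i : ℕ) + 1 < m

lemma ext_congr {U U' : Sb D m → G} (h : ∀ s, Inner s → U s = U' s) {w : Pt D} (μ : Fin D)
    (hw : ∀ i, 1 ≤ w i ∧ w i + 1 < m) : ext U w μ = ext U' w μ := by
  have hwm : ∀ i, w i < m := fun i => by have := (hw i).2; omega
  unfold ext
  rw [dif_pos hwm, dif_pos hwm]
  exact h _ hw

lemma trI_congr {U U' : Sb D m → G} (h : ∀ s, Inner s → U s = U' s) {x : Pt D}
    (hx : ∀ i, 2 ≤ x i ∧ x i + 3 ≤ m) : trI U x = trI U' x := by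
  unfold trI
  refine fr_congr _ fun v hv μ => ?_
  refine ext_congr h μ fun i => ?_
  have h1 := hv i
  have h2 := hx i
  simp only [Pi.sub_apply, Pi.one_apply] at h1
  simp only [Pi.add_apply, Pi.one_apply]
  omega

lemma plq_congr {U U' : Sb D m → G} (h : ∀ s, Inner s → U s = U' s) {x : Pt D}
    (hx : ∀ i, 2 ≤ x i ∧ x i + 3 ≤ m) (μ ν : Fin D) :
    plq (ext U) x μ ν = plq (ext U') x μ ν := by
  have h1 : ∀ i, 1 ≤ x i ∧ x i + 1 < m := fun i => by have := hx i; omega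
  have h2 : ∀ (κ i : Fin D), 1 ≤ (x + es κ : Pt D) i ∧ (x + es κ : Pt D) i + 1 < m := fun κ i => by
    have := hx i
    by_cases hi : i = κ
    · subst hi; simp only [Pi.add_apply, es_same]; omega
    · simp only [Pi.add_apply, es_ne hi]; omega
  unfold plq
  rw [ext_congr h μ h1, ext_congr h ν (h2 μ), ext_congr h μ (h2 ν), ext_congr h ν h1]

variable {K : Pt D → ℝ} {i0 i1 : Fin D} (h01 : i0 < i1)
  (hK : ∀ x : Pt D, K x ≠ 0 → ∀ i, 2 ≤ x i ∧ x i + 3 ≤ m)

include hK in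
lemma MMf_congr {U U' : Sb D m → G} (h : ∀ s, Inner s → U s = U' s) :
    MMf L K i0 i1 U = MMf L K i0 i1 U' := by
  unfold MMf
  refine Finset.sum_congr rfl fun x _ => ?_
  by_cases hx : K (cv x) = 0
  · rw [hx, zero_smul, zero_smul]
  · rw [trI_congr h (hK _ hx), plq_congr h (hK _ hx)]

include hK in
lemma Dv_Phi_outer (k : Sb D m × Fin n) (hk : ¬Inner k.1) (b : Fin n) :
    L.Dv k (Phi L m K i0 i1 b) = 0 := by
  refine ev_ext fun U => ?_
  rw [ev_apply, Dv_apply, map_zero]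
  unfold LD.dF
  have h1 : (fun t => (Phi L m K i0 i1 b).1 (L.shift k.1 k.2 t U)) =
      fun t => (Phi L m K i0 i1 b).1 U := by
    funext t
    show ip (L.X b) (MMf L K i0 i1 _) = ip (L.X b) (MMf L K i0 i1 _)
    rw [MMf_congr hK (U := L.shift k.1 k.2 t U) (U' := U)]
    intro s hs
    unfold LD.shift
    have hne : s ≠ k.1 := fun hh => hk (hh ▸ hs)
    rw [Pi.mul_apply, Pi.mulSingle_eq_of_ne hne, one_mul]
  rw [h1]
  exact deriv_const _ _

/-! ### soft bounds -/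

section soft

variable [CompactSpace G]

lemma soft (F : (Sb D m → G) → ℝ) (hF : Continuous F) (c δ : ℝ) (hδ : 0 < δ)
    (h : ∀ U, IsFl L U → F U ≤ c) :
    ∃ C : ℝ, 0 ≤ C ∧ ∀ U, F U ≤ c + δ + C * L.ev U (VS L D m) := by
  have hVc : Continuous fun U => L.ev U (VS L D m) := Sm_cont (VS L D m)
  have hV0 : ∀ U, 0 ≤ L.ev U (VS L D m) := fun U => by
    rw [VS_apply]; exact Finset.sum_nonneg fun _ _ => we_nonneg _
  have hcl : IsClosed {U | c + δ ≤ F U} := isClosed_le continuous_const hF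
  by_cases hne : ({U | c + δ ≤ F U} : Set (Sb D m → G)).Nonempty
  · obtain ⟨U1, hU1, hmin⟩ := hcl.isCompact.exists_isMinOn hne hVc.continuousOn
    obtain ⟨U2, -, hmax⟩ := isCompact_univ.exists_isMaxOn Set.univ_nonempty hF.continuousOn
    have hpos : 0 < L.ev U1 (VS L D m) := by
      rcases (hV0 U1).lt_or_eq with h1 | h1
      · exact h1
      · exfalso
        have := h U1 h1.symm
        have h2 : c + δ ≤ F U1 := hU1
        linarith
    have hM : c + δ ≤ F U2 := le_trans hU1 (hmax (Set.mem_univ U1))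
    refine ⟨(F U2 - c) / L.ev U1 (VS L D m), div_nonneg (by linarith) hpos.le, fun U => ?_⟩
    by_cases hU : c + δ ≤ F U
    · have h3 : L.ev U1 (VS L D m) ≤ L.ev U (VS L D m) := hmin hU
      have h4 : F U ≤ F U2 := hmax (Set.mem_univ U)
      have h5 : F U2 - c ≤ (F U2 - c) / L.ev U1 (VS L D m) * L.ev U (VS L D m) := by
        rw [div_mul_eq_mul_div, le_div_iff₀ hpos]
        exact mul_le_mul_of_nonneg_left h3 (by linarith)
      linarith
    · rw [not_le] at hU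
      have : 0 ≤ (F U2 - c) / L.ev U1 (VS L D m) * L.ev U (VS L D m) :=
        mul_nonneg (div_nonneg (by linarith) hpos.le) (hV0 U)
      linarith
  · refine ⟨0, le_rfl, fun U => ?_⟩
    by_contra hc
    exact hne ⟨U, by
      simp only [zero_mul, add_zero, not_le] at hc
      exact hc.le⟩

include h01 hK

lemma soft_consts {ah τ : ℝ} (hah : ah = ∑ s : Sb D m, hh K i0 i1 s ^ 2) (hah0 : 0 < ah)
    (hn : 0 < n) (hτ : 0 < τ) (hll : ∑ q : Qi D m, ll K i0 i1 q ^ 2 ≤ τ ^ 2 * ah) :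
    ∃ C : ℝ, 0 ≤ C ∧ ∀ U : Sb D m → G,
      (∀ b, L.ev U (Gam L.Dv (Phi L m K i0 i1 b) (Gam L.Dv (Phi L m K i0 i1 b) (VS L D m))) ≤
        5 / 4 * (τ ^ 2 * ah) + C * L.ev U (VS L D m)) ∧
      (∀ b, L.ev U (Gam L.Dv (Phi L m K i0 i1 b) (Phi L m K i0 i1 b)) ≤
        3 / 2 * ah + C * L.ev U (VS L D m)) ∧
      (∑ a, ∑ b, |L.ev U (Gam L.Dv (Phi L m K i0 i1 a) (Phi L m K i0 i1 b)) -
        if a = b then ah else 0| ≤ ah / 32 + C * L.ev U (VS L D m)) ∧
      ((∑ a, L.ev U (Gam L.Dv (Phi L m K i0 i1 a) (Phi L m K i0 i1 a))) ^ 2 ≤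
        3 / 2 * (n ^ 2 * ah ^ 2) + C * L.ev U (VS L D m)) := by
  have hn1 : (1 : ℝ) ≤ n := by exact_mod_cast hn
  have hV0 : ∀ U, 0 ≤ L.ev U (VS L D m) := fun U => by
    rw [VS_apply]; exact Finset.sum_nonneg fun _ _ => we_nonneg _
  have hA : ∀ b, ∃ C : ℝ, 0 ≤ C ∧ ∀ U : Sb D m → G,
      L.ev U (Gam L.Dv (Phi L m K i0 i1 b) (Gam L.Dv (Phi L m K i0 i1 b) (VS L D m))) ≤
        τ ^ 2 * ah + 1 / 4 * (τ ^ 2 * ah) + C * L.ev U (VS L D m) := fun b =>
    soft _ (Sm_cont _) _ _ (by positivity) fun U hU => by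
      have := GamGam_VS (L := L) h01 hK hU b
      exact (le_of_eq this).trans hll
  have hB : ∀ b, ∃ C : ℝ, 0 ≤ C ∧ ∀ U : Sb D m → G,
      L.ev U (Gam L.Dv (Phi L m K i0 i1 b) (Phi L m K i0 i1 b)) ≤
        ah + 1 / 2 * ah + C * L.ev U (VS L D m) := fun b =>
    soft _ (Sm_cont _) _ _ (by positivity) fun U hU => by
      have := Gam_Phi_Phi (L := L) h01 hK hU b b
      rw [if_pos rfl, ← hah] at this
      exact le_of_eq this
  obtain ⟨C3, hC30, hC3⟩ := soft (L := L) (D := D) (m := m)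
    (fun U => ∑ a, ∑ b, |L.ev U (Gam L.Dv (Phi L m K i0 i1 a) (Phi L m K i0 i1 b)) -
        if a = b then ah else 0|)
    (by
      refine continuous_finsetSum _ fun a _ => continuous_finsetSum _ fun b _ => ?_
      exact ((Sm_cont (Gam L.Dv (Phi L m K i0 i1 a) (Phi L m K i0 i1 b))).sub
        continuous_const).abs)
    0 (ah / 32) (by positivity) (fun U hU => by
      refine le_of_eq (Finset.sum_eq_zero fun a _ => Finset.sum_eq_zero fun b _ => ?_)
      rw [Gam_Phi_Phi (L := L) h01 hK hU a b, ← hah, sub_self, abs_zero])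
  obtain ⟨C4, hC40, hC4⟩ := soft (L := L) (D := D) (m := m)
    (fun U => (∑ a, L.ev U (Gam L.Dv (Phi L m K i0 i1 a) (Phi L m K i0 i1 a))) ^ 2)
    (by
      refine Continuous.pow (continuous_finsetSum _ fun a _ => ?_) 2
      exact Sm_cont (Gam L.Dv (Phi L m K i0 i1 a) (Phi L m K i0 i1 a)))
    (n ^ 2 * ah ^ 2) (1 / 2 * (n ^ 2 * ah ^ 2)) (by positivity) (fun U hU => by
      have h1 : ∀ a, L.ev U (Gam L.Dv (Phi L m K i0 i1 a) (Phi L m K i0 i1 a)) = ah := fun a => by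
        rw [Gam_Phi_Phi (L := L) h01 hK hU a a, if_pos rfl, ← hah]
      rw [Finset.sum_congr rfl fun a _ => h1 a, Finset.sum_const, Finset.card_univ,
        Fintype.card_fin, nsmul_eq_mul, mul_pow])
  choose CA hCA0 hCA using hA
  choose CB hCB0 hCB using hB
  have hle : ∀ (f : Fin n → ℝ), (∀ b, 0 ≤ f b) → ∀ b, f b ≤ ∑ b, f b := fun f hf b =>
    Finset.single_le_sum (fun i _ => hf i) (Finset.mem_univ b)
  have hsA : 0 ≤ ∑ b, CA b := Finset.sum_nonneg fun b _ => hCA0 b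
  have hsB : 0 ≤ ∑ b, CB b := Finset.sum_nonneg fun b _ => hCB0 b
  refine ⟨∑ b, CA b + ∑ b, CB b + C3 + C4, by positivity, fun U => ⟨fun b => ?_, fun b => ?_,
    ?_, ?_⟩⟩
  · have h1 := hCA b U
    have h2 : CA b * L.ev U (VS L D m) ≤ (∑ b, CA b + ∑ b, CB b + C3 + C4) *
        L.ev U (VS L D m) :=
      mul_le_mul_of_nonneg_right (by have := hle CA hCA0 b; linarith) (hV0 U)
    linarith
  · have h1 := hCB b U
    have h2 : CB b * L.ev U (VS L D m) ≤ (∑ b, CA b + ∑ b, CB b + C3 + C4) *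
        L.ev U (VS L D m) :=
      mul_le_mul_of_nonneg_right (by have := hle CB hCB0 b; linarith) (hV0 U)
    linarith
  · have h1 := hC3 U
    have h2 : C3 * L.ev U (VS L D m) ≤ (∑ b, CA b + ∑ b, CB b + C3 + C4) *
        L.ev U (VS L D m) :=
      mul_le_mul_of_nonneg_right (by linarith) (hV0 U)
    linarith
  · have h1 := hC4 U
    have h2 : C4 * L.ev U (VS L D m) ≤ (∑ b, CA b + ∑ b, CB b + C3 + C4) *
        L.ev U (VS L D m) :=
      mul_le_mul_of_nonneg_right (by linarith) (hV0 U)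
    linarith

end soft

end

end Pool.Agent.H906R3.YM
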