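import Mathlib
import Pool.Agent.H906R3.YM.Local

/-!
# The local theorem
-/

open MeasureTheory Matrix
open scoped Matrix.Norms.Frobenius ContDiff

namespace Pool.Agent.H906R3.YM

set_option linter.unusedSectionVars false

noncomputable section

variable {G : Type*} [Group G] [TopologicalSpace G] {N n : ℕ} (L : LD G N n)
  [IsTopologicalGroup G] [CompactSpace G] [SecondCountableTopology G]
  [MeasurableSpace G] [BorelSpace G] (μ : Measure G) [IsProbabilityMeasure μ]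
  [μ.IsMulLeftInvariant]

/-- the function algebra of all links -/
abbrev fnE (E : Type*) [Fintype E] [DecidableEq E] : Fn (Sm L E) (E → G) (E × Fin n) where
  ev := L.ev
  ext _ _ h := ev_ext h
  D := L.Dv
  I := L.I μ
  I_D := I_D_zero μ
  I_mono _ _ h := I_mono μ h

/-- sup norm -/
def nrmS {S : Type*} [Fintype S] (b : Sm L S) : ℝ := sSup (Set.range fun U => |b.1 U|)

variable {L}

lemma le_nrmS {S : Type*} [Fintype S] [DecidableEq S] (b : Sm L S) (U : S → G) :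
    |b.1 U| ≤ nrmS L b := by
  have hc : Continuous fun U => |b.1 U| := (Sm_cont b).abs
  have hb : BddAbove (Set.range fun U => |b.1 U|) := by
    have := (isCompact_univ.image hc).bddAbove
    rwa [Set.image_univ] at this
  exact le_csSup hb ⟨U, rfl⟩

variable {E : Type*} [Fintype E] [DecidableEq E]

/-- a block of links -/
def blkE {S : Type*} [Fintype S] [DecidableEq S] (ι : S → E) (hι : Function.Injective ι) :
    Blk (fnE L μ E) (Sm L S) (L.Dv (E := S)) (L.sig (S := S)) (nrmS L) where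
  pl := pull ι
  kap k := (ι k.1, k.2)
  inj := by
    intro k l h
    exact Prod.ext (hι (Prod.ext_iff.1 h).1) (Prod.ext_iff.1 h).2
  h1 k F := Dv_pull hι k F
  h2 j hj F := by
    refine Dv_pull_zero j.1 (fun s hs => hj (s, j.2) ?_) j.2 F
    rw [hs]
  h3 i l u := by
    have h := Dv_comm (L := L) (ι i.1, i.2) (ι l.1, l.2) u
    have h' := sum_sig (L := L) (ι i.1, i.2) (ι l.1, l.2) fun k => L.Dv k u
    have h'' := sum_sig (L := L) i l fun k => L.Dv (ι k.1, k.2) u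
    refine (h.trans h').trans (Eq.trans ?_ h''.symm)
    simp only [hι.eq_iff]
  h4 j hj k u := by
    have h := Dv_comm (L := L) j (ι k.1, k.2) u
    have h' := sum_sig (L := L) j (ι k.1, k.2) fun k => L.Dv k u
    have hne : ¬ j.1 = ι k.1 := fun hh => hj (k.1, j.2) (by
      show (ι k.1, j.2) = j
      rw [← hh])
    rw [if_neg hne] at h'
    exact sub_eq_zero.1 (h.trans h')
  hnrm b x := le_nrmS b _

/-- the smooth radius -/
def rad {K : Type*} [Fintype K] (Φ : K → Sm L E) (s : ℝ) (hs : 0 < s) : Sm L E :=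
  ⟨fun U => Real.sqrt (s ^ 2 + ∑ a, (Φ a).1 U * (Φ a).1 U), by
    choose f hf h using fun a => (Φ a).2
    refine ⟨fun M => Real.sqrt (s ^ 2 + ∑ a, f a M * f a M), ?_, fun U => ?_⟩
    · refine ContDiff.sqrt (contDiff_const.add (ContDiff.sum fun a _ => (hf a).mul (hf a))) ?_
      intro M
      have : 0 ≤ ∑ a, f a M * f a M := Finset.sum_nonneg fun a _ => mul_self_nonneg _
      positivity
    · simp only [h]⟩

/-- the inverse of the smooth radius -/
def radi {K : Type*} [Fintype K] (Φ : K → Sm L E) (s : ℝ) (hs : 0 < s) : Sm L E :=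
  ⟨fun U => (Real.sqrt (s ^ 2 + ∑ a, (Φ a).1 U * (Φ a).1 U))⁻¹, by
    choose f hf h using fun a => (Φ a).2
    refine ⟨fun M => (Real.sqrt (s ^ 2 + ∑ a, f a M * f a M))⁻¹, ?_, fun U => ?_⟩
    · have hp : ∀ M, 0 < s ^ 2 + ∑ a, f a M * f a M := by
        intro M
        have : 0 ≤ ∑ a, f a M * f a M := Finset.sum_nonneg fun a _ => mul_self_nonneg _
        positivity
      refine ContDiff.inv (ContDiff.sqrt
        (contDiff_const.add (ContDiff.sum fun a _ => (hf a).mul (hf a))) ?_) ?_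
      · intro M; exact (hp M).ne'
      · intro M; exact (Real.sqrt_pos.2 (hp M)).ne'
    · simp only [h]⟩

section rad

variable {K : Type*} [Fintype K] (Φ : K → Sm L E) (s : ℝ) (hs : 0 < s)

include hs in
lemma rad_pos_arg (U : E → G) : 0 < s ^ 2 + ∑ a, (Φ a).1 U * (Φ a).1 U := by
  have : 0 ≤ ∑ a, (Φ a).1 U * (Φ a).1 U := Finset.sum_nonneg fun a _ => mul_self_nonneg _
  positivity

lemma rad_mul : rad Φ s hs * rad Φ s hs =
    algebraMap ℝ (Sm L E) (s ^ 2) + ∑ a, Φ a * Φ a := by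
  refine ev_ext fun U => ?_
  rw [map_mul, map_add, map_sum]
  have h1 : L.ev U (algebraMap ℝ (Sm L E) (s ^ 2)) = s ^ 2 := rfl
  rw [h1]
  have h2 : L.ev U (rad Φ s hs) = Real.sqrt (s ^ 2 + ∑ a, (Φ a).1 U * (Φ a).1 U) := rfl
  rw [h2, Real.mul_self_sqrt (rad_pos_arg Φ s hs U).le]
  simp only [map_mul, ev_apply]

lemma radi_mul : radi Φ s hs * rad Φ s hs = 1 := by
  refine ev_ext fun U => ?_
  rw [map_mul, map_one]
  exact inv_mul_cancel₀ (Real.sqrt_pos.2 (rad_pos_arg Φ s hs U)).ne'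

lemma radi_pos (U : E → G) : 0 < L.ev U (radi Φ s hs) :=
  inv_pos.2 (Real.sqrt_pos.2 (rad_pos_arg Φ s hs U))

end rad

section loc

variable {D m : ℕ} {K : Pt D → ℝ} {i0 i1 : Fin D}
  (hK : ∀ x : Pt D, K x ≠ 0 → ∀ i, 2 ≤ x i ∧ x i + 3 ≤ m)

variable (L) in
/-- the constant of the double commutator bound -/
def CD (D m : ℕ) (K : Pt D → ℝ) (i0 i1 : Fin D) : ℝ :=
  ∑ b, |Blk.CC (L.Dv (E := Sb D m)) (L.sig (S := Sb D m)) (nrmS L) (Phi L m K i0 i1 b)|

include hK μ in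
lemma Gam_V (ι : Sb D m → E) (hι : Function.Injective ι) {V : Sm L E}
    (hV : ∀ k : Sb D m × Fin n, Inner k.1 → L.Dv (ι k.1, k.2) V = pull ι (L.Dv k (VS L D m)))
    (b : Fin n) :
    Gam L.Dv (pull ι (Phi L m K i0 i1 b)) V =
      pull ι (Gam L.Dv (Phi L m K i0 i1 b) (VS L D m)) := by
  have h1 := (blkE (L := L) μ ι hι).Gam_pl (Phi L m K i0 i1 b) V
  refine h1.trans ?_
  unfold Gam
  rw [map_sum]
  refine Finset.sum_congr rfl fun k _ => ?_
  rw [map_mul]
  by_cases hk : Inner k.1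
  · have := hV k hk
    exact congrArg _ this
  · have h2 : (blkE (L := L) μ ι hι).pl (L.Dv k (Phi L m K i0 i1 b)) = 0 := by
      rw [Dv_Phi_outer hK k hk b, map_zero]
    have h3 : pull ι (L.Dv k (Phi L m K i0 i1 b)) = (0 : Sm L E) := h2
    rw [h2, h3, zero_mul, zero_mul]

set_option maxHeartbeats 4000000 in
include hK in
theorem local_main (hn : 0 < n) {ah τ : ℝ} (hah0 : 0 < ah) (hτ : 0 < τ) {C : ℝ}
    (hC : ∀ U : Sb D m → G,
      (∀ b, L.ev U (Gam L.Dv (Phi L m K i0 i1 b) (Gam L.Dv (Phi L m K i0 i1 b) (VS L D m))) ≤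
        5 / 4 * (τ ^ 2 * ah) + C * L.ev U (VS L D m)) ∧
      (∀ b, L.ev U (Gam L.Dv (Phi L m K i0 i1 b) (Phi L m K i0 i1 b)) ≤
        3 / 2 * ah + C * L.ev U (VS L D m)) ∧
      (∑ a, ∑ b, |L.ev U (Gam L.Dv (Phi L m K i0 i1 a) (Phi L m K i0 i1 b)) -
        if a = b then ah else 0| ≤ ah / 32 + C * L.ev U (VS L D m)) ∧
      ((∑ a, L.ev U (Gam L.Dv (Phi L m K i0 i1 a) (Phi L m K i0 i1 a))) ^ 2 ≤
        3 / 2 * (n ^ 2 * ah ^ 2) + C * L.ev U (VS L D m)))
    (ι : Sb D m → E) (hι : Function.Injective ι) {V w : Sm L E}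
    (hV : ∀ k : Sb D m × Fin n, Inner k.1 → L.Dv (ι k.1, k.2) V = pull ι (L.Dv k (VS L D m)))
    {g E0 : ℝ} (hg : 0 < g) (hw : HH L.Dv g V w = E0 • w)
    (hpos : ∀ u : Sm L E, 0 ≤ (fnE L μ E).enr g V E0 u u) (hnorm : L.I μ (w * w) = 1)
    (hω1 : C * L.I μ (pull ι (VS L D m) * (w * w)) ≤ τ ^ 2 * ah / 8)
    (hω2 : C * L.I μ (pull ι (VS L D m) * (w * w)) ≤ ah / 32)
    (hω3 : C * L.I μ (pull ι (VS L D m) * (w * w)) ≤ n ^ 2 * ah ^ 2 / 2)
    (hloc : CD L D m K i0 i1 * (g ^ 4 * (blkE (L := L) μ ι hι).loc w) ≤ τ ^ 2 * ah / 4)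
    (hs : 0 < ah / (2 * Real.sqrt (n * τ * ah / g ^ 2))) (c : ℝ) :
    0 < L.I μ ((rad (fun b => pull ι (Phi L m K i0 i1 b)) _ hs - c • 1) * w *
      ((rad (fun b => pull ι (Phi L m K i0 i1 b)) _ hs - c • 1) * w)) ∧
    (fnE L μ E).enr g V E0 ((rad (fun b => pull ι (Phi L m K i0 i1 b)) _ hs - c • 1) * w)
      ((rad (fun b => pull ι (Phi L m K i0 i1 b)) _ hs - c • 1) * w) ≤
      16 * (2 + 4 * n ^ 2) * n * τ *
        L.I μ ((rad (fun b => pull ι (Phi L m K i0 i1 b)) _ hs - c • 1) * w *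
          ((rad (fun b => pull ι (Phi L m K i0 i1 b)) _ hs - c • 1) * w)) := by
  have hn1 : (1 : ℝ) ≤ n := by exact_mod_cast hn
  have hg2 : 0 < g ^ 2 := by positivity
  set T := blkE (L := L) μ ι hι with hT
  have hGG : ∀ a b, Gam L.Dv (pull ι (Phi L m K i0 i1 a)) (pull ι (Phi L m K i0 i1 b)) =
      pull ι (Gam L.Dv (Phi L m K i0 i1 a) (Phi L m K i0 i1 b)) := fun a b =>
    T.Gam_pl_pl (Phi L m K i0 i1 a) (Phi L m K i0 i1 b)
  have hww : ∀ U, 0 ≤ L.ev U (w * w) := fun U => by rw [map_mul]; exact mul_self_nonneg _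
  -- a bound of the form `F ≤ c + C W` integrates
  have hint : ∀ (F : Sm L (Sb D m)) (c0 : ℝ), (∀ U, L.ev U F ≤ c0 + C * L.ev U (VS L D m)) →
      L.I μ (pull ι F * (w * w)) ≤ c0 + C * L.I μ (pull ι (VS L D m) * (w * w)) := by
    intro F c0 hF
    have h1 : L.I μ (pull ι F * (w * w)) ≤
        L.I μ (c0 • (w * w) + C • (pull ι (VS L D m) * (w * w))) := by
      refine I_mono μ fun U => ?_
      rw [map_mul, map_add, map_smul, map_smul, map_mul (L.ev U) (pull ι (VS L D m)), smul_eq_mul,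
        smul_eq_mul]
      have h2 := mul_le_mul_of_nonneg_right (hF (U ∘ ι)) (hww U)
      have h3 : L.ev U (pull ι F) = L.ev (U ∘ ι) F := rfl
      have h4 : L.ev U (pull ι (VS L D m)) = L.ev (U ∘ ι) (VS L D m) := rfl
      rw [h3, h4]; linarith
    refine h1.trans (le_of_eq ?_)
    rw [map_add, map_smul, map_smul, hnorm, smul_eq_mul, smul_eq_mul, mul_one]
  refine chain_main (S := fnE L μ E) hn hg hw hpos hnorm (fun b => pull ι (Phi L m K i0 i1 b))
    hah0 hτ ?_ ?_ (r := rad (fun b => pull ι (Phi L m K i0 i1 b)) _ hs)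
    (t := radi (fun b => pull ι (Phi L m K i0 i1 b)) _ hs) rfl (radi_mul _ _ _) (rad_mul _ _ _)
    (radi_pos _ _ _) (ρ := (ah / 32) • 1 + C • pull ι (VS L D m)) ?_ ?_ ?_ c
  · -- H1
    intro b
    have h1 := double_comm (D := (fnE L μ E).D) (fnE L μ E).I (fnE L μ E).I_D g E0 V
      (T.pl (Phi L m K i0 i1 b)) w hw hg.ne'
    have h2 := T.dc_bound (Phi L m K i0 i1 b) w
    have h3 : Gam (fnE L μ E).D (T.pl (Phi L m K i0 i1 b))
        (Gam (fnE L μ E).D (T.pl (Phi L m K i0 i1 b)) V) =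
        pull ι (Gam L.Dv (Phi L m K i0 i1 b) (Gam L.Dv (Phi L m K i0 i1 b) (VS L D m))) := by
      have h31 : Gam (fnE L μ E).D (T.pl (Phi L m K i0 i1 b)) V =
          T.pl (Gam L.Dv (Phi L m K i0 i1 b) (VS L D m)) := Gam_V μ hK ι hι hV b
      rw [h31, T.Gam_pl_pl]
      rfl
    rw [h3] at h1
    have h4 := hint (Gam L.Dv (Phi L m K i0 i1 b) (Gam L.Dv (Phi L m K i0 i1 b) (VS L D m)))
      (5 / 4 * (τ ^ 2 * ah)) (fun U => (hC U).1 b)
    have h5 : Blk.CC (L.Dv (E := Sb D m)) (L.sig (S := Sb D m)) (nrmS L) (Phi L m K i0 i1 b) ≤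
        CD L D m K i0 i1 := by
      refine (le_abs_self _).trans ?_
      exact Finset.single_le_sum (f := fun b => |Blk.CC (L.Dv (E := Sb D m))
        (L.sig (S := Sb D m)) (nrmS L) (Phi L m K i0 i1 b)|) (fun _ _ => abs_nonneg _)
        (Finset.mem_univ b)
    have h6 : Blk.CC (L.Dv (E := Sb D m)) (L.sig (S := Sb D m)) (nrmS L) (Phi L m K i0 i1 b) *
        T.loc w ≤ CD L D m K i0 i1 * T.loc w :=
      mul_le_mul_of_nonneg_right h5 (T.loc_nonneg w)
    have h7 : (fnE L μ E).enr g V E0 (XX L.Dv (pull ι (Phi L m K i0 i1 b)) w)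
        (XX L.Dv (pull ι (Phi L m K i0 i1 b)) w) ≤
        g ^ 2 / 2 * (CD L D m K i0 i1 * T.loc w) + 1 / (2 * g ^ 2) *
          (5 / 4 * (τ ^ 2 * ah) + C * L.I μ (pull ι (VS L D m) * (w * w))) := by
      refine (le_of_eq h1).trans (add_le_add ?_ ?_)
      · refine mul_le_mul_of_nonneg_left ?_ (by positivity)
        exact h2.trans h6
      · refine mul_le_mul_of_nonneg_left ?_ (by positivity)
        exact h4
    refine h7.trans ?_
    rw [le_div_iff₀ hg2]
    have h8 : (g ^ 2 / 2 * (CD L D m K i0 i1 * T.loc w) + 1 / (2 * g ^ 2) *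
          (5 / 4 * (τ ^ 2 * ah) + C * L.I μ (pull ι (VS L D m) * (w * w)))) * g ^ 2 =
        1 / 2 * (CD L D m K i0 i1 * (g ^ 4 * T.loc w)) +
          1 / 2 * (5 / 4 * (τ ^ 2 * ah) + C * L.I μ (pull ι (VS L D m) * (w * w))) := by
      field_simp
    rw [h8]
    have h9 : 0 < τ ^ 2 * ah := by positivity
    linarith
  · -- H2
    intro b
    have h1 := hint _ _ (fun U => (hC U).2.1 b)
    rw [← hGG] at h1
    refine le_trans h1 ?_
    linarith
  · -- hρ
    intro U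
    have h1 := (hC (U ∘ ι)).2.2.1
    have h2 : L.ev U ((ah / 32) • 1 + C • pull ι (VS L D m)) =
        ah / 32 + C * L.ev (U ∘ ι) (VS L D m) := by
      rw [map_add, map_smul, map_smul, map_one, smul_eq_mul, mul_one]; rfl
    refine le_trans (le_of_eq ?_) (h1.trans (le_of_eq h2.symm))
    refine Finset.sum_congr rfl fun a _ => Finset.sum_congr rfl fun b _ => ?_
    have h3 : L.ev U (Gam L.Dv (pull ι (Phi L m K i0 i1 a)) (pull ι (Phi L m K i0 i1 b))) =
        L.ev (U ∘ ι) (Gam L.Dv (Phi L m K i0 i1 a) (Phi L m K i0 i1 b)) := by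
      rw [hGG]; rfl
    exact congrArg (fun z => |z - if a = b then ah else 0|) h3
  · -- H3
    have h1 : ((ah / 32) • (1 : Sm L E) + C • pull ι (VS L D m)) * (w * w) =
        (ah / 32) • (w * w) + C • (pull ι (VS L D m) * (w * w)) := by
      rw [add_mul, smul_mul_assoc, smul_mul_assoc, one_mul]
    have h2 : L.I μ (((ah / 32) • (1 : Sm L E) + C • pull ι (VS L D m)) * (w * w)) ≤ ah / 16 := by
      rw [h1, map_add, map_smul, map_smul, hnorm, smul_eq_mul, smul_eq_mul]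
      linarith
    exact h2
  · -- H4
    have h1 := hint ((∑ a, Gam L.Dv (Phi L m K i0 i1 a) (Phi L m K i0 i1 a)) *
      (∑ a, Gam L.Dv (Phi L m K i0 i1 a) (Phi L m K i0 i1 a))) (3 / 2 * (n ^ 2 * ah ^ 2))
      (fun U => by
        have := (hC U).2.2.2
        rw [map_mul, map_sum, ← sq]; exact this)
    have h2 : pull ι ((∑ a, Gam L.Dv (Phi L m K i0 i1 a) (Phi L m K i0 i1 a)) *
      (∑ a, Gam L.Dv (Phi L m K i0 i1 a) (Phi L m K i0 i1 a))) =
      (∑ a, Gam L.Dv (pull ι (Phi L m K i0 i1 a)) (pull ι (Phi L m K i0 i1 a))) *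
      (∑ a, Gam L.Dv (pull ι (Phi L m K i0 i1 a)) (pull ι (Phi L m K i0 i1 a))) := by
      rw [map_mul, map_sum]
      simp only [hGG]
    rw [h2] at h1
    refine le_trans h1 ?_
    linarith

end loc

end

end Pool.Agent.H906R3.YM
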