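import Mathlib
import Pool.Agent.H906R3.YM.Local

/-!
# The periodic lattice
-/

open MeasureTheory Matrix
open scoped Matrix.Norms.Frobenius ContDiff

namespace Pool.Agent.H906R3.YM

set_option linter.unusedSectionVars false

noncomputable section

/-- links of the periodic lattice of side `l` -/
abbrev Ed (D l : ℕ) := (Fin D → ZMod l) × Fin D

/-- plaquettes of the periodic lattice: base point and two directions in increasing order -/
abbrev Pl (D l : ℕ) := {p : (Fin D → ZMod l) × Fin D × Fin D // p.2.1 < p.2.2}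

/-- unit vector of the periodic lattice -/
def eT {D l : ℕ} (μ : Fin D) : Fin D → ZMod l := Pi.single μ 1

variable {G : Type*} [Group G] [TopologicalSpace G] {N n : ℕ} {L : LD G N n} {D m l : ℕ}

/-- plaquette variable -/
def plqT (U : Ed D l → G) (x : Fin D → ZMod l) (μ ν : Fin D) : G :=
  U (x, μ) * U (x + eT μ, ν) * (U (x + eT ν, μ))⁻¹ * (U (x, ν))⁻¹

/-- cast of a lattice point -/
def ct (l : ℕ) (w : Pt D) : Fin D → ZMod l := fun i => (w i : ZMod l)

lemma ct_add (w : Pt D) (μ : Fin D) : ct l (w + es μ) = ct l w + eT μ := by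
  funext i
  by_cases hi : i = μ
  · subst hi; simp [ct, es, eT]
  · simp [ct, es, eT, hi]

/-- embedding of the block with corner `x0` -/
def iot (l : ℕ) (x0 : Fin D → ZMod l) (s : Sb D m) : Ed D l := (x0 + ct l (cv s.1), s.2)

lemma ct_inj (hml : m ≤ l) {x y : Fin D → Fin m} (h : ct l (cv x) = ct l (cv y)) : x = y := by
  funext i
  have h1 := congrFun h i
  unfold ct cv at h1
  rw [ZMod.natCast_eq_natCast_iff'] at h1
  have hx := (x i).2
  have hy := (y i).2
  rw [Nat.mod_eq_of_lt (by omega), Nat.mod_eq_of_lt (by omega)] at h1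
  exact Fin.ext h1

lemma iot_inj (hml : m ≤ l) (x0 : Fin D → ZMod l) : Function.Injective (iot (m := m) l x0) := by
  intro s t h
  have h1 := (Prod.ext_iff.1 h).1
  have h2 := (Prod.ext_iff.1 h).2
  refine Prod.ext (ct_inj hml (add_left_cancel h1)) h2

lemma ext_iot (U : Ed D l → G) (x0 : Fin D → ZMod l) {w : Pt D} (μ : Fin D)
    (hw : ∀ i, w i < m) : ext (m := m) (U ∘ iot l x0) w μ = U (x0 + ct l w, μ) := by
  unfold ext
  rw [dif_pos hw]
  rfl

lemma plq_iot (U : Ed D l → G) (x0 : Fin D → ZMod l) (q : Qi D m) :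
    plq (ext (m := m) (U ∘ iot l x0)) (cv q.1.1) q.1.2.1 q.1.2.2 =
      plqT U (x0 + ct l (cv q.1.1)) q.1.2.1 q.1.2.2 := by
  have h0 : ∀ i, cv q.1.1 i < m := fun i => (q.1.1 i).2
  have hq := q.2
  have h1 : ∀ i, (cv q.1.1 + es q.1.2.1) i < m := fun i => by
    by_cases hi : i = q.1.2.1
    · subst hi; simp only [Pi.add_apply, es_same]; exact hq.2.1
    · simpa [es, hi] using h0 i
  have h2 : ∀ i, (cv q.1.1 + es q.1.2.2) i < m := fun i => by
    by_cases hi : i = q.1.2.2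
    · subst hi; simp only [Pi.add_apply, es_same]; exact hq.2.2
    · simpa [es, hi] using h0 i
  unfold plq plqT
  rw [ext_iot U x0 _ h0, ext_iot U x0 _ h1, ext_iot U x0 _ h2, ext_iot U x0 _ h0, ct_add, ct_add,
    add_assoc, add_assoc]

/-- the index map of plaquettes -/
def qmap (l : ℕ) (x0 : Fin D → ZMod l) (q : Qi D m) : Pl D l :=
  ⟨(x0 + ct l (cv q.1.1), q.1.2), q.2.1⟩

lemma qmap_inj (hml : m ≤ l) (x0 : Fin D → ZMod l) :
    Function.Injective (qmap (m := m) l x0) := by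
  intro q r h
  have h0 := congrArg Subtype.val h
  have h1 := (Prod.ext_iff.1 h0).1
  have h2 := (Prod.ext_iff.1 h0).2
  exact Subtype.ext (Prod.ext (ct_inj hml (add_left_cancel h1)) h2)

section
variable [NeZero l]

lemma SmM_plqT (x : Fin D → ZMod l) (μ ν : Fin D) :
    SmM L fun U : Ed D l → G => 1 - L.rho (plqT U x μ ν) := by
  have hl : ∀ e, SmG L fun U : Ed D l → G => U e := fun e => SmM.link e
  exact (SmM.const 1).sub ((((hl _).mul (hl _)).mul (hl _).inv).mul (hl _).inv)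

/-- the magnetic energy -/
def VT (L : LD G N n) (D l : ℕ) [NeZero l] : Sm L (Ed D l) :=
  ∑ p : Pl D l, lin (ip 1) _ (SmM_plqT (L := L) p.1.1 p.1.2.1 p.1.2.2)

lemma VT_apply (U : Ed D l → G) :
    L.ev U (VT L D l) = ∑ p : Pl D l, we L (plqT U p.1.1 p.1.2.1 p.1.2.2) := by
  unfold VT
  rw [map_sum]
  refine Finset.sum_congr rfl fun p _ => ?_
  show ip 1 _ = _
  rw [ip_apply, conjTranspose_one, one_mul]
  rfl

/-- plaquettes which touch an inner link of the block belong to the block -/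
lemma touch (x0 : Fin D → ZMod l) {s : Sb D m} (hs : Inner s) {U U' : Ed D l → G}
    (h : ∀ e, e ≠ iot l x0 s → U' e = U e) (p : Pl D l) (hp : ∀ q, qmap (m := m) l x0 q ≠ p) :
    plqT U' p.1.1 p.1.2.1 p.1.2.2 = plqT U p.1.1 p.1.2.1 p.1.2.2 := by
  obtain ⟨⟨x, μ, ν⟩, hμν⟩ := p
  simp only at hμν ⊢
  have hsm : ∀ i, cv s.1 i + 1 < m := fun i => (hs i).2
  have hs1 : ∀ i, 1 ≤ cv s.1 i := fun i => (hs i).1
  have e1 : x ≠ x0 + ct l (cv s.1) := by
    intro hx
    exact hp ⟨(s.1, μ, ν), hμν, hsm μ, hsm ν⟩ (Subtype.ext (Prod.ext hx.symm rfl))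
  have e2 : ∀ κ : Fin D, κ = μ ∨ κ = ν → x + eT κ ≠ x0 + ct l (cv s.1) := by
    intro κ hκ hx
    have hlt : ∀ i, (cv s.1 - es κ) i < m := fun i =>
      lt_of_le_of_lt (Nat.sub_le _ _) (s.1 i).2
    have hadd : cv s.1 - es κ + es κ = cv s.1 := sub_add_es (hs1 κ)
    have hct : x = x0 + ct l (cv s.1 - es κ) := by
      have h1 : x + eT κ = x0 + ct l (cv s.1 - es κ) + eT κ := by
        rw [hx, add_assoc, ← ct_add, hadd]
      exact add_right_cancel h1
    have hle : ∀ i, (cv s.1 - es κ) i ≤ cv s.1 i := fun i => Nat.sub_le _ _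
    refine hp ⟨((fun i => ⟨(cv s.1 - es κ) i, hlt i⟩), μ, ν), hμν, ?_, ?_⟩
      (Subtype.ext (Prod.ext hct.symm rfl))
    · exact lt_of_le_of_lt (Nat.add_le_add_right (hle μ) 1) (hsm μ)
    · exact lt_of_le_of_lt (Nat.add_le_add_right (hle ν) 1) (hsm ν)
  unfold plqT
  rw [h (x, μ) (fun hh => e1 (Prod.ext_iff.1 hh).1),
    h (x + eT μ, ν) (fun hh => e2 μ (Or.inl rfl) (Prod.ext_iff.1 hh).1),
    h (x + eT ν, μ) (fun hh => e2 ν (Or.inr rfl) (Prod.ext_iff.1 hh).1),
    h (x, ν) (fun hh => e1 (Prod.ext_iff.1 hh).1)]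

lemma VS_iot (x0 : Fin D → ZMod l) (U : Ed D l → G) :
    L.ev U (pull (iot (m := m) l x0) (VS L D m)) =
      ∑ q : Qi D m, we L (plqT U (qmap l x0 q).1.1 (qmap l x0 q).1.2.1 (qmap l x0 q).1.2.2) := by
  have h1 : L.ev U (pull (iot (m := m) l x0) (VS L D m)) = L.ev (U ∘ iot l x0) (VS L D m) := rfl
  rw [h1, VS_apply]
  refine Finset.sum_congr rfl fun q _ => ?_
  rw [plq_iot]
  rfl

/-- near the inner links the magnetic energy is the one of the block -/
lemma Dv_VT (hml : m ≤ l) (x0 : Fin D → ZMod l) (k : Sb D m × Fin n) (hk : Inner k.1) :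
    L.Dv (iot l x0 k.1, k.2) (VT L D l) = pull (iot l x0) (L.Dv k (VS L D m)) := by
  classical
  rw [← Dv_pull (iot_inj hml x0)]
  rw [← sub_eq_zero, ← map_sub]
  refine ev_ext fun U => ?_
  rw [ev_apply, Dv_apply, map_zero]
  unfold LD.dF
  have h1 : (fun t => (VT L D l - pull (iot l x0) (VS L D m)).1
      (L.shift (iot l x0 k.1) k.2 t U)) =
      fun t => (VT L D l - pull (iot l x0) (VS L D m)).1 U := by
    funext t
    set U' := L.shift (iot l x0 k.1) k.2 t U with hU'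
    have h2 : ∀ W : Ed D l → G, (VT L D l - pull (iot l x0) (VS L D m)).1 W =
        (∑ p : Pl D l, we L (plqT W p.1.1 p.1.2.1 p.1.2.2)) -
        ∑ q : Qi D m, we L (plqT W (qmap l x0 q).1.1 (qmap l x0 q).1.2.1
          (qmap l x0 q).1.2.2) := by
      intro W
      rw [← VT_apply, ← VS_iot]; rfl
    rw [h2, h2]
    have h3 : ∀ W : Ed D l → G, (∑ p : Pl D l, we L (plqT W p.1.1 p.1.2.1 p.1.2.2)) -
        ∑ q : Qi D m, we L (plqT W (qmap l x0 q).1.1 (qmap l x0 q).1.2.1
          (qmap l x0 q).1.2.2) =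
        ∑ p ∈ Finset.univ \ (Finset.univ.map ⟨qmap (m := m) l x0, qmap_inj hml x0⟩),
          we L (plqT W p.1.1 p.1.2.1 p.1.2.2) := by
      intro W
      rw [sub_eq_iff_eq_add]
      have h4 := Finset.sum_sdiff (Finset.subset_univ
        (Finset.univ.map ⟨qmap (m := m) l x0, qmap_inj hml x0⟩))
        (f := fun p : Pl D l => we L (plqT W p.1.1 p.1.2.1 p.1.2.2))
      rw [Finset.sum_map] at h4
      exact h4.symm
    rw [h3, h3]
    refine Finset.sum_congr rfl fun p hp => ?_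
    rw [touch x0 hk (U := U) (U' := U') ?_ p ?_]
    · intro e he
      rw [hU']
      unfold LD.shift
      rw [Pi.mul_apply, Pi.mulSingle_eq_of_ne he, one_mul]
    · intro q hq
      rw [Finset.mem_sdiff, Finset.mem_map] at hp
      exact hp.2 ⟨q, Finset.mem_univ _, hq⟩
  rw [h1]
  exact deriv_const _ _

end

end

end Pool.Agent.H906R3.YM
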