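import Mathlib
import Pool.Agent.H906R3.YM.Torus
import Pool.Agent.H906R3.YM.LocMain

/-!
# Gauge invariance of the trial factor
-/

open MeasureTheory Matrix
open scoped Matrix.Norms.Frobenius ContDiff

namespace Pool.Agent.H906R3.YM

set_option linter.unusedSectionVars false

noncomputable section

variable {D m l : ℕ} {G : Type*} [Group G]

/-- gauge transformation of a configuration -/
def gt (γ : (Fin D → ZMod l) → G) (U : Ed D l → G) : Ed D l → G :=
  fun e => γ e.1 * U e * (γ (e.1 + eT e.2))⁻¹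

lemma fr_gauge {u u' : Pt D → Fin D → G} (h : Pt D → G) (w : Pt D)
    (hu : ∀ y ≤ w, ∀ μ, u' y μ = h y * u y μ * (h (y + es μ))⁻¹) :
    fr u' w = h 0 * fr u w * (h w)⁻¹ := by
  induction hn : sz w generalizing w with
  | zero =>
    have h1 : ¬∃ i, 0 < w i := by
      rintro ⟨i, hi⟩
      have := sz_sub hi
      omega
    have hw : w = 0 := by
      funext i
      by_contra hc
      exact h1 ⟨i, Nat.pos_of_ne_zero hc⟩
    rw [fr_zero _ h1, fr_zero _ h1, hw, mul_one, mul_inv_cancel]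
  | succ k ih =>
    by_cases hwp : ∃ i, 0 < w i
    · have hμp := mi_pos w hwp
      have hs := sz_sub hμp
      have hle : w - es (mi w hwp) ≤ w := fun i => Nat.sub_le _ _
      rw [fr_succ u' hwp, fr_succ u hwp, hu _ hle, sub_add_es hμp,
        ih (w - es (mi w hwp)) (fun y hy => hu y (hy.trans hle)) (by omega)]
      group
    · exfalso
      have : sz w = 0 := by
        unfold sz
        refine Finset.sum_eq_zero fun i _ => ?_
        by_contra hi
        exact hwp ⟨i, Nat.pos_of_ne_zero hi⟩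
      omega

lemma plq_gauge {u u' : Pt D → Fin D → G} (h : Pt D → G) (w : Pt D) (μ ν : Fin D)
    (h1 : ∀ κ, u' w κ = h w * u w κ * (h (w + es κ))⁻¹)
    (h2 : u' (w + es μ) ν = h (w + es μ) * u (w + es μ) ν * (h (w + es μ + es ν))⁻¹)
    (h3 : u' (w + es ν) μ = h (w + es ν) * u (w + es ν) μ * (h (w + es ν + es μ))⁻¹) :
    plq u' w μ ν = h w * plq u w μ ν * (h w)⁻¹ := by
  unfold plq
  rw [h1, h1, h2, h3, add_right_comm w (es ν) (es μ)]
  group

variable [TopologicalSpace G]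

lemma ext_gauge (γ : (Fin D → ZMod l) → G) (U : Ed D l → G) (x0 : Fin D → ZMod l) {w : Pt D}
    (μ : Fin D) (hw : ∀ i, w i < m) :
    ext (m := m) (gt γ U ∘ iot l x0) w μ =
      γ (x0 + ct l w) * ext (m := m) (U ∘ iot l x0) w μ * (γ (x0 + ct l (w + es μ)))⁻¹ := by
  rw [ext_iot _ x0 μ hw, ext_iot _ x0 μ hw, ct_add, ← add_assoc]
  rfl

lemma trI_gauge (γ : (Fin D → ZMod l) → G) (U : Ed D l → G) (x0 : Fin D → ZMod l) {x : Pt D}
    (hx : ∀ i, 1 ≤ x i ∧ x i < m) :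
    trI (m := m) (gt γ U ∘ iot l x0) x =
      γ (x0 + ct l 1) * trI (m := m) (U ∘ iot l x0) x * (γ (x0 + ct l x))⁻¹ := by
  unfold trI
  have hx1 : x - 1 + 1 = x := by
    funext i
    have := (hx i).1
    simp only [Pi.add_apply, Pi.sub_apply, Pi.one_apply]; omega
  have h1 := fr_gauge (u := fun y μ => ext (m := m) (U ∘ iot l x0) (y + 1) μ)
    (u' := fun y μ => ext (m := m) (gt γ U ∘ iot l x0) (y + 1) μ)
    (fun y => γ (x0 + ct l (y + 1))) (x - 1) (by
      intro y hy μ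
      have hlt : ∀ i, (y + 1) i < m := fun i => by
        have h2 := hy i
        have h3 := hx i
        simp only [Pi.add_apply, Pi.sub_apply, Pi.one_apply] at h2 ⊢
        omega
      rw [ext_gauge γ U x0 μ hlt, add_right_comm y (es μ) 1])
  rw [h1, hx1, zero_add]

variable {N n : ℕ} {L : LD G N n}

lemma MMf_gauge {K : Pt D → ℝ} {i0 i1 : Fin D}
    (hK : ∀ x : Pt D, K x ≠ 0 → ∀ i, 2 ≤ x i ∧ x i + 3 ≤ m)
    (γ : (Fin D → ZMod l) → G) (U : Ed D l → G) (x0 : Fin D → ZMod l) :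
    MMf (m := m) L K i0 i1 (gt γ U ∘ iot l x0) =
      L.rho (γ (x0 + ct l 1)) * MMf (m := m) L K i0 i1 (U ∘ iot l x0) *
        (L.rho (γ (x0 + ct l 1)))ᴴ := by
  unfold MMf
  rw [Finset.mul_sum, Finset.sum_mul]
  refine Finset.sum_congr rfl fun x _ => ?_
  by_cases hx : K (cv x) = 0
  · rw [hx]; simp
  have hsup := hK _ hx
  rw [mul_smul_comm, smul_mul_assoc]
  congr 1
  rw [trI_gauge γ U x0 (fun i => ⟨by have := (hsup i).1; omega, by have := (hsup i).2; omega⟩)]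
  have hlt : ∀ i, cv x i < m := fun i => (x i).2
  have hlt' : ∀ (κ i : Fin D), (cv x + es κ : Pt D) i < m := fun κ i => by
    by_cases hi : i = κ
    · subst hi; simp only [Pi.add_apply, es_same]
      have := (hsup i).2; omega
    · simpa [es, hi] using hlt i
  have h1 := plq_gauge (u := ext (m := m) (U ∘ iot l x0))
    (u' := ext (m := m) (gt γ U ∘ iot l x0)) (fun y => γ (x0 + ct l y)) (cv x) i0 i1
    (fun κ => ext_gauge γ U x0 κ hlt) (ext_gauge γ U x0 i1 (hlt' i0))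
    (ext_gauge γ U x0 i0 (hlt' i1))
  rw [h1]
  set g1 := γ (x0 + ct l 1)
  set g2 := γ (x0 + ct l (cv x))
  set T := trI (m := m) (U ∘ iot l x0) (cv x)
  set P := plq (ext (m := m) (U ∘ iot l x0)) (cv x) i0 i1
  have e1 : L.rho (g1 * T * g2⁻¹) = L.rho g1 * L.rho T * (L.rho g2)ᴴ := by
    rw [map_mul, map_mul, L.rho_inv]
  have e2 : L.rho (g2 * P * g2⁻¹) - 1 = L.rho g2 * (L.rho P - 1) * (L.rho g2)ᴴ := by
    rw [map_mul, map_mul, L.rho_inv, mul_sub, sub_mul, mul_one, L.unit]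
  have e3 : (L.rho g2)ᴴ * L.rho g2 = 1 := L.unit' _
  rw [e1, e2, conjTranspose_mul, conjTranspose_mul, conjTranspose_conjTranspose]
  calc L.rho g1 * L.rho T * (L.rho g2)ᴴ * (L.rho g2 * (L.rho P - 1) * (L.rho g2)ᴴ) *
        (L.rho g2 * ((L.rho T)ᴴ * (L.rho g1)ᴴ))
      = L.rho g1 * L.rho T * ((L.rho g2)ᴴ * L.rho g2) * (L.rho P - 1) *
          ((L.rho g2)ᴴ * L.rho g2) * (L.rho T)ᴴ * (L.rho g1)ᴴ := by
        simp only [Matrix.mul_assoc]
    _ = _ := by
        rw [e3, mul_one, mul_one]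
        simp only [Matrix.mul_assoc]

lemma sum_ip_conj (g : G) (M : Mat N) :
    ∑ a, ip (L.X a) (L.rho g * M * (L.rho g)ᴴ) * ip (L.X a) (L.rho g * M * (L.rho g)ᴴ) =
      ∑ a, ip (L.X a) M * ip (L.X a) M := by
  have h1 : ∀ a, ip (L.X a) (L.rho g * M * (L.rho g)ᴴ) = ∑ b, L.adm g⁻¹ b a * ip (L.X b) M := by
    intro a
    rw [ip_conj]
    have h2 := conj_eq (L := L) g⁻¹ a
    rw [L.rho_inv, conjTranspose_conjTranspose] at h2
    rw [h2, ip_comm, map_sum]
    refine Finset.sum_congr rfl fun b _ => ?_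
    rw [map_smul, smul_eq_mul, ip_comm]
  have h3 : ∀ a, ip (L.X a) (L.rho g * M * (L.rho g)ᴴ) * ip (L.X a) (L.rho g * M * (L.rho g)ᴴ) =
      ∑ b, ∑ b', (ip (L.X b) M * ip (L.X b') M) * (L.adm g⁻¹ b a * L.adm g⁻¹ b' a) := by
    intro a
    rw [h1, Finset.sum_mul_sum]
    refine Finset.sum_congr rfl fun b _ => Finset.sum_congr rfl fun b' _ => ?_
    ring
  rw [Finset.sum_congr rfl fun a _ => h3 a, Finset.sum_comm]
  refine Finset.sum_congr rfl fun b _ => ?_
  rw [Finset.sum_comm]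
  have h4 : ∀ b', ∑ a, (ip (L.X b) M * ip (L.X b') M) * (L.adm g⁻¹ b a * L.adm g⁻¹ b' a) =
      (ip (L.X b) M * ip (L.X b') M) * if b = b' then 1 else 0 := by
    intro b'
    rw [← Finset.mul_sum, sum_adm_adm]
  rw [Finset.sum_congr rfl fun b' _ => h4 b']
  simp

/-- the smooth radius of the flux is gauge invariant -/
lemma rad_gauge [NeZero l] {K : Pt D → ℝ} {i0 i1 : Fin D}
    (hK : ∀ x : Pt D, K x ≠ 0 → ∀ i, 2 ≤ x i ∧ x i + 3 ≤ m)
    (γ : (Fin D → ZMod l) → G) (U : Ed D l → G) (x0 : Fin D → ZMod l) (s : ℝ) (hs : 0 < s) :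
    (rad (fun b => pull (iot l x0) (Phi L m K i0 i1 b)) s hs).1 (gt γ U) =
      (rad (fun b => pull (iot l x0) (Phi L m K i0 i1 b)) s hs).1 U := by
  have h1 : ∀ W : Ed D l → G, (rad (fun b => pull (iot l x0) (Phi L m K i0 i1 b)) s hs).1 W =
      Real.sqrt (s ^ 2 + ∑ a, ip (L.X a) (MMf (m := m) L K i0 i1 (W ∘ iot l x0)) *
        ip (L.X a) (MMf (m := m) L K i0 i1 (W ∘ iot l x0))) := fun W => rfl
  rw [h1, h1, MMf_gauge hK, sum_ip_conj]

end

end Pool.Agent.H906R3.YM
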