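import Mathlib
import Pool.Agent.H906R3.YM.Gauge
import Pool.Agent.H906R3.YM.Chain2

/-!
# Equivariance under gauge transformations, the Casimir operator
-/

open MeasureTheory Matrix
open scoped Matrix.Norms.Frobenius ContDiff

namespace Pool.Agent.H906R3.YM

set_option linter.unusedSectionVars false

noncomputable section

variable {D m l : ℕ} {G : Type*} [Group G] [TopologicalSpace G] {N n : ℕ} {L : LD G N n}

lemma sum_orth {V : Type*} [AddCommGroup V] [Module ℝ V] (R : Fin n → Fin n → ℝ)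
    (hR : ∀ b b', ∑ a, R b a * R b' a = if b = b' then 1 else 0) (T : Fin n → Fin n → V) :
    ∑ a, ∑ b, ∑ b', (R b a * R b' a) • T b b' = ∑ b, T b b := by
  rw [Finset.sum_comm]
  refine Finset.sum_congr rfl fun b _ => ?_
  rw [Finset.sum_comm]
  have h1 : ∀ b', ∑ a, (R b a * R b' a) • T b b' = if b = b' then T b b' else 0 := by
    intro b'
    rw [← Finset.sum_smul, hR]
    split_ifs <;> simp
  rw [Finset.sum_congr rfl fun b' _ => h1 b']
  simp

variable (L) in
/-- gauge transformation of the matrices -/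
def gtM (γ : (Fin D → ZMod l) → G) : (Ed D l → Mat N) →ₗ[ℝ] (Ed D l → Mat N) where
  toFun M := fun e => L.rho (γ e.1) * M e * (L.rho (γ (e.1 + eT e.2)))ᴴ
  map_add' M M' := by
    funext e
    simp only [Pi.add_apply, mul_add, add_mul]
  map_smul' c M := by
    funext e
    simp only [Pi.smul_apply, mul_smul_comm, smul_mul_assoc, RingHom.id_apply]

lemma mat_gt (γ : (Fin D → ZMod l) → G) (U : Ed D l → G) :
    L.mat (gt γ U) = gtM L γ (L.mat U) := by
  funext e
  show L.rho (γ e.1 * U e * (γ (e.1 + eT e.2))⁻¹) = _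
  rw [map_mul, map_mul, L.rho_inv]
  rfl

variable [NeZero l]

variable (L) in
/-- gauge transformation of the matrices, as a continuous map -/
def gtC (γ : (Fin D → ZMod l) → G) : (Ed D l → Mat N) →L[ℝ] (Ed D l → Mat N) :=
  LinearMap.toContinuousLinearMap (gtM L γ)

lemma gtC_apply (γ : (Fin D → ZMod l) → G) (M : Ed D l → Mat N) : gtC L γ M = gtM L γ M := rfl

/-- gauge transformation of the functions -/
def gs (γ : (Fin D → ZMod l) → G) : Sm L (Ed D l) →ₐ[ℝ] Sm L (Ed D l) where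
  toFun F := ⟨fun U => F.1 (gt γ U), by
    obtain ⟨F, f, hf, h⟩ := F
    refine ⟨fun M => f (gtC L γ M), hf.comp (gtC L γ).contDiff, fun U => ?_⟩
    show F (gt γ U) = f (gtM L γ (L.mat U))
    rw [← mat_gt]; exact h _⟩
  map_one' := rfl
  map_mul' _ _ := rfl
  map_zero' := rfl
  map_add' _ _ := rfl
  commutes' _ := rfl

lemma gs_apply (γ : (Fin D → ZMod l) → G) (F : Sm L (Ed D l)) (U : Ed D l → G) :
    (gs γ F).1 U = F.1 (gt γ U) := rfl

lemma gtM_vf (γ : (Fin D → ZMod l) → G) (e : Ed D l) (a : Fin n) (M : Ed D l → Mat N) :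
    gtM L γ (L.vf e a M) = ∑ b, L.adm (γ e.1) b a • L.vf e b (gtM L γ M) := by
  funext e'
  rw [Finset.sum_apply]
  by_cases h : e' = e
  · subst h
    have h1 : gtM L γ (L.vf e' a M) e' =
        L.rho (γ e'.1) * (L.X a * M e') * (L.rho (γ (e'.1 + eT e'.2)))ᴴ := by
      show L.rho (γ e'.1) * (L.vf e' a M) e' * _ = _
      unfold LD.vf
      rw [Pi.single_eq_same]
    have h2 : ∀ b, (L.adm (γ e'.1) b a • L.vf e' b (gtM L γ M)) e' =
        (L.adm (γ e'.1) b a • L.X b) * gtM L γ M e' := by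
      intro b
      rw [Pi.smul_apply]
      unfold LD.vf
      rw [Pi.single_eq_same, smul_mul_assoc]
    rw [h1, Finset.sum_congr rfl fun b _ => h2 b, ← Finset.sum_mul, ← conj_eq]
    show _ = L.rho (γ e'.1) * L.X a * (L.rho (γ e'.1))ᴴ *
      (L.rho (γ e'.1) * M e' * (L.rho (γ (e'.1 + eT e'.2)))ᴴ)
    have h3 := L.unit' (γ e'.1)
    calc _ = L.rho (γ e'.1) * L.X a * 1 * M e' * (L.rho (γ (e'.1 + eT e'.2)))ᴴ := by
          simp only [Matrix.mul_assoc, Matrix.one_mul]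
      _ = _ := by rw [← h3]; simp only [Matrix.mul_assoc]
  · have h1 : gtM L γ (L.vf e a M) e' = 0 := by
      show L.rho (γ e'.1) * (L.vf e a M) e' * _ = _
      unfold LD.vf
      rw [Pi.single_eq_of_ne h, mul_zero, zero_mul]
    rw [h1]
    symm
    refine Finset.sum_eq_zero fun b _ => ?_
    rw [Pi.smul_apply]
    unfold LD.vf
    rw [Pi.single_eq_of_ne h, smul_zero]

lemma Dv_gs (γ : (Fin D → ZMod l) → G) (e : Ed D l) (a : Fin n) (F : Sm L (Ed D l)) :
    L.Dv (e, a) (gs γ F) = ∑ b, L.adm (γ e.1) b a • gs γ (L.Dv (e, b) F) := by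
  refine ev_ext fun U => ?_
  rw [map_sum]
  obtain ⟨F, hF⟩ := F
  obtain ⟨f, hf, h⟩ := id hF
  have h1 : L.ev U (L.Dv (e, a) (gs γ ⟨F, hF⟩)) =
      fderiv ℝ (fun M => f (gtC L γ M)) (L.mat U) (L.vf e a (L.mat U)) := by
    refine dF_ext (hf.comp (gtC L γ).contDiff) (fun W => ?_) e a U
    show F (gt γ W) = f (gtM L γ (L.mat W))
    rw [← mat_gt]; exact h _
  have h2 : fderiv ℝ (fun M => f (gtC L γ M)) (L.mat U) =
      (fderiv ℝ f (gtC L γ (L.mat U))).comp (gtC L γ) := by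
    have h3 : HasFDerivAt f (fderiv ℝ f (gtC L γ (L.mat U))) (gtC L γ (L.mat U)) :=
      (hf.differentiable (by simp)).differentiableAt.hasFDerivAt
    exact (h3.comp (L.mat U) (gtC L γ).hasFDerivAt).fderiv
  rw [h1, h2, ContinuousLinearMap.comp_apply, gtC_apply, gtC_apply, gtM_vf, map_sum]
  refine Finset.sum_congr rfl fun b _ => ?_
  rw [map_smul, map_smul, ← mat_gt]
  congr 1
  exact (dF_ext hf h e b (gt γ U)).symm

lemma Gam_gs (γ : (Fin D → ZMod l) → G) (F H : Sm L (Ed D l)) :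
    Gam L.Dv (gs γ F) (gs γ H) = gs γ (Gam L.Dv F H) := by
  unfold Gam
  rw [map_sum (gs (L := L) γ)]
  refine (Fintype.sum_prod_type _).trans (Eq.trans ?_ (Fintype.sum_prod_type _).symm)
  refine Finset.sum_congr rfl fun e _ => ?_
  have h1 := sum_orth (V := Sm L (Ed D l)) (fun b a => L.adm (γ e.1) b a)
    (sum_adm_adm (L := L) (γ e.1))
    (fun b b' => gs γ (L.Dv (e, b) F) * gs γ (L.Dv (e, b') H))
  have h2 : ∑ b, gs γ (L.Dv (e, b) F * L.Dv (e, b) H) =
      ∑ b, gs γ (L.Dv (e, b) F) * gs γ (L.Dv (e, b) H) :=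
    Finset.sum_congr rfl fun b _ => map_mul _ _ _
  rw [h2, ← h1]
  refine Finset.sum_congr rfl fun a _ => ?_
  rw [Dv_gs, Dv_gs, Finset.sum_mul_sum]
  refine Finset.sum_congr rfl fun b _ => Finset.sum_congr rfl fun b' _ => ?_
  rw [smul_mul_smul_comm]

lemma Lap_gs (γ : (Fin D → ZMod l) → G) (F : Sm L (Ed D l)) :
    Lap L.Dv (gs γ F) = gs γ (Lap L.Dv F) := by
  unfold Lap
  rw [map_sum (gs (L := L) γ)]
  refine (Fintype.sum_prod_type _).trans (Eq.trans ?_ (Fintype.sum_prod_type _).symm)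
  refine Finset.sum_congr rfl fun e _ => ?_
  have h1 := sum_orth (V := Sm L (Ed D l)) (fun b a => L.adm (γ e.1) b a)
    (sum_adm_adm (L := L) (γ e.1))
    (fun b b' => gs γ (L.Dv (e, b') (L.Dv (e, b) F)))
  rw [← h1]
  refine Finset.sum_congr rfl fun a _ => ?_
  rw [Dv_gs, map_sum]
  refine Finset.sum_congr rfl fun b _ => ?_
  rw [Derivation.map_smul, Dv_gs, Finset.smul_sum]
  refine Finset.sum_congr rfl fun b' _ => ?_
  rw [smul_smul]

lemma we_conj (g h : G) : we L (g * h * g⁻¹) = we L h := by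
  unfold we
  rw [map_mul, map_mul, L.rho_inv]
  have h1 : 1 - L.rho g * L.rho h * (L.rho g)ᴴ = L.rho g * (1 - L.rho h) * (L.rho g)ᴴ := by
    rw [mul_sub, sub_mul, mul_one, L.unit]
  rw [h1, trace_mul_comm, ← Matrix.mul_assoc, L.unit', one_mul]

lemma plqT_gt (γ : (Fin D → ZMod l) → G) (U : Ed D l → G) (x : Fin D → ZMod l) (μ ν : Fin D) :
    plqT (gt γ U) x μ ν = γ x * plqT U x μ ν * (γ x)⁻¹ := by
  unfold plqT gt
  dsimp only
  rw [add_right_comm x (eT ν) (eT μ)]
  group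

lemma gs_VT (γ : (Fin D → ZMod l) → G) : gs γ (VT L D l) = VT L D l := by
  refine ev_ext fun U => ?_
  have h1 : L.ev U (gs γ (VT L D l)) = L.ev (gt γ U) (VT L D l) := rfl
  rw [h1, VT_apply, VT_apply]
  refine Finset.sum_congr rfl fun p _ => ?_
  rw [plqT_gt, we_conj]

lemma HH_gs (γ : (Fin D → ZMod l) → G) (g : ℝ) (u : Sm L (Ed D l)) :
    HH L.Dv g (VT L D l) (gs γ u) = gs γ (HH L.Dv g (VT L D l) u) := by
  unfold HH
  rw [Lap_gs, map_add, map_neg, map_smul, map_smul, map_mul, gs_VT]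

lemma XX_gs (γ : (Fin D → ZMod l) → G) (f u : Sm L (Ed D l)) :
    XX L.Dv (gs γ f) (gs γ u) = gs γ (XX L.Dv f u) := by
  unfold XX
  rw [Gam_gs, Lap_gs, map_add, map_smul, map_mul]

/-- gauge invariant functions -/
def Inv (u : Sm L (Ed D l)) : Prop := ∀ γ, gs γ u = u

lemma Inv.add {u v : Sm L (Ed D l)} (hu : Inv u) (hv : Inv v) : Inv (u + v) := fun γ => by
  rw [map_add, hu, hv]

lemma Inv.sub {u v : Sm L (Ed D l)} (hu : Inv u) (hv : Inv v) : Inv (u - v) := fun γ => by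
  rw [map_sub, hu, hv]

lemma Inv.mul {u v : Sm L (Ed D l)} (hu : Inv u) (hv : Inv v) : Inv (u * v) := fun γ => by
  rw [map_mul, hu, hv]

lemma Inv.smul {u : Sm L (Ed D l)} (c : ℝ) (hu : Inv u) : Inv (c • u) := fun γ => by
  rw [map_smul, hu]

lemma Inv.one : Inv (1 : Sm L (Ed D l)) := fun γ => map_one _

lemma Inv.HH {g : ℝ} {u : Sm L (Ed D l)} (hu : Inv u) : Inv (HH L.Dv g (VT L D l) u) := fun γ => by
  rw [← HH_gs, hu]

/-! ### linearity of `XX` in the first argument -/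

lemma XX_add_left {A : Type*} [CommRing A] [Algebra ℝ A] {J : Type*} [Fintype J]
    {D : J → Derivation ℝ A A} (f h u : A) : XX D (f + h) u = XX D f u + XX D h u := by
  unfold XX
  have h1 : Lap D (f + h) = Lap D f + Lap D h := by
    unfold Lap
    rw [← Finset.sum_add_distrib]
    exact Finset.sum_congr rfl fun j _ => by rw [map_add, map_add]
  rw [h1, Gam_comm (f + h) u, Gam_add, Gam_comm u f, Gam_comm u h, add_mul, smul_add]
  abel

lemma XX_smul_left {A : Type*} [CommRing A] [Algebra ℝ A] {J : Type*} [Fintype J]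
    {D : J → Derivation ℝ A A} (c : ℝ) (f u : A) : XX D (c • f) u = c • XX D f u := by
  unfold XX
  have h1 : Lap D (c • f) = c • Lap D f := by
    unfold Lap
    rw [Finset.smul_sum]
    exact Finset.sum_congr rfl fun j _ => by rw [Derivation.map_smul, Derivation.map_smul]
  rw [h1, Gam_comm (c • f) u, Gam_smul, Gam_comm u f, smul_mul_assoc, smul_add, smul_comm]

lemma XX_sum_left {A : Type*} [CommRing A] [Algebra ℝ A] {J : Type*} [Fintype J]
    {D : J → Derivation ℝ A A} {K : Type*} (s : Finset K) (f : K → A) (u : A) :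
    XX D (∑ k ∈ s, f k) u = ∑ k ∈ s, XX D (f k) u := by
  classical
  induction s using Finset.induction_on with
  | empty =>
    have := XX_smul_left (D := D) 0 0 u
    simpa using this
  | insert k s hk ih => rw [Finset.sum_insert hk, Finset.sum_insert hk, XX_add_left, ih]

/-! ### covariance of the flux -/

lemma gs_Phi {K : Pt D → ℝ} {i0 i1 : Fin D}
    (hK : ∀ x : Pt D, K x ≠ 0 → ∀ i, 2 ≤ x i ∧ x i + 3 ≤ m)
    (γ : (Fin D → ZMod l) → G) (x0 : Fin D → ZMod l) (a : Fin n) :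
    gs γ (pull (iot l x0) (Phi L m K i0 i1 a)) =
      ∑ b, L.adm (γ (x0 + ct l 1))⁻¹ b a • pull (iot l x0) (Phi L m K i0 i1 b) := by
  refine ev_ext fun U => ?_
  rw [map_sum]
  have h1 : L.ev U (gs γ (pull (iot l x0) (Phi L m K i0 i1 a))) =
      ip (L.X a) (MMf (m := m) L K i0 i1 (gt γ U ∘ iot l x0)) := rfl
  rw [h1, MMf_gauge hK, ip_conj]
  have h2 := conj_eq (L := L) (γ (x0 + ct l 1))⁻¹ a
  rw [L.rho_inv, conjTranspose_conjTranspose] at h2
  rw [h2, ip_comm, map_sum]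
  refine Finset.sum_congr rfl fun b _ => ?_
  rw [map_smul, map_smul, smul_eq_mul, smul_eq_mul, ip_comm]
  rfl

/-- the member of the family -/
def fam (w : Sm L (Ed D l)) (F : Sm L (Ed D l)) (t : ℝ) : Sm L (Ed D l) :=
  XX (L.Dv (E := Ed D l)) F w + t • (F * w)

lemma gs_fam1 {F : Fin n → Sm L (Ed D l)} {R : Fin n → Fin n → ℝ}
    (γ : (Fin D → ZMod l) → G) (h1 : ∀ a, gs γ (F a) = ∑ b, R b a • F b)
    {w : Sm L (Ed D l)} (hw : Inv w) (t : ℝ) (a : Fin n) :
    gs γ (fam w (F a) t) = ∑ b, R b a • fam w (F b) t := by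
  have h3 : gs γ (XX (L.Dv (E := Ed D l)) (F a) w) =
      ∑ b, R b a • XX (L.Dv (E := Ed D l)) (F b) w := by
    rw [← XX_gs, h1, hw, XX_sum_left]
    exact Finset.sum_congr rfl fun b _ => XX_smul_left _ _ _
  have h4 : gs γ (F a * w) = ∑ b, R b a • (F b * w) := by
    rw [map_mul, h1, hw, Finset.sum_mul]
    exact Finset.sum_congr rfl fun b _ => by rw [smul_mul_assoc]
  unfold fam
  rw [map_add, map_smul, h3, h4, Finset.smul_sum, ← Finset.sum_add_distrib]
  refine Finset.sum_congr rfl fun b _ => ?_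
  rw [smul_add, smul_comm]

lemma gs_fam {F : Fin n → Sm L (Ed D l)} {R : Fin n → Fin n → ℝ}
    (hR : ∀ b b', ∑ a, R b a * R b' a = if b = b' then 1 else 0)
    (γ : (Fin D → ZMod l) → G) (h1 : ∀ a, gs γ (F a) = ∑ b, R b a • F b)
    {w : Sm L (Ed D l)} (hw : Inv w) (t : ℝ) :
    ∑ a, gs γ (fam w (F a) t) * gs γ (fam w (F a) t) =
    ∑ a, fam w (F a) t * fam w (F a) t := by
  have h5 := sum_orth (V := Sm L (Ed D l)) R hR (fun b b' => fam w (F b) t * fam w (F b') t)
  have h6 : ∀ a, gs γ (fam w (F a) t) * gs γ (fam w (F a) t) =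
      ∑ b, ∑ b', (R b a * R b' a) • (fam w (F b) t * fam w (F b') t) := by
    intro a
    rw [gs_fam1 γ h1 hw t a, Finset.sum_mul_sum]
    refine Finset.sum_congr rfl fun b _ => Finset.sum_congr rfl fun b' _ => ?_
    rw [smul_mul_smul_comm]
  rw [Finset.sum_congr rfl fun a _ => h6 a, h5]

/-! ### the Casimir operator -/

section cas

variable {E : Type*} [Fintype E] [DecidableEq E]

lemma sc_ip (a c b : Fin n) : L.sc a c b = ip (L.X b) (L.X a * L.X c - L.X c * L.X a) := by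
  rw [← sc_spec, map_sum]
  simp only [map_smul, ip_X, smul_eq_mul, mul_ite, mul_one, mul_zero, Finset.sum_ite_eq,
    Finset.mem_univ, if_true]

lemma sc_anti (a c b : Fin n) : L.sc a c b = -L.sc b c a := by
  rw [sc_ip, sc_ip, ip_apply, ip_apply, skew, skew]
  have h1 : trace (L.X b * (L.X a * L.X c)) = trace (L.X a * (L.X c * L.X b)) := by
    rw [trace_mul_comm, Matrix.mul_assoc]
  have h2 : trace (L.X b * (L.X c * L.X a)) = trace (L.X a * (L.X b * L.X c)) := by
    rw [← Matrix.mul_assoc, trace_mul_comm]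
  rw [neg_mul, neg_mul, mul_sub, mul_sub, trace_neg, trace_neg, trace_sub, trace_sub, h1, h2]
  simp

lemma sig_anti (i j k : E × Fin n) : L.sig i j k = -L.sig k j i := by
  unfold LD.sig
  by_cases h : i.1 = j.1 ∧ k.1 = i.1
  · have h' : k.1 = j.1 ∧ i.1 = k.1 := ⟨h.2.trans h.1, h.2.symm⟩
    rw [if_pos h, if_pos h', sc_anti]
  · have h' : ¬(k.1 = j.1 ∧ i.1 = k.1) := fun h' => h ⟨h'.2.trans h'.1, h'.2.symm⟩
    rw [if_neg h, if_neg h', neg_zero]

lemma Lap_Dv (j : E × Fin n) (F : Sm L E) : Lap L.Dv (L.Dv j F) = L.Dv j (Lap L.Dv F) := by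
  unfold Lap
  rw [map_sum, ← sub_eq_zero, ← Finset.sum_sub_distrib]
  have h1 : ∀ i, L.Dv i (L.Dv i (L.Dv j F)) - L.Dv j (L.Dv i (L.Dv i F)) =
      ∑ k, L.sig i j k • (L.Dv i (L.Dv k F) + L.Dv k (L.Dv i F)) := by
    intro i
    have a1 := Dv_comm (L := L) i j F
    have a2 := Dv_comm (L := L) i j (L.Dv i F)
    have a3 := congrArg (L.Dv i) a1
    rw [map_sub, map_sum] at a3
    have a4 : L.Dv i (L.Dv i (L.Dv j F)) - L.Dv j (L.Dv i (L.Dv i F)) =
        (L.Dv i (L.Dv i (L.Dv j F)) - L.Dv i (L.Dv j (L.Dv i F))) +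
        (L.Dv i (L.Dv j (L.Dv i F)) - L.Dv j (L.Dv i (L.Dv i F))) := by abel
    rw [a4, a3, a2, ← Finset.sum_add_distrib]
    refine Finset.sum_congr rfl fun k _ => ?_
    rw [Derivation.map_smul, smul_add]
  rw [Finset.sum_congr rfl fun i _ => h1 i]
  set S : Sm L E := ∑ i, ∑ k, L.sig i j k • (L.Dv i (L.Dv k F) + L.Dv k (L.Dv i F)) with hS
  have h2 : S = -S := by
    conv_lhs => rw [hS, Finset.sum_comm]
    rw [hS, ← Finset.sum_neg_distrib]
    refine Finset.sum_congr rfl fun i _ => ?_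
    rw [← Finset.sum_neg_distrib]
    refine Finset.sum_congr rfl fun k _ => ?_
    rw [sig_anti, neg_smul, add_comm]
  have h3 : (2 : ℝ) • S = 0 := by
    rw [two_smul]
    nth_rewrite 2 [h2]
    exact add_neg_cancel S
  have h4 := congrArg (fun x => (1 / 2 : ℝ) • x) h3
  simpa [smul_smul] using h4

lemma cas_abs {A : Type*} [CommRing A] [Algebra ℝ A] {P J : Type*} [Fintype J] (S : Fn A P J)
    (hcas : ∀ j u, Lap S.D (S.D j u) = S.D j (Lap S.D u)) (w : A) :
    ∑ j, ∑ j', S.I (S.D j' (S.D j w) * S.D j' (S.D j w)) =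
      S.I (Lap S.D w * Lap S.D w) := by
  have h1 : ∀ j, ∑ j', S.I (S.D j' (S.D j w) * S.D j' (S.D j w)) =
      S.I (S.D j (S.D j w) * Lap S.D w) := by
    intro j
    have h3 := S.I_Lap (S.D j w) (S.D j w)
    rw [hcas] at h3
    have h4 := YM.I_D (D := S.D) S.I S.I_D j (S.D j w) (Lap S.D w)
    have h5 : S.I (Gam S.D (S.D j w) (S.D j w)) =
        ∑ j', S.I (S.D j' (S.D j w) * S.D j' (S.D j w)) := by
      unfold Gam
      rw [map_sum]
    rw [← h5]
    linarith
  rw [Finset.sum_congr rfl fun j _ => h1 j, ← map_sum, ← Finset.sum_mul]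
  rfl

end cas

end

end Pool.Agent.H906R3.YM
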