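import Mathlib
import Pool.Agent.H906R3.YM.Torus
import Pool.Agent.H906R3.YM.Chain

/-!
# The energy density of the vacuum at weak coupling
-/

open MeasureTheory Matrix
open scoped Matrix.Norms.Frobenius ContDiff

namespace Pool.Agent.H906R3.YM

set_option linter.unusedSectionVars false

noncomputable section

variable {G : Type*} [Group G] [TopologicalSpace G] {N n : ℕ} {L : LD G N n}

/-! ### plaquette energies -/

lemma ip_self_nonneg (A : Mat N) : 0 ≤ ip A A := by
  rw [ip_apply, ← sum_co_sq]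
  exact Finset.sum_nonneg fun _ _ => sq_nonneg _

lemma ip_add_sq (A B : Mat N) : ip (A + B) (A + B) ≤ 2 * ip A A + 2 * ip B B := by
  have h1 := ip_self_nonneg (A - B)
  have e1 : ip (A + B) (A + B) = ip A A + 2 * ip A B + ip B B := by
    rw [map_add, ip_add_left, ip_add_left, ip_comm B A]; ring
  have e2 : ip (A - B) (A - B) = ip A A - 2 * ip A B + ip B B := by
    have : ip (A - B) (A - B) = ip (A + -B) (A + -B) := by rw [sub_eq_add_neg]
    rw [this, map_add, ip_add_left, ip_add_left, map_neg, map_neg, ip_comm (-B) A,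
      ip_comm (-B) B, map_neg, map_neg]
    ring
  rw [e1]; linarith

lemma we_ip (g : G) : we L g = 1 / 2 * ip (1 - L.rho g) (1 - L.rho g) := we_eq g

lemma we_mul (g h : G) : we L (g * h) ≤ 2 * we L g + 2 * we L h := by
  rw [we_ip, we_ip, we_ip]
  have e1 : 1 - L.rho (g * h) = (1 - L.rho g) + L.rho g * (1 - L.rho h) := by
    rw [map_mul]; noncomm_ring
  have e2 : ip (L.rho g * (1 - L.rho h)) (L.rho g * (1 - L.rho h)) =
      ip (1 - L.rho h) (1 - L.rho h) := by
    rw [ip_apply, ip_apply, conjTranspose_mul]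
    congr 2
    have h1 := L.unit' g
    calc (1 - L.rho h)ᴴ * (L.rho g)ᴴ * (L.rho g * (1 - L.rho h))
        = (1 - L.rho h)ᴴ * ((L.rho g)ᴴ * L.rho g) * (1 - L.rho h) := by
          simp only [Matrix.mul_assoc]
      _ = _ := by rw [h1, mul_one]
  have h2 := ip_add_sq (1 - L.rho g) (L.rho g * (1 - L.rho h))
  rw [e1]
  rw [e2] at h2
  linarith

lemma we_inv (g : G) : we L g⁻¹ = we L g := by
  unfold we
  rw [L.rho_inv, trace_sub, trace_sub, trace_conjTranspose]
  simp

lemma we_plq (a b c d : G) : we L (a * b * c⁻¹ * d⁻¹) ≤ 4 * (we L a + we L b + we L c + we L d) := by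
  have h1 := we_mul (L := L) (a * b) (c⁻¹ * d⁻¹)
  have h2 := we_mul (L := L) a b
  have h3 := we_mul (L := L) c⁻¹ d⁻¹
  rw [we_inv, we_inv] at h3
  rw [← mul_assoc] at h1
  linarith

/-! ### the trial state -/

variable {E : Type*} [Fintype E] [DecidableEq E]

/-- exponential of a smooth function -/
def expS (F : Sm L E) : Sm L E :=
  ⟨fun U => Real.exp (F.1 U), by
    obtain ⟨F, f, hf, h⟩ := F
    exact ⟨fun M => Real.exp (f M), hf.exp, fun U => by simp only [h]⟩⟩

lemma Dv_expS (j : E × Fin n) (F : Sm L E) : L.Dv j (expS F) = expS F * L.Dv j F := by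
  refine ev_ext fun U => ?_
  have h1 := (hasDerivAt_dF F.2 j.1 j.2 U 0).exp.deriv
  rw [L.shift_zero] at h1
  exact h1

/-- one link energy as a smooth function -/
def W1 (L : LD G N n) (e : E) : Sm L E :=
  lin (ip 1) (fun U => 1 - L.rho (U e)) ((SmM.const 1).sub (SmM.link e))

lemma W1_apply (e : E) (U : E → G) : L.ev U (W1 L e) = we L (U e) := by
  show ip 1 _ = _
  rw [ip_apply, conjTranspose_one, one_mul]
  rfl

lemma Dv_W1_same (e : E) (a : Fin n) (U : E → G) :
    L.ev U (L.Dv (e, a) (W1 L e)) = -ip 1 (L.X a * L.rho (U e)) := by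
  have h0 := (hasDerivAt_pi.1 (L.hasDerivAt_mat e a U)) e
  have hv : L.vf e a (L.mat U) e = L.X a * L.rho (U e) := by simp [LD.vf, LD.mat]
  rw [hv] at h0
  have h1 : HasDerivAt (fun t => (fun U : E → G => 1 - L.rho (U e)) (L.shift (e, a).1 (e, a).2 t U))
      (-(L.X a * L.rho (U e))) 0 := h0.const_sub 1
  have h2 := Dv_lin (ip 1) (fun U : E → G => 1 - L.rho (U e))
    ((SmM.const 1).sub (SmM.link e)) (e, a) U h1
  refine h2.trans ?_
  rw [map_neg]

lemma Dv_W1_ne (e e' : E) (h : e' ≠ e) (a : Fin n) : L.Dv (e', a) (W1 L e) = 0 := by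
  refine ev_ext fun U => ?_
  rw [ev_apply, Dv_apply, map_zero]
  unfold LD.dF
  have h1 : (fun t => (W1 L e).1 (L.shift (e', a).1 (e', a).2 t U)) = fun t => (W1 L e).1 U := by
    funext t
    show ip 1 (1 - L.rho _) = ip 1 (1 - L.rho _)
    unfold LD.shift
    rw [Pi.mul_apply, Pi.mulSingle_eq_of_ne (Ne.symm h), one_mul]
  rw [h1]
  exact deriv_const _ _

lemma ip_bound [CompactSpace G] (L : LD G N n) : ∃ B : ℝ, 0 ≤ B ∧ ∀ (a : Fin n) (g : G),
    (ip 1 (L.X a * L.rho g)) ^ 2 ≤ B := by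
  have h1 : ∀ a, ∃ B : ℝ, ∀ g : G, (ip 1 (L.X a * L.rho g)) ^ 2 ≤ B := by
    intro a
    have hc : Continuous fun g : G => (ip 1 (L.X a * L.rho g)) ^ 2 :=
      ((ip (1 : Mat N)).continuous.comp (continuous_const.mul L.cont)).pow 2
    obtain ⟨B, hB⟩ := (isCompact_univ.image hc).bddAbove
    exact ⟨B, fun g => hB ⟨g, trivial, rfl⟩⟩
  choose B hB using h1
  refine ⟨∑ a, |B a|, Finset.sum_nonneg fun _ _ => abs_nonneg _, fun a g => ?_⟩
  refine (hB a g).trans ((le_abs_self _).trans ?_)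
  exact Finset.single_le_sum (f := fun a => |B a|) (fun _ _ => abs_nonneg _) (Finset.mem_univ a)

/-- the exponent of the trial state -/
def tex (L : LD G N n) (E : Type*) [Fintype E] [DecidableEq E] (κ : ℝ) : Sm L E :=
  (-κ) • ∑ e : E, W1 L e

lemma Dv_tex (κ : ℝ) (j : E × Fin n) (U : E → G) :
    L.ev U (L.Dv j (tex L E κ)) = κ * ip 1 (L.X j.2 * L.rho (U j.1)) := by
  unfold tex
  rw [Derivation.map_smul, map_sum, Finset.sum_eq_single j.1]
  · rw [map_smul, smul_eq_mul]
    have := Dv_W1_same (L := L) j.1 j.2 U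
    rw [this]; ring
  · intro e _ he
    exact Dv_W1_ne e j.1 (Ne.symm he) j.2
  · simp

variable [IsTopologicalGroup G] [CompactSpace G] [SecondCountableTopology G]
  [MeasurableSpace G] [BorelSpace G] (μ : Measure G) [IsProbabilityMeasure μ]
  [μ.IsMulLeftInvariant]

lemma one_link [μ.IsOpenPosMeasure] (ε : ℝ) (hε : 0 < ε) :
    ∃ κ : ℝ, 0 < κ ∧ ∫ g, we L g * Real.exp (-(2 * κ) * we L g) ∂μ ≤
      ε * ∫ g, Real.exp (-(2 * κ) * we L g) ∂μ := by
  have hwc : Continuous fun g : G => we L g := by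
    unfold we
    exact Complex.continuous_re.comp ((continuous_const.sub L.cont).matrix_trace)
  obtain ⟨M, hM⟩ := (isCompact_univ.image hwc).bddAbove
  have hM' : ∀ g, we L g ≤ M := fun g => hM ⟨g, trivial, rfl⟩
  have hM0 : 0 ≤ M := (we_nonneg (L := L) (1 : G)).trans (hM' 1)
  have hint : ∀ f : G → ℝ, Continuous f → Integrable f μ := fun f hf =>
    hf.integrable_of_hasCompactSupport (HasCompactSupport.of_compactSpace _)
  set O : Set G := {g | we L g < ε / 4} with hO
  have hOo : IsOpen O := isOpen_lt hwc continuous_const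
  have hO1 : (1 : G) ∈ O := by
    show we L 1 < ε / 4
    unfold we
    rw [map_one, sub_self, trace_zero, Complex.zero_re]; linarith
  have hp : 0 < μ.real O := by
    rw [Measure.real, ENNReal.toReal_pos_iff]
    exact ⟨hOo.measure_pos μ ⟨1, hO1⟩, measure_lt_top μ O⟩
  -- choose κ with `M e^{-κ ε} ≤ (ε/2) p e^{-κ ε / 2}`
  obtain ⟨κ, hκ⟩ : ∃ κ : ℝ, 0 < κ ∧ M * Real.exp (-(κ * ε / 2)) ≤ ε / 2 * μ.real O := by
    have h1 : Filter.Tendsto (fun κ : ℝ => M * Real.exp (-(κ * ε / 2))) Filter.atTop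
        (nhds (M * 0)) := by
      refine Filter.Tendsto.const_mul _ ?_
      refine Real.tendsto_exp_neg_atTop_nhds_zero.comp ?_
      refine Filter.Tendsto.atTop_div_const (by norm_num) ?_
      exact Filter.tendsto_id.atTop_mul_const hε
    rw [mul_zero] at h1
    have h2 := h1.eventually (gt_mem_nhds (show (0 : ℝ) < ε / 2 * μ.real O by positivity))
    obtain ⟨κ, h3, h4⟩ := (h2.and (Filter.eventually_gt_atTop 0)).exists
    exact ⟨κ, h4, h3.le⟩
  refine ⟨κ, hκ.1, ?_⟩
  have hκ0 := hκ.1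
  have hce : Continuous fun g : G => Real.exp (-(2 * κ) * we L g) :=
    Real.continuous_exp.comp (continuous_const.mul hwc)
  -- pointwise bound
  have hpt : ∀ g, we L g * Real.exp (-(2 * κ) * we L g) ≤
      ε / 2 * Real.exp (-(2 * κ) * we L g) + M * Real.exp (-(κ * ε)) := by
    intro g
    by_cases hg : we L g ≤ ε / 2
    · have h1 := mul_le_mul_of_nonneg_right hg (Real.exp_nonneg (-(2 * κ) * we L g))
      have h2 : 0 ≤ M * Real.exp (-(κ * ε)) := by positivity
      linarith
    · rw [not_le] at hg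
      have h1 : Real.exp (-(2 * κ) * we L g) ≤ Real.exp (-(κ * ε)) :=
        Real.exp_le_exp.2 (by nlinarith)
      have h2 : we L g * Real.exp (-(2 * κ) * we L g) ≤ M * Real.exp (-(κ * ε)) :=
        mul_le_mul (hM' g) h1 (Real.exp_nonneg _) hM0
      have h3 : 0 ≤ ε / 2 * Real.exp (-(2 * κ) * we L g) := by positivity
      linarith
  have h1 : ∫ g, we L g * Real.exp (-(2 * κ) * we L g) ∂μ ≤
      ε / 2 * ∫ g, Real.exp (-(2 * κ) * we L g) ∂μ + M * Real.exp (-(κ * ε)) := by
    have h2 : ∫ g, we L g * Real.exp (-(2 * κ) * we L g) ∂μ ≤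
        ∫ g, (ε / 2 * Real.exp (-(2 * κ) * we L g) + M * Real.exp (-(κ * ε))) ∂μ :=
      integral_mono (hint _ (hwc.mul hce)) ((((hint _ hce).const_mul (ε / 2))).add
      (integrable_const (M * Real.exp (-(κ * ε))))) hpt
    rw [integral_add ((hint _ hce).const_mul (ε / 2)) (integrable_const _),
      integral_const_mul, integral_const] at h2
    simpa using h2
  have h3 : μ.real O * Real.exp (-(κ * ε / 2)) ≤ ∫ g, Real.exp (-(2 * κ) * we L g) ∂μ := by
    have h4 : ∫ g, O.indicator (fun _ => Real.exp (-(κ * ε / 2))) g ∂μ =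
        μ.real O * Real.exp (-(κ * ε / 2)) := by
      rw [integral_indicator hOo.measurableSet]
      simp [Measure.real]
    rw [← h4]
    refine integral_mono ((integrable_const _).indicator hOo.measurableSet) (hint _ hce) ?_
    intro g
    by_cases hg : g ∈ O
    · rw [Set.indicator_of_mem hg]
      have : we L g < ε / 4 := hg
      exact Real.exp_le_exp.2 (by nlinarith)
    · rw [Set.indicator_of_notMem hg]
      exact Real.exp_nonneg _
  have h5 : M * Real.exp (-(κ * ε)) ≤ ε / 2 * (μ.real O * Real.exp (-(κ * ε / 2))) := by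
    have h6 : Real.exp (-(κ * ε)) = Real.exp (-(κ * ε / 2)) * Real.exp (-(κ * ε / 2)) := by
      rw [← Real.exp_add]; congr 1; ring
    rw [h6]
    have h7 := mul_le_mul_of_nonneg_right hκ.2 (Real.exp_nonneg (-(κ * ε / 2)))
    linarith
  have h8 := mul_le_mul_of_nonneg_left h3 (show (0 : ℝ) ≤ ε / 2 by positivity)
  linarith

end

end Pool.Agent.H906R3.YM
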