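import Mathlib
import Pool.Agent.H906R3.YM.Equi
import Pool.Agent.H906R3.YM.Trial

/-!
# Finite rank mollifiers
-/

open MeasureTheory Matrix
open scoped Matrix.Norms.Frobenius ContDiff

namespace Pool.Agent.H906R3.YM

set_option linter.unusedSectionVars false

noncomputable section

/-! ### two general lemmas -/

lemma soft_gen {X : Type*} [TopologicalSpace X] [CompactSpace X] {F W : X → ℝ}
    (hF : Continuous F) (hW : Continuous W) (hW0 : ∀ x, 0 ≤ W x) (h : ∀ x, W x = 0 → F x ≤ 0)
    {τ : ℝ} (hτ : 0 < τ) : ∃ C : ℝ, 0 ≤ C ∧ ∀ x, F x ≤ τ + C * W x := by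
  by_cases hne : ∃ x, τ ≤ F x
  · have hcl : IsCompact {x | τ ≤ F x} := (isClosed_le continuous_const hF).isCompact
    obtain ⟨x1, hx1, hmin⟩ := hcl.exists_isMinOn hne hW.continuousOn
    obtain ⟨x2, -, hmax⟩ := isCompact_univ.exists_isMaxOn ⟨x1, trivial⟩ hF.continuousOn
    have hpos : 0 < W x1 := by
      rcases (hW0 x1).lt_or_eq with h1 | h1
      · exact h1
      · have h2 := h x1 h1.symm
        have h3 : τ ≤ F x1 := hx1
        linarith
    have hF2 : 0 ≤ F x2 := by
      have h3 : τ ≤ F x1 := hx1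
      have h4 : F x1 ≤ F x2 := hmax (Set.mem_univ x1)
      linarith
    refine ⟨F x2 / W x1, div_nonneg hF2 hpos.le, fun x => ?_⟩
    by_cases hx : τ ≤ F x
    · have h3 : W x1 ≤ W x := hmin hx
      have h4 : F x ≤ F x2 := hmax (Set.mem_univ x)
      have h5 : F x2 ≤ F x2 / W x1 * W x := by
        rw [div_mul_eq_mul_div, le_div_iff₀ hpos]
        exact mul_le_mul_of_nonneg_left h3 hF2
      linarith
    · rw [not_le] at hx
      have : 0 ≤ F x2 / W x1 * W x := mul_nonneg (div_nonneg hF2 hpos.le) (hW0 x)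
      linarith
  · refine ⟨0, le_rfl, fun x => ?_⟩
    by_contra hc
    exact hne ⟨x, by
      simp only [zero_mul, add_zero, not_le] at hc
      exact hc.le⟩

lemma conc {X : Type*} [TopologicalSpace X] [CompactSpace X] [MeasurableSpace X]
    [OpensMeasurableSpace X] (ν : Measure X) [IsProbabilityMeasure ν] [ν.IsOpenPosMeasure]
    {ξ : X → ℝ} (hξ : Continuous ξ) (h0 : ∀ x, 0 ≤ ξ x) (h1 : ∀ x, ξ x ≤ 1) {x0 : X}
    (hx0 : ξ x0 = 1) {τ : ℝ} (hτ : 0 < τ) :
    ∃ k : ℕ, ∫ x, (1 - ξ x) * ξ x ^ k ∂ν ≤ τ * ∫ x, ξ x ^ k ∂ν := by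
  have hint : ∀ f : X → ℝ, Continuous f → Integrable f ν := fun f hf =>
    hf.integrable_of_hasCompactSupport (HasCompactSupport.of_compactSpace _)
  wlog hτ1 : τ < 1 generalizing τ
  · obtain ⟨k, hk⟩ := this (τ := 1 / 2) (by norm_num) (by norm_num)
    refine ⟨k, hk.trans (mul_le_mul_of_nonneg_right (by linarith) ?_)⟩
    exact integral_nonneg fun x => pow_nonneg (h0 x) _
  by_contra hc
  push Not at hc
  set a : ℕ → ℝ := fun k => ∫ x, ξ x ^ k ∂ν with ha
  have ha1 : ∀ k, a (k + 1) ≤ (1 - τ) * a k := by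
    intro k
    have h2 := hc k
    have h3 : ∫ x, (1 - ξ x) * ξ x ^ k ∂ν = a k - a (k + 1) := by
      have e := integral_sub (hint (fun x => ξ x ^ k) (hξ.pow k))
        (hint (fun x => ξ x ^ (k + 1)) (hξ.pow (k + 1)))
      rw [ha]
      dsimp only
      rw [← e]
      refine integral_congr_ae (Filter.Eventually.of_forall fun x => ?_)
      dsimp only
      ring
    rw [h3] at h2
    linarith
  have ha0 : a 0 = 1 := by
    rw [ha]; simp
  have ha2 : ∀ k, a k ≤ (1 - τ) ^ k := by
    intro k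
    induction k with
    | zero => rw [ha0, pow_zero]
    | succ k ih =>
      refine (ha1 k).trans ?_
      rw [pow_succ, mul_comm]
      exact mul_le_mul_of_nonneg_right ih (by linarith)
  set O : Set X := {x | 1 - τ / 2 < ξ x} with hO
  have hOo : IsOpen O := isOpen_lt continuous_const hξ
  have hp : 0 < ν.real O := by
    rw [Measure.real, ENNReal.toReal_pos_iff]
    refine ⟨hOo.measure_pos ν ⟨x0, ?_⟩, measure_lt_top ν O⟩
    show 1 - τ / 2 < ξ x0
    rw [hx0]; linarith
  have ha3 : ∀ k, ν.real O * (1 - τ / 2) ^ k ≤ a k := by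
    intro k
    have h4 : ∫ x, O.indicator (fun _ => (1 - τ / 2) ^ k) x ∂ν = ν.real O * (1 - τ / 2) ^ k := by
      rw [integral_indicator hOo.measurableSet]
      simp [Measure.real]
    rw [← h4]
    refine integral_mono ((integrable_const _).indicator hOo.measurableSet)
      (hint _ (hξ.pow _)) fun x => ?_
    by_cases hx : x ∈ O
    · rw [Set.indicator_of_mem hx]
      have h5 : 1 - τ / 2 < ξ x := hx
      exact pow_le_pow_left₀ (by linarith) h5.le k
    · rw [Set.indicator_of_notMem hx]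
      exact pow_nonneg (h0 x) _
  have h5 : ∀ k : ℕ, ν.real O ≤ ((1 - τ) / (1 - τ / 2)) ^ k := by
    intro k
    rw [div_pow, le_div_iff₀ (pow_pos (by linarith) k)]
    exact (ha3 k).trans (ha2 k)
  have h6 : Filter.Tendsto (fun k : ℕ => ((1 - τ) / (1 - τ / 2)) ^ k) Filter.atTop (nhds 0) := by
    refine tendsto_pow_atTop_nhds_zero_of_lt_one (div_nonneg (by linarith) (by linarith)) ?_
    rw [div_lt_one (by linarith)]; linarith
  have h7 := ge_of_tendsto' h6 h5
  linarith

/-! ### the kernel -/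

variable {G : Type*} [Group G] [TopologicalSpace G] {N n : ℕ} {L : LD G N n}
variable {E : Type*} [Fintype E] [DecidableEq E]

lemma ip_sum_co (A B : Mat N) : ip A B = ∑ c, co c A * co c B := by
  have h := sum_co_sq (A + B)
  have h1 := sum_co_sq A
  have h2 := sum_co_sq B
  have e : ∀ M : Mat N, (trace (Mᴴ * M)).re = ip M M := fun M => rfl
  rw [e] at h h1 h2
  rw [ip_add_left, map_add, map_add, ip_comm B A, ← h1, ← h2] at h
  have h3 : ∑ c, co c (A + B) ^ 2 = ∑ c, co c A ^ 2 + ∑ c, co c B ^ 2 +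
      2 * ∑ c, co c A * co c B := by
    rw [Finset.mul_sum, ← Finset.sum_add_distrib, ← Finset.sum_add_distrib]
    refine Finset.sum_congr rfl fun c _ => ?_
    rw [map_add]; ring
  rw [h3] at h
  linarith

lemma we_sub (g h : G) : we L (g⁻¹ * h) = N - ip (L.rho g) (L.rho h) := by
  unfold we
  rw [map_mul, L.rho_inv, trace_sub, trace_one, Fintype.card_fin, Complex.sub_re, ip_apply]
  simp

lemma we_le (g : G) : we L g ≤ 2 * N := by
  have h1 := ip_self_nonneg (1 + L.rho g)
  rw [ip_add_left, map_add, map_add, ip_comm (L.rho g) 1] at h1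
  have h2 : ip (1 : Mat N) 1 = N := by
    rw [ip_apply, conjTranspose_one, one_mul, trace_one, Fintype.card_fin]; simp
  have h3 : ip (L.rho g) (L.rho g) = N := by
    rw [ip_apply, L.unit', trace_one, Fintype.card_fin]; simp
  have h4 := we_sub (L := L) 1 g
  rw [inv_one, one_mul, map_one] at h4
  rw [h2, h3] at h1
  rw [h4]; linarith

/-- the weight of one link -/
def zet (L : LD G N n) (g : G) : ℝ := 1 - we L g / (2 * N)

lemma zet_nonneg (hN : 0 < N) (g : G) : 0 ≤ zet L g := by
  have hN' : (0 : ℝ) < N := by exact_mod_cast hN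
  unfold zet
  rw [sub_nonneg, div_le_one (by positivity)]
  exact we_le g

lemma zet_le_one (g : G) : zet L g ≤ 1 := by
  unfold zet
  have := we_nonneg (L := L) g
  have h : 0 ≤ we L g / (2 * N) := by positivity
  linarith

lemma we_one : we L (1 : G) = 0 := by
  unfold we
  rw [map_one, sub_self, trace_zero, Complex.zero_re]

lemma we_cont : Continuous fun g : G => we L g := by
  unfold we
  exact Complex.continuous_re.comp ((continuous_const.sub L.cont).matrix_trace)

lemma zet_cont : Continuous fun g : G => zet L g := by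
  unfold zet
  exact continuous_const.sub (we_cont.div_const _)

/-- finite rank kernels -/
def FR (L : LD G N n) (K : (E → G) → (E → G) → ℝ) : Prop :=
  ∃ (ι : Type) (_ : Fintype ι) (p q : ι → Sm L E),
    ∀ U W, K U W = ∑ i, L.ev U (p i) * L.ev W (q i)

lemma FR.const (c : ℝ) : FR L fun _ _ : E → G => c :=
  ⟨Unit, inferInstance, fun _ => c • 1, fun _ => 1, fun U W => by
    simp [map_smul]⟩

lemma FR.add {K K' : (E → G) → (E → G) → ℝ} (h : FR L K) (h' : FR L K') :
    FR L fun U W => K U W + K' U W := by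
  obtain ⟨ι, _, p, q, h1⟩ := h
  obtain ⟨ι', _, p', q', h1'⟩ := h'
  refine ⟨ι ⊕ ι', inferInstance, Sum.elim p p', Sum.elim q q', fun U W => ?_⟩
  show K U W + K' U W = _
  rw [Fintype.sum_sum_type, h1, h1']
  rfl

lemma FR.mul {K K' : (E → G) → (E → G) → ℝ} (h : FR L K) (h' : FR L K') :
    FR L fun U W => K U W * K' U W := by
  obtain ⟨ι, _, p, q, h1⟩ := h
  obtain ⟨ι', _, p', q', h1'⟩ := h'
  refine ⟨ι × ι', inferInstance, fun i => p i.1 * p' i.2, fun i => q i.1 * q' i.2, fun U W => ?_⟩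
  show K U W * K' U W = _
  rw [Fintype.sum_prod_type, h1, h1', Finset.sum_mul_sum]
  refine Finset.sum_congr rfl fun i _ => Finset.sum_congr rfl fun j _ => ?_
  rw [map_mul, map_mul]; ring

lemma FR.pow {K : (E → G) → (E → G) → ℝ} (h : FR L K) (k : ℕ) :
    FR L fun U W => K U W ^ k := by
  induction k with
  | zero => simpa using FR.const (L := L) (E := E) 1
  | succ k ih =>
    simp only [pow_succ]
    exact ih.mul h

lemma FR.prod {F : Type*} (s : Finset F) {K : F → (E → G) → (E → G) → ℝ}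
    (h : ∀ i, FR L (K i)) : FR L fun U W => ∏ i ∈ s, K i U W := by
  classical
  induction s using Finset.induction_on with
  | empty => simpa using FR.const (L := L) (E := E) 1
  | insert i s hi ih =>
    simp only [Finset.prod_insert hi]
    exact (h i).mul ih

lemma FR.sum {F : Type*} (s : Finset F) {K : F → (E → G) → (E → G) → ℝ}
    (h : ∀ i, FR L (K i)) : FR L fun U W => ∑ i ∈ s, K i U W := by
  classical
  induction s using Finset.induction_on with
  | empty => simpa using FR.const (L := L) (E := E) 0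
  | insert i s hi ih =>
    simp only [Finset.sum_insert hi]
    exact (h i).add ih

lemma FR.zet (hN : 0 < N) (e : E) : FR L fun U W : E → G => zet L ((U e)⁻¹ * W e) := by
  have hN' : (N : ℝ) ≠ 0 := by exact_mod_cast hN.ne'
  have h1 : (fun U W : E → G => YM.zet L ((U e)⁻¹ * W e)) = fun U W =>
      1 / 2 + (1 / (2 * N)) * ∑ c, co c (L.rho (U e)) * co c (L.rho (W e)) := by
    funext U W
    unfold YM.zet
    rw [we_sub, ip_sum_co]
    field_simp
    ring
  rw [h1]
  refine (FR.const _).add ((FR.const _).mul (FR.sum _ fun c => ?_))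
  exact ⟨Unit, inferInstance, fun _ => lin (co c) _ (SmM.link e),
    fun _ => lin (co c) _ (SmM.link e), fun U W => by
      simp only [Finset.univ_unique, Finset.sum_singleton]
      rfl⟩

/-- the product weight -/
def xi (L : LD G N n) (Z : E → G) : ℝ := ∏ e, zet L (Z e)

lemma xi_cont : Continuous fun Z : E → G => xi L Z := by
  unfold xi
  exact continuous_finsetProd _ fun e _ => zet_cont.comp (continuous_apply e)

lemma xi_nonneg (hN : 0 < N) (Z : E → G) : 0 ≤ xi L Z :=
  Finset.prod_nonneg fun _ _ => zet_nonneg hN _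

lemma xi_le_one (hN : 0 < N) (Z : E → G) : xi L Z ≤ 1 :=
  Finset.prod_le_one (fun _ _ => zet_nonneg hN _) fun _ _ => zet_le_one _

lemma xi_one : xi L (1 : E → G) = 1 := by
  unfold xi
  refine Finset.prod_eq_one fun e _ => ?_
  unfold zet
  rw [Pi.one_apply, we_one]; simp

lemma xi_eq_one (hN : 0 < N) {Z : E → G} (h : xi L Z = 1) (e : E) : L.rho (Z e) = 1 := by
  have hN' : (0 : ℝ) < N := by exact_mod_cast hN
  have h1 : xi L Z ≤ zet L (Z e) := by
    unfold xi
    rw [← Finset.mul_prod_erase Finset.univ _ (Finset.mem_univ e)]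
    refine mul_le_of_le_one_right (zet_nonneg hN _) ?_
    exact Finset.prod_le_one (fun _ _ => zet_nonneg hN _) fun _ _ => zet_le_one _
  rw [h] at h1
  have h2 := we_nonneg (L := L) (Z e)
  apply we_zero
  refine le_antisymm ?_ h2
  unfold zet at h1
  have h3 : we L (Z e) / (2 * N) ≤ 0 := by linarith
  have h4 := (div_le_iff₀ (show (0 : ℝ) < 2 * N by positivity)).1 h3
  linarith

lemma zet_inv (g : G) : zet L g⁻¹ = zet L g := by
  unfold zet; rw [we_inv]

lemma xi_symm (U W : E → G) : xi L (U⁻¹ * W) = xi L (W⁻¹ * U) := by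
  unfold xi
  refine Finset.prod_congr rfl fun e _ => ?_
  rw [← zet_inv]
  congr 1
  simp

lemma FR_xi (hN : 0 < N) (c : ℝ) (k : ℕ) : FR L fun U W : E → G => c * xi L (U⁻¹ * W) ^ k := by
  have h1 : FR L fun U W : E → G => xi L (U⁻¹ * W) := FR.prod Finset.univ fun e => FR.zet hN e
  exact (FR.const c).mul (h1.pow k)

lemma ex_neg (a : Fin n) (t : ℝ) : L.ex a (-t) = (L.ex a t)⁻¹ := by
  have h := L.ex_add a (-t) t
  rw [neg_add_cancel, L.ex_zero] at h
  exact eq_inv_of_mul_eq_one_left h.symm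

lemma shift_kernel (e : E) (a : Fin n) (t : ℝ) (U W : E → G) :
    (L.shift e a t U)⁻¹ * W = U⁻¹ * L.shift e a (-t) W := by
  unfold LD.shift
  rw [_root_.mul_inv_rev, ex_neg, ← Pi.mulSingle_inv, mul_assoc]

variable [IsTopologicalGroup G] [CompactSpace G] [SecondCountableTopology G]
  [MeasurableSpace G] [BorelSpace G] (μ : Measure G) [IsProbabilityMeasure μ]
  [μ.IsMulLeftInvariant] [μ.IsOpenPosMeasure]

lemma integral_left (F : (E → G) → ℝ) (U : E → G) :
    ∫ W, F (U⁻¹ * W) ∂(ME μ E) = ∫ W, F W ∂(ME μ E) :=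
  integral_mul_left_eq_self (μ := ME μ E) F U⁻¹

lemma xi_int_pos (hN : 0 < N) (k : ℕ) : 0 < ∫ Z, xi L Z ^ k ∂(ME μ E) := by
  refine Continuous.integral_pos_of_hasCompactSupport_nonneg_nonzero (x := (1 : E → G))
    (xi_cont.pow k) (HasCompactSupport.of_compactSpace _) (fun Z => pow_nonneg (xi_nonneg hN Z) k)
    ?_
  show xi L 1 ^ k ≠ 0
  rw [xi_one, one_pow]; exact one_ne_zero

/-- a mollifier -/
structure Moll (L : LD G N n) (E : Type*) [Fintype E] [DecidableEq E] (μ : Measure G) where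
  M : Sm L E →ₗ[ℝ] Sm L E
  ker : (E → G) → Sm L E
  eq : ∀ U u, L.ev U (M u) = ∫ W, L.ev W (ker U) * L.ev W u ∂(ME μ E)
  pos : ∀ U W, 0 ≤ L.ev W (ker U)
  one : M 1 = 1
  symm : ∀ u v, ∫ W, L.ev W (M u) * L.ev W v ∂(ME μ E) = ∫ W, L.ev W u * L.ev W (M v) ∂(ME μ E)
  comm : ∀ j u, L.Dv j (M u) = M (L.Dv j u)
  fin : ∃ (ι : Type) (_ : Fintype ι) (q p : ι → Sm L E), ∀ u,
    M u = ∑ i, (∫ W, L.ev W (q i) * L.ev W u ∂(ME μ E)) • p i
  conj : ∀ (f : E → G → G), (∀ e g h, we L ((f e g)⁻¹ * f e h) = we L (g⁻¹ * h)) → ∀ U W,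
    L.ev (fun e => f e (W e)) (ker fun e => f e (U e)) = L.ev W (ker U)

theorem exists_moll (hN : 0 < N) (u : Sm L E) {τ : ℝ} (hτ : 0 < τ) :
    ∃ M : Moll L E μ, ∀ U, |L.ev U (M.M u) - L.ev U u| ≤ τ := by
  -- uniform continuity
  have hcont1 : Continuous fun x : (E → G) × (E → G) => |u.1 (x.1 * x.2) - u.1 x.1| :=
    (((Sm_cont u).comp (continuous_fst.mul continuous_snd)).sub
      ((Sm_cont u).comp continuous_fst)).abs
  have hcont2 : Continuous fun x : (E → G) × (E → G) => 1 - xi L x.2 :=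
    continuous_const.sub (xi_cont.comp continuous_snd)
  obtain ⟨C, hC0, hC⟩ := soft_gen hcont1 hcont2 (fun x => by
    have := xi_le_one (L := L) hN x.2; linarith) (fun x hx => by
      have h1 : xi L x.2 = 1 := by linarith
      have h2 : L.mat (x.1 * x.2) = L.mat x.1 := by
        funext e
        show L.rho (x.1 e * x.2 e) = L.rho (x.1 e)
        rw [map_mul, xi_eq_one hN h1 e, mul_one]
      obtain ⟨F, f, hf, h⟩ := u
      show |F (x.1 * x.2) - F x.1| ≤ 0
      rw [h, h, h2, sub_self, abs_zero]) (half_pos hτ)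
  obtain ⟨k, hk⟩ := conc (ME μ E) xi_cont (xi_nonneg (L := L) hN) (xi_le_one hN) xi_one
    (show 0 < τ / (2 * (C + 1)) by positivity)
  set c := ∫ Z, xi L Z ^ k ∂(ME μ E) with hc
  have hc0 : 0 < c := xi_int_pos μ hN k
  obtain ⟨ι, hι, p, q, hpq⟩ := FR_xi (L := L) (E := E) hN c⁻¹ k
  set ker : (E → G) → Sm L E := fun U => ∑ i, L.ev U (p i) • q i with hker
  have hkerev : ∀ U W, L.ev W (ker U) = c⁻¹ * xi L (U⁻¹ * W) ^ k := by
    intro U W
    have h := hpq U W
    dsimp only at h
    rw [h, hker]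
    dsimp only
    rw [map_sum]
    exact Finset.sum_congr rfl fun i _ => by rw [map_smul, smul_eq_mul]
  have hsymker : ∀ U W, L.ev W (ker U) = L.ev U (ker W) := fun U W => by
    rw [hkerev, hkerev, xi_symm]
  have hker1 : ∀ U, L.I μ (ker U) = 1 := by
    intro U
    rw [I_apply]
    have h1 : ∀ W, (ker U).1 W = c⁻¹ * xi L (U⁻¹ * W) ^ k := fun W => hkerev U W
    simp only [h1]
    rw [integral_const_mul, integral_left μ (fun Z => xi L Z ^ k) U, ← hc]
    exact inv_mul_cancel₀ hc0.ne'
  set Mf : Sm L E →ₗ[ℝ] Sm L E :=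
    ∑ i, ((L.I μ).comp (LinearMap.mulLeft ℝ (q i))).smulRight (p i) with hMf
  have hMfa : ∀ v, Mf v = ∑ i, (L.I μ (q i * v)) • p i := by
    intro v
    rw [hMf, LinearMap.sum_apply]
    rfl
  have hMev : ∀ U v, L.ev U (Mf v) = L.I μ (ker U * v) := by
    intro U v
    rw [hMfa, map_sum, hker]
    dsimp only
    rw [Finset.sum_mul, map_sum]
    refine Finset.sum_congr rfl fun i _ => ?_
    rw [map_smul, smul_mul_assoc, map_smul, smul_eq_mul, smul_eq_mul, mul_comm]
  have hM2 : ∀ v, Mf v = ∑ i, (L.I μ (p i * v)) • q i := by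
    intro v
    refine ev_ext fun W => ?_
    rw [hMev]
    have h1 : ker W = ∑ i, L.ev W (q i) • p i := by
      refine ev_ext fun U => ?_
      rw [← hsymker U W, hker, map_sum, map_sum]
      refine Finset.sum_congr rfl fun i _ => ?_
      rw [map_smul, map_smul, smul_eq_mul, smul_eq_mul, mul_comm]
    rw [h1, Finset.sum_mul, map_sum, map_sum]
    refine Finset.sum_congr rfl fun i _ => ?_
    rw [map_smul, smul_mul_assoc, map_smul, smul_eq_mul, smul_eq_mul, mul_comm]
  have hsymm : ∀ u v, L.I μ (Mf u * v) = L.I μ (u * Mf v) := by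
    intro u v
    rw [hMfa u, hM2 v, Finset.sum_mul, Finset.mul_sum, map_sum, map_sum]
    refine Finset.sum_congr rfl fun i _ => ?_
    rw [smul_mul_assoc, mul_smul_comm, map_smul, map_smul, smul_eq_mul, smul_eq_mul,
      mul_comm u (q i), mul_comm]
  have hone : Mf 1 = 1 := by
    refine ev_ext fun U => ?_
    rw [hMev, mul_one, hker1, map_one]
  have hcomm : ∀ j v, L.Dv j (Mf v) = Mf (L.Dv j v) := by
    intro j v
    refine ev_ext fun U => ?_
    rw [hMev]
    have h1 : ∑ i, L.ev U (L.Dv j (p i)) • q i = -L.Dv j (ker U) := by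
      refine ev_ext fun W => ?_
      have d1 : HasDerivAt (fun t => ∑ i, (p i).1 (L.shift j.1 j.2 t U) * (q i).1 W)
          (∑ i, (L.Dv j (p i)).1 U * (q i).1 W) 0 := by
        refine HasDerivAt.fun_sum fun i _ => ?_
        have := hasDerivAt_dF (p i).2 j.1 j.2 U 0
        rw [L.shift_zero] at this
        exact this.mul_const _
      have d2 : HasDerivAt (fun t => (ker U).1 (L.shift j.1 j.2 t W)) ((L.Dv j (ker U)).1 W) 0 := by
        have := hasDerivAt_dF (ker U).2 j.1 j.2 W 0
        rw [L.shift_zero] at this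
        exact this
      have d2' : HasDerivAt (fun t => (ker U).1 (L.shift j.1 j.2 t W))
          ((L.Dv j (ker U)).1 W) (-0) := by
        rw [neg_zero]; exact d2
      have d3 := HasDerivAt.comp (0 : ℝ) d2' (hasDerivAt_neg (0 : ℝ))
      have h2 : (fun t => ∑ i, (p i).1 (L.shift j.1 j.2 t U) * (q i).1 W) =
          (fun t => (ker U).1 (L.shift j.1 j.2 t W)) ∘ fun t => -t := by
        funext t
        have e1 : ∑ i, (p i).1 (L.shift j.1 j.2 t U) * (q i).1 W =
            c⁻¹ * xi L ((L.shift j.1 j.2 t U)⁻¹ * W) ^ k := (hpq _ _).symm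
        have e2 : (ker U).1 (L.shift j.1 j.2 (-t) W) =
            c⁻¹ * xi L (U⁻¹ * L.shift j.1 j.2 (-t) W) ^ k := hkerev _ _
        rw [e1, shift_kernel]
        exact e2.symm
      rw [h2] at d1
      have h3 := d1.unique d3
      rw [map_sum, map_neg]
      have h4 : ∑ i, L.ev W (L.ev U (L.Dv j (p i)) • q i) =
          ∑ i, (L.Dv j (p i)).1 U * (q i).1 W :=
        Finset.sum_congr rfl fun i _ => by rw [map_smul, smul_eq_mul]; rfl
      rw [h4, h3]
      have h5 : L.ev W (L.Dv j (ker U)) = (L.Dv j (ker U)).1 W := rfl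
      rw [h5]; ring
    have h6 := YM.I_D (D := L.Dv (E := E)) (L.I μ) (I_D_zero μ) j (ker U) v
    have e8 : (-L.Dv j (ker U)) * v = -(L.Dv j (ker U) * v) := ev_ext fun W => by
      rw [map_mul, map_neg, map_neg, map_mul]; ring
    have h7 : L.I μ (ker U * L.Dv j v) = L.I μ ((-L.Dv j (ker U)) * v) := by
      rw [e8, map_neg, h6, neg_neg]
    rw [h7, ← h1, hMfa, map_sum, map_sum, Finset.sum_mul, map_sum]
    refine Finset.sum_congr rfl fun i _ => ?_
    rw [Derivation.map_smul, map_smul, smul_mul_assoc, map_smul, smul_eq_mul, smul_eq_mul,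
      mul_comm]
  refine ⟨{ M := Mf, ker := ker, eq := fun U v => hMev U v, pos := fun U W => ?_, one := hone,
            symm := fun u v => hsymm u v, comm := hcomm,
            fin := ⟨ι, hι, q, p, fun v => hMfa v⟩, conj := ?_ }, fun U => ?_⟩
  · rw [hkerev]
    exact mul_nonneg (inv_nonneg.2 hc0.le) (pow_nonneg (xi_nonneg hN _) _)
  · intro f hf U W
    rw [hkerev, hkerev]
    congr 2
    unfold xi
    refine Finset.prod_congr rfl fun e _ => ?_
    show zet L ((f e (U e))⁻¹ * f e (W e)) = zet L ((U e)⁻¹ * W e)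
    unfold zet
    rw [hf]
  · -- approximation
    have h1 : L.ev U (Mf u) - L.ev U u =
        ∫ W, L.ev W (ker U) * (L.ev W u - L.ev U u) ∂(ME μ E) := by
      have h2 : L.I μ (ker U * (u - L.ev U u • 1)) = L.ev U (Mf u) - L.ev U u := by
        rw [mul_sub, map_sub, ← hMev, mul_smul_comm, mul_one, map_smul, hker1, smul_eq_mul,
          mul_one]
      rw [← h2, I_apply]
      refine integral_congr_ae (Filter.Eventually.of_forall fun W => ?_)
      show (ker U).1 W * (u.1 W - (L.ev U u) * 1) = (ker U).1 W * (u.1 W - L.ev U u)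
      rw [mul_one]
    rw [h1]
    refine (abs_integral_le_integral_abs).trans ?_
    have h3 : ∫ W, |L.ev W (ker U) * (L.ev W u - L.ev U u)| ∂(ME μ E) ≤
        ∫ W, (fun Z => c⁻¹ * xi L Z ^ k * (τ / 2 + C * (1 - xi L Z))) (U⁻¹ * W) ∂(ME μ E) := by
      refine integral_mono (integrable_cont μ ?_) (integrable_cont μ ?_) fun W => ?_
      · exact ((Sm_cont (ker U)).mul ((Sm_cont u).sub continuous_const)).abs
      · have hm : Continuous fun W : E → G => U⁻¹ * W := continuous_const.mul continuous_id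
        exact ((continuous_const.mul (xi_cont.pow k)).mul (continuous_const.add
          (continuous_const.mul (continuous_const.sub xi_cont)))).comp hm
      · dsimp only
        rw [abs_mul, hkerev, abs_of_nonneg (mul_nonneg (inv_nonneg.2 hc0.le)
          (pow_nonneg (xi_nonneg hN _) _))]
        refine mul_le_mul_of_nonneg_left ?_ (mul_nonneg (inv_nonneg.2 hc0.le)
          (pow_nonneg (xi_nonneg hN _) _))
        have h4 := hC (U, U⁻¹ * W)
        dsimp only at h4
        rw [mul_inv_cancel_left] at h4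
        exact h4
    refine h3.trans ?_
    rw [integral_left μ (fun Z => c⁻¹ * xi L Z ^ k * (τ / 2 + C * (1 - xi L Z))) U]
    have h4 : ∫ Z, c⁻¹ * xi L Z ^ k * (τ / 2 + C * (1 - xi L Z)) ∂(ME μ E) =
        τ / 2 + C * c⁻¹ * ∫ Z, (1 - xi L Z) * xi L Z ^ k ∂(ME μ E) := by
      have h5 : ∀ Z : E → G, c⁻¹ * xi L Z ^ k * (τ / 2 + C * (1 - xi L Z)) =
          (τ / 2 * c⁻¹) * xi L Z ^ k + (C * c⁻¹) * ((1 - xi L Z) * xi L Z ^ k) := by
        intro Z; ring
      simp only [h5]
      rw [integral_add, integral_const_mul, integral_const_mul, ← hc]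
      · have : τ / 2 * c⁻¹ * c = τ / 2 := by field_simp
        rw [this]
      · exact (integrable_cont μ (xi_cont.pow k)).const_mul _
      · exact (integrable_cont μ ((continuous_const.sub xi_cont).mul
          (xi_cont.pow k))).const_mul _
    rw [h4]
    have h6 : C * c⁻¹ * ∫ Z, (1 - xi L Z) * xi L Z ^ k ∂(ME μ E) ≤
        C * c⁻¹ * (τ / (2 * (C + 1)) * c) := mul_le_mul_of_nonneg_left hk (by positivity)
    have h7 : C * c⁻¹ * (τ / (2 * (C + 1)) * c) ≤ τ / 2 := by
      have h8 : C * c⁻¹ * (τ / (2 * (C + 1)) * c) = C / (C + 1) * (τ / 2) := by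
        field_simp
      rw [h8]
      refine mul_le_of_le_one_left (by positivity) ?_
      rw [div_le_one (by positivity)]; linarith
    linarith

end

end Pool.Agent.H906R3.YM
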