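import Mathlib
import Pool.Agent.H906R3.YM.Moll
import Pool.Agent.H906R3.YM.Dense

/-!
# Gauge invariant approximate eigenfunctions at the bottom of the spectrum
-/

open MeasureTheory Matrix
open scoped Matrix.Norms.Frobenius ContDiff

namespace Pool.Agent.H906R3.YM

set_option linter.unusedSectionVars false

noncomputable section

variable {G : Type*} [Group G] [TopologicalSpace G] {N n : ℕ} {L : LD G N n}
  [IsTopologicalGroup G] [CompactSpace G] [SecondCountableTopology G]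
  [MeasurableSpace G] [BorelSpace G] (μ : Measure G) [IsProbabilityMeasure μ]
  [μ.IsMulLeftInvariant] [μ.IsOpenPosMeasure]

section gen

variable {E : Type*} [Fintype E] [DecidableEq E]

lemma nr_le_of_abs {u : Sm L E} {τ : ℝ} (hτ : 0 ≤ τ) (h : ∀ U, |L.ev U u| ≤ τ) :
    (fnE L μ E).nr u ≤ τ := by
  have h1 : L.I μ (u * u) ≤ L.I μ ((τ ^ 2) • (1 : Sm L E)) := by
    refine I_mono μ fun U => ?_
    rw [map_mul, map_smul, map_one, smul_eq_mul, mul_one, ← sq, ← sq_abs]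
    exact pow_le_pow_left₀ (abs_nonneg _) (h U) 2
  rw [map_smul, I_one, smul_eq_mul, mul_one] at h1
  have h2 : (fnE L μ E).nr u ^ 2 ≤ τ ^ 2 := by
    rw [nr_sq]; exact h1
  exact (pow_le_pow_iff_left₀ (nr_nonneg _) hτ two_ne_zero).1 h2

lemma nr_mul_le {V u : Sm L E} {v : ℝ} (hv : 0 ≤ v) (h : ∀ U, |L.ev U V| ≤ v) :
    (fnE L μ E).nr (V * u) ≤ v * (fnE L μ E).nr u := by
  have h1 : L.I μ ((V * u) * (V * u)) ≤ L.I μ ((v ^ 2) • (u * u)) := by
    refine I_mono μ fun U => ?_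
    rw [map_mul, map_mul, map_smul, map_mul, smul_eq_mul]
    have h2 : (L.ev U V) ^ 2 ≤ v ^ 2 := by
      rw [← sq_abs]; exact pow_le_pow_left₀ (abs_nonneg _) (h U) 2
    have h3 := mul_le_mul_of_nonneg_right h2 (mul_self_nonneg (L.ev U u))
    linarith
  rw [map_smul, smul_eq_mul] at h1
  have h2 : (fnE L μ E).nr (V * u) ^ 2 ≤ (v * (fnE L μ E).nr u) ^ 2 := by
    rw [nr_sq, mul_pow, nr_sq]; exact h1
  exact (pow_le_pow_iff_left₀ (nr_nonneg _) (mul_nonneg hv (nr_nonneg _)) two_ne_zero).1 h2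

variable {μ}

lemma Moll.eqI (M : Moll L E μ) (U : E → G) (u : Sm L E) :
    L.ev U (M.M u) = L.I μ (M.ker U * u) := M.eq U u

lemma Moll.symmI (M : Moll L E μ) (u v : Sm L E) : L.I μ (M.M u * v) = L.I μ (u * M.M v) :=
  M.symm u v

lemma Moll.contr (M : Moll L E μ) (u : Sm L E) :
    (fnE L μ E).nr (M.M u) ≤ (fnE L μ E).nr u := by
  have h1 : ∀ U, L.ev U (M.M u * M.M u) ≤ L.ev U (M.M (u * u)) := by
    intro U
    set a := L.ev U (M.M u) with ha
    have h2 : 0 ≤ L.ev U (M.M ((u - a • 1) * (u - a • 1))) := by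
      rw [M.eqI]
      refine I_nonneg μ fun W => ?_
      rw [map_mul, map_mul]
      exact mul_nonneg (M.pos U W) (mul_self_nonneg _)
    have h3 : (u - a • (1 : Sm L E)) * (u - a • 1) =
        u * u - (2 * a) • u + (a ^ 2) • (1 : Sm L E) := by
      refine ev_ext fun W => ?_
      simp only [map_mul, map_sub, map_add, map_smul, smul_eq_mul, map_one]
      ring
    rw [h3, map_add, map_sub, map_smul, map_smul, M.one, map_add, map_sub, map_smul, map_smul,
      map_one, smul_eq_mul, smul_eq_mul, ← ha] at h2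
    rw [map_mul, ← ha]
    linarith
  have h4 : L.I μ (M.M u * M.M u) ≤ L.I μ (u * u) := by
    refine (I_mono μ h1).trans (le_of_eq ?_)
    have h5 := M.symmI (u * u) 1
    rw [M.one, mul_one, mul_one] at h5
    exact h5
  have h2 : (fnE L μ E).nr (M.M u) ^ 2 ≤ (fnE L μ E).nr u ^ 2 := by
    rw [nr_sq, nr_sq]; exact h4
  exact (pow_le_pow_iff_left₀ (nr_nonneg _) (nr_nonneg _) two_ne_zero).1 h2

variable (μ)

/-- `B u = H u + u` -/
def BL (L : LD G N n) (E : Type*) [Fintype E] [DecidableEq E] (g : ℝ) (V : Sm L E) :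
    Sm L E →ₗ[ℝ] Sm L E where
  toFun u := HH (L.Dv (E := E)) g V u + u
  map_add' u v := by
    have h := (fnE L μ E).HH_add g V u v
    have h' : HH (L.Dv (E := E)) g V (u + v) = HH (L.Dv (E := E)) g V u +
      HH (L.Dv (E := E)) g V v := h
    rw [h']; abel
  map_smul' c u := by
    rw [HH_smul, RingHom.id_apply, smul_add]

variable {μ}

lemma Moll.fin_bound (M : Moll L E μ) (g : ℝ) (V : Sm L E) : ∃ C : ℝ, 0 ≤ C ∧ ∀ u,
    (fnE L μ E).nr (BL μ L E g V (M.M u)) ≤ C * (fnE L μ E).nr u := by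
  obtain ⟨ι, _, q, p, h⟩ := M.fin
  refine ⟨∑ i, (fnE L μ E).nr (q i) * (fnE L μ E).nr (BL μ L E g V (p i)),
    Finset.sum_nonneg fun i _ => mul_nonneg (nr_nonneg _) (nr_nonneg _), fun u => ?_⟩
  rw [h u, map_sum]
  refine (nr_sum _ _).trans ?_
  rw [Finset.sum_mul]
  refine Finset.sum_le_sum fun i _ => ?_
  rw [map_smul, nr_smul]
  have h1 : |∫ W, L.ev W (q i) * L.ev W u ∂(ME μ E)| ≤
      (fnE L μ E).nr (q i) * (fnE L μ E).nr u := nr_cs (S := fnE L μ E) (q i) u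
  calc _ ≤ (fnE L μ E).nr (q i) * (fnE L μ E).nr u * (fnE L μ E).nr (BL μ L E g V (p i)) :=
        mul_le_mul_of_nonneg_right h1 (nr_nonneg _)
    _ = _ := by ring

lemma Moll.Gam_nonneg (M : Moll L E μ) (u : Sm L E) :
    0 ≤ L.I μ (Gam (L.Dv (E := E)) u (M.M (M.M u))) := by
  unfold Gam
  rw [map_sum]
  refine Finset.sum_nonneg fun j _ => ?_
  rw [M.comm j (M.M u), ← M.symmI, ← M.comm]
  exact I_sq_nonneg μ _

end gen

section torus

variable {D l : ℕ} [NeZero l] [μ.IsMulRightInvariant]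

lemma mp_gt (γ : (Fin D → ZMod l) → G) :
    MeasurePreserving (gt γ : (Ed D l → G) → (Ed D l → G)) (ME μ (Ed D l)) (ME μ (Ed D l)) := by
  have h : ∀ e : Ed D l, MeasurePreserving
      (fun g : G => γ e.1 * g * (γ (e.1 + eT e.2))⁻¹) μ μ := fun e =>
    (measurePreserving_mul_right μ (γ (e.1 + eT e.2))⁻¹).comp (measurePreserving_mul_left μ _)
  exact measurePreserving_pi (fun _ => μ) (fun _ => μ) h

lemma I_gs (γ : (Fin D → ZMod l) → G) (u : Sm L (Ed D l)) : L.I μ (gs γ u) = L.I μ u := by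
  have h := mp_gt (D := D) (l := l) μ γ
  rw [I_apply, I_apply]
  have h1 : ∀ U, (gs γ u).1 U = u.1 (gt γ U) := fun U => rfl
  simp only [h1]
  have h2 := integral_map (μ := ME μ (Ed D l)) (f := u.1) h.measurable.aemeasurable
    (Sm_cont u).aestronglyMeasurable
  rw [← h2, h.map_eq]

variable {μ}

lemma Moll.inv (M : Moll L (Ed D l) μ) {u : Sm L (Ed D l)} (hu : Inv u) : Inv (M.M u) := by
  intro γ
  refine ev_ext fun U => ?_
  have h1 : L.ev U (gs γ (M.M u)) = L.ev (gt γ U) (M.M u) := rfl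
  rw [h1, M.eqI, M.eqI, ← I_gs μ γ, map_mul, hu]
  congr 2
  refine ev_ext fun W => ?_
  have h2 : L.ev W (gs γ (M.ker (gt γ U))) = L.ev (gt γ W) (M.ker (gt γ U)) := rfl
  rw [h2]
  refine M.conj (fun e g => γ e.1 * g * (γ (e.1 + eT e.2))⁻¹) (fun e g h => ?_) U W
  have h3 : (γ e.1 * g * (γ (e.1 + eT e.2))⁻¹)⁻¹ * (γ e.1 * h * (γ (e.1 + eT e.2))⁻¹) =
      γ (e.1 + eT e.2) * (g⁻¹ * h) * (γ (e.1 + eT e.2))⁻¹ := by group
  rw [h3, we_conj]

variable (μ)

/-- Gauge invariant approximate eigenfunctions at the bottom of the spectrum. -/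
theorem approx_vac (hN : 0 < N) {g : ℝ} (hg : 0 < g) {E0 : ℝ} (hE0 : 0 ≤ E0)
    (hpos : ∀ u : Sm L (Ed D l), Inv u → 0 ≤ (fnE L μ (Ed D l)).enr g (VT L D l) E0 u u)
    (hinf : ∀ δ : ℝ, 0 < δ → ∃ f : Sm L (Ed D l), Inv f ∧ L.I μ (f * f) = 1 ∧
      (fnE L μ (Ed D l)).enr g (VT L D l) E0 f f ≤ δ) {δ : ℝ} (hδ : 0 < δ) :
    ∃ w : Sm L (Ed D l), Inv w ∧ L.I μ (w * w) = 1 ∧
      (fnE L μ (Ed D l)).nr (HH L.Dv g (VT L D l) w - E0 • w) ≤ δ := by
  set S := fnE L μ (Ed D l) with hS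
  set V := VT L D l with hV
  set v := nrmS L V with hv
  have hvU : ∀ U, |L.ev U V| ≤ v := fun U => le_nrmS V U
  have hv0 : 0 ≤ v := (abs_nonneg _).trans (hvU 1)
  have hV0 : ∀ U, 0 ≤ L.ev U V := fun U => by
    rw [hV, VT_apply]; exact Finset.sum_nonneg fun _ _ => we_nonneg _
  refine approx_eig (S := S) Inv (fun u w hu hw => hu.add hw) (fun c u hu => hu.smul c) hE0
    hpos hinf ?_ hδ
  intro f hf δ' hδ'
  refine dense_range (S := S) Inv (fun u w hu hw => hu.add hw) (fun c u hu => hu.smul c)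
    (BL μ L (Ed D l) g V) (fun u hu => hu.HH.add hu) (Λ := v / g ^ 2 + 1) (by positivity)
    ?_ hf hδ'
  intro r hr η hη
  obtain ⟨M, hM⟩ := exists_moll (L := L) (E := Ed D l) μ hN r (half_pos hη)
  have hMr : S.nr (M.M r - r) ≤ η / 2 := nr_le_of_abs μ (half_pos hη).le fun U => by
    rw [map_sub]; exact hM U
  obtain ⟨C, hC0, hC⟩ := M.fin_bound g V
  refine ⟨M.M ∘ₗ M.M, fun u hu => M.inv (M.inv hu), ?_, ?_, ?_, C, hC0, ?_⟩
  · have h1 : (M.M ∘ₗ M.M) r - r = M.M (M.M r - r) + (M.M r - r) := by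
      rw [map_sub, LinearMap.comp_apply]; abel
    rw [h1]
    refine (nr_add _ _).trans ?_
    have h2 : S.nr (M.M (M.M r - r)) ≤ S.nr (M.M r - r) := M.contr (M.M r - r)
    linarith
  · intro u
    have h1 : S.nr (M.M (M.M u)) ≤ S.nr (M.M u) := M.contr (M.M u)
    exact h1.trans (M.contr u)
  · intro u
    rw [LinearMap.comp_apply]
    set T := M.M (M.M u) with hT
    have h1 : S.I (u * (BL μ L (Ed D l) g V T)) = S.I (u * HH S.D g V T) + S.I (u * T) := by
      rw [← map_add, ← mul_add]; rfl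
    have h2 : S.I (u * HH S.D g V T) =
        g ^ 2 / 2 * S.I (Gam S.D u T) + 1 / g ^ 2 * S.I (V * (u * T)) := by
      have h3 := S.enr_eq g V 0 u T
      unfold Fn.enr at h3
      rw [zero_smul, sub_zero, zero_mul, sub_zero] at h3
      exact h3
    have h3 : 0 ≤ S.I (Gam S.D u T) := M.Gam_nonneg u
    have h4 : S.I (V * (u * T)) = S.I (V * (u * u)) + S.I ((V * u) * (T - u)) := by
      rw [← map_add]; congr 1; ring
    have h5 : 0 ≤ S.I (V * (u * u)) := I_nonneg μ fun U => by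
      rw [map_mul, map_mul]
      exact mul_nonneg (hV0 U) (mul_self_nonneg _)
    have h6 : |S.I ((V * u) * (T - u))| ≤ v * S.nr u * S.nr (T - u) := by
      refine (nr_cs (S := S) (V * u) (T - u)).trans ?_
      exact mul_le_mul_of_nonneg_right (nr_mul_le μ hv0 hvU) (nr_nonneg _)
    have h7 : S.I (u * T) = S.nr u ^ 2 + S.I (u * (T - u)) := by
      rw [nr_sq, ← map_add]; congr 1; ring
    have h8 : |S.I (u * (T - u))| ≤ S.nr u * S.nr (T - u) := nr_cs _ _
    rw [h1, h2, h4, h7]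
    have h9 := (abs_le.1 h6).1
    have h10 := (abs_le.1 h8).1
    have h11 : 0 ≤ g ^ 2 / 2 * S.I (Gam S.D u T) := by positivity
    have h12 : 1 / g ^ 2 * (-(v * S.nr u * S.nr (T - u))) ≤
        1 / g ^ 2 * (S.I (V * (u * u)) + S.I ((V * u) * (T - u))) :=
      mul_le_mul_of_nonneg_left (by linarith) (by positivity)
    have h13 : (v / g ^ 2 + 1) * S.nr u * S.nr (T - u) =
        1 / g ^ 2 * (v * S.nr u * S.nr (T - u)) + S.nr u * S.nr (T - u) := by ring
    rw [h13]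
    linarith
  · intro u
    have h1 := hC (M.M u)
    refine h1.trans (mul_le_mul_of_nonneg_left ?_ hC0)
    exact M.contr u

end torus

end

end Pool.Agent.H906R3.YM
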