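import Mathlib
import Pool.Agent.H906R3.YM.Mtx

/-!
# Closed subgroups of the unitary group
-/

open MeasureTheory Matrix
open scoped Matrix.Norms.Frobenius ContDiff

namespace Pool.Agent.H906R3.YM

set_option linter.unusedSectionVars false

noncomputable section

variable {N n : ℕ}

/-- the unitary group -/
abbrev UN (N : ℕ) := Matrix.unitaryGroup (Fin N) ℂ

instance : SecondCountableTopology (Mat N) :=
  inferInstanceAs (SecondCountableTopology (Fin N → Fin N → ℂ))

lemma compact_UN : IsCompact (UN N : Set (Mat N)) := by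
  have h1 : IsCompact (Set.pi Set.univ fun _ : Fin N => Set.pi Set.univ fun _ : Fin N =>
      Metric.closedBall (0 : ℂ) 1) :=
    isCompact_univ_pi fun _ => isCompact_univ_pi fun _ => isCompact_closedBall _ _
  refine IsCompact.of_isClosed_subset h1 ?_ ?_
  · have h2 : (UN N : Set (Mat N)) = {A | A * star A = 1} := by
      ext A
      exact Matrix.mem_unitaryGroup_iff
    rw [h2]
    exact isClosed_eq (continuous_id.mul continuous_star) continuous_const
  · intro A hA i _ j _
    rw [mem_closedBall_zero_iff]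
    exact entry_norm_bound_of_unitary hA i j

instance : CompactSpace (UN N) := isCompact_iff_compactSpace.1 compact_UN

/-- the matrix of an element of a subgroup of the unitary group -/
def mt {G : Subgroup (UN N)} (g : G) : Mat N := ((g : UN N) : Mat N)

/-- Orthonormal basis of the Lie algebra of `G`. -/
structure Frame (G : Subgroup (UN N)) (n : ℕ) where
  X : Fin n → Mat N
  ex : Fin n → ℝ → G
  ex_eq : ∀ a t, mt (ex a t) = NormedSpace.exp (t • X a)
  orth : ∀ a b, (trace ((X a)ᴴ * X b)).re = if a = b then 1 else 0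
  full : ∀ Y : Mat N, (∀ t : ℝ, ∃ g : G, mt g = NormedSpace.exp (t • Y)) →
    Y ∈ Submodule.span ℝ (Set.range X)

variable {G : Subgroup (UN N)}

/-- the tautological representation -/
def rhoG (G : Subgroup (UN N)) : G →* Mat N := (Submonoid.subtype _).comp G.subtype

lemma rhoG_apply (g : G) : rhoG G g = mt g := rfl

lemma rhoG_cont : Continuous (rhoG G) := continuous_subtype_val.comp continuous_subtype_val

lemma rhoG_unit (g : G) : rhoG G g * (rhoG G g)ᴴ = 1 :=
  Matrix.mem_unitaryGroup_iff.1 (g : UN N).2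

lemma rhoG_unit' (g : G) : (rhoG G g)ᴴ * rhoG G g = 1 :=
  mul_eq_one_comm.1 (rhoG_unit g)

lemma deriv_mem {S : Submodule ℝ (Mat N)} {c : ℝ → Mat N} {Y : Mat N} (hc : ∀ t, c t ∈ S)
    (hY : HasDerivAt c Y 0) : Y ∈ S := by
  by_contra hne
  obtain ⟨f, hf, hS⟩ := Submodule.exists_le_ker_of_notMem hne
  set F := LinearMap.toContinuousLinearMap f with hF
  have h1 : HasDerivAt (fun t => F (c t)) (F Y) 0 := F.hasFDerivAt.comp_hasDerivAt (0 : ℝ) hY
  have h2 : (fun t => F (c t)) = fun _ => 0 := by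
    funext t
    exact hS (hc t)
  rw [h2] at h1
  exact hf (h1.unique (hasDerivAt_const (0 : ℝ) (0 : ℝ)))

namespace Frame

variable (B : Frame G n)

lemma deriv_ex (a : Fin n) : HasDerivAt (fun t => rhoG G (B.ex a t)) (B.X a) 0 := by
  have h1 : (fun t => rhoG G (B.ex a t)) = fun t : ℝ => NormedSpace.exp (t • B.X a) := by
    funext t; exact B.ex_eq a t
  rw [h1]
  have h2 := hasDerivAt_exp_smul_const (𝕂 := ℝ) (B.X a) (0 : ℝ)
  rwa [zero_smul, NormedSpace.exp_zero, one_mul] at h2

lemma ex_zero (a : Fin n) : B.ex a 0 = 1 := by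
  apply Subtype.ext
  apply Subtype.ext
  have := B.ex_eq a 0
  rw [zero_smul, NormedSpace.exp_zero] at this
  exact this

lemma skewX (a : Fin n) : (B.X a)ᴴ = -B.X a := by
  have h1 := B.deriv_ex a
  have h2 : HasDerivAt (fun t => (rhoG G (B.ex a t))ᴴ) ((B.X a)ᴴ) 0 :=
    (ctL N).hasFDerivAt.comp_hasDerivAt (0 : ℝ) h1
  have h3 := h1.mul h2
  have h4 : (fun t => rhoG G (B.ex a t)) * (fun t => (rhoG G (B.ex a t))ᴴ) =
      fun _ => (1 : Mat N) := by
    funext t; exact rhoG_unit _
  rw [h4] at h3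
  have h5 := h3.unique (hasDerivAt_const (0 : ℝ) (1 : Mat N))
  rw [B.ex_zero, map_one, conjTranspose_one, mul_one, one_mul] at h5
  exact eq_neg_of_add_eq_zero_right h5

lemma conj_mem (g : G) (a : Fin n) :
    rhoG G g * B.X a * (rhoG G g)ᴴ ∈ Submodule.span ℝ (Set.range B.X) := by
  refine B.full _ fun t => ⟨g * B.ex a t * g⁻¹, ?_⟩
  have hu : IsUnit (rhoG G g) := ⟨⟨rhoG G g, (rhoG G g)ᴴ, rhoG_unit g, rhoG_unit' g⟩, rfl⟩
  have hinv : (rhoG G g)⁻¹ = (rhoG G g)ᴴ := Matrix.inv_eq_right_inv (rhoG_unit g)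
  have h1 := Matrix.exp_conj (rhoG G g) (t • B.X a) hu
  rw [hinv, mul_smul_comm, smul_mul_assoc] at h1
  rw [h1]
  have h2 : mt (g * B.ex a t * g⁻¹) = rhoG G g * mt (B.ex a t) * (rhoG G g)ᴴ := rfl
  rw [h2, B.ex_eq]

lemma brk_mem (a b : Fin n) :
    B.X a * B.X b - B.X b * B.X a ∈ Submodule.span ℝ (Set.range B.X) := by
  have h1 := B.deriv_ex a
  have h2 : HasDerivAt (fun t => (rhoG G (B.ex a t))ᴴ) ((B.X a)ᴴ) 0 :=
    (ctL N).hasFDerivAt.comp_hasDerivAt (0 : ℝ) h1
  have h3 : HasDerivAt (fun t => rhoG G (B.ex a t) * B.X b * (rhoG G (B.ex a t))ᴴ)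
      (B.X a * B.X b - B.X b * B.X a) 0 := by
    refine ((h1.mul_const (B.X b)).mul h2).congr_deriv ?_
    rw [B.ex_zero, map_one, conjTranspose_one, B.skewX]
    simp only [mul_one, one_mul, mul_neg]
    rw [sub_eq_add_neg]
  exact deriv_mem (fun t => B.conj_mem (B.ex a t) b) h3

/-- the abstract data of a closed subgroup -/
def toLD : LD G N n where
  rho := rhoG G
  cont := rhoG_cont
  unit := rhoG_unit
  X := B.X
  ex := B.ex
  ex_add a s t := by
    apply Subtype.ext
    apply Subtype.ext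
    have h1 := B.ex_eq a (s + t)
    have h2 : mt (B.ex a s * B.ex a t) = mt (B.ex a s) * mt (B.ex a t) := rfl
    refine h1.trans (Eq.trans ?_ h2.symm)
    rw [B.ex_eq, B.ex_eq, add_smul]
    exact Matrix.exp_add_of_commute _ _ (((Commute.refl (B.X a)).smul_left s).smul_right t)
  deriv_ex := B.deriv_ex
  orth := B.orth
  conj_mem := B.conj_mem
  brk_mem := B.brk_mem

end Frame

end

end Pool.Agent.H906R3.YM
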