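import Mathlib
import Pool.Agent.H906R3.YM.Trial

/-!
# Upper bound for the energy density, and the choice of a good block
-/

open MeasureTheory Matrix
open scoped Matrix.Norms.Frobenius ContDiff

namespace Pool.Agent.H906R3.YM

set_option linter.unusedSectionVars false

noncomputable section

variable {G : Type*} [Group G] [TopologicalSpace G] {N n : ℕ} {L : LD G N n}
variable {E : Type*} [Fintype E] [DecidableEq E]
variable [IsTopologicalGroup G] [CompactSpace G] [SecondCountableTopology G]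
  [MeasurableSpace G] [BorelSpace G] (μ : Measure G) [IsProbabilityMeasure μ]
  [μ.IsMulLeftInvariant]

lemma texp_sq (κ : ℝ) (U : E → G) :
    L.ev U (expS (tex L E κ) * expS (tex L E κ)) = ∏ e, Real.exp (-(2 * κ) * we L (U e)) := by
  rw [map_mul, ← Real.exp_sum]
  have h1 : L.ev U (expS (tex L E κ)) = Real.exp (L.ev U (tex L E κ)) := rfl
  rw [h1, ← Real.exp_add]
  congr 1
  unfold tex
  rw [map_smul, map_sum, smul_eq_mul, ← Finset.mul_sum]
  simp only [W1_apply]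
  ring

lemma I_texp (κ : ℝ) : L.I μ (expS (tex L E κ) * expS (tex L E κ)) =
    (∫ g, Real.exp (-(2 * κ) * we L g) ∂μ) ^ Fintype.card E := by
  rw [I_apply]
  have h1 : ∀ U : E → G, (expS (tex L E κ) * expS (tex L E κ)).1 U =
      ∏ e, Real.exp (-(2 * κ) * we L (U e)) := fun U => texp_sq κ U
  simp only [h1]
  exact integral_fintype_prod_eq_pow (μ := μ) (fun g => Real.exp (-(2 * κ) * we L g))

lemma I_W1_texp (κ : ℝ) (e : E) :
    L.I μ (W1 L e * (expS (tex L E κ) * expS (tex L E κ))) =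
    (∫ g, we L g * Real.exp (-(2 * κ) * we L g) ∂μ) *
      (∫ g, Real.exp (-(2 * κ) * we L g) ∂μ) ^ (Fintype.card E - 1) := by
  rw [I_apply]
  have h1 : ∀ U : E → G, (W1 L e * (expS (tex L E κ) * expS (tex L E κ))).1 U =
      ∏ e', (fun (e' : E) (g : G) => (if e' = e then we L g else 1) *
        Real.exp (-(2 * κ) * we L g)) e' (U e') := by
    intro U
    rw [Finset.prod_mul_distrib, Finset.prod_ite_eq' Finset.univ e (fun e' => we L (U e')),
      if_pos (Finset.mem_univ e), ← texp_sq, ← W1_apply]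
    rfl
  simp only [h1]
  have h2 := integral_fintype_prod_eq_prod (μ := fun _ : E => μ)
    (fun (e' : E) (g : G) => (if e' = e then we L g else 1) *
        Real.exp (-(2 * κ) * we L g))
  refine h2.trans ?_
  rw [← Finset.mul_prod_erase Finset.univ _ (Finset.mem_univ e)]
  congr 1
  · simp
  · rw [Finset.prod_congr rfl (g := fun _ => ∫ g, Real.exp (-(2 * κ) * we L g) ∂μ)]
    · rw [Finset.prod_const, Finset.card_erase_of_mem (Finset.mem_univ e), Finset.card_univ]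
    · intro e' he'
      have hne := Finset.ne_of_mem_erase he'
      simp [hne]

lemma I_W1_le {κ ε : ℝ} (hκ : ∫ g, we L g * Real.exp (-(2 * κ) * we L g) ∂μ ≤
      ε * ∫ g, Real.exp (-(2 * κ) * we L g) ∂μ) (e : E) :
    L.I μ (W1 L e * (expS (tex L E κ) * expS (tex L E κ))) ≤
      ε * L.I μ (expS (tex L E κ) * expS (tex L E κ)) := by
  rw [I_W1_texp, I_texp]
  have hz : 0 ≤ ∫ g, Real.exp (-(2 * κ) * we L g) ∂μ :=
    integral_nonneg fun g => Real.exp_nonneg _
  have hc : 0 < Fintype.card E := Fintype.card_pos_iff.2 ⟨e⟩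
  calc _ ≤ (ε * ∫ g, Real.exp (-(2 * κ) * we L g) ∂μ) *
        (∫ g, Real.exp (-(2 * κ) * we L g) ∂μ) ^ (Fintype.card E - 1) :=
        mul_le_mul_of_nonneg_right hκ (pow_nonneg hz _)
    _ = ε * ((∫ g, Real.exp (-(2 * κ) * we L g) ∂μ) ^ (Fintype.card E - 1) *
        (∫ g, Real.exp (-(2 * κ) * we L g) ∂μ)) := by ring
    _ = _ := by rw [← pow_succ, Nat.sub_add_cancel hc]

lemma texp_pos (κ : ℝ) : 0 < L.I μ (expS (tex L E κ) * expS (tex L E κ)) := by
  rw [I_texp]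
  refine pow_pos ?_ _
  have hwc : Continuous fun g : G => we L g := by
    unfold we
    exact Complex.continuous_re.comp ((continuous_const.sub L.cont).matrix_trace)
  obtain ⟨M, hM⟩ := (isCompact_univ.image hwc).bddAbove
  have hint : Integrable (fun g => Real.exp (-(2 * κ) * we L g)) μ :=
    (Real.continuous_exp.comp (continuous_const.mul hwc)).integrable_of_hasCompactSupport
      (HasCompactSupport.of_compactSpace _)
  have h1 : ∫ _g : G, Real.exp (-(2 * |κ|) * |M|) ∂μ ≤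
      ∫ g, Real.exp (-(2 * κ) * we L g) ∂μ := by
    refine integral_mono (integrable_const _) hint fun g => Real.exp_le_exp.2 ?_
    have h2 : we L g ≤ |M| := (hM ⟨g, trivial, rfl⟩).trans (le_abs_self _)
    have h3 := we_nonneg (L := L) g
    have h4 : κ * we L g ≤ |κ| * |M| :=
      (mul_le_mul_of_nonneg_right (le_abs_self κ) h3).trans
        (mul_le_mul_of_nonneg_left h2 (abs_nonneg _))
    linarith
  refine lt_of_lt_of_le ?_ h1
  rw [integral_const]
  simp only [probReal_univ, one_smul]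
  exact Real.exp_pos _

lemma kin_texp {κ B : ℝ} (hB : ∀ (a : Fin n) (g : G), (ip 1 (L.X a * L.rho g)) ^ 2 ≤ B)
    (j : E × Fin n) :
    L.I μ (L.Dv j (expS (tex L E κ)) * L.Dv j (expS (tex L E κ))) ≤
      κ ^ 2 * B * L.I μ (expS (tex L E κ) * expS (tex L E κ)) := by
  have h1 : L.I μ (L.Dv j (expS (tex L E κ)) * L.Dv j (expS (tex L E κ))) ≤
      L.I μ ((κ ^ 2 * B) • (expS (tex L E κ) * expS (tex L E κ))) := by
    refine I_mono μ fun U => ?_
    rw [Dv_expS, map_mul, map_mul, map_smul, map_mul, Dv_tex, smul_eq_mul]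
    have h2 := hB j.2 (U j.1)
    have h3 : 0 ≤ κ ^ 2 * (L.ev U (expS (tex L E κ))) ^ 2 := by positivity
    nlinarith [mul_le_mul_of_nonneg_left h2 h3]
  rwa [map_smul, smul_eq_mul] at h1

section torus

variable {D l : ℕ} [NeZero l]

lemma pot_texp {κ ε : ℝ} (hε : 0 ≤ ε) (hκ : ∫ g, we L g * Real.exp (-(2 * κ) * we L g) ∂μ ≤
      ε * ∫ g, Real.exp (-(2 * κ) * we L g) ∂μ) :
    L.I μ (VT L D l * (expS (tex L (Ed D l) κ) * expS (tex L (Ed D l) κ))) ≤
      (l ^ D * D ^ 2) * (16 * ε) *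
        L.I μ (expS (tex L (Ed D l) κ) * expS (tex L (Ed D l) κ)) := by
  have hW : ∀ e, L.I μ (W1 L e * (expS (tex L (Ed D l) κ) * expS (tex L (Ed D l) κ))) ≤
      ε * L.I μ (expS (tex L (Ed D l) κ) * expS (tex L (Ed D l) κ)) := fun e =>
    I_W1_le (L := L) μ hκ e
  have hψ0 : ∀ U, 0 ≤ L.ev U (expS (tex L (Ed D l) κ) * expS (tex L (Ed D l) κ)) := fun U => by
    rw [map_mul]; exact mul_self_nonneg _
  generalize expS (tex L (Ed D l) κ) * expS (tex L (Ed D l) κ) = ψ2 at hW hψ0 ⊢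
  have hI0 : 0 ≤ L.I μ ψ2 := I_nonneg μ hψ0
  have h1 : L.I μ (VT L D l * ψ2) ≤ L.I μ (∑ p : Pl D l, (4 : ℝ) •
      ((W1 L (p.1.1, p.1.2.1) * ψ2 + W1 L (p.1.1 + eT p.1.2.1, p.1.2.2) * ψ2) +
      (W1 L (p.1.1 + eT p.1.2.2, p.1.2.1) * ψ2 + W1 L (p.1.1, p.1.2.2) * ψ2))) := by
    refine I_mono μ fun U => ?_
    rw [map_mul, VT_apply, map_sum, Finset.sum_mul]
    refine Finset.sum_le_sum fun p _ => ?_
    rw [map_smul, map_add, map_add, map_add, map_mul, map_mul, map_mul, map_mul, W1_apply,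
      W1_apply, W1_apply, W1_apply, smul_eq_mul]
    have h2 := we_plq (L := L) (U (p.1.1, p.1.2.1)) (U (p.1.1 + eT p.1.2.1, p.1.2.2))
      (U (p.1.1 + eT p.1.2.2, p.1.2.1)) (U (p.1.1, p.1.2.2))
    have h3 := mul_le_mul_of_nonneg_right h2 (hψ0 U)
    refine le_trans h3 (le_of_eq ?_)
    ring
  refine h1.trans ?_
  rw [map_sum]
  have h4 : ∀ p : Pl D l, L.I μ ((4 : ℝ) •
      ((W1 L (p.1.1, p.1.2.1) * ψ2 + W1 L (p.1.1 + eT p.1.2.1, p.1.2.2) * ψ2) +
      (W1 L (p.1.1 + eT p.1.2.2, p.1.2.1) * ψ2 + W1 L (p.1.1, p.1.2.2) * ψ2))) ≤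
      16 * ε * L.I μ ψ2 := by
    intro p
    rw [map_smul, map_add, map_add, map_add, smul_eq_mul]
    have a1 := hW (p.1.1, p.1.2.1)
    have a2 := hW (p.1.1 + eT p.1.2.1, p.1.2.2)
    have a3 := hW (p.1.1 + eT p.1.2.2, p.1.2.1)
    have a4 := hW (p.1.1, p.1.2.2)
    linarith
  refine (Finset.sum_le_sum fun p _ => h4 p).trans ?_
  rw [Finset.sum_const, nsmul_eq_mul]
  have h5 : (Finset.univ : Finset (Pl D l)).card ≤ l ^ D * D ^ 2 := by
    rw [Finset.card_univ]
    refine (Fintype.card_subtype_le _).trans ?_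
    rw [Fintype.card_prod, Fintype.card_prod, Fintype.card_fun, Fintype.card_fin, ZMod.card]
    exact le_of_eq (by ring)
  have h6 : ((Finset.univ : Finset (Pl D l)).card : ℝ) ≤ l ^ D * D ^ 2 := by exact_mod_cast h5
  have h7 := mul_le_mul_of_nonneg_right h6 (show 0 ≤ 16 * ε * L.I μ ψ2 by positivity)
  linarith

lemma Gam_texp {κ B : ℝ} (hB : ∀ (a : Fin n) (g : G), (ip 1 (L.X a * L.rho g)) ^ 2 ≤ B) :
    L.I μ (Gam L.Dv (expS (tex L (Ed D l) κ)) (expS (tex L (Ed D l) κ))) ≤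
      (l ^ D * D * n) * (κ ^ 2 * B) *
        L.I μ (expS (tex L (Ed D l) κ) * expS (tex L (Ed D l) κ)) := by
  unfold Gam
  rw [map_sum]
  refine (Finset.sum_le_sum fun j _ => kin_texp μ hB j).trans ?_
  rw [Finset.sum_const, Finset.card_univ, nsmul_eq_mul, Fintype.card_prod, Fintype.card_prod,
    Fintype.card_fun, Fintype.card_fin, Fintype.card_fin, ZMod.card]
  push_cast
  exact le_of_eq (by ring)

/-- Upper bound of the energy density of the vacuum. -/
theorem E0_bound {κ ε B : ℝ} (hε : 0 ≤ ε)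
    (hB : ∀ (a : Fin n) (g : G), (ip 1 (L.X a * L.rho g)) ^ 2 ≤ B)
    (hκ : ∫ g, we L g * Real.exp (-(2 * κ) * we L g) ∂μ ≤
      ε * ∫ g, Real.exp (-(2 * κ) * we L g) ∂μ) {g E0 : ℝ} (hg : 0 < g)
    (hE : ∀ u : Sm L (Ed D l), E0 * L.I μ (u * u) ≤
      g ^ 2 / 2 * L.I μ (Gam L.Dv u u) + 1 / g ^ 2 * L.I μ (VT L D l * (u * u))) :
    E0 ≤ l ^ D * (g ^ 2 / 2 * (D * n * (κ ^ 2 * B)) + 1 / g ^ 2 * (D ^ 2 * (16 * ε))) := by
  have h1 := hE (expS (tex L (Ed D l) κ))
  have h2 := Gam_texp (D := D) (l := l) (κ := κ) μ hB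
  have h3 := pot_texp (D := D) (l := l) μ hε hκ
  have h4 := texp_pos (L := L) (E := Ed D l) μ κ
  have h5 := mul_le_mul_of_nonneg_left h2 (show (0 : ℝ) ≤ g ^ 2 / 2 by positivity)
  have h6 := mul_le_mul_of_nonneg_left h3 (show (0 : ℝ) ≤ 1 / g ^ 2 by positivity)
  have h7 : E0 * L.I μ (expS (tex L (Ed D l) κ) * expS (tex L (Ed D l) κ)) ≤
      (l ^ D * (g ^ 2 / 2 * (D * n * (κ ^ 2 * B)) + 1 / g ^ 2 * (D ^ 2 * (16 * ε)))) *
        L.I μ (expS (tex L (Ed D l) κ) * expS (tex L (Ed D l) κ)) := by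
    refine h1.trans ((add_le_add h5 h6).trans (le_of_eq ?_))
    ring
  exact le_of_mul_le_mul_right h7 h4

/-! ### a good block -/

variable {m : ℕ}

lemma sum_iot_kin (f : Ed D l → ℝ) :
    ∑ x0 : Fin D → ZMod l, ∑ s : Sb D m, f (iot l x0 s) = m ^ D * ∑ e, f e := by
  rw [Finset.sum_comm, Fintype.sum_prod_type]
  have h1 : ∀ (y : Fin D → Fin m) (ν : Fin D), ∑ x0 : Fin D → ZMod l, f (iot l x0 (y, ν)) =
      ∑ x : Fin D → ZMod l, f (x, ν) := by
    intro y ν
    exact Fintype.sum_equiv (Equiv.addRight (ct l (cv y))) _ _ fun x => rfl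
  simp only [h1]
  rw [Finset.sum_const, Finset.card_univ, Fintype.card_fun, Fintype.card_fin, Fintype.card_fin,
    nsmul_eq_mul, Fintype.sum_prod_type, Finset.sum_comm]
  push_cast
  rfl

lemma sum_qmap (f : Pl D l → ℝ) (hf : ∀ p, 0 ≤ f p) :
    ∑ x0 : Fin D → ZMod l, ∑ q : Qi D m, f (qmap l x0 q) ≤ m ^ D * ∑ p, f p := by
  classical
  set F : (Fin D → ZMod l) × Fin D × Fin D → ℝ :=
    fun p => if h : p.2.1 < p.2.2 then f ⟨p, h⟩ else 0 with hF
  have hF0 : ∀ p, 0 ≤ F p := fun p => by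
    rw [hF]; dsimp only; split_ifs; exacts [hf _, le_rfl]
  have h1 : ∀ x0 : Fin D → ZMod l, ∑ q : Qi D m, f (qmap l x0 q) ≤
      ∑ q : (Fin D → Fin m) × Fin D × Fin D, F (x0 + ct l (cv q.1), q.2) := by
    intro x0
    have h2 : ∑ q : Qi D m, f (qmap l x0 q) =
        ∑ q : Qi D m, F (x0 + ct l (cv q.1.1), q.1.2) := by
      refine Finset.sum_congr rfl fun q _ => ?_
      rw [hF]
      dsimp only
      rw [dif_pos q.2.1]
      rfl
    rw [h2]
    have h3 := Finset.sum_map (Finset.univ : Finset (Qi D m)) (Function.Embedding.subtype _)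
      (fun q : (Fin D → Fin m) × Fin D × Fin D => F (x0 + ct l (cv q.1), q.2))
    have h4 : ∑ q : Qi D m, F (x0 + ct l (cv q.1.1), q.1.2) =
        ∑ q ∈ (Finset.univ : Finset (Qi D m)).map (Function.Embedding.subtype _),
          F (x0 + ct l (cv q.1), q.2) := h3.symm
    rw [h4]
    exact Finset.sum_le_sum_of_subset_of_nonneg (Finset.subset_univ _) fun q _ _ => hF0 _
  refine (Finset.sum_le_sum fun x0 _ => h1 x0).trans (le_of_eq ?_)
  rw [Finset.sum_comm, Fintype.sum_prod_type]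
  have h5 : ∀ (y : Fin D → Fin m) (ν : Fin D × Fin D),
      ∑ x0 : Fin D → ZMod l, F (x0 + ct l (cv y), ν) = ∑ x : Fin D → ZMod l, F (x, ν) := by
    intro y ν
    exact Fintype.sum_equiv (Equiv.addRight (ct l (cv y))) _ _ fun x => rfl
  simp only [h5]
  rw [Finset.sum_const, Finset.card_univ, Fintype.card_fun, Fintype.card_fin, Fintype.card_fin,
    nsmul_eq_mul]
  push_cast
  congr 1
  rw [Finset.sum_comm, ← Fintype.sum_prod_type']
  have h6 : ∑ p : Pl D l, f p = ∑ p : Pl D l, F p.1 := by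
    refine Finset.sum_congr rfl fun p _ => ?_
    rw [hF]
    dsimp only
    rw [dif_pos p.2]
  rw [h6]
  have h7 : ∑ p : Pl D l, F p.1 = ∑ p ∈ (Finset.univ.filter
      fun p : (Fin D → ZMod l) × Fin D × Fin D => p.2.1 < p.2.2), F p := by
    rw [Finset.sum_subtype (p := fun p : (Fin D → ZMod l) × Fin D × Fin D => p.2.1 < p.2.2)]
    intro p; simp
  rw [h7, Finset.sum_filter]
  refine Finset.sum_congr rfl fun p _ => ?_
  split_ifs with h
  · rfl
  · rw [hF]; dsimp only; rw [dif_neg h]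

end torus

end

end Pool.Agent.H906R3.YM
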