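import Mathlib
import Pool.Agent.H906R3.YM.Equi
import Pool.Agent.H906R3.YM.Energy

/-!
# Upper bound of the vacuum energy density by a gauge invariant trial state
-/

open MeasureTheory Matrix
open scoped Matrix.Norms.Frobenius ContDiff

namespace Pool.Agent.H906R3.YM

set_option linter.unusedSectionVars false

noncomputable section

variable {D : ℕ} {G : Type*} [Group G] [TopologicalSpace G] {N n : ℕ} {L : LD G N n}
  [IsTopologicalGroup G] [CompactSpace G] [SecondCountableTopology G]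
  [MeasurableSpace G] [BorelSpace G] (μ : Measure G) [IsProbabilityMeasure μ]
  [μ.IsMulLeftInvariant] [μ.IsOpenPosMeasure]

lemma dV_bound (L : LD G N n) (D : ℕ) : ∃ B : ℝ, 0 ≤ B ∧ ∀ (l : ℕ) [NeZero l], 3 ≤ l →
    ∀ (j : Ed D l × Fin n) (U : Ed D l → G), (L.ev U (L.Dv j (VT L D l))) ^ 2 ≤ B := by
  refine ⟨∑ k : Sb D 3 × Fin n, (nrmS L (L.Dv k (VS L D 3))) ^ 2,
    Finset.sum_nonneg fun _ _ => sq_nonneg _, ?_⟩
  intro l _ hl j U
  set s : Sb D 3 := (fun _ => 1, j.1.2) with hs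
  set x0 : Fin D → ZMod l := j.1.1 - ct l (cv s.1) with hx0
  have h1 : iot l x0 s = j.1 := by
    unfold iot
    rw [hx0, sub_add_cancel]
  have h2 : Inner s := by
    intro i
    exact ⟨by norm_num [hs], by norm_num [hs]⟩
  have h3 := Dv_VT (L := L) (m := 3) hl x0 (s, j.2) h2
  have h4 : L.Dv j (VT L D l) = pull (iot l x0) (L.Dv (s, j.2) (VS L D 3)) := by
    rw [← h3, h1]
  rw [h4]
  have h5 : L.ev U (pull (iot l x0) (L.Dv (s, j.2) (VS L D 3))) =
      (L.Dv (s, j.2) (VS L D 3)).1 (U ∘ iot l x0) := rfl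
  rw [h5, ← sq_abs]
  refine (pow_le_pow_left₀ (abs_nonneg _) (le_nrmS _ _) 2).trans ?_
  exact Finset.single_le_sum (f := fun k : Sb D 3 × Fin n => (nrmS L (L.Dv k (VS L D 3))) ^ 2)
    (fun _ _ => sq_nonneg _) (Finset.mem_univ (s, j.2))

lemma VT_le_W {l : ℕ} [NeZero l] (U : Ed D l → G) :
    L.ev U (VT L D l) ≤ 16 * D * ∑ e : Ed D l, we L (U e) := by
  classical
  rw [VT_apply]
  have h0 : ∀ g : G, 0 ≤ we L g := fun g => we_nonneg g
  set F : (Fin D → ZMod l) × Fin D × Fin D → ℝ := fun p =>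
    4 * (we L (U (p.1, p.2.1)) + we L (U (p.1 + eT p.2.1, p.2.2)) +
      we L (U (p.1 + eT p.2.2, p.2.1)) + we L (U (p.1, p.2.2))) with hF
  have hF0 : ∀ p, 0 ≤ F p := fun p => by
    rw [hF]; dsimp only
    have a1 := h0 (U (p.1, p.2.1))
    have a2 := h0 (U (p.1 + eT p.2.1, p.2.2))
    have a3 := h0 (U (p.1 + eT p.2.2, p.2.1))
    have a4 := h0 (U (p.1, p.2.2))
    linarith
  have h1 : ∑ p : Pl D l, we L (plqT U p.1.1 p.1.2.1 p.1.2.2) ≤ ∑ p : Pl D l, F p.1 :=
    Finset.sum_le_sum fun p _ => we_plq (L := L) _ _ _ _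
  have h2 : ∑ p : Pl D l, F p.1 ≤ ∑ p, F p := by
    have h3 := Finset.sum_map (Finset.univ : Finset (Pl D l)) (Function.Embedding.subtype _) F
    have h4 : ∑ p : Pl D l, F p.1 = ∑ p ∈ (Finset.univ : Finset (Pl D l)).map
      (Function.Embedding.subtype _), F p := h3.symm
    rw [h4]
    exact Finset.sum_le_sum_of_subset_of_nonneg (Finset.subset_univ _) fun p _ _ => hF0 _
  refine (h1.trans h2).trans (le_of_eq ?_)
  set W := ∑ e : Ed D l, we L (U e) with hW
  have hW' : W = ∑ x : Fin D → ZMod l, ∑ i : Fin D, we L (U (x, i)) := by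
    rw [hW, Fintype.sum_prod_type]
  have hWc : W = ∑ i : Fin D, ∑ x : Fin D → ZMod l, we L (U (x, i)) := by
    rw [hW', Finset.sum_comm]
  have c1 : ∑ x : Fin D → ZMod l, ∑ i : Fin D, ∑ j : Fin D, we L (U (x, i)) = D * W := by
    simp only [Finset.sum_const, Finset.card_univ, Fintype.card_fin, nsmul_eq_mul]
    rw [hW', Finset.mul_sum]
    exact Finset.sum_congr rfl fun x _ => by rw [Finset.mul_sum]
  have c4 : ∑ x : Fin D → ZMod l, ∑ i : Fin D, ∑ j : Fin D, we L (U (x, j)) = D * W := by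
    simp only [Finset.sum_const, Finset.card_univ, Fintype.card_fin, nsmul_eq_mul]
    rw [hW', Finset.mul_sum]
  have sh : ∀ (v : Fin D → ZMod l) (j : Fin D),
      ∑ x : Fin D → ZMod l, we L (U (x + v, j)) = ∑ x : Fin D → ZMod l, we L (U (x, j)) :=
    fun v j => Fintype.sum_equiv (Equiv.addRight v) _ _ fun x => rfl
  have c2 : ∑ x : Fin D → ZMod l, ∑ i : Fin D, ∑ j : Fin D, we L (U (x + eT i, j)) = D * W := by
    rw [Finset.sum_comm]
    have : ∀ i : Fin D, ∑ x : Fin D → ZMod l, ∑ j : Fin D, we L (U (x + eT i, j)) = W := by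
      intro i
      rw [Finset.sum_comm, hWc]
      exact Finset.sum_congr rfl fun j _ => sh _ _
    rw [Finset.sum_congr rfl fun i _ => this i]
    simp
  have c3 : ∑ x : Fin D → ZMod l, ∑ i : Fin D, ∑ j : Fin D, we L (U (x + eT j, i)) = D * W := by
    have h5 : ∀ x : Fin D → ZMod l, ∑ i : Fin D, ∑ j : Fin D, we L (U (x + eT j, i)) =
        ∑ j : Fin D, ∑ i : Fin D, we L (U (x + eT j, i)) := fun x => Finset.sum_comm
    rw [Finset.sum_congr rfl fun x _ => h5 x]
    exact c2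
  rw [Fintype.sum_prod_type]
  have h6 : ∀ x : Fin D → ZMod l, ∑ q : Fin D × Fin D, F (x, q) =
      4 * (∑ i : Fin D, ∑ j : Fin D, we L (U (x, i)) +
        ∑ i : Fin D, ∑ j : Fin D, we L (U (x + eT i, j)) +
        ∑ i : Fin D, ∑ j : Fin D, we L (U (x + eT j, i)) +
        ∑ i : Fin D, ∑ j : Fin D, we L (U (x, j))) := by
    intro x
    rw [Fintype.sum_prod_type]
    simp only [hF, Finset.mul_sum, mul_add, Finset.sum_add_distrib]
  rw [Finset.sum_congr rfl fun x _ => h6 x, ← Finset.mul_sum]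
  simp only [Finset.sum_add_distrib]
  rw [c1, c2, c3, c4]
  ring

/-- the trial state -/
def tvt (L : LD G N n) (D l : ℕ) [NeZero l] (κ : ℝ) : Sm L (Ed D l) := expS ((-κ) • VT L D l)

lemma tvt_inv {l : ℕ} [NeZero l] (κ : ℝ) : Inv (tvt L D l κ) := by
  intro γ
  refine ev_ext fun U => ?_
  have h1 := congrArg (L.ev U) (gs_VT (L := L) γ)
  have h2 : (VT L D l).1 (gt γ U) = (VT L D l).1 U := h1
  show Real.exp ((-κ) * (VT L D l).1 (gt γ U)) = Real.exp ((-κ) * (VT L D l).1 U)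
  rw [h2]

lemma tvt_sq {l : ℕ} [NeZero l] (κ : ℝ) (U : Ed D l → G) :
    L.ev U (tvt L D l κ * tvt L D l κ) = Real.exp (-(2 * κ) * L.ev U (VT L D l)) := by
  rw [map_mul]
  have h1 : L.ev U (tvt L D l κ) = Real.exp ((-κ) * L.ev U (VT L D l)) := rfl
  rw [h1, ← Real.exp_add]
  congr 1; ring

lemma VT_nonneg {l : ℕ} [NeZero l] (U : Ed D l → G) : 0 ≤ L.ev U (VT L D l) := by
  rw [VT_apply]; exact Finset.sum_nonneg fun _ _ => we_nonneg _

lemma tvt_lower {l : ℕ} [NeZero l] {κ : ℝ} (hκ : 0 ≤ κ) :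
    (∫ g, Real.exp (-(2 * (16 * D * κ)) * we L g) ∂μ) ^ Fintype.card (Ed D l) ≤
      L.I μ (tvt L D l κ * tvt L D l κ) := by
  rw [← I_texp (L := L) (E := Ed D l) μ (16 * D * κ)]
  refine I_mono μ fun U => ?_
  rw [tvt_sq, texp_sq, ← Real.exp_sum]
  refine Real.exp_le_exp.2 ?_
  rw [← Finset.mul_sum]
  have h1 := VT_le_W (L := L) U
  have h2 := mul_le_mul_of_nonneg_left h1 (show 0 ≤ 2 * κ by positivity)
  linarith

lemma tvt_jensen {l : ℕ} [NeZero l] {κ : ℝ} (hκ : 0 < κ)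
    (hZ : 0 < L.I μ (tvt L D l κ * tvt L D l κ)) :
    κ * L.I μ (VT L D l * (tvt L D l κ * tvt L D l κ)) ≤
      -Real.log (L.I μ (tvt L D l κ * tvt L D l κ)) * L.I μ (tvt L D l κ * tvt L D l κ) := by
  set Z := L.I μ (tvt L D l κ * tvt L D l κ) with hZdef
  have h1 : L.I μ ((1 + Real.log Z) • (tvt L D l κ * tvt L D l κ) +
      κ • (VT L D l * (tvt L D l κ * tvt L D l κ))) ≤ L.I μ (Z • (1 : Sm L (Ed D l))) := by
    refine I_mono μ fun U => ?_
    rw [map_add, map_smul, map_smul, map_smul, map_mul (L.ev U) (VT L D l), tvt_sq, map_one,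
      smul_eq_mul, smul_eq_mul, smul_eq_mul, mul_one]
    set v := L.ev U (VT L D l) with hv
    have hv0 : 0 ≤ v := VT_nonneg U
    have h2 := Real.add_one_le_exp (κ * v + Real.log Z)
    rw [Real.exp_add, Real.exp_log hZ] at h2
    have h3 := mul_le_mul_of_nonneg_right h2 (Real.exp_nonneg (-(2 * κ) * v))
    have h4 : Real.exp (κ * v) * Z * Real.exp (-(2 * κ) * v) = Z * Real.exp (-(κ * v)) := by
      rw [mul_right_comm, ← Real.exp_add, mul_comm]
      congr 2; ring
    rw [h4] at h3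
    have h5 : Real.exp (-(κ * v)) ≤ 1 := Real.exp_le_one_iff.2 (by
      have := mul_nonneg hκ.le hv0; linarith)
    have h6 := mul_le_mul_of_nonneg_left h5 hZ.le
    linarith
  rw [map_add, map_smul, map_smul, map_smul, ← hZdef, I_one, smul_eq_mul, smul_eq_mul,
    smul_eq_mul] at h1
  linarith

lemma exists_kappa (L : LD G N n) (D : ℕ) {ε : ℝ} (hε : 0 < ε) : ∃ κ : ℝ, 0 < κ ∧
    0 < ∫ g, Real.exp (-(2 * (16 * D * κ)) * we L g) ∂μ ∧
    D * (-Real.log (∫ g, Real.exp (-(2 * (16 * D * κ)) * we L g) ∂μ)) ≤ ε * κ := by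
  have hwc : Continuous fun g : G => we L g := by
    unfold we
    exact Complex.continuous_re.comp ((continuous_const.sub L.cont).matrix_trace)
  have hint : ∀ f : G → ℝ, Continuous f → Integrable f μ := fun f hf =>
    hf.integrable_of_hasCompactSupport (HasCompactSupport.of_compactSpace _)
  set ε1 := ε / (64 * D ^ 2 + 1) with hε1
  have hε10 : 0 < ε1 := by positivity
  set O : Set G := {g | we L g < ε1} with hO
  have hOo : IsOpen O := isOpen_lt hwc continuous_const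
  have hO1 : (1 : G) ∈ O := by
    show we L 1 < ε1
    unfold we
    rw [map_one, sub_self, trace_zero, Complex.zero_re]; exact hε10
  have hp : 0 < μ.real O := by
    rw [Measure.real, ENNReal.toReal_pos_iff]
    exact ⟨hOo.measure_pos μ ⟨1, hO1⟩, measure_lt_top μ O⟩
  set κ := 2 * D * |Real.log (μ.real O)| / ε + 1 with hκ
  have hκ0 : 0 < κ := by positivity
  set z := ∫ g, Real.exp (-(2 * (16 * D * κ)) * we L g) ∂μ with hz
  have hce : Continuous fun g : G => Real.exp (-(2 * (16 * D * κ)) * we L g) :=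
    Real.continuous_exp.comp (continuous_const.mul hwc)
  have h3 : μ.real O * Real.exp (-(2 * (16 * D * κ)) * ε1) ≤ z := by
    have h4 : ∫ g, O.indicator (fun _ => Real.exp (-(2 * (16 * D * κ)) * ε1)) g ∂μ =
        μ.real O * Real.exp (-(2 * (16 * D * κ)) * ε1) := by
      rw [integral_indicator hOo.measurableSet]
      simp [Measure.real]
    rw [← h4]
    refine integral_mono ((integrable_const _).indicator hOo.measurableSet) (hint _ hce) ?_
    intro g
    by_cases hg : g ∈ O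
    · rw [Set.indicator_of_mem hg]
      have h5 : we L g < ε1 := hg
      refine Real.exp_le_exp.2 ?_
      have h6 : 0 ≤ 2 * (16 * D * κ) := by positivity
      nlinarith
    · rw [Set.indicator_of_notMem hg]
      exact Real.exp_nonneg _
  have hz0 : 0 < z := lt_of_lt_of_le (mul_pos hp (Real.exp_pos _)) h3
  refine ⟨κ, hκ0, hz0, ?_⟩
  have h4 := Real.log_le_log (mul_pos hp (Real.exp_pos _)) h3
  rw [Real.log_mul hp.ne' (Real.exp_pos _).ne', Real.log_exp] at h4
  have h5 : -Real.log z ≤ 32 * D * κ * ε1 + |Real.log (μ.real O)| := by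
    have := neg_abs_le (Real.log (μ.real O))
    linarith
  have h6 : (D : ℝ) * (-Real.log z) ≤ D * (32 * D * κ * ε1 + |Real.log (μ.real O)|) :=
    mul_le_mul_of_nonneg_left h5 (Nat.cast_nonneg D)
  refine h6.trans ?_
  have h7 : (D : ℝ) * (32 * D * κ * ε1) ≤ ε / 2 * κ := by
    have h8 : 32 * (D : ℝ) ^ 2 * ε1 ≤ ε / 2 := by
      rw [hε1, ← mul_div_assoc, div_le_iff₀ (by positivity)]
      have h9 : 0 ≤ (D : ℝ) ^ 2 := by positivity
      nlinarith
    have h10 := mul_le_mul_of_nonneg_right h8 hκ0.le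
    linarith
  have h8 : (D : ℝ) * |Real.log (μ.real O)| ≤ ε / 2 * κ := by
    rw [hκ]
    have : ε / 2 * (2 * D * |Real.log (μ.real O)| / ε + 1) = D * |Real.log (μ.real O)| + ε / 2 := by
      field_simp
    rw [this]; linarith
  linarith

/-- Upper bound of the energy density of the vacuum in the gauge invariant sector. -/
theorem E0_inv (L : LD G N n) (D : ℕ) {ε : ℝ} (hε : 0 < ε) : ∃ Q : ℝ, 0 ≤ Q ∧
    ∀ (l : ℕ) [NeZero l], 3 ≤ l → ∀ (g E0 : ℝ), 0 < g →
      (∀ u : Sm L (Ed D l), Inv u → E0 * L.I μ (u * u) ≤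
        g ^ 2 / 2 * L.I μ (Gam L.Dv u u) + 1 / g ^ 2 * L.I μ (VT L D l * (u * u))) →
      E0 ≤ l ^ D * (g ^ 2 * Q + 1 / g ^ 2 * ε) := by
  obtain ⟨B, hB0, hB⟩ := dV_bound L D
  obtain ⟨κ, hκ0, hz0, hκ⟩ := exists_kappa μ L D hε
  refine ⟨1 / 2 * (D * n * (κ ^ 2 * B)), by positivity, ?_⟩
  intro l _ hl g E0 hg hE
  set u := tvt L D l κ with hu
  set z := ∫ g, Real.exp (-(2 * (16 * D * κ)) * we L g) ∂μ with hz
  have hcard : (Fintype.card (Ed D l) : ℝ) = l ^ D * D := by
    rw [Fintype.card_prod, Fintype.card_fun, Fintype.card_fin, ZMod.card]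
    push_cast; ring
  have hlow := tvt_lower (L := L) (D := D) (l := l) μ hκ0.le
  rw [← hz, ← hu] at hlow
  have hZ : 0 < L.I μ (u * u) := lt_of_lt_of_le (pow_pos hz0 _) hlow
  have hlog : -Real.log (L.I μ (u * u)) ≤ l ^ D * (ε * κ) := by
    have h1 := Real.log_le_log (pow_pos hz0 _) hlow
    rw [Real.log_pow, hcard] at h1
    have h2 : (l : ℝ) ^ D * (D * (-Real.log z)) ≤ l ^ D * (ε * κ) :=
      mul_le_mul_of_nonneg_left hκ (by positivity)
    linarith
  have hpot : L.I μ (VT L D l * (u * u)) ≤ l ^ D * ε * L.I μ (u * u) := by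
    have h1 := tvt_jensen (L := L) (D := D) (l := l) μ hκ0 hZ
    rw [← hu] at h1
    have h2 := mul_le_mul_of_nonneg_right hlog hZ.le
    have h3 : κ * L.I μ (VT L D l * (u * u)) ≤ κ * (l ^ D * ε * L.I μ (u * u)) := by linarith
    exact le_of_mul_le_mul_left h3 hκ0
  have hkin : L.I μ (Gam L.Dv u u) ≤ (l ^ D * D * n) * (κ ^ 2 * B) * L.I μ (u * u) := by
    unfold Gam
    rw [map_sum]
    have h1 : ∀ j : Ed D l × Fin n, L.I μ (L.Dv j u * L.Dv j u) ≤
        κ ^ 2 * B * L.I μ (u * u) := by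
      intro j
      have h2 : L.I μ (L.Dv j u * L.Dv j u) ≤ L.I μ ((κ ^ 2 * B) • (u * u)) := by
        refine I_mono μ fun U => ?_
        rw [hu]
        unfold tvt
        rw [Dv_expS, Derivation.map_smul, map_mul, map_mul, map_smul, map_smul, map_mul,
          smul_eq_mul, smul_eq_mul]
        have h3 := hB l hl j U
        have h4 : 0 ≤ κ ^ 2 * (L.ev U (expS ((-κ) • VT L D l))) ^ 2 := by positivity
        nlinarith [mul_le_mul_of_nonneg_left h3 h4]
      rwa [map_smul, smul_eq_mul] at h2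
    refine (Finset.sum_le_sum fun j _ => h1 j).trans ?_
    rw [Finset.sum_const, Finset.card_univ, nsmul_eq_mul, Fintype.card_prod]
    push_cast
    rw [hcard, Fintype.card_fin]
    exact le_of_eq (by ring)
  have h1 := hE u (tvt_inv κ)
  have h5 := mul_le_mul_of_nonneg_left hkin (show (0 : ℝ) ≤ g ^ 2 / 2 by positivity)
  have h6 := mul_le_mul_of_nonneg_left hpot (show (0 : ℝ) ≤ 1 / g ^ 2 by positivity)
  have h7 : E0 * L.I μ (u * u) ≤
      (l ^ D * (g ^ 2 * (1 / 2 * (D * n * (κ ^ 2 * B))) + 1 / g ^ 2 * ε)) * L.I μ (u * u) := by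
    refine h1.trans ((add_le_add h5 h6).trans (le_of_eq ?_))
    ring
  exact le_of_mul_le_mul_right h7 hZ

end

end Pool.Agent.H906R3.YM
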