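import Mathlib
import Pool.Agent.H906R3.YM.Equi

/-!
# Positivity on families of vectors
-/

open MeasureTheory Matrix
open scoped Matrix.Norms.Frobenius ContDiff

namespace Pool.Agent.H906R3.YM

set_option linter.unusedSectionVars false

noncomputable section

section abs

variable {A : Type*} [CommRing A] [Algebra ℝ A] {P J : Type*} [Fintype J] (S : Fn A P J)

lemma Gam_r_le {n : ℕ} {Φ : Fin n → A} {r t : A} {s : ℝ} (hs : 0 < s) (ht : t * r = 1)
    (hr : r * r = algebraMap ℝ A (s ^ 2) + ∑ a, Φ a * Φ a) (htp : ∀ x, 0 < S.ev x t) (x : P) :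
    S.ev x (Gam S.D r r) ≤ S.ev x (∑ a, Gam S.D (Φ a) (Φ a)) := by
  have h1 := (Theta_upper (S := S) hs one_pos ht hr htp x).1
  unfold Theta at h1
  rw [map_sub, map_mul, map_mul, ← mul_sub] at h1
  have h2 := (mul_nonneg_iff_of_pos_left (htp x)).1 h1
  linarith

lemma vec_abs {n : ℕ} {g : ℝ} {V : A} {E0 : ℝ} (Y : Fin n → A)
    (hex : ∀ s : ℝ, 0 < s → ∃ r t : A, t * r = 1 ∧
      r * r = algebraMap ℝ A (s ^ 2) + ∑ a, Y a * Y a ∧ (∀ x, 0 < S.ev x t) ∧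
      0 ≤ S.enr g V E0 r r) : 0 ≤ ∑ a, S.enr g V E0 (Y a) (Y a) := by
  set C := 1 / g ^ 2 * S.I V - E0 * S.I 1 with hC
  have key : ∀ s : ℝ, 0 < s → 0 ≤ ∑ a, S.enr g V E0 (Y a) (Y a) + s ^ 2 * C := by
    intro s hs
    obtain ⟨r, t, ht, hr, htp, h0⟩ := hex s hs
    rw [S.enr_eq] at h0
    have h1 : S.I (Gam S.D r r) ≤ ∑ a, S.I (Gam S.D (Y a) (Y a)) := by
      rw [← map_sum]
      exact S.I_mono _ _ fun x => Gam_r_le S hs ht hr htp x
    have h2 : S.I (V * (r * r)) = s ^ 2 * S.I V + ∑ a, S.I (V * (Y a * Y a)) := by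
      rw [hr, mul_add, map_add, Finset.mul_sum, map_sum]
      congr 1
      rw [mul_comm V, ← Algebra.smul_def, map_smul, smul_eq_mul]
    have h3 : S.I (r * r) = s ^ 2 * S.I 1 + ∑ a, S.I (Y a * Y a) := by
      rw [hr, map_add, map_sum]
      congr 1
      rw [Algebra.algebraMap_eq_smul_one, map_smul, smul_eq_mul]
    have h4 : ∑ a, S.enr g V E0 (Y a) (Y a) = g ^ 2 / 2 * ∑ a, S.I (Gam S.D (Y a) (Y a)) +
        1 / g ^ 2 * ∑ a, S.I (V * (Y a * Y a)) - E0 * ∑ a, S.I (Y a * Y a) := by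
      rw [Finset.mul_sum, Finset.mul_sum, Finset.mul_sum, ← Finset.sum_add_distrib,
        ← Finset.sum_sub_distrib]
      exact Finset.sum_congr rfl fun a _ => S.enr_eq g V E0 (Y a) (Y a)
    rw [h2, h3] at h0
    have h5 := mul_le_mul_of_nonneg_left h1 (show 0 ≤ g ^ 2 / 2 by positivity)
    rw [h4, hC]
    linarith
  by_contra hc
  rw [not_le] at hc
  set x := ∑ a, S.enr g V E0 (Y a) (Y a) with hx
  have hC1 : 0 < 2 * (|C| + 1) := by positivity
  have hs2 : 0 < -x / (2 * (|C| + 1)) := div_pos (by linarith) hC1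
  have h1 := key (Real.sqrt (-x / (2 * (|C| + 1)))) (Real.sqrt_pos.2 hs2)
  rw [Real.sq_sqrt hs2.le] at h1
  have h2 : -x / (2 * (|C| + 1)) * C ≤ -x / 2 := by
    rw [div_mul_eq_mul_div, div_le_div_iff₀ hC1 (by norm_num)]
    have h3 := le_abs_self C
    nlinarith
  linarith

end abs

variable {D l : ℕ} [NeZero l] {G : Type*} [Group G] [TopologicalSpace G] {N n : ℕ} {L : LD G N n}
  [IsTopologicalGroup G] [CompactSpace G] [SecondCountableTopology G]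
  [MeasurableSpace G] [BorelSpace G] (μ : Measure G) [IsProbabilityMeasure μ]
  [μ.IsMulLeftInvariant]

lemma vec_pos {g : ℝ} {E0 : ℝ}
    (hpos : ∀ u : Sm L (Ed D l), Inv u →
      0 ≤ (fnE L μ (Ed D l)).enr g (VT L D l) E0 u u) (Y : Fin n → Sm L (Ed D l))
    (hY : ∀ γ, ∑ a, gs γ (Y a) * gs γ (Y a) = ∑ a, Y a * Y a) :
    0 ≤ ∑ a, (fnE L μ (Ed D l)).enr g (VT L D l) E0 (Y a) (Y a) := by
  refine vec_abs (fnE L μ (Ed D l)) Y fun s hs => ⟨rad Y s hs, radi Y s hs, radi_mul Y s hs,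
    rad_mul Y s hs, radi_pos Y s hs, hpos _ fun γ => ?_⟩
  refine ev_ext fun U => ?_
  have h1 := congrArg (L.ev U) (hY γ)
  rw [map_sum, map_sum] at h1
  have h2 : ∑ a, (Y a).1 (gt γ U) * (Y a).1 (gt γ U) = ∑ a, (Y a).1 U * (Y a).1 U := h1
  show Real.sqrt (s ^ 2 + ∑ a, (Y a).1 (gt γ U) * (Y a).1 (gt γ U)) =
    Real.sqrt (s ^ 2 + ∑ a, (Y a).1 U * (Y a).1 U)
  rw [h2]

end

end Pool.Agent.H906R3.YM
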