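import Mathlib
import Pool.Agent.H906R3.YM.Vec
import Pool.Agent.H906R3.YM.Dense

/-!
# The local theorem for approximate vacua
-/

open MeasureTheory Matrix
open scoped Matrix.Norms.Frobenius ContDiff

namespace Pool.Agent.H906R3.YM

set_option linter.unusedSectionVars false

noncomputable section

variable {G : Type*} [Group G] [TopologicalSpace G] {N n : ℕ} {L : LD G N n}
  [IsTopologicalGroup G] [CompactSpace G] [SecondCountableTopology G]
  [MeasurableSpace G] [BorelSpace G] (μ : Measure G) [IsProbabilityMeasure μ]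
  [μ.IsMulLeftInvariant]
variable {D m l : ℕ} [NeZero l] {K : Pt D → ℝ} {i0 i1 : Fin D}

/-- the flux of the block at `x0` -/
def Fx (L : LD G N n) (l m : ℕ) [NeZero l] (K : Pt D → ℝ) (i0 i1 : Fin D) (x0 : Fin D → ZMod l)
    (a : Fin n) : Sm L (Ed D l) := pull (iot l x0) (Phi L m K i0 i1 a)

lemma nr_mul_le2 {E : Type*} [Fintype E] [DecidableEq E] {V u : Sm L E} {v : ℝ} (hv : 0 ≤ v)
    (h : ∀ U, |L.ev U V| ≤ v) :
    (fnE L μ E).nr (V * u) ≤ v * (fnE L μ E).nr u := by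
  have h1 : L.I μ ((V * u) * (V * u)) ≤ L.I μ ((v ^ 2) • (u * u)) := by
    refine I_mono μ fun U => ?_
    rw [map_mul, map_mul, map_smul, map_mul, smul_eq_mul]
    have h2 : (L.ev U V) ^ 2 ≤ v ^ 2 := by
      rw [← sq_abs]; exact pow_le_pow_left₀ (abs_nonneg _) (h U) 2
    have h3 := mul_le_mul_of_nonneg_right h2 (mul_self_nonneg (L.ev U u))
    linarith
  rw [map_smul, smul_eq_mul] at h1
  have h2 : (fnE L μ E).nr (V * u) ^ 2 ≤ (v * (fnE L μ E).nr u) ^ 2 := by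
    rw [nr_sq, mul_pow, nr_sq]; exact h1
  exact (pow_le_pow_iff_left₀ (nr_nonneg _) (mul_nonneg hv (nr_nonneg _)) two_ne_zero).1 h2

/-- A priori bounds. -/
theorem apriori (L : LD G N n) (K : Pt D → ℝ) (i0 i1 : Fin D) (hml : m ≤ l) {g : ℝ}
    (hg : 0 < g) {E0 : ℝ} (hE0 : 0 ≤ E0) :
    ∃ Kc : ℝ, 1 ≤ Kc ∧ ∀ (x0 : Fin D → ZMod l) (w : Sm L (Ed D l)), L.I μ (w * w) = 1 →
      (fnE L μ (Ed D l)).nr (HH L.Dv g (VT L D l) w - E0 • w) ≤ 1 → ∀ a,
      (fnE L μ (Ed D l)).nr (XX L.Dv (Fx L l m K i0 i1 x0 a) w) ≤ Kc ∧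
      (fnE L μ (Ed D l)).nr (XX L.Dv (Fx L l m K i0 i1 x0 a)
        (XX L.Dv (Fx L l m K i0 i1 x0 a) w)) ≤ Kc ∧
      ∀ U, |L.ev U (Fx L l m K i0 i1 x0 a)| ≤ Kc := by
  set S := fnE L μ (Ed D l) with hS
  set V := VT L D l with hV
  set v := nrmS L V with hv
  have hvU : ∀ U, |L.ev U V| ≤ v := fun U => le_nrmS V U
  have hv0 : 0 ≤ v := (abs_nonneg _).trans (hvU 1)
  have hV0 : ∀ U, 0 ≤ L.ev U V := fun U => by
    rw [hV, VT_apply]; exact Finset.sum_nonneg fun _ _ => we_nonneg _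
  have hg2 : 0 < g ^ 2 := by positivity
  set Γ0 := 2 / g ^ 2 * (E0 + 1) with hΓ0
  set Λ0 := 2 / g ^ 2 * (v / g ^ 2 + (1 + E0)) with hΛ0
  have hΓ00 : 0 ≤ Γ0 := by positivity
  have hΛ00 : 0 ≤ Λ0 := by positivity
  set cA : Fin n → ℝ := fun a => Blk.nOp (nrmS L) (fun k => L.Dv (E := Sb D m) k
    (Phi L m K i0 i1 a)) ((1 / 2 : ℝ) • Lap (L.Dv (E := Sb D m)) (Phi L m K i0 i1 a)) with hcA
  set cB : Fin n → ℝ := fun a => Blk.c2 (L.Dv (E := Sb D m)) (L.sig (S := Sb D m)) (nrmS L)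
    (Phi L m K i0 i1 a) with hcB
  set cN : Fin n → ℝ := fun a => nrmS L (Phi L m K i0 i1 a) with hcN
  have hcA0 : ∀ a, 0 ≤ cA a := fun a => Blk.nOp_nonneg _ _
  have hcB0 : ∀ a, 0 ≤ cB a := fun a => Blk.c2_nonneg _
  have hcN0 : ∀ a, 0 ≤ cN a := fun a => (abs_nonneg _).trans (le_nrmS _ (1 : Sb D m → G))
  have hle : ∀ (f : Fin n → ℝ), (∀ b, 0 ≤ f b) → ∀ b, f b ≤ ∑ b, f b := fun f hf b =>
    Finset.single_le_sum (fun i _ => hf i) (Finset.mem_univ b)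
  have hsA : 0 ≤ ∑ a, cA a := Finset.sum_nonneg fun a _ => hcA0 a
  have hsB : 0 ≤ ∑ a, cB a := Finset.sum_nonneg fun a _ => hcB0 a
  have hsN : 0 ≤ ∑ a, cN a := Finset.sum_nonneg fun a _ => hcN0 a
  set Y1 := (∑ a, cA a) * (Γ0 + 1) with hY1
  set Y2 := (∑ a, cB a) * ((Γ0 + 1) + (Λ0 ^ 2 + Γ0)) with hY2
  have hY10 : 0 ≤ Y1 := by positivity
  have hY20 : 0 ≤ Y2 := by positivity
  refine ⟨1 + Y1 + Y2 + ∑ a, cN a, by linarith, ?_⟩
  intro x0 w hnorm hres a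
  have hnw : S.nr w = 1 := by
    have h1 : S.I (w * w) = 1 := hnorm
    unfold Fn.nr
    rw [h1, Real.sqrt_one]
  set ρ := HH (L.Dv (E := Ed D l)) g V w - E0 • w with hρ
  set T := blkE (L := L) μ (iot (m := m) l x0) (iot_inj hml x0) with hT
  -- kinetic energy
  have hΓ : S.I (Gam S.D w w) ≤ Γ0 := by
    have h1 := S.enr_eq g V E0 w w
    have h2 : S.enr g V E0 w w = S.I (w * ρ) := rfl
    have h3 : S.I (w * ρ) ≤ 1 := by
      have := (le_abs_self _).trans (nr_cs (S := S) w ρ)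
      rw [hnw, one_mul] at this
      exact this.trans hres
    have h4 : 0 ≤ S.I (V * (w * w)) := I_nonneg μ fun U => by
      rw [map_mul, map_mul]; exact mul_nonneg (hV0 U) (mul_self_nonneg _)
    have h5 : S.I (w * w) = 1 := hnorm
    rw [h2, h5, mul_one] at h1
    have h6 : 0 ≤ 1 / g ^ 2 * S.I (V * (w * w)) := by positivity
    have h7 : g ^ 2 / 2 * S.I (Gam S.D w w) ≤ E0 + 1 := by linarith
    rw [hΓ0, div_mul_eq_mul_div, le_div_iff₀ hg2]
    linarith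
  have hΓn : 0 ≤ S.I (Gam S.D w w) := by
    unfold Gam
    rw [map_sum]
    exact Finset.sum_nonneg fun j _ => S.sq_nonneg' _
  -- Laplacian
  have hLap : S.nr (Lap S.D w) ≤ Λ0 := by
    have h1 : Lap S.D w = (2 / g ^ 2 : ℝ) • ((1 / g ^ 2 : ℝ) • (V * w) - (ρ + E0 • w)) := by
      have h2 : ρ + E0 • w = -((g ^ 2 / 2 : ℝ) • Lap S.D w) + (1 / g ^ 2 : ℝ) • (V * w) := by
        rw [hρ, sub_add_cancel]; rfl
      rw [h2]
      have h3 : (1 / g ^ 2 : ℝ) • (V * w) - (-((g ^ 2 / 2 : ℝ) • Lap S.D w) +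
          (1 / g ^ 2 : ℝ) • (V * w)) = (g ^ 2 / 2 : ℝ) • Lap S.D w := by abel
      rw [h3, smul_smul]
      have h4 : 2 / g ^ 2 * (g ^ 2 / 2) = 1 := by field_simp
      rw [h4, one_smul]
    rw [h1, nr_smul, abs_of_pos (by positivity), hΛ0]
    refine mul_le_mul_of_nonneg_left ?_ (by positivity)
    refine (nr_sub_le _ _).trans (add_le_add ?_ ?_)
    · rw [nr_smul, abs_of_pos (by positivity)]
      have h5 := nr_mul_le2 μ (V := V) (u := w) hv0 hvU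
      have h6 : S.nr (V * w) ≤ v := by
        refine h5.trans (le_of_eq ?_)
        show v * S.nr w = v
        rw [hnw, mul_one]
      calc 1 / g ^ 2 * S.nr (V * w) ≤ 1 / g ^ 2 * v :=
            mul_le_mul_of_nonneg_left h6 (by positivity)
        _ = v / g ^ 2 := by ring
    · refine (nr_add _ _).trans (add_le_add hres ?_)
      rw [nr_smul, abs_of_nonneg hE0, hnw, mul_one]
  have hloc : T.loc w ≤ Γ0 + 1 := by
    unfold Blk.loc
    have h1 : S.I (w * w) = 1 := hnorm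
    have h2 := T.sum_kap_le (fun j => S.I (S.D j w * S.D j w)) fun j => S.sq_nonneg' _
    have h3 : ∑ j, S.I (S.D j w * S.D j w) = S.I (Gam S.D w w) := by
      unfold Gam; rw [map_sum]
    rw [h3] at h2
    have h4 : ∑ k, S.I (T.D' k w * T.D' k w) ≤ S.I (Gam S.D w w) := h2
    linarith
  have hsl : ∑ k, T.loc (T.D' k w) ≤ Λ0 ^ 2 + Γ0 := by
    refine (T.sum_loc_le w).trans (add_le_add ?_ hΓ)
    have h1 := cas_abs S (fun j u => Lap_Dv (L := L) j u) w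
    rw [h1, ← nr_sq]
    exact pow_le_pow_left₀ (nr_nonneg _) hLap 2
  have hl0 := T.loc_nonneg w
  have hsq : ∀ {x y : ℝ}, 0 ≤ x → x ^ 2 ≤ y → x ≤ 1 + y := by
    intro x y hx hxy
    nlinarith [sq_nonneg (x - 1)]
  refine ⟨?_, ?_, ?_⟩
  · have h1 : S.nr (XX S.D (T.pl (Phi L m K i0 i1 a)) w) ^ 2 ≤ Y1 := by
      rw [nr_sq, T.XX_pl]
      refine (T.Op_bound _ _ w).trans ?_
      exact mul_le_mul (hle cA hcA0 a) hloc hl0 hsA
    have h2 := hsq (nr_nonneg _) h1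
    have h3 : S.nr (XX (L.Dv (E := Ed D l)) (Fx L l m K i0 i1 x0 a) w) ≤ 1 + Y1 := h2
    linarith
  · have h1 : S.nr (XX S.D (T.pl (Phi L m K i0 i1 a)) (XX S.D (T.pl (Phi L m K i0 i1 a)) w)) ^ 2 ≤
        Y2 := by
      rw [nr_sq]
      refine (T.XX2_bound (Phi L m K i0 i1 a) w).trans ?_
      exact mul_le_mul (hle cB hcB0 a) (add_le_add hloc hsl)
        (add_nonneg hl0 (Finset.sum_nonneg fun k _ => T.loc_nonneg _)) hsB
    have h2 := hsq (nr_nonneg _) h1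
    have h3 : S.nr (XX (L.Dv (E := Ed D l)) (Fx L l m K i0 i1 x0 a)
        (XX (L.Dv (E := Ed D l)) (Fx L l m K i0 i1 x0 a) w)) ≤ 1 + Y2 := h2
    linarith
  · intro U
    have h1 : |L.ev U (Fx L l m K i0 i1 x0 a)| ≤ cN a :=
      le_nrmS (Phi L m K i0 i1 a) (U ∘ iot l x0)
    have h2 := hle cN hcN0 a
    linarith

set_option maxHeartbeats 4000000 in
theorem local2 (hK : ∀ x : Pt D, K x ≠ 0 → ∀ i, 2 ≤ x i ∧ x i + 3 ≤ m) (hn : 0 < n)
    {ah τ : ℝ} (hah0 : 0 < ah) (hτ : 0 < τ) {C : ℝ}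
    (hC : ∀ U : Sb D m → G,
      (∀ b, L.ev U (Gam L.Dv (Phi L m K i0 i1 b) (Gam L.Dv (Phi L m K i0 i1 b) (VS L D m))) ≤
        5 / 4 * (τ ^ 2 * ah) + C * L.ev U (VS L D m)) ∧
      (∀ b, L.ev U (Gam L.Dv (Phi L m K i0 i1 b) (Phi L m K i0 i1 b)) ≤
        3 / 2 * ah + C * L.ev U (VS L D m)) ∧
      (∑ a, ∑ b, |L.ev U (Gam L.Dv (Phi L m K i0 i1 a) (Phi L m K i0 i1 b)) -
        if a = b then ah else 0| ≤ ah / 32 + C * L.ev U (VS L D m)) ∧
      ((∑ a, L.ev U (Gam L.Dv (Phi L m K i0 i1 a) (Phi L m K i0 i1 a))) ^ 2 ≤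
        3 / 2 * (n ^ 2 * ah ^ 2) + C * L.ev U (VS L D m)))
    (x0 : Fin D → ZMod l) (hml : m ≤ l) {w : Sm L (Ed D l)} (hw : Inv w)
    {g E0 : ℝ} (hg : 0 < g)
    (hpos : ∀ u : Sm L (Ed D l), Inv u → 0 ≤ (fnE L μ (Ed D l)).enr g (VT L D l) E0 u u)
    (hnorm : L.I μ (w * w) = 1) {Kc δ : ℝ} (hKc : 1 ≤ Kc) (hδ : 0 ≤ δ)
    (hap : ∀ a, (fnE L μ (Ed D l)).nr (XX L.Dv (Fx L l m K i0 i1 x0 a) w) ≤ Kc ∧
      (fnE L μ (Ed D l)).nr (XX L.Dv (Fx L l m K i0 i1 x0 a)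
        (XX L.Dv (Fx L l m K i0 i1 x0 a) w)) ≤ Kc ∧
      ∀ U, |L.ev U (Fx L l m K i0 i1 x0 a)| ≤ Kc)
    (hres : (fnE L μ (Ed D l)).nr (HH L.Dv g (VT L D l) w - E0 • w) ≤ δ)
    (hδ1 : g ^ 2 * (Kc * δ) ≤ 3 / 16 * (τ ^ 2 * ah)) (hδ2 : Kc * Kc * δ ≤ τ * ah)
    (hδ3 : Kc * Kc * δ ≤ g ^ 2 * ah / 8)
    (hω1 : C * L.I μ (pull (iot l x0) (VS L D m) * (w * w)) ≤ τ ^ 2 * ah / 8)
    (hω2 : C * L.I μ (pull (iot l x0) (VS L D m) * (w * w)) ≤ ah / 32)
    (hω3 : C * L.I μ (pull (iot l x0) (VS L D m) * (w * w)) ≤ n ^ 2 * ah ^ 2 / 2)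
    (hloc : CD L D m K i0 i1 *
      (g ^ 4 * (blkE (L := L) μ (iot l x0) (iot_inj hml x0)).loc w) ≤ τ ^ 2 * ah / 4)
    (hs : 0 < ah / (2 * Real.sqrt (n * (2 * τ) * ah / g ^ 2))) (c : ℝ) :
    ah ^ 2 / 64 ≤ 4 * L.I μ ((rad (fun b => Fx L l m K i0 i1 x0 b) _ hs - c • 1) * w *
      ((rad (fun b => Fx L l m K i0 i1 x0 b) _ hs - c • 1) * w)) *
        ((2 + 4 * n ^ 2) * (n * (2 * τ) * ah / g ^ 2)) ∧
    g ^ 2 / 2 * L.I μ (Gam L.Dv (rad (fun b => Fx L l m K i0 i1 x0 b) _ hs)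
      (rad (fun b => Fx L l m K i0 i1 x0 b) _ hs) * (w * w)) ≤
      16 * (2 + 4 * n ^ 2) * n * (2 * τ) *
        L.I μ ((rad (fun b => Fx L l m K i0 i1 x0 b) _ hs - c • 1) * w *
          ((rad (fun b => Fx L l m K i0 i1 x0 b) _ hs - c • 1) * w)) := by
  have hn1 : (1 : ℝ) ≤ n := by exact_mod_cast hn
  have hg2 : 0 < g ^ 2 := by positivity
  have hKc0 : 0 ≤ Kc := by linarith
  set S := fnE L μ (Ed D l) with hS
  set V := VT L D l with hV
  set T := blkE (L := L) μ (iot (m := m) l x0) (iot_inj hml x0) with hT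
  set ρ := HH (L.Dv (E := Ed D l)) g V w - E0 • w with hρ
  have hnw : S.nr w = 1 := by
    have h1 : S.I (w * w) = 1 := hnorm
    unfold Fn.nr
    rw [h1, Real.sqrt_one]
  have hGG : ∀ a b, Gam (L.Dv (E := Ed D l)) (Fx L l m K i0 i1 x0 a) (Fx L l m K i0 i1 x0 b) =
      pull (iot l x0) (Gam L.Dv (Phi L m K i0 i1 a) (Phi L m K i0 i1 b)) := fun a b =>
    T.Gam_pl_pl (Phi L m K i0 i1 a) (Phi L m K i0 i1 b)
  have hww : ∀ U, 0 ≤ L.ev U (w * w) := fun U => by rw [map_mul]; exact mul_self_nonneg _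
  have hint : ∀ (F : Sm L (Sb D m)) (c0 : ℝ), (∀ U, L.ev U F ≤ c0 + C * L.ev U (VS L D m)) →
      L.I μ (pull (iot l x0) F * (w * w)) ≤
        c0 + C * L.I μ (pull (iot l x0) (VS L D m) * (w * w)) := by
    intro F c0 hF
    have h1 : L.I μ (pull (iot l x0) F * (w * w)) ≤
        L.I μ (c0 • (w * w) + C • (pull (iot l x0) (VS L D m) * (w * w))) := by
      refine I_mono μ fun U => ?_
      rw [map_mul, map_add, map_smul, map_smul, map_mul (L.ev U) (pull (iot l x0) (VS L D m)),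
        smul_eq_mul, smul_eq_mul]
      have h2 := mul_le_mul_of_nonneg_right (hF (U ∘ iot l x0)) (hww U)
      have h3 : L.ev U (pull (iot l x0) F) = L.ev (U ∘ iot l x0) F := rfl
      have h4 : L.ev U (pull (iot l x0) (VS L D m)) = L.ev (U ∘ iot l x0) (VS L D m) := rfl
      rw [h3, h4]; linarith
    refine h1.trans (le_of_eq ?_)
    rw [map_add, map_smul, map_smul, hnorm, smul_eq_mul, smul_eq_mul, mul_one]
  -- S2
  have H1 : ∀ b, S.enr g V E0 (XX S.D (Fx L l m K i0 i1 x0 b) w)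
      (XX S.D (Fx L l m K i0 i1 x0 b) w) ≤ τ ^ 2 * ah / g ^ 2 := by
    intro b
    have h1 := double_comm3 (D := S.D) S.I S.I_D g E0 V
      (T.pl (Phi L m K i0 i1 b)) w hg.ne'
    have h2 := T.dc_bound (Phi L m K i0 i1 b) w
    have h3 : Gam S.D (T.pl (Phi L m K i0 i1 b)) (Gam S.D (T.pl (Phi L m K i0 i1 b)) V) =
        pull (iot l x0) (Gam L.Dv (Phi L m K i0 i1 b)
          (Gam L.Dv (Phi L m K i0 i1 b) (VS L D m))) := by
      have h31 : Gam S.D (T.pl (Phi L m K i0 i1 b)) V =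
          T.pl (Gam L.Dv (Phi L m K i0 i1 b) (VS L D m)) :=
        Gam_V μ hK (iot l x0) (iot_inj hml x0) (fun k hk => Dv_VT hml x0 k hk) b
      rw [h31, T.Gam_pl_pl]
      rfl
    rw [h3] at h1
    have h4 := hint (Gam L.Dv (Phi L m K i0 i1 b) (Gam L.Dv (Phi L m K i0 i1 b) (VS L D m)))
      (5 / 4 * (τ ^ 2 * ah)) (fun U => (hC U).1 b)
    have h5 : Blk.CC (L.Dv (E := Sb D m)) (L.sig (S := Sb D m)) (nrmS L) (Phi L m K i0 i1 b) ≤
        CD L D m K i0 i1 := by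
      refine (le_abs_self _).trans ?_
      exact Finset.single_le_sum (f := fun b => |Blk.CC (L.Dv (E := Sb D m))
        (L.sig (S := Sb D m)) (nrmS L) (Phi L m K i0 i1 b)|) (fun _ _ => abs_nonneg _)
        (Finset.mem_univ b)
    have h6 : Blk.CC (L.Dv (E := Sb D m)) (L.sig (S := Sb D m)) (nrmS L) (Phi L m K i0 i1 b) *
        T.loc w ≤ CD L D m K i0 i1 * T.loc w :=
      mul_le_mul_of_nonneg_right h5 (T.loc_nonneg w)
    have herr : -(S.I (XX S.D (T.pl (Phi L m K i0 i1 b)) (XX S.D (T.pl (Phi L m K i0 i1 b)) w) *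
        (HH S.D g V w - E0 • w))) ≤ Kc * δ := by
      have e1 := nr_cs (S := S) (XX S.D (T.pl (Phi L m K i0 i1 b))
        (XX S.D (T.pl (Phi L m K i0 i1 b)) w)) (HH S.D g V w - E0 • w)
      have e2 := (neg_le_abs _).trans e1
      refine e2.trans ?_
      exact mul_le_mul (hap b).2.1 hres (nr_nonneg _) hKc0
    have h7 : S.enr g V E0 (XX S.D (T.pl (Phi L m K i0 i1 b)) w)
        (XX S.D (T.pl (Phi L m K i0 i1 b)) w) ≤
        g ^ 2 / 2 * (CD L D m K i0 i1 * T.loc w) + 1 / (2 * g ^ 2) *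
          (5 / 4 * (τ ^ 2 * ah) + C * L.I μ (pull (iot l x0) (VS L D m) * (w * w))) +
          Kc * δ := by
      refine (le_of_eq h1).trans ?_
      rw [sub_eq_add_neg]
      refine add_le_add (add_le_add ?_ ?_) herr
      · refine mul_le_mul_of_nonneg_left ?_ (by positivity)
        exact h2.trans h6
      · refine mul_le_mul_of_nonneg_left ?_ (by positivity)
        exact h4
    refine le_trans h7 ?_
    rw [le_div_iff₀ hg2]
    have h8 : (g ^ 2 / 2 * (CD L D m K i0 i1 * T.loc w) + 1 / (2 * g ^ 2) *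
          (5 / 4 * (τ ^ 2 * ah) + C * L.I μ (pull (iot l x0) (VS L D m) * (w * w))) +
          Kc * δ) * g ^ 2 =
        1 / 2 * (CD L D m K i0 i1 * (g ^ 4 * T.loc w)) +
          1 / 2 * (5 / 4 * (τ ^ 2 * ah) + C * L.I μ (pull (iot l x0) (VS L D m) * (w * w))) +
          g ^ 2 * (Kc * δ) := by
      field_simp
    rw [h8]
    have h9 : 0 < τ ^ 2 * ah := by positivity
    linarith
  have hS2 : ∑ a, S.I (XX S.D (Fx L l m K i0 i1 x0 a) w * XX S.D (Fx L l m K i0 i1 x0 a) w) ≤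
      n * (2 * τ) * ah / g ^ 2 := by
    refine S2_err (S := S) hg (V := V) (E0 := E0) (fun b => Fx L l m K i0 i1 x0 b) hah0 hτ
      ?_ H1 ?_ ?_ ?_
    · intro t
      refine vec_pos μ hpos (fun a => fam w (Fx L l m K i0 i1 x0 a) t) fun γ => ?_
      exact gs_fam (sum_adm_adm (L := L) (γ (x0 + ct l 1))⁻¹) γ
        (fun a => gs_Phi hK γ x0 a) hw t
    · intro b
      have h1 := hint _ _ (fun U => (hC U).2.1 b)
      rw [← hGG] at h1
      refine le_trans h1 ?_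
      linarith
    · intro a
      have h1 := nr_cs (S := S) (XX S.D (Fx L l m K i0 i1 x0 a) w * Fx L l m K i0 i1 x0 a)
        (HH S.D g V w - E0 • w)
      refine h1.trans ?_
      have h2 : S.nr (XX S.D (Fx L l m K i0 i1 x0 a) w * Fx L l m K i0 i1 x0 a) ≤ Kc * Kc := by
        rw [mul_comm]
        exact (nr_mul_le2 μ hKc0 (hap a).2.2).trans
          (mul_le_mul_of_nonneg_left (hap a).1 hKc0)
      exact (mul_le_mul h2 hres (nr_nonneg _) (by positivity)).trans hδ2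
    · intro a
      have h1 := nr_cs (S := S) (Fx L l m K i0 i1 x0 a * w * Fx L l m K i0 i1 x0 a)
        (HH S.D g V w - E0 • w)
      refine h1.trans ?_
      have h2 : S.nr (Fx L l m K i0 i1 x0 a * w * Fx L l m K i0 i1 x0 a) ≤ Kc * Kc := by
        rw [mul_comm]
        refine (nr_mul_le2 μ hKc0 (hap a).2.2).trans (mul_le_mul_of_nonneg_left ?_ hKc0)
        refine (nr_mul_le2 μ hKc0 (hap a).2.2).trans (le_of_eq ?_)
        show Kc * S.nr w = Kc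
        rw [hnw, mul_one]
      exact (mul_le_mul h2 hres (nr_nonneg _) (by positivity)).trans hδ3
  refine chain_core (S := S) hn hg hnorm (fun b => Fx L l m K i0 i1 x0 b)
    hah0 (show 0 < 2 * τ by positivity) hS2 (r := rad (fun b => Fx L l m K i0 i1 x0 b) _ hs)
    (t := radi (fun b => Fx L l m K i0 i1 x0 b) _ hs) rfl (radi_mul _ _ _) (rad_mul _ _ _)
    (radi_pos _ _ _) (ρ := (ah / 32) • 1 + C • pull (iot l x0) (VS L D m)) ?_ ?_ ?_ c
  · -- hρ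
    intro U
    have h1 := (hC (U ∘ iot l x0)).2.2.1
    have h2 : L.ev U ((ah / 32) • 1 + C • pull (iot l x0) (VS L D m)) =
        ah / 32 + C * L.ev (U ∘ iot l x0) (VS L D m) := by
      rw [map_add, map_smul, map_smul, map_one, smul_eq_mul, mul_one]; rfl
    refine le_trans (le_of_eq ?_) (h1.trans (le_of_eq h2.symm))
    refine Finset.sum_congr rfl fun a _ => Finset.sum_congr rfl fun b _ => ?_
    have h3 : L.ev U (Gam L.Dv (Fx L l m K i0 i1 x0 a) (Fx L l m K i0 i1 x0 b)) =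
        L.ev (U ∘ iot l x0) (Gam L.Dv (Phi L m K i0 i1 a) (Phi L m K i0 i1 b)) := by
      rw [hGG]; rfl
    exact congrArg (fun z => |z - if a = b then ah else 0|) h3
  · -- H3
    have h1 : ((ah / 32) • (1 : Sm L (Ed D l)) + C • pull (iot l x0) (VS L D m)) * (w * w) =
        (ah / 32) • (w * w) + C • (pull (iot l x0) (VS L D m) * (w * w)) := by
      rw [add_mul, smul_mul_assoc, smul_mul_assoc, one_mul]
    have h2 : L.I μ (((ah / 32) • (1 : Sm L (Ed D l)) + C • pull (iot l x0) (VS L D m)) *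
        (w * w)) ≤ ah / 16 := by
      rw [h1, map_add, map_smul, map_smul, hnorm, smul_eq_mul, smul_eq_mul]
      linarith
    exact h2
  · -- H4
    have h1 := hint ((∑ a, Gam L.Dv (Phi L m K i0 i1 a) (Phi L m K i0 i1 a)) *
      (∑ a, Gam L.Dv (Phi L m K i0 i1 a) (Phi L m K i0 i1 a))) (3 / 2 * (n ^ 2 * ah ^ 2))
      (fun U => by
        have := (hC U).2.2.2
        rw [map_mul, map_sum, ← sq]; exact this)
    have h2 : pull (iot l x0) ((∑ a, Gam L.Dv (Phi L m K i0 i1 a) (Phi L m K i0 i1 a)) *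
      (∑ a, Gam L.Dv (Phi L m K i0 i1 a) (Phi L m K i0 i1 a))) =
      (∑ a, Gam L.Dv (Fx L l m K i0 i1 x0 a) (Fx L l m K i0 i1 x0 a)) *
      (∑ a, Gam L.Dv (Fx L l m K i0 i1 x0 a) (Fx L l m K i0 i1 x0 a)) := by
      rw [map_mul, map_sum]
      simp only [hGG]
    rw [h2] at h1
    refine le_trans h1 ?_
    linarith

end

end Pool.Agent.H906R3.YM
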