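import Mathlib
import Pool.Agent.H906R3.YM.Phi

/-!
# A smooth coclosed field of finite support
-/

namespace Pool.Agent.H906R3.YM

set_option linter.unusedSectionVars false

noncomputable section

variable {D m : ℕ}

lemma cv_inj {x y : Fin D → Fin m} (h : cv x = cv y) : x = y := by
  funext i
  exact Fin.ext (congrFun h i)

/-- the coclosed field as a function of lattice points -/
def hP (K : Pt D → ℝ) (i0 i1 : Fin D) (w : Pt D) (κ : Fin D) : ℝ :=
  (if i0 = κ then K w - K (w - es i1) else 0) + (if i1 = κ then K (w - es i0) - K w else 0)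

open Classical in
lemma sum_ei (f : Pt D → ℝ) (κ : Fin D) (s : Sb D m) (e : Pt D)
    (hf : ∀ x : Pt D, x + e = cv s.1 → ∀ i, x i < m) :
    ∑ x : Fin D → Fin m, f (cv x) * ei (cv x + e) κ s =
      if κ = s.2 then (if e ≤ cv s.1 then f (cv s.1 - e) else 0) else 0 := by
  split_ifs with h1 h2
  · have h3 : cv s.1 - e + e = cv s.1 := tsub_add_cancel_of_le h2
    have h4 := hf _ h3
    rw [Finset.sum_eq_single (fun i => (⟨(cv s.1 - e) i, h4 i⟩ : Fin m))]
    · have h5 : cv (fun i => (⟨(cv s.1 - e) i, h4 i⟩ : Fin m)) = cv s.1 - e := rfl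
      rw [h5, h3]
      unfold ei
      rw [if_pos ⟨rfl, h1⟩, mul_one]
    · intro x _ hx
      unfold ei
      rw [if_neg, mul_zero]
      rintro ⟨h6, -⟩
      apply hx
      apply cv_inj
      have h5 : cv (fun i => (⟨(cv s.1 - e) i, h4 i⟩ : Fin m)) = cv s.1 - e := rfl
      rw [h5, ← h6, add_tsub_cancel_right]
    · intro h; exact absurd (Finset.mem_univ _) h
  · refine Finset.sum_eq_zero fun x _ => ?_
    unfold ei
    rw [if_neg, mul_zero]
    rintro ⟨h6, -⟩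
    exact h2 (h6 ▸ le_add_self)
  · refine Finset.sum_eq_zero fun x _ => ?_
    unfold ei
    rw [if_neg, mul_zero]
    rintro ⟨-, h6⟩
    exact h1 h6

lemma lt_of_add_cv {s : Sb D m} {e x : Pt D} (h : x + e = cv s.1) (i : Fin D) : x i < m := by
  have h1 := congrFun h i
  have h2 : cv s.1 i < m := (s.1 i).2
  simp only [Pi.add_apply] at h1
  omega

variable {K : Pt D → ℝ} {i0 i1 : Fin D}
  (hK : ∀ x : Pt D, K x ≠ 0 → ∀ i, 2 ≤ x i ∧ x i + 3 ≤ m)

open Classical in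
include hK in
lemma K_sub (κ : Fin D) (w : Pt D) : (if es κ ≤ w then K (w - es κ) else 0) = K (w - es κ) := by
  split_ifs with h
  · rfl
  · symm
    by_contra hne
    have h1 := (hK _ hne κ).1
    apply h
    intro i
    by_cases hi : i = κ
    · subst hi
      simp only [Pi.sub_apply, es_same] at h1 ⊢
      omega
    · rw [es_ne hi]; exact Nat.zero_le _

include hK in
lemma hh_eq (s : Sb D m) : hh K i0 i1 s = hP K i0 i1 (cv s.1) s.2 := by
  unfold hh inc hP
  simp only [mul_sub, mul_add, Finset.sum_sub_distrib, Finset.sum_add_distrib]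
  have h1 := sum_ei K i0 s 0 (fun x h i => lt_of_add_cv h i)
  have h2 := sum_ei K i1 s (es i0) (fun x h i => lt_of_add_cv h i)
  have h3 := sum_ei K i0 s (es i1) (fun x h i => lt_of_add_cv h i)
  have h4 := sum_ei K i1 s 0 (fun x h i => lt_of_add_cv h i)
  simp only [add_zero, tsub_zero, zero_le, if_true] at h1 h4
  rw [K_sub hK] at h2 h3
  rw [h1, h2, h3, h4]
  split_ifs <;> ring

lemma sum_ei' (f : Sb D m → ℝ) (g : Pt D → Fin D → ℝ) (hfg : ∀ s, f s = g (cv s.1) s.2)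
    (w : Pt D) (hw : ∀ i, w i < m) (κ : Fin D) :
    ∑ s : Sb D m, f s * ei w κ s = g w κ := by
  rw [Finset.sum_eq_single ((fun i => (⟨w i, hw i⟩ : Fin m)), κ)]
  · unfold ei
    rw [if_pos ⟨rfl, rfl⟩, mul_one, hfg]
    rfl
  · intro s _ hs
    unfold ei
    rw [if_neg, mul_zero]
    rintro ⟨h1, h2⟩
    apply hs
    refine Prod.ext ?_ h2.symm
    apply cv_inj
    exact h1.symm
  · intro h; exact absurd (Finset.mem_univ _) h

include hK in
lemma ll_eq (q : Qi D m) : ll K i0 i1 q =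
    (hP K i0 i1 (cv q.1.1 + es q.1.2.1) q.1.2.2 - hP K i0 i1 (cv q.1.1) q.1.2.2) -
      (hP K i0 i1 (cv q.1.1 + es q.1.2.2) q.1.2.1 - hP K i0 i1 (cv q.1.1) q.1.2.1) := by
  have h0 : ∀ i, cv q.1.1 i < m := fun i => (q.1.1 i).2
  have hq := q.2
  have h1 : ∀ i, (cv q.1.1 + es q.1.2.1) i < m := fun i => by
    by_cases hi : i = q.1.2.1
    · subst hi; simp only [Pi.add_apply, es_same]; exact hq.2.1
    · simpa [es, hi] using h0 i
  have h2 : ∀ i, (cv q.1.1 + es q.1.2.2) i < m := fun i => by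
    by_cases hi : i = q.1.2.2
    · subst hi; simp only [Pi.add_apply, es_same]; exact hq.2.2
    · simpa [es, hi] using h0 i
  unfold ll inc
  simp only [mul_sub, mul_add, Finset.sum_sub_distrib, Finset.sum_add_distrib]
  rw [sum_ei' _ (hP K i0 i1) (hh_eq hK) _ h0, sum_ei' _ (hP K i0 i1) (hh_eq hK) _ h1,
    sum_ei' _ (hP K i0 i1) (hh_eq hK) _ h2, sum_ei' _ (hP K i0 i1) (hh_eq hK) _ h0]
  ring

include hK in
lemma sum_ll_le : ∑ q : Qi D m, ll K i0 i1 q ^ 2 ≤
    2 * ∑ v : Fin D → Fin m, ∑ μ, ∑ κ,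
      (hP K i0 i1 (cv v + es μ) κ - hP K i0 i1 (cv v) κ) ^ 2 := by
  classical
  set F : (Fin D → Fin m) × Fin D × Fin D → ℝ := fun q =>
    (hP K i0 i1 (cv q.1 + es q.2.1) q.2.2 - hP K i0 i1 (cv q.1) q.2.2) ^ 2 with hF
  have hF0 : ∀ q, 0 ≤ F q := fun q => sq_nonneg _
  set sw : (Fin D → Fin m) × Fin D × Fin D → (Fin D → Fin m) × Fin D × Fin D :=
    fun q => (q.1, q.2.2, q.2.1) with hsw
  have h1 : ∀ q : Qi D m, ll K i0 i1 q ^ 2 ≤ 2 * F q.1 + 2 * F (sw q.1) := by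
    intro q
    rw [ll_eq hK, hF, hsw]
    dsimp only
    set a := hP K i0 i1 (cv q.1.1 + es q.1.2.1) q.1.2.2 - hP K i0 i1 (cv q.1.1) q.1.2.2
    set b := hP K i0 i1 (cv q.1.1 + es q.1.2.2) q.1.2.1 - hP K i0 i1 (cv q.1.1) q.1.2.1
    nlinarith [sq_nonneg (a + b)]
  refine (Finset.sum_le_sum fun q _ => h1 q).trans ?_
  rw [Finset.sum_add_distrib, ← Finset.mul_sum, ← Finset.mul_sum, ← mul_add]
  refine mul_le_mul_of_nonneg_left ?_ (by norm_num)
  -- the two images are disjoint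
  set S1 : Finset ((Fin D → Fin m) × Fin D × Fin D) := Finset.univ.filter fun q => q.2.1 < q.2.2
  set S2 : Finset ((Fin D → Fin m) × Fin D × Fin D) := Finset.univ.filter fun q => q.2.2 < q.2.1
  have h2 : ∑ q : Qi D m, F q.1 ≤ ∑ q ∈ S1, F q := by
    have h3 := Finset.sum_map (Finset.univ : Finset (Qi D m)) (Function.Embedding.subtype _) F
    have h4 : ∑ q : Qi D m, F q.1 = ∑ q ∈ (Finset.univ : Finset (Qi D m)).map
      (Function.Embedding.subtype _), F q := h3.symm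
    rw [h4]
    refine Finset.sum_le_sum_of_subset_of_nonneg ?_ fun q _ _ => hF0 _
    intro q hq
    rw [Finset.mem_map] at hq
    obtain ⟨r, -, rfl⟩ := hq
    exact Finset.mem_filter.2 ⟨Finset.mem_univ _, r.2.1⟩
  have hswi : Function.Injective sw := by
    intro p q h
    rw [hsw] at h
    simp only [Prod.mk.injEq] at h
    exact Prod.ext h.1 (Prod.ext h.2.2 h.2.1)
  have h5 : ∑ q : Qi D m, F (sw q.1) ≤ ∑ q ∈ S2, F q := by
    have h3 := Finset.sum_map (Finset.univ : Finset (Qi D m))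
      ((Function.Embedding.subtype _).trans ⟨sw, hswi⟩) F
    have h4 : ∑ q : Qi D m, F (sw q.1) = ∑ q ∈ (Finset.univ : Finset (Qi D m)).map
      ((Function.Embedding.subtype _).trans ⟨sw, hswi⟩), F q := h3.symm
    rw [h4]
    refine Finset.sum_le_sum_of_subset_of_nonneg ?_ fun q _ _ => hF0 _
    intro q hq
    rw [Finset.mem_map] at hq
    obtain ⟨r, -, rfl⟩ := hq
    exact Finset.mem_filter.2 ⟨Finset.mem_univ _, r.2.1⟩
  have hd : Disjoint S1 S2 := by
    rw [Finset.disjoint_left]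
    intro q h6 h7
    exact absurd (Finset.mem_filter.1 h6).2 (not_lt.2 (Finset.mem_filter.1 h7).2.le)
  have h8 : ∑ q ∈ S1, F q + ∑ q ∈ S2, F q ≤ ∑ q, F q := by
    rw [← Finset.sum_union hd]
    exact Finset.sum_le_sum_of_subset_of_nonneg (Finset.subset_univ _) fun q _ _ => hF0 _
  have h9 : ∑ q, F q = ∑ v : Fin D → Fin m, ∑ μ, ∑ κ,
      (hP K i0 i1 (cv v + es μ) κ - hP K i0 i1 (cv v) κ) ^ 2 := by
    rw [Fintype.sum_prod_type]
    refine Finset.sum_congr rfl fun v _ => ?_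
    rw [Fintype.sum_prod_type]
  linarith

/-! ### products of tents -/

/-- the tent, as an integer -/
def tz (r : ℕ) (j : ℕ) : ℤ := max 0 (min ((j : ℤ) - 2) (4 * r + 2 - j))

/-- the tent -/
def tn (r : ℕ) (j : ℕ) : ℝ := (tz r j : ℝ)

/-- first difference -/
def t1 (r : ℕ) (j : ℕ) : ℝ := tn r j - tn r (j - 1)

lemma t1_sq_le (r j : ℕ) : t1 r j ^ 2 ≤ 1 := by
  have h : |tz r j - tz r (j - 1)| ≤ 1 := by
    unfold tz
    rw [abs_le]; omega
  have h2 : |t1 r j| ≤ 1 := by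
    unfold t1 tn
    exact_mod_cast h
  rwa [sq_le_one_iff_abs_le_one]

lemma t1_eq_one (r j : ℕ) (h : 3 ≤ j) (h' : j ≤ 2 * r + 2) : t1 r j = 1 := by
  have h1 : tz r j - tz r (j - 1) = 1 := by
    unfold tz
    omega
  unfold t1 tn
  exact_mod_cast h1

lemma t2_sq_le (r j : ℕ) : (t1 r (j + 1) - t1 r j) ^ 2 ≤
    if j ∈ ({2, 2 * r + 2, 4 * r + 2} : Finset ℕ) then 4 else 0 := by
  split_ifs with h
  · have h1 := t1_sq_le r (j + 1)
    have h2 := t1_sq_le r j
    nlinarith [sq_nonneg (t1 r (j + 1) + t1 r j)]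
  · have h1 : (tz r (j + 1) - tz r (j + 1 - 1)) - (tz r j - tz r (j - 1)) = 0 := by
      simp only [Finset.mem_insert, Finset.mem_singleton, not_or] at h
      unfold tz
      omega
    have h2 : t1 r (j + 1) - t1 r j = 0 := by
      unfold t1 tn
      exact_mod_cast h1
    rw [h2]; norm_num

lemma sum_t2_le (r : ℕ) : ∑ j : Fin (4 * r + 6), (t1 r (j + 1) - t1 r j) ^ 2 ≤ 12 := by
  rw [Fin.sum_univ_eq_sum_range (fun j => (t1 r (j + 1) - t1 r j) ^ 2)]
  refine (Finset.sum_le_sum fun j _ => t2_sq_le r j).trans ?_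
  rw [← Finset.sum_filter, Finset.sum_const, nsmul_eq_mul]
  have h1 : ((Finset.range (4 * r + 6)).filter
      fun j => j ∈ ({2, 2 * r + 2, 4 * r + 2} : Finset ℕ)).card ≤ 3 := by
    refine (Finset.card_le_card (t := {2, 2 * r + 2, 4 * r + 2}) ?_).trans Finset.card_le_three
    intro j hj
    exact (Finset.mem_filter.1 hj).2
  have h2 : (((Finset.range (4 * r + 6)).filter
      fun j => j ∈ ({2, 2 * r + 2, 4 * r + 2} : Finset ℕ)).card : ℝ) ≤ 3 := by exact_mod_cast h1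
  linarith

lemma sum_t1_ge (r : ℕ) : (2 * r : ℝ) ≤ ∑ j : Fin (4 * r + 6), t1 r j ^ 2 := by
  rw [Fin.sum_univ_eq_sum_range (fun j => t1 r j ^ 2)]
  have h1 : ∑ j ∈ Finset.Ico 3 (2 * r + 3), t1 r j ^ 2 ≤
      ∑ j ∈ Finset.range (4 * r + 6), t1 r j ^ 2 := by
    refine Finset.sum_le_sum_of_subset_of_nonneg ?_ fun _ _ _ => sq_nonneg _
    intro j hj
    rw [Finset.mem_Ico] at hj
    rw [Finset.mem_range]; omega
  refine le_trans (le_of_eq ?_) h1
  rw [Finset.sum_congr rfl (g := fun _ => (1 : ℝ))]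
  · simp
  · intro j hj
    rw [Finset.mem_Ico] at hj
    rw [t1_eq_one r j (by omega) (by omega)]; norm_num

lemma sum_t1_le (r : ℕ) : ∑ j : Fin (4 * r + 6), t1 r j ^ 2 ≤ 4 * r + 6 := by
  refine (Finset.sum_le_sum fun (j : Fin (4 * r + 6)) _ => t1_sq_le r (j : ℕ)).trans ?_
  simp

lemma sum_t1s_le (r : ℕ) : ∑ j : Fin (4 * r + 6), t1 r (j + 1) ^ 2 ≤ 4 * r + 6 := by
  refine (Finset.sum_le_sum fun (j : Fin (4 * r + 6)) _ => t1_sq_le r ((j : ℕ) + 1)).trans ?_
  simp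

lemma sum_tn_ge (r : ℕ) : (r : ℝ) ^ 3 ≤ ∑ j : Fin (4 * r + 6), tn r j ^ 2 := by
  rw [Fin.sum_univ_eq_sum_range (fun j => tn r j ^ 2)]
  have h1 : ∑ j ∈ Finset.Ico (r + 3) (2 * r + 3), tn r j ^ 2 ≤
      ∑ j ∈ Finset.range (4 * r + 6), tn r j ^ 2 := by
    refine Finset.sum_le_sum_of_subset_of_nonneg ?_ fun _ _ _ => sq_nonneg _
    intro j hj
    rw [Finset.mem_Ico] at hj
    rw [Finset.mem_range]; omega
  refine le_trans ?_ h1
  have h2 : ∀ j ∈ Finset.Ico (r + 3) (2 * r + 3), (r : ℝ) ^ 2 ≤ tn r j ^ 2 := by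
    intro j hj
    rw [Finset.mem_Ico] at hj
    have h3 : (r : ℤ) ≤ tz r j := by
      unfold tz
      omega
    have h4 : (r : ℝ) ≤ tn r j := by
      unfold tn
      exact_mod_cast h3
    exact pow_le_pow_left₀ (by positivity) h4 2
  refine le_trans (le_of_eq ?_) (Finset.card_nsmul_le_sum _ _ _ h2)
  rw [Nat.card_Ico, nsmul_eq_mul]
  have : 2 * r + 3 - (r + 3) = r := by omega
  rw [this]; ring

lemma tn_supp {r j : ℕ} (h : tn r j ≠ 0) : 2 ≤ j ∧ j + 3 ≤ 4 * r + 6 := by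
  have h1 : tz r j ≠ 0 := by
    intro h2
    apply h
    unfold tn
    rw [h2]; norm_num
  unfold tz at h1
  omega

end

end Pool.Agent.H906R3.YM
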