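import Mathlib
import Pool.Agent.H906R3.YM.Tent

/-!
# The product of tents
-/

namespace Pool.Agent.H906R3.YM

set_option linter.unusedSectionVars false

noncomputable section

variable {D m : ℕ}

/-- product function -/
def PPr (f : Fin D → ℕ → ℝ) (w : Pt D) : ℝ := ∏ i, f i (w i)

lemma PPr_split (f : Fin D → ℕ → ℝ) (μ : Fin D) (w : Pt D) :
    PPr f w = f μ (w μ) * ∏ i ∈ Finset.univ.erase μ, f i (w i) :=
  (Finset.mul_prod_erase Finset.univ (fun i => f i (w i)) (Finset.mem_univ μ)).symm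

lemma PPr_up (f : Fin D → ℕ → ℝ) (μ : Fin D) (h : ℕ → ℝ) (w : Pt D) :
    PPr (Function.update f μ h) w = h (w μ) * ∏ i ∈ Finset.univ.erase μ, f i (w i) := by
  rw [PPr_split _ μ, Function.update_self]
  congr 1
  refine Finset.prod_congr rfl fun i hi => ?_
  rw [Function.update_of_ne (Finset.ne_of_mem_erase hi)]

lemma PPr_succ (f : Fin D → ℕ → ℝ) (μ : Fin D) (w : Pt D) :
    PPr f (w + es μ) - PPr f w = PPr (Function.update f μ fun j => f μ (j + 1) - f μ j) w := by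
  rw [PPr_up, PPr_split f μ w, PPr_split f μ (w + es μ)]
  have h1 : ∏ i ∈ Finset.univ.erase μ, f i ((w + es μ) i) =
      ∏ i ∈ Finset.univ.erase μ, f i (w i) := by
    refine Finset.prod_congr rfl fun i hi => ?_
    rw [Pi.add_apply, es_ne (Finset.ne_of_mem_erase hi), add_zero]
  rw [h1, Pi.add_apply, es_same]
  ring

lemma PPr_pred (f : Fin D → ℕ → ℝ) (μ : Fin D) (w : Pt D) :
    PPr f w - PPr f (w - es μ) = PPr (Function.update f μ fun j => f μ j - f μ (j - 1)) w := by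
  rw [PPr_up, PPr_split f μ w, PPr_split f μ (w - es μ)]
  have h1 : ∏ i ∈ Finset.univ.erase μ, f i ((w - es μ) i) =
      ∏ i ∈ Finset.univ.erase μ, f i (w i) := by
    refine Finset.prod_congr rfl fun i hi => ?_
    rw [Pi.sub_apply, es_ne (Finset.ne_of_mem_erase hi), tsub_zero]
  rw [h1, Pi.sub_apply, es_same]
  ring

/-- sum of squares -/
def sq' (m : ℕ) (f : ℕ → ℝ) : ℝ := ∑ j : Fin m, f j ^ 2

lemma sq'_nonneg (f : ℕ → ℝ) : 0 ≤ sq' m f := Finset.sum_nonneg fun _ _ => sq_nonneg _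

lemma sum_PPr (f : Fin D → ℕ → ℝ) (m : ℕ) :
    ∑ v : Fin D → Fin m, PPr f (cv v) ^ 2 = ∏ i, sq' m (f i) := by
  unfold sq'
  rw [Finset.prod_univ_sum, Fintype.piFinset_univ]
  refine Finset.sum_congr rfl fun v _ => ?_
  unfold PPr cv
  rw [Finset.prod_pow]

lemma sum_PPr_up (f : Fin D → ℕ → ℝ) (μ : Fin D) (h : ℕ → ℝ) (m : ℕ) :
    ∑ v : Fin D → Fin m, PPr (Function.update f μ h) (cv v) ^ 2 =
      sq' m h * ∏ i ∈ Finset.univ.erase μ, sq' m (f i) := by
  rw [sum_PPr, ← Finset.mul_prod_erase Finset.univ _ (Finset.mem_univ μ), Function.update_self]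
  congr 1
  refine Finset.prod_congr rfl fun i hi => ?_
  rw [Function.update_of_ne (Finset.ne_of_mem_erase hi)]

/-- product of tents -/
def KK (D r : ℕ) (w : Pt D) : ℝ := PPr (fun _ => tn r) w

lemma KK_supp {r : ℕ} (x : Pt D) (h : KK D r x ≠ 0) : ∀ i, 2 ≤ x i ∧ x i + 3 ≤ 4 * r + 6 := by
  intro i
  apply tn_supp (r := r)
  intro hi
  apply h
  unfold KK PPr
  exact Finset.prod_eq_zero (Finset.mem_univ i) hi

/-- profile of the difference in direction `a` -/
def bf (D r : ℕ) (a : Fin D) : Fin D → ℕ → ℝ := Function.update (fun _ => tn r) a (t1 r)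

lemma KK_pred {r : ℕ} (a : Fin D) (w : Pt D) : KK D r w - KK D r (w - es a) = PPr (bf D r a) w := by
  unfold KK bf
  rw [PPr_pred]
  rfl

lemma hP_KK {r : ℕ} {i0 i1 : Fin D} (h01 : i0 < i1) (w : Pt D) (κ : Fin D) :
    hP (KK D r) i0 i1 w κ =
      (if i0 = κ then PPr (bf D r i1) w else 0) + (if i1 = κ then -PPr (bf D r i0) w else 0) := by
  unfold hP
  rw [KK_pred, ← neg_sub, KK_pred]

lemma sum_hh {r : ℕ} {i0 i1 : Fin D} (h01 : i0 < i1) :
    ∑ s : Sb D (4 * r + 6), hh (KK D r) i0 i1 s ^ 2 =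
      2 * (sq' (4 * r + 6) (t1 r) * sq' (4 * r + 6) (tn r) ^ (D - 1)) := by
  have h1 : ∀ s : Sb D (4 * r + 6), hh (KK D r) i0 i1 s ^ 2 =
      (if i0 = s.2 then PPr (bf D r i1) (cv s.1) ^ 2 else 0) +
        (if i1 = s.2 then PPr (bf D r i0) (cv s.1) ^ 2 else 0) := by
    intro s
    rw [hh_eq KK_supp, hP_KK h01]
    have hne : i0 ≠ i1 := h01.ne
    by_cases h : i0 = s.2
    · have h' : i1 ≠ s.2 := fun h' => hne (h.trans h'.symm)
      simp [h, h']
    · by_cases h' : i1 = s.2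
      · simp [h, h']
      · simp [h, h']
  rw [Finset.sum_congr rfl fun s _ => h1 s, Finset.sum_add_distrib, Fintype.sum_prod_type,
    Fintype.sum_prod_type]
  simp only [Finset.sum_ite_eq, Finset.mem_univ, if_true]
  unfold bf
  rw [sum_PPr_up, sum_PPr_up, Finset.prod_const, Finset.prod_const,
    Finset.card_erase_of_mem (Finset.mem_univ _), Finset.card_erase_of_mem (Finset.mem_univ _),
    Finset.card_univ, Fintype.card_fin]
  ring

lemma diff_bound {r : ℕ} (hr : 1 ≤ r) {τ : ℝ} (hτ : 24 * (D : ℝ) ≤ τ ^ 2 * r) (μ a : Fin D) :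
    2 * (D : ℝ) * ∑ v : Fin D → Fin (4 * r + 6),
      (PPr (bf D r a) (cv v + es μ) - PPr (bf D r a) (cv v)) ^ 2 ≤
      τ ^ 2 * (sq' (4 * r + 6) (t1 r) * sq' (4 * r + 6) (tn r) ^ (D - 1)) := by
  have hr' : (1 : ℝ) ≤ r := by exact_mod_cast hr
  have hA : (r : ℝ) ^ 3 ≤ sq' (4 * r + 6) (tn r) := sum_tn_ge r
  have hB : (2 * r : ℝ) ≤ sq' (4 * r + 6) (t1 r) := sum_t1_ge r
  have hB' : sq' (4 * r + 6) (fun j => t1 r (j + 1)) ≤ 4 * r + 6 := sum_t1s_le r
  have hC : sq' (4 * r + 6) (fun j => t1 r (j + 1) - t1 r j) ≤ 12 := sum_t2_le r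
  have hA0 : 0 < sq' (4 * r + 6) (tn r) := lt_of_lt_of_le (by positivity) hA
  have hB0 : 0 < sq' (4 * r + 6) (t1 r) := lt_of_lt_of_le (by positivity) hB
  have hD0 : (0 : ℝ) ≤ D := Nat.cast_nonneg _
  have h1 : ∀ v : Fin D → Fin (4 * r + 6),
      (PPr (bf D r a) (cv v + es μ) - PPr (bf D r a) (cv v)) ^ 2 =
      PPr (Function.update (bf D r a) μ fun j => bf D r a μ (j + 1) - bf D r a μ j) (cv v) ^ 2 :=
    fun v => by rw [PPr_succ]
  rw [Finset.sum_congr rfl fun v _ => h1 v, sum_PPr_up]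
  set A := sq' (4 * r + 6) (tn r) with hAdef
  set B := sq' (4 * r + 6) (t1 r) with hBdef
  by_cases h : μ = a
  · subst h
    have h2 : bf D r μ μ = t1 r := by unfold bf; rw [Function.update_self]
    have h3 : ∏ i ∈ Finset.univ.erase μ, sq' (4 * r + 6) (bf D r μ i) = A ^ (D - 1) := by
      rw [Finset.prod_congr rfl (g := fun _ => A), Finset.prod_const,
        Finset.card_erase_of_mem (Finset.mem_univ _), Finset.card_univ, Fintype.card_fin]
      intro i hi
      unfold bf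
      rw [Function.update_of_ne (Finset.ne_of_mem_erase hi)]
    rw [h2, h3]
    have hT : 0 ≤ A ^ (D - 1) := by positivity
    have h4 : 2 * (D : ℝ) * sq' (4 * r + 6) (fun j => t1 r (j + 1) - t1 r j) ≤ τ ^ 2 * B := by
      have h5 : 2 * (D : ℝ) * sq' (4 * r + 6) (fun j => t1 r (j + 1) - t1 r j) ≤
          2 * (D : ℝ) * 12 := mul_le_mul_of_nonneg_left hC (by positivity)
      have h6 : τ ^ 2 * (2 * r) ≤ τ ^ 2 * B := mul_le_mul_of_nonneg_left hB (by positivity)
      have h7 : 0 ≤ τ ^ 2 * r := by positivity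
      linarith
    calc 2 * (D : ℝ) * (sq' (4 * r + 6) (fun j => t1 r (j + 1) - t1 r j) * A ^ (D - 1))
        = (2 * (D : ℝ) * sq' (4 * r + 6) (fun j => t1 r (j + 1) - t1 r j)) * A ^ (D - 1) := by ring
      _ ≤ (τ ^ 2 * B) * A ^ (D - 1) := mul_le_mul_of_nonneg_right h4 hT
      _ = _ := by ring
  · have h2 : bf D r a μ = tn r := by unfold bf; rw [Function.update_of_ne h]
    have h2' : (fun j => bf D r a μ (j + 1) - bf D r a μ j) = fun j => t1 r (j + 1) := by
      rw [h2]; rfl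
    have ha : a ∈ Finset.univ.erase μ := Finset.mem_erase.2 ⟨fun h' => h h'.symm, Finset.mem_univ _⟩
    have h3 : ∏ i ∈ Finset.univ.erase μ, sq' (4 * r + 6) (bf D r a i) = B * A ^ (D - 1 - 1) := by
      rw [← Finset.mul_prod_erase _ _ ha]
      congr 1
      · unfold bf; rw [Function.update_self]
      · rw [Finset.prod_congr rfl (g := fun _ => A), Finset.prod_const,
          Finset.card_erase_of_mem ha, Finset.card_erase_of_mem (Finset.mem_univ _),
          Finset.card_univ, Fintype.card_fin]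
        intro i hi
        unfold bf
        rw [Function.update_of_ne (Finset.ne_of_mem_erase hi)]
    have hD : D - 1 = (D - 1 - 1) + 1 := by
      have h4 : 1 ≤ (Finset.univ.erase μ).card := Finset.card_pos.2 ⟨a, ha⟩
      rw [Finset.card_erase_of_mem (Finset.mem_univ _), Finset.card_univ, Fintype.card_fin] at h4
      omega
    rw [h2', h3]
    set T := A ^ (D - 1 - 1) with hT
    have hTA : A ^ (D - 1) = T * A := by
      rw [hD, pow_succ]
    rw [hTA]
    have hT0 : 0 ≤ T := by positivity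
    have h4 : 2 * (D : ℝ) * sq' (4 * r + 6) (fun j => t1 r (j + 1)) ≤ τ ^ 2 * A := by
      have h5 : 2 * (D : ℝ) * sq' (4 * r + 6) (fun j => t1 r (j + 1)) ≤
          2 * (D : ℝ) * (4 * r + 6) := mul_le_mul_of_nonneg_left hB' (by positivity)
      have h6 : τ ^ 2 * (r : ℝ) ^ 3 ≤ τ ^ 2 * A := mul_le_mul_of_nonneg_left hA (by positivity)
      have h7 : 2 * (D : ℝ) * (4 * r + 6) ≤ 24 * D * r := by nlinarith
      have h8 : 24 * (D : ℝ) * r ≤ τ ^ 2 * r * r := mul_le_mul_of_nonneg_right hτ (by positivity)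
      have h9 : τ ^ 2 * r * r ≤ τ ^ 2 * (r : ℝ) ^ 3 := by
        have : τ ^ 2 * (r : ℝ) ^ 3 = τ ^ 2 * r * r * r := by ring
        rw [this]
        exact le_mul_of_one_le_right (by positivity) hr'
      linarith
    calc 2 * (D : ℝ) * (sq' (4 * r + 6) (fun j => t1 r (j + 1)) * (B * T))
        = (2 * (D : ℝ) * sq' (4 * r + 6) (fun j => t1 r (j + 1))) * (B * T) := by ring
      _ ≤ (τ ^ 2 * A) * (B * T) := mul_le_mul_of_nonneg_right h4 (by positivity)
      _ = _ := by ring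

/-- existence of a spread out field -/
theorem tents {i0 i1 : Fin D} (h01 : i0 < i1) {τ : ℝ} (hτ : 0 < τ) :
    ∃ (m : ℕ) (K : Pt D → ℝ), (∀ x : Pt D, K x ≠ 0 → ∀ i, 2 ≤ x i ∧ x i + 3 ≤ m) ∧
      0 < ∑ s : Sb D m, hh K i0 i1 s ^ 2 ∧
      ∑ q : Qi D m, ll K i0 i1 q ^ 2 ≤ τ ^ 2 * ∑ s : Sb D m, hh K i0 i1 s ^ 2 := by
  obtain ⟨r0, hr0⟩ := exists_nat_gt (24 * (D : ℝ) / τ ^ 2)
  set r := r0 + 1 with hr
  have hr1 : 1 ≤ r := by omega
  have hτr : 24 * (D : ℝ) ≤ τ ^ 2 * r := by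
    rw [div_lt_iff₀ (by positivity)] at hr0
    have : (r0 : ℝ) ≤ r := by rw [hr]; push_cast; linarith
    nlinarith [sq_nonneg τ]
  have hDpos : 0 < (D : ℝ) := by
    have : 0 < D := i0.pos
    exact_mod_cast this
  refine ⟨4 * r + 6, KK D r, KK_supp, ?_, ?_⟩
  · rw [sum_hh h01]
    have hA : (r : ℝ) ^ 3 ≤ sq' (4 * r + 6) (tn r) := sum_tn_ge r
    have hB : (2 * r : ℝ) ≤ sq' (4 * r + 6) (t1 r) := sum_t1_ge r
    have hr' : (0 : ℝ) < r := by exact_mod_cast hr1
    have hA0 : 0 < sq' (4 * r + 6) (tn r) := lt_of_lt_of_le (by positivity) hA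
    have hB0 : 0 < sq' (4 * r + 6) (t1 r) := lt_of_lt_of_le (by positivity) hB
    positivity
  · refine (sum_ll_le KK_supp).trans ?_
    rw [sum_hh h01]
    set T := sq' (4 * r + 6) (t1 r) * sq' (4 * r + 6) (tn r) ^ (D - 1) with hT
    have h1 : ∀ (v : Fin D → Fin (4 * r + 6)) (μ : Fin D), ∑ κ,
        (hP (KK D r) i0 i1 (cv v + es μ) κ - hP (KK D r) i0 i1 (cv v) κ) ^ 2 =
        (PPr (bf D r i1) (cv v + es μ) - PPr (bf D r i1) (cv v)) ^ 2 +
        (PPr (bf D r i0) (cv v + es μ) - PPr (bf D r i0) (cv v)) ^ 2 := by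
      intro v μ
      have h2 : ∀ κ, (hP (KK D r) i0 i1 (cv v + es μ) κ - hP (KK D r) i0 i1 (cv v) κ) ^ 2 =
          (if i0 = κ then (PPr (bf D r i1) (cv v + es μ) - PPr (bf D r i1) (cv v)) ^ 2 else 0) +
          (if i1 = κ then (PPr (bf D r i0) (cv v + es μ) - PPr (bf D r i0) (cv v)) ^ 2 else 0) := by
        intro κ
        rw [hP_KK h01, hP_KK h01]
        have hne : i0 ≠ i1 := h01.ne
        by_cases h : i0 = κ
        · have h' : i1 ≠ κ := fun h' => hne (h.trans h'.symm)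
          rw [if_pos h, if_pos h, if_neg h', if_neg h', if_pos h, if_neg h']
          ring
        · by_cases h' : i1 = κ
          · rw [if_neg h, if_neg h, if_pos h', if_pos h', if_neg h, if_pos h']
            ring
          · rw [if_neg h, if_neg h, if_neg h', if_neg h', if_neg h, if_neg h']
            ring
      rw [Finset.sum_congr rfl fun κ _ => h2 κ, Finset.sum_add_distrib]
      simp only [Finset.sum_ite_eq, Finset.mem_univ, if_true]
    simp only [h1]
    rw [Finset.sum_comm]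
    have h3 : ∀ μ : Fin D, 2 * (D : ℝ) * ∑ v : Fin D → Fin (4 * r + 6),
        ((PPr (bf D r i1) (cv v + es μ) - PPr (bf D r i1) (cv v)) ^ 2 +
        (PPr (bf D r i0) (cv v + es μ) - PPr (bf D r i0) (cv v)) ^ 2) ≤ 2 * (τ ^ 2 * T) := by
      intro μ
      rw [Finset.sum_add_distrib, mul_add]
      have h4 := diff_bound hr1 hτr μ i1
      have h5 := diff_bound hr1 hτr μ i0
      linarith
    have h6 := Finset.sum_le_sum fun μ (_ : μ ∈ Finset.univ) => h3 μ
    rw [← Finset.mul_sum, Finset.sum_const, Finset.card_univ, Fintype.card_fin, nsmul_eq_mul] at h6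
    set Z := ∑ μ : Fin D, ∑ v : Fin D → Fin (4 * r + 6),
        ((PPr (bf D r i1) (cv v + es μ) - PPr (bf D r i1) (cv v)) ^ 2 +
        (PPr (bf D r i0) (cv v + es μ) - PPr (bf D r i0) (cv v)) ^ 2) with hZ
    have h7 : (D : ℝ) * (2 * Z) ≤ (D : ℝ) * (τ ^ 2 * (2 * T)) := by linarith
    exact le_of_mul_le_mul_left h7 hDpos

end

end Pool.Agent.H906R3.YM
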