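import Mathlib
import Pool.Agent.H906R3.YM.LocMain
import Pool.Agent.H906R3.YM.Energy
import Pool.Agent.H906R3.YM.Tents
import Pool.Agent.H906R3.YM.Gauge

/-!
# The main theorem for abstract data
-/

open MeasureTheory Matrix
open scoped Matrix.Norms.Frobenius ContDiff

namespace Pool.Agent.H906R3.YM

set_option linter.unusedSectionVars false

noncomputable section

variable {G : Type*} [Group G] [TopologicalSpace G] {N n : ℕ} {L : LD G N n}
  [IsTopologicalGroup G] [CompactSpace G] [SecondCountableTopology G]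
  [MeasurableSpace G] [BorelSpace G] (μ : Measure G) [IsProbabilityMeasure μ]
  [μ.IsMulLeftInvariant] [μ.IsOpenPosMeasure]
variable {E : Type*} [Fintype E] [DecidableEq E]

/-- a state of minimal energy is an eigenfunction -/
lemma eigen {g E0 : ℝ} {V w : Sm L E} (hpos : ∀ u : Sm L E, 0 ≤ (fnE L μ E).enr g V E0 u u)
    (h0 : (fnE L μ E).enr g V E0 w w = 0) : HH (L.Dv (E := E)) g V w = E0 • w := by
  have key : ∀ u : Sm L E, (fnE L μ E).enr g V E0 u w = 0 := by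
    intro u
    have h1 := (fnE L μ E).enr_cs g V E0 hpos u w
    rw [h0, mul_zero] at h1
    exact pow_eq_zero_iff two_ne_zero |>.1 (le_antisymm h1 (sq_nonneg _))
  have h2 := key (HH (L.Dv (E := E)) g V w - E0 • w)
  unfold Fn.enr at h2
  exact sub_eq_zero.1 (eq_zero_of_I μ h2)

variable {D : ℕ}

/-- the choice of a good block -/
lemma good_block {l : ℕ} [NeZero l] (m : ℕ) {g E0 e : ℝ} (hg : 0 < g) {w : Sm L (Ed D l)}
    (hnorm : L.I μ (w * w) = 1)
    (h0 : (fnE L μ (Ed D l)).enr g (VT L D l) E0 w w = 0) (hE : E0 ≤ l ^ D * e) :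
    ∃ x0 : Fin D → ZMod l,
      g ^ 2 / 2 * (∑ s : Sb D m, ∑ a, L.I μ (L.Dv (iot l x0 s, a) w * L.Dv (iot l x0 s, a) w)) +
        1 / g ^ 2 * L.I μ (pull (iot (m := m) l x0) (VS L D m) * (w * w)) ≤ m ^ D * e := by
  set f : Ed D l → ℝ := fun e => ∑ a, L.I μ (L.Dv (e, a) w * L.Dv (e, a) w) with hf
  set pw : Pl D l → Sm L (Ed D l) := fun p =>
    lin (ip 1) _ (SmM_plqT (L := L) p.1.1 p.1.2.1 p.1.2.2) with hpw
  set h : Pl D l → ℝ := fun p => L.I μ (pw p * (w * w)) with hh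
  have hpwU : ∀ p U, L.ev U (pw p) = we L (plqT U p.1.1 p.1.2.1 p.1.2.2) := by
    intro p U
    show ip 1 _ = _
    rw [ip_apply, conjTranspose_one, one_mul]
    rfl
  have hh0 : ∀ p, 0 ≤ h p := fun p => I_nonneg μ fun U => by
    rw [map_mul, hpwU, map_mul]
    exact mul_nonneg (we_nonneg _) (mul_self_nonneg _)
  have e1 : L.I μ (Gam L.Dv w w) = ∑ e, f e := by
    unfold Gam
    rw [map_sum, Fintype.sum_prod_type]
  have e2 : L.I μ (VT L D l * (w * w)) = ∑ p, h p := by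
    unfold VT
    rw [Finset.sum_mul, map_sum]
  have e3 : E0 = g ^ 2 / 2 * ∑ e, f e + 1 / g ^ 2 * ∑ p, h p := by
    have h1 := (fnE L μ (Ed D l)).enr_eq g (VT L D l) E0 w w
    have h2 : (fnE L μ (Ed D l)).enr g (VT L D l) E0 w w =
      g ^ 2 / 2 * L.I μ (Gam L.Dv w w) + 1 / g ^ 2 * L.I μ (VT L D l * (w * w))
      - E0 * L.I μ (w * w) := h1
    rw [h0, hnorm, e1, e2] at h2
    linarith
  have e4 : ∀ x0 : Fin D → ZMod l, L.I μ (pull (iot (m := m) l x0) (VS L D m) * (w * w)) =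
      ∑ q : Qi D m, h (qmap l x0 q) := by
    intro x0
    rw [hh]
    dsimp only
    rw [← map_sum, ← Finset.sum_mul]
    congr 2
    refine ev_ext fun U => ?_
    rw [VS_iot, map_sum]
    exact Finset.sum_congr rfl fun q _ => (hpwU _ _).symm
  by_contra hc
  push Not at hc
  have h1 : ∑ _x0 : Fin D → ZMod l, (m : ℝ) ^ D * e < ∑ x0 : Fin D → ZMod l,
      (g ^ 2 / 2 * (∑ s : Sb D m, f (iot l x0 s)) + 1 / g ^ 2 * ∑ q : Qi D m, h (qmap l x0 q)) := by
    refine Finset.sum_lt_sum_of_nonempty ⟨0, Finset.mem_univ _⟩ fun x0 _ => ?_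
    have := hc x0
    rw [e4] at this
    exact this
  rw [Finset.sum_const, Finset.card_univ, Fintype.card_fun, Fintype.card_fin, ZMod.card,
    nsmul_eq_mul, Finset.sum_add_distrib, ← Finset.mul_sum, ← Finset.mul_sum] at h1
  have h2 := sum_iot_kin (m := m) f
  have h3 := sum_qmap (m := m) h hh0
  rw [h2] at h1
  have h4 : 1 / g ^ 2 * ∑ x0 : Fin D → ZMod l, ∑ q : Qi D m, h (qmap l x0 q) ≤
      1 / g ^ 2 * (m ^ D * ∑ p, h p) := mul_le_mul_of_nonneg_left h3 (by positivity)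
  have h5 : g ^ 2 / 2 * ((m : ℝ) ^ D * ∑ e, f e) + 1 / g ^ 2 * (m ^ D * ∑ p, h p) =
      m ^ D * E0 := by rw [e3]; ring
  have h6 : (m : ℝ) ^ D * E0 ≤ m ^ D * (l ^ D * e) :=
    mul_le_mul_of_nonneg_left hE (by positivity)
  push_cast at h1
  have h7 : (m : ℝ) ^ D * (l ^ D * e) = l ^ D * (m ^ D * e) := by ring
  linarith

set_option maxHeartbeats 4000000 in
/-- The main theorem in abstract form. -/
theorem main_abs (hn : 0 < n) {i0 i1 : Fin D} (h01 : i0 < i1) (ε : ℝ) (hε : 0 < ε) :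
    ∃ g0 : ℝ, 0 < g0 ∧ ∃ L0 : ℕ, ∀ g : ℝ, 0 < g → g < g0 → ∀ (l : ℕ) [NeZero l], L0 ≤ l →
      ∀ (w : Sm L (Ed D l)) (E0 : ℝ), L.I μ (w * w) = 1 →
        (∀ u : Sm L (Ed D l), 0 ≤ (fnE L μ (Ed D l)).enr g (VT L D l) E0 u u) →
        (fnE L μ (Ed D l)).enr g (VT L D l) E0 w w = 0 →
        ∃ r : Sm L (Ed D l), (∀ γ U, r.1 (gt γ U) = r.1 U) ∧
          (∃ x0 : Fin D → ZMod l, ∀ U U' : Ed D l → G,
            (∀ s : Sb D L0, U (iot l x0 s) = U' (iot l x0 s)) → r.1 U = r.1 U') ∧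
          L.I μ (r * w * w) = 0 ∧
          0 < L.I μ (r * w * (r * w)) ∧
          (fnE L μ (Ed D l)).enr g (VT L D l) E0 (r * w) (r * w) ≤
            ε * L.I μ (r * w * (r * w)) := by
  have hn' : (0 : ℝ) < n := by exact_mod_cast hn
  set τ : ℝ := ε / (16 * (2 + 4 * n ^ 2) * n) with hτdef
  have hτ : 0 < τ := by positivity
  have hτε : 16 * (2 + 4 * (n : ℝ) ^ 2) * n * τ = ε := by
    rw [hτdef]; field_simp
  obtain ⟨m, K, hK, hah0, hll⟩ := tents h01 hτ
  set ah := ∑ s : Sb D m, hh K i0 i1 s ^ 2 with hah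
  obtain ⟨C, hC0, hC⟩ := soft_consts (L := L) h01 hK hah hah0 hn hτ hll
  set cD := CD L D m K i0 i1 with hcD
  have hcD0 : 0 ≤ cD := Finset.sum_nonneg fun _ _ => abs_nonneg _
  obtain ⟨B, hB0, hB⟩ := ip_bound L
  set δ := min (min (τ ^ 2 * ah / 8) (ah / 32)) (n ^ 2 * ah ^ 2 / 2) with hδ
  have hδ0 : 0 < δ := by
    rw [hδ]
    exact lt_min (lt_min (by positivity) (by positivity)) (by positivity)
  set M := C + 2 * cD + 1 with hM
  have hM0 : 0 < M := by positivity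
  set η := min δ (τ ^ 2 * ah / 8) / M with hη
  have hη0 : 0 < η := div_pos (lt_min hδ0 (by positivity)) hM0
  have hηδ : M * η ≤ δ := by
    rw [hη, mul_div_cancel₀ _ hM0.ne']; exact min_le_left _ _
  have hηδ' : M * η ≤ τ ^ 2 * ah / 8 := by
    rw [hη, mul_div_cancel₀ _ hM0.ne']; exact min_le_right _ _
  set ε' := η / (2 * (16 * D ^ 2 * m ^ D + 1)) with hε'
  have hε'0 : 0 < ε' := by positivity
  have hε'η : 16 * (D : ℝ) ^ 2 * m ^ D * ε' ≤ η / 2 := by
    rw [hε', ← mul_div_assoc, div_le_iff₀ (by positivity)]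
    have h1 : 0 ≤ (16 * (D : ℝ) ^ 2 * m ^ D) := by positivity
    nlinarith
  obtain ⟨κ, hκ0, hκ⟩ := one_link (L := L) μ ε' hε'0
  set P := (m : ℝ) ^ D * (D * n * (κ ^ 2 * B)) with hP
  have hP0 : 0 ≤ P := by positivity
  refine ⟨min 1 (η / (P + 1)), lt_min one_pos (by positivity), m, ?_⟩
  intro g hg hg0 l _ hml w E0 hnorm hpos h0
  have hg1 : g ≤ 1 := (hg0.trans_le (min_le_left _ _)).le
  have hgη : g * (P + 1) ≤ η := by
    have := (hg0.trans_le (min_le_right _ _)).le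
    rwa [le_div_iff₀ (by positivity)] at this
  have hg4 : g ^ 4 ≤ g := by
    have h1 : g ^ 4 = g * g ^ 3 := by ring
    rw [h1]
    have h2 : g ^ 3 ≤ 1 := pow_le_one₀ hg.le hg1
    nlinarith
  have hg4P : g ^ 4 * (P + 1) ≤ η := (mul_le_mul_of_nonneg_right hg4 (by positivity)).trans hgη
  have hg40 : 0 < g ^ 4 := by positivity
  have hg20 : 0 < g ^ 2 := by positivity
  have hg4η : g ^ 4 ≤ η := by nlinarith [mul_nonneg hg40.le hP0]
  have hg4Pη : g ^ 4 * P ≤ η := by nlinarith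
  have hw := eigen μ hpos h0
  have hE0 : E0 ≤ l ^ D * (g ^ 2 / 2 * (D * n * (κ ^ 2 * B)) + 1 / g ^ 2 * (D ^ 2 * (16 * ε'))) := by
    refine E0_bound μ hε'0.le hB hκ hg fun u => ?_
    have h1 := hpos u
    have h2 := (fnE L μ (Ed D l)).enr_eq g (VT L D l) E0 u u
    rw [h2] at h1
    have h3 : 0 ≤ g ^ 2 / 2 * L.I μ (Gam L.Dv u u) + 1 / g ^ 2 * L.I μ (VT L D l * (u * u))
      - E0 * L.I μ (u * u) := h1
    linarith
  obtain ⟨x0, hx0⟩ := good_block μ m hg hnorm h0 hE0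
  set kin := ∑ s : Sb D m, ∑ a, L.I μ (L.Dv (iot l x0 s, a) w * L.Dv (iot l x0 s, a) w) with hkin
  set om := L.I μ (pull (iot (m := m) l x0) (VS L D m) * (w * w)) with hom
  have hkin0 : 0 ≤ kin := Finset.sum_nonneg fun _ _ => Finset.sum_nonneg fun _ _ =>
    I_sq_nonneg μ _
  have hom0 : 0 ≤ om := I_nonneg μ fun U => by
    rw [map_mul, VS_iot, map_mul]
    exact mul_nonneg (Finset.sum_nonneg fun _ _ => we_nonneg _) (mul_self_nonneg _)
  have hZ : g ^ 4 / 2 * kin + om ≤ η := by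
    have h1 := mul_le_mul_of_nonneg_left hx0 hg20.le
    have h2 : g ^ 2 * (g ^ 2 / 2 * kin + 1 / g ^ 2 * om) = g ^ 4 / 2 * kin + om := by
      field_simp
    have h3 : g ^ 2 * ((m : ℝ) ^ D * (g ^ 2 / 2 * (D * n * (κ ^ 2 * B)) +
        1 / g ^ 2 * (D ^ 2 * (16 * ε')))) = g ^ 4 * P / 2 + 16 * (D : ℝ) ^ 2 * m ^ D * ε' := by
      rw [hP]; field_simp
    rw [h2, h3] at h1
    linarith
  have homη : om ≤ η := by
    have : 0 ≤ g ^ 4 / 2 * kin := by positivity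
    linarith
  have hkη : g ^ 4 * kin ≤ 2 * η := by linarith
  have hCom : C * om ≤ δ := by
    have h1 : C * om ≤ M * η :=
      mul_le_mul (by rw [hM]; linarith) homη hom0 hM0.le
    exact h1.trans hηδ
  have hloc : cD * (g ^ 4 * (blkE (L := L) μ (iot (m := m) l x0) (iot_inj hml x0)).loc w) ≤
      τ ^ 2 * ah / 4 := by
    have h1 : (blkE (L := L) μ (iot (m := m) l x0) (iot_inj hml x0)).loc w = kin + 1 := by
      unfold Blk.loc
      have h2 : (fnE L μ (Ed D l)).I (w * w) = 1 := hnorm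
      rw [h2, Fintype.sum_prod_type]
      rfl
    rw [h1]
    have h2 : g ^ 4 * (kin + 1) ≤ 3 * η := by nlinarith
    have h3 : cD * (g ^ 4 * (kin + 1)) ≤ cD * (3 * η) := mul_le_mul_of_nonneg_left h2 hcD0
    have h4 : cD * (3 * η) ≤ 2 * (M * η) := by
      rw [hM]
      nlinarith [mul_nonneg hC0 hη0.le, mul_nonneg hcD0 hη0.le]
    linarith
  have hs : 0 < ah / (2 * Real.sqrt (n * τ * ah / g ^ 2)) := by
    have : 0 < Real.sqrt (n * τ * ah / g ^ 2) := Real.sqrt_pos.2 (by positivity)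
    positivity
  set r0 := rad (fun b => pull (iot (m := m) l x0) (Phi L m K i0 i1 b)) _ hs with hr0
  have hfin := local_main μ hK hn hah0 hτ hC (iot l x0) (iot_inj hml x0)
    (fun k hk => Dv_VT hml x0 k hk) hg hw hpos hnorm
    (hCom.trans ((min_le_left _ _).trans (min_le_left _ _)))
    (hCom.trans ((min_le_left _ _).trans (min_le_right _ _)))
    (hCom.trans (min_le_right _ _)) hloc hs (L.I μ (r0 * (w * w)))
  rw [← hr0, hτε] at hfin
  refine ⟨r0 - (L.I μ (r0 * (w * w))) • 1, ?_, ⟨x0, ?_⟩, ?_, hfin.1, hfin.2⟩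
  · intro γ U
    have h1 := rad_gauge (L := L) (i0 := i0) (i1 := i1) hK γ U x0 _ hs
    have h2 : ∀ W, (r0 - (L.I μ (r0 * (w * w))) • (1 : Sm L (Ed D l))).1 W =
        r0.1 W - (L.I μ (r0 * (w * w))) * 1 := fun W => rfl
    rw [h2, h2]
    exact congrArg (fun z => z - (L.I μ (r0 * (w * w))) * 1) h1
  · intro U U' hUU
    have h1 : U ∘ iot (m := m) l x0 = U' ∘ iot l x0 := funext hUU
    have h2 : ∀ W, (r0 - (L.I μ (r0 * (w * w))) • (1 : Sm L (Ed D l))).1 W =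
        r0.1 W - (L.I μ (r0 * (w * w))) * 1 := fun W => rfl
    have h3 : ∀ W : Ed D l → G, r0.1 W =
        Real.sqrt ((ah / (2 * Real.sqrt (n * τ * ah / g ^ 2))) ^ 2 +
          ∑ a, (Phi L m K i0 i1 a).1 (W ∘ iot l x0) * (Phi L m K i0 i1 a).1 (W ∘ iot l x0)) :=
      fun W => rfl
    rw [h2, h2, h3, h3, h1]
  · have h1 : (r0 - (L.I μ (r0 * (w * w))) • (1 : Sm L (Ed D l))) * w * w =
        r0 * (w * w) - (L.I μ (r0 * (w * w))) • (w * w) := by
      rw [mul_assoc, sub_mul, smul_mul_assoc, one_mul]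
    rw [h1, map_sub, map_smul, hnorm, smul_eq_mul, mul_one, sub_self]

end

end Pool.Agent.H906R3.YM
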