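import Mathlib
import Pool.Agent.H906R3.YM.Local2
import Pool.Agent.H906R3.YM.E0inv
import Pool.Agent.H906R3.YM.Approx
import Pool.Agent.H906R3.YM.Main

/-!
# The last part of the argument
-/

open MeasureTheory Matrix
open scoped Matrix.Norms.Frobenius ContDiff

namespace Pool.Agent.H906R3.YM

set_option linter.unusedSectionVars false

noncomputable section

variable {G : Type*} [Group G] [TopologicalSpace G] {N n : ℕ} {L : LD G N n}
  [IsTopologicalGroup G] [CompactSpace G] [SecondCountableTopology G]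
  [MeasurableSpace G] [BorelSpace G] (μ : Measure G) [IsProbabilityMeasure μ]
  [μ.IsMulLeftInvariant] [μ.IsOpenPosMeasure]


/-- Arithmetic: the lower bound of the norm. -/
lemma n2m_arith {A X N2 : ℝ} (hX : 0 < X) (h : A / 64 ≤ 4 * N2 * X) : A / 256 / X ≤ N2 := by
  rw [div_le_iff₀ hX]; linarith

set_option maxHeartbeats 4000000 in
/-- The last part of the argument: from the bounds for the radius function to the local
gauge invariant function. -/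
theorem finale (L : LD G N n) {D m : ℕ} {K : Pt D → ℝ} {i0 i1 : Fin D}
    (hK : ∀ x : Pt D, K x ≠ 0 → ∀ i, 2 ≤ x i ∧ x i + 3 ≤ m) {l : ℕ} [NeZero l]
    {L0 : ℕ} (hmL : m ≤ L0) (x0 : Fin D → ZMod l) {w : Sm L (Ed D l)}
    {g E0 ε : ℝ} (hε : 0 < ε)
    (hnorm : L.I μ (w * w) = 1) {Kc δ1 s R N2m : ℝ}
    (hap0 : ∀ a U, |L.ev U (Fx L l m K i0 i1 x0 a)| ≤ Kc)
    (hres : (fnE L μ (Ed D l)).nr (HH L.Dv g (VT L D l) w - E0 • w) ≤ δ1)
    (hs : 0 < s) (hR : R = 1 + (s ^ 2 + n * Kc ^ 2)) (hN2m0 : 0 < N2m)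
    (d4 : 4 * R ^ 2 * δ1 ≤ ε / 2 * N2m)
    (hfin : ∀ c : ℝ, N2m ≤ L.I μ ((rad (fun b => Fx L l m K i0 i1 x0 b) s hs - c • 1) * w *
      ((rad (fun b => Fx L l m K i0 i1 x0 b) s hs - c • 1) * w)) ∧
      g ^ 2 / 2 * L.I μ (Gam L.Dv (rad (fun b => Fx L l m K i0 i1 x0 b) s hs)
      (rad (fun b => Fx L l m K i0 i1 x0 b) s hs) * (w * w)) ≤ ε / 2 *
        L.I μ ((rad (fun b => Fx L l m K i0 i1 x0 b) s hs - c • 1) * w *
          ((rad (fun b => Fx L l m K i0 i1 x0 b) s hs - c • 1) * w))) :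
    ∃ r : Sm L (Ed D l), Inv r ∧
          (∃ x0 : Fin D → ZMod l, ∀ U U' : Ed D l → G,
            (∀ s : Sb D L0, U (iot l x0 s) = U' (iot l x0 s)) → r.1 U = r.1 U') ∧
          L.I μ (r * w * w) = 0 ∧
          0 < L.I μ (r * w * (r * w)) ∧
          (fnE L μ (Ed D l)).enr g (VT L D l) E0 (r * w) (r * w) ≤
            ε * L.I μ (r * w * (r * w)) := by
  obtain ⟨S, hS⟩ : ∃ S : Fn (Sm L (Ed D l)) (Ed D l → G) (Ed D l × Fin n),
    S = fnE L μ (Ed D l) := ⟨_, rfl⟩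
  obtain ⟨ρ, hρ⟩ : ∃ ρ : Sm L (Ed D l), ρ = HH L.Dv g (VT L D l) w - E0 • w := ⟨_, rfl⟩
  have hresδ : S.nr ρ ≤ δ1 := by rw [hρ, hS]; exact hres
  have hnw : S.nr w = 1 := by
    have h1 : S.I (w * w) = 1 := by rw [hS]; exact hnorm
    unfold Fn.nr
    rw [h1, Real.sqrt_one]
  have hR1 : 1 ≤ R := by
    have : 0 ≤ s ^ 2 + n * Kc ^ 2 := by positivity
    linarith
  obtain ⟨r0, hr0⟩ : ∃ r0 : Sm L (Ed D l), r0 = rad (fun b => Fx L l m K i0 i1 x0 b) s hs :=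
    ⟨_, rfl⟩
  rw [← hr0] at hfin
  obtain ⟨c, hc⟩ : ∃ c : ℝ, c = L.I μ (r0 * (w * w)) := ⟨_, rfl⟩
  obtain ⟨hN2, hGr⟩ := hfin c
  obtain ⟨r, hr⟩ : ∃ r : Sm L (Ed D l), r = r0 - c • 1 := ⟨_, rfl⟩
  rw [← hr] at hN2 hGr
  obtain ⟨N2, hN2d⟩ : ∃ N2 : ℝ, N2 = L.I μ (r * w * (r * w)) := ⟨_, rfl⟩
  rw [← hN2d] at hN2 hGr
  -- pointwise bound of `r0`
  have hr0U : ∀ U, 0 ≤ L.ev U r0 ∧ L.ev U r0 ≤ R := by
    intro U
    have h1 : L.ev U r0 = Real.sqrt (s ^ 2 + ∑ a, (Fx L l m K i0 i1 x0 a).1 U *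
        (Fx L l m K i0 i1 x0 a).1 U) := by rw [hr0]; rfl
    rw [h1]
    refine ⟨Real.sqrt_nonneg _, ?_⟩
    have h2 : ∑ a, (Fx L l m K i0 i1 x0 a).1 U * (Fx L l m K i0 i1 x0 a).1 U ≤ n * Kc ^ 2 := by
      have h3 : ∀ a, (Fx L l m K i0 i1 x0 a).1 U * (Fx L l m K i0 i1 x0 a).1 U ≤ Kc ^ 2 := by
        intro a
        have h4 := hap0 a U
        have h5 : |(Fx L l m K i0 i1 x0 a).1 U| ≤ Kc := h4
        rw [← sq, ← sq_abs]
        exact pow_le_pow_left₀ (abs_nonneg _) h5 2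
      refine (Finset.sum_le_sum fun a _ => h3 a).trans (le_of_eq ?_)
      rw [Finset.sum_const, Finset.card_univ, Fintype.card_fin, nsmul_eq_mul]
    refine (Real.sqrt_le_sqrt (add_le_add_right h2 (s ^ 2))).trans ?_
    rw [hR]
    have h6 : 0 ≤ s ^ 2 + n * Kc ^ 2 := by positivity
    rw [Real.sqrt_le_left (by linarith)]
    nlinarith
  have hc0 : 0 ≤ c ∧ c ≤ R := by
    rw [hc]
    constructor
    · refine I_nonneg μ fun U => ?_
      rw [map_mul, map_mul]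
      exact mul_nonneg (hr0U U).1 (mul_self_nonneg _)
    · have h1 : L.I μ (r0 * (w * w)) ≤ L.I μ (R • (w * w)) := by
        refine I_mono μ fun U => ?_
        rw [map_mul, map_smul, map_mul, smul_eq_mul]
        exact mul_le_mul_of_nonneg_right (hr0U U).2 (mul_self_nonneg _)
      rw [map_smul, hnorm, smul_eq_mul, mul_one] at h1
      exact h1
  have hrU : ∀ U, |L.ev U r| ≤ 2 * R := by
    intro U
    have h1 : L.ev U r = L.ev U r0 - c := by
      rw [hr, map_sub, map_smul, map_one, smul_eq_mul, mul_one]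
    rw [h1, abs_le]
    have h2 := hr0U U
    constructor <;> linarith [h2.1, h2.2, hc0.1, hc0.2]
  have hR0 : 0 ≤ 2 * R := by linarith
  -- the remainder
  have hrem : |S.I (r * w * r * ρ)| ≤ ε / 2 * N2m := by
    refine (nr_cs (S := S) (r * w * r) ρ).trans ?_
    have h1 : S.nr (r * w * r) ≤ 4 * R ^ 2 := by
      rw [mul_comm]
      have h2 : S.nr (r * (r * w)) ≤ 2 * R * S.nr (r * w) := by
        rw [hS]; exact nr_mul_le2 μ hR0 hrU
      have h3 : S.nr (r * w) ≤ 2 * R * S.nr w := by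
        rw [hS]; exact nr_mul_le2 μ hR0 hrU
      rw [hnw, mul_one] at h3
      have h4 := mul_le_mul_of_nonneg_left h3 hR0
      linarith
    exact (mul_le_mul h1 hresδ (nr_nonneg _) (by positivity)).trans d4
  have hN2m' : N2m ≤ N2 := hN2
  have hN2pos : 0 < N2 := lt_of_lt_of_le hN2m0 hN2m'
  have hGrr : L.I μ (Gam L.Dv r r * (w * w)) = L.I μ (Gam L.Dv r0 r0 * (w * w)) := by
    have h1 : Gam (L.Dv (E := Ed D l)) r r = Gam L.Dv r0 r0 := by
      rw [hr]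
      have h2 : Gam (L.Dv (E := Ed D l)) (r0 - c • 1) (r0 - c • 1) =
          Gam L.Dv (r0 - c • 1) r0 := Gam_sub_const (S := fnE L μ (Ed D l)) _ r0 c
      have h3 : Gam (L.Dv (E := Ed D l)) r0 (r0 - c • 1) = Gam L.Dv r0 r0 :=
        Gam_sub_const (S := fnE L μ (Ed D l)) _ r0 c
      rw [h2, Gam_comm, h3]
    rw [h1]
  have hfinal : (fnE L μ (Ed D l)).enr g (VT L D l) E0 (r * w) (r * w) ≤ ε * N2 := by
    have h1 := enr_mul_mul2 (S := fnE L μ (Ed D l)) g (VT L D l) E0 w r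
    have h2 : (fnE L μ (Ed D l)).enr g (VT L D l) E0 (r * w) (r * w) =
        g ^ 2 / 2 * L.I μ (Gam L.Dv r r * (w * w)) + S.I (r * w * r * ρ) := by
      rw [hS, hρ]; exact h1
    rw [h2, hGrr]
    have h3 := (le_abs_self _).trans hrem
    have h4 : ε / 2 * N2m ≤ ε / 2 * N2 := mul_le_mul_of_nonneg_left hN2m' (by positivity)
    linarith
  refine ⟨r, ?_, ⟨x0, ?_⟩, ?_, by rw [← hN2d]; exact hN2pos, by rw [← hN2d]; exact hfinal⟩
  · intro γ
    refine ev_ext fun U => ?_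
    have h1 := rad_gauge (L := L) (i0 := i0) (i1 := i1) hK γ U x0 s hs
    have h2 : r0.1 (gt γ U) = r0.1 U := by rw [hr0]; exact h1
    have h3 : ∀ W, r.1 W = r0.1 W - c * 1 := fun W => by rw [hr]; rfl
    show r.1 (gt γ U) = r.1 U
    rw [h3, h3, h2]
  · intro U U' hUU
    have h1 : U ∘ iot (m := m) l x0 = U' ∘ iot l x0 := by
      funext s'
      have h2 := hUU (fun i => ⟨(s'.1 i : ℕ), lt_of_lt_of_le (s'.1 i).2 hmL⟩, s'.2)
      exact h2
    have h3 : ∀ W, r.1 W = r0.1 W - c * 1 := fun W => by rw [hr]; rfl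
    have h4 : ∀ W : Ed D l → G, r0.1 W = Real.sqrt (s ^ 2 +
        ∑ a, (Phi L m K i0 i1 a).1 (W ∘ iot l x0) * (Phi L m K i0 i1 a).1 (W ∘ iot l x0)) := by
      intro W; rw [hr0]; rfl
    rw [h3, h3, h4, h4, h1]
  · have h1 : r * w * w = r0 * (w * w) - c • (w * w) := by
      rw [hr, mul_assoc, sub_mul, smul_mul_assoc, one_mul]
    rw [h1, map_sub, map_smul, hnorm, smul_eq_mul, mul_one, ← hc, sub_self]

end

end Pool.Agent.H906R3.YM
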