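import Mathlib
import Pool.Agent.H906R3.YM.Local2
import Pool.Agent.H906R3.YM.E0inv
import Pool.Agent.H906R3.YM.Approx
import Pool.Agent.H906R3.YM.Main
import Pool.Agent.H906R3.YM.Finale

/-!
# The main theorem without assumptions on the vacuum, abstract form
-/

open MeasureTheory Matrix
open scoped Matrix.Norms.Frobenius ContDiff

namespace Pool.Agent.H906R3.YM

set_option linter.unusedSectionVars false

noncomputable section

variable {G : Type*} [Group G] [TopologicalSpace G] {N n : ℕ} {L : LD G N n}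
  [IsTopologicalGroup G] [CompactSpace G] [SecondCountableTopology G]
  [MeasurableSpace G] [BorelSpace G] (μ : Measure G) [IsProbabilityMeasure μ]
  [μ.IsMulLeftInvariant] [μ.IsOpenPosMeasure]


set_option maxHeartbeats 4000000 in
/-- The main theorem for approximate eigenfunctions. -/
theorem main_core (L : LD G N n) (hn : 0 < n) {D : ℕ} {i0 i1 : Fin D} (h01 : i0 < i1) (ε : ℝ)
    (hε : 0 < ε) :
    ∃ g0 : ℝ, 0 < g0 ∧ ∃ L0 : ℕ, ∀ g : ℝ, 0 < g → g < g0 → ∀ (l : ℕ) [NeZero l], L0 ≤ l →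
      ∀ E0 : ℝ, 0 ≤ E0 →
        (∀ u : Sm L (Ed D l), Inv u → 0 ≤ (fnE L μ (Ed D l)).enr g (VT L D l) E0 u u) →
        ∃ δ0 : ℝ, 0 < δ0 ∧ ∀ w : Sm L (Ed D l), Inv w → L.I μ (w * w) = 1 →
        (fnE L μ (Ed D l)).nr (HH L.Dv g (VT L D l) w - E0 • w) ≤ δ0 →
        ∃ r : Sm L (Ed D l), Inv r ∧
          (∃ x0 : Fin D → ZMod l, ∀ U U' : Ed D l → G,
            (∀ s : Sb D L0, U (iot l x0 s) = U' (iot l x0 s)) → r.1 U = r.1 U') ∧
          L.I μ (r * w * w) = 0 ∧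
          0 < L.I μ (r * w * (r * w)) ∧
          (fnE L μ (Ed D l)).enr g (VT L D l) E0 (r * w) (r * w) ≤
            ε * L.I μ (r * w * (r * w)) := by
  have hn' : (0 : ℝ) < n := by exact_mod_cast hn
  set τ : ℝ := ε / (64 * (2 + 4 * n ^ 2) * n) with hτdef
  have hτ : 0 < τ := by positivity
  have hτε : 16 * (2 + 4 * (n : ℝ) ^ 2) * n * (2 * τ) = ε / 2 := by
    rw [hτdef]; field_simp; norm_num
  obtain ⟨m, K, hK, hah0, hll⟩ := tents h01 hτ
  set ah := ∑ s : Sb D m, hh K i0 i1 s ^ 2 with hah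
  obtain ⟨C, hC0, hC⟩ := soft_consts (L := L) h01 hK hah hah0 hn hτ hll
  set cD := CD L D m K i0 i1 with hcD
  have hcD0 : 0 ≤ cD := Finset.sum_nonneg fun _ _ => abs_nonneg _
  set δ := min (min (τ ^ 2 * ah / 8) (ah / 32)) (n ^ 2 * ah ^ 2 / 2) with hδ
  have hδ0 : 0 < δ := by
    rw [hδ]
    exact lt_min (lt_min (by positivity) (by positivity)) (by positivity)
  set M := C + 2 * cD + 1 with hM
  have hM0 : 0 < M := by positivity
  set η := min δ (τ ^ 2 * ah / 8) / M with hη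
  have hη0 : 0 < η := div_pos (lt_min hδ0 (by positivity)) hM0
  have hηδ : M * η ≤ δ := by
    rw [hη, mul_div_cancel₀ _ hM0.ne']; exact min_le_left _ _
  have hηδ' : M * η ≤ τ ^ 2 * ah / 8 := by
    rw [hη, mul_div_cancel₀ _ hM0.ne']; exact min_le_right _ _
  set ε' := η / (2 * (m ^ D + 1)) with hε'
  have hε'0 : 0 < ε' := by positivity
  have hε'η : (m : ℝ) ^ D * ε' ≤ η / 2 := by
    rw [hε', ← mul_div_assoc, div_le_iff₀ (by positivity)]
    have h1 : 0 ≤ (m : ℝ) ^ D := by positivity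
    nlinarith
  obtain ⟨Q, hQ0, hQ⟩ := E0_inv μ L D hε'0
  set P := (m : ℝ) ^ D * (Q + 1) with hP
  have hP0 : 0 ≤ P := by positivity
  refine ⟨min 1 (η / (2 * (P + 1))), lt_min one_pos (by positivity), max m 3, ?_⟩
  intro g hg hg0 l _ hml' E0 hE0n hpos
  have hml : m ≤ l := (le_max_left _ _).trans hml'
  have h3l : 3 ≤ l := (le_max_right _ _).trans hml'
  have hg1 : g ≤ 1 := (hg0.trans_le (min_le_left _ _)).le
  have hgη : g * (2 * (P + 1)) ≤ η := by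
    have := (hg0.trans_le (min_le_right _ _)).le
    rwa [le_div_iff₀ (by positivity)] at this
  have hg2g : g ^ 2 ≤ g := by nlinarith
  have hg4 : g ^ 4 ≤ g := by
    have h1 : g ^ 4 = g * g ^ 3 := by ring
    rw [h1]
    have h2 : g ^ 3 ≤ 1 := pow_le_one₀ hg.le hg1
    nlinarith
  have hg40 : 0 < g ^ 4 := by positivity
  have hg20 : 0 < g ^ 2 := by positivity
  have hgP : g * P ≤ η / 2 := by nlinarith
  have hg4η : g ^ 4 ≤ η := by nlinarith [mul_nonneg hg.le hP0]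
  obtain ⟨Kc, hKc, hap⟩ := apriori (m := m) μ L K i0 i1 hml hg hE0n
  have hKc0 : 0 < Kc := by linarith
  have hs : 0 < ah / (2 * Real.sqrt (n * (2 * τ) * ah / g ^ 2)) := by
    have : 0 < Real.sqrt (n * (2 * τ) * ah / g ^ 2) := Real.sqrt_pos.2 (by positivity)
    positivity
  -- bound of the radius
  obtain ⟨R, hR⟩ : ∃ R : ℝ, R = 1 + ((ah / (2 * Real.sqrt (n * (2 * τ) * ah / g ^ 2))) ^ 2 +
    n * Kc ^ 2) := ⟨_, rfl⟩
  have hR1 : 1 ≤ R := by
    have : 0 ≤ (ah / (2 * Real.sqrt (n * (2 * τ) * ah / g ^ 2))) ^ 2 + n * Kc ^ 2 := by positivity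
    linarith
  obtain ⟨N2m, hN2m⟩ : ∃ N2m : ℝ,
    N2m = ah ^ 2 / 256 / ((2 + 4 * n ^ 2) * (n * (2 * τ) * ah / g ^ 2)) := ⟨_, rfl⟩
  have hN2m0 : 0 < N2m := by rw [hN2m]; positivity
  obtain ⟨δ1, hδ1⟩ : ∃ δ1 : ℝ, δ1 = min (min (3 / 16 * (τ ^ 2 * ah) / (Kc * Kc)) (τ * ah / (Kc * Kc)))
    (min (g ^ 2 * ah / 8 / (Kc * Kc)) (ε / 2 * N2m / (4 * R ^ 2))) := ⟨_, rfl⟩
  have hδ10 : 0 < δ1 := by
    rw [hδ1]
    exact lt_min (lt_min (by positivity) (by positivity)) (lt_min (by positivity) (by positivity))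
  have hKK : 0 < Kc * Kc := by positivity
  have d1 : Kc * Kc * δ1 ≤ 3 / 16 * (τ ^ 2 * ah) := by
    have h1 : δ1 ≤ 3 / 16 * (τ ^ 2 * ah) / (Kc * Kc) :=
      hδ1.le.trans ((min_le_left _ _).trans (min_le_left _ _))
    rw [le_div_iff₀ hKK] at h1
    linarith
  have d2 : Kc * Kc * δ1 ≤ τ * ah := by
    have h1 : δ1 ≤ τ * ah / (Kc * Kc) :=
      hδ1.le.trans ((min_le_left _ _).trans (min_le_right _ _))
    rw [le_div_iff₀ hKK] at h1
    linarith
  have d3 : Kc * Kc * δ1 ≤ g ^ 2 * ah / 8 := by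
    have h1 : δ1 ≤ g ^ 2 * ah / 8 / (Kc * Kc) :=
      hδ1.le.trans ((min_le_right _ _).trans (min_le_left _ _))
    rw [le_div_iff₀ hKK] at h1
    linarith
  have d4 : 4 * R ^ 2 * δ1 ≤ ε / 2 * N2m := by
    have h1 : δ1 ≤ ε / 2 * N2m / (4 * R ^ 2) :=
      hδ1.le.trans ((min_le_right _ _).trans (min_le_right _ _))
    rw [le_div_iff₀ (by positivity)] at h1
    linarith
  refine ⟨min 1 δ1, lt_min one_pos hδ10, ?_⟩
  intro w hw hnorm hres
  have hres1 : (fnE L μ (Ed D l)).nr (HH L.Dv g (VT L D l) w - E0 • w) ≤ 1 :=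
    hres.trans (min_le_left _ _)
  have hresδ : (fnE L μ (Ed D l)).nr (HH L.Dv g (VT L D l) w - E0 • w) ≤ δ1 :=
    hres.trans (min_le_right _ _)
  have hap0 := fun x0 => hap x0 w hnorm hres1
  obtain ⟨S, hS⟩ : ∃ S : Fn (Sm L (Ed D l)) (Ed D l → G) (Ed D l × Fin n),
    S = fnE L μ (Ed D l) := ⟨_, rfl⟩
  obtain ⟨ρ, hρ⟩ : ∃ ρ : Sm L (Ed D l), ρ = HH L.Dv g (VT L D l) w - E0 • w := ⟨_, rfl⟩
  rw [← hρ, ← hS] at hres1 hresδ
  have hnw : S.nr w = 1 := by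
    have h1 : S.I (w * w) = 1 := by rw [hS]; exact hnorm
    unfold Fn.nr
    rw [h1, Real.sqrt_one]
  have hewr : (fnE L μ (Ed D l)).enr g (VT L D l) E0 w w = L.I μ (w * ρ) := by
    rw [hρ]; rfl
  obtain ⟨ew, hew⟩ : ∃ ew : ℝ, ew = L.I μ (w * ρ) := ⟨_, rfl⟩
  rw [← hew] at hewr
  have hew1 : ew ≤ 1 := by
    have h1 := (le_abs_self _).trans (nr_cs (S := S) w ρ)
    rw [hnw, one_mul] at h1
    have h2 : S.I (w * ρ) = ew := by rw [hS, hew]
    rw [h2] at h1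
    exact h1.trans hres1
  -- energy
  have hE0 : E0 ≤ l ^ D * (g ^ 2 * Q + 1 / g ^ 2 * ε') := by
    refine hQ l h3l g E0 hg fun u hu => ?_
    have h1 := hpos u hu
    have h2 := (fnE L μ (Ed D l)).enr_eq g (VT L D l) E0 u u
    rw [h2] at h1
    have h3 : 0 ≤ g ^ 2 / 2 * L.I μ (Gam L.Dv u u) + 1 / g ^ 2 * L.I μ (VT L D l * (u * u))
      - E0 * L.I μ (u * u) := h1
    linarith
  have hl1 : (1 : ℝ) ≤ l ^ D := by
    have : (1 : ℝ) ≤ l := by exact_mod_cast (by omega : 1 ≤ l)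
    exact one_le_pow₀ this
  have hE0' : E0 + ew ≤ l ^ D * (g ^ 2 * Q + 1 / g ^ 2 * ε' + 1) := by
    rw [mul_add]
    nlinarith
  have h0' : (fnE L μ (Ed D l)).enr g (VT L D l) (E0 + ew) w w = 0 := by
    have h1 := (fnE L μ (Ed D l)).enr_eq g (VT L D l) E0 w w
    have h2 := (fnE L μ (Ed D l)).enr_eq g (VT L D l) (E0 + ew) w w
    have h3 : (fnE L μ (Ed D l)).I (w * w) = 1 := hnorm
    rw [hewr, h3] at h1
    rw [h2, h3]
    linarith
  obtain ⟨x0, hx0⟩ := good_block μ m hg hnorm h0' hE0'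
  set kin := ∑ s : Sb D m, ∑ a, L.I μ (L.Dv (iot l x0 s, a) w * L.Dv (iot l x0 s, a) w) with hkin
  set om := L.I μ (pull (iot (m := m) l x0) (VS L D m) * (w * w)) with hom
  have hkin0 : 0 ≤ kin := Finset.sum_nonneg fun _ _ => Finset.sum_nonneg fun _ _ =>
    I_sq_nonneg μ _
  have hom0 : 0 ≤ om := I_nonneg μ fun U => by
    rw [map_mul, VS_iot, map_mul]
    exact mul_nonneg (Finset.sum_nonneg fun _ _ => we_nonneg _) (mul_self_nonneg _)
  have hZ : g ^ 4 / 2 * kin + om ≤ η := by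
    have h1 := mul_le_mul_of_nonneg_left hx0 hg20.le
    have h2 : g ^ 2 * (g ^ 2 / 2 * kin + 1 / g ^ 2 * om) = g ^ 4 / 2 * kin + om := by
      field_simp
    have h3 : g ^ 2 * ((m : ℝ) ^ D * (g ^ 2 * Q + 1 / g ^ 2 * ε' + 1)) =
        (m : ℝ) ^ D * (g ^ 4 * Q + g ^ 2) + (m : ℝ) ^ D * ε' := by
      field_simp
      ring
    rw [h2, h3] at h1
    have h4 : (m : ℝ) ^ D * (g ^ 4 * Q + g ^ 2) ≤ g * P := by
      rw [hP]
      have h5 : g ^ 4 * Q + g ^ 2 ≤ g * (Q + 1) := by nlinarith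
      calc (m : ℝ) ^ D * (g ^ 4 * Q + g ^ 2) ≤ (m : ℝ) ^ D * (g * (Q + 1)) :=
            mul_le_mul_of_nonneg_left h5 (by positivity)
        _ = _ := by ring
    linarith
  have homη : om ≤ η := by
    have : 0 ≤ g ^ 4 / 2 * kin := by positivity
    linarith
  have hkη : g ^ 4 * kin ≤ 2 * η := by linarith
  have hCom : C * om ≤ δ := by
    have h1 : C * om ≤ M * η :=
      mul_le_mul (by rw [hM]; linarith) homη hom0 hM0.le
    exact h1.trans hηδ
  have hloc : cD * (g ^ 4 * (blkE (L := L) μ (iot (m := m) l x0) (iot_inj hml x0)).loc w) ≤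
      τ ^ 2 * ah / 4 := by
    have h1 : (blkE (L := L) μ (iot (m := m) l x0) (iot_inj hml x0)).loc w = kin + 1 := by
      unfold Blk.loc
      have h2 : (fnE L μ (Ed D l)).I (w * w) = 1 := hnorm
      rw [h2, Fintype.sum_prod_type]
      rfl
    rw [h1]
    have h2 : g ^ 4 * (kin + 1) ≤ 3 * η := by nlinarith
    have h3 : cD * (g ^ 4 * (kin + 1)) ≤ cD * (3 * η) := mul_le_mul_of_nonneg_left h2 hcD0
    have h4 : cD * (3 * η) ≤ 2 * (M * η) := by
      rw [hM]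
      nlinarith [mul_nonneg hC0 hη0.le, mul_nonneg hcD0 hη0.le]
    linarith
  have hδ10' : 0 ≤ δ1 := hδ10.le
  have hres' : (fnE L μ (Ed D l)).nr (HH L.Dv g (VT L D l) w - E0 • w) ≤ δ1 := by
    rw [← hρ, ← hS]; exact hresδ
  have hKKc : g ^ 2 * (Kc * δ1) ≤ Kc * Kc * δ1 := by
    have h1 : g ^ 2 ≤ Kc := by nlinarith
    calc g ^ 2 * (Kc * δ1) ≤ Kc * (Kc * δ1) :=
          mul_le_mul_of_nonneg_right h1 (by positivity)
      _ = _ := by ring
  have hfin0 := local2 (L := L) μ hK hn hah0 hτ hC x0 hml hw hg hpos hnorm hKc hδ10' (hap0 x0)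
    hres' (hKKc.trans d1) d2 d3
    (hCom.trans ((min_le_left _ _).trans (min_le_left _ _)))
    (hCom.trans ((min_le_left _ _).trans (min_le_right _ _)))
    (hCom.trans (min_le_right _ _)) hloc hs
  refine finale μ L hK (le_max_left m 3) x0 hε hnorm (fun a => (hap0 x0 a).2.2) hres' hs hR
    hN2m0 d4 fun c => ?_
  obtain ⟨hN2, hGr⟩ := hfin0 c
  rw [hτε] at hGr
  refine ⟨?_, hGr⟩
  rw [hN2m]
  exact n2m_arith (by positivity) hN2

end

end Pool.Agent.H906R3.YM
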