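import Mathlib
import Pool.Agent.H906R3.YM.Main2

/-!
# Approximate vacua and vacua: the final abstract statement
-/

open MeasureTheory Matrix
open scoped Matrix.Norms.Frobenius ContDiff

namespace Pool.Agent.H906R3.YM

set_option linter.unusedSectionVars false
set_option linter.unusedVariables false

noncomputable section

section fn

variable {A : Type*} [CommRing A] [Algebra ℝ A] {P J : Type*} [Fintype J] {S : Fn A P J}

lemma enr_smul (g : ℝ) (V : A) (E0 c : ℝ) (u : A) :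
    S.enr g V E0 (c • u) (c • u) = c ^ 2 * S.enr g V E0 u u := by
  unfold Fn.enr
  rw [HH_smul, smul_comm E0 c, ← smul_sub, smul_mul_assoc, mul_smul_comm, map_smul, map_smul,
    smul_eq_mul, smul_eq_mul]
  ring

lemma enr_comb (g : ℝ) (V : A) (E0 a b : ℝ) (u v : A) :
    S.enr g V E0 (a • u + b • v) (a • u + b • v) =
      a ^ 2 * S.enr g V E0 u u + 2 * (a * b) * S.enr g V E0 v u +
        b ^ 2 * S.enr g V E0 v v := by
  have e1 : S.enr g V E0 (a • u + b • v) (a • u + b • v) = a ^ 2 * S.enr g V E0 u u +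
      (a * b) * S.enr g V E0 u v +
      (a * b) * S.enr g V E0 v u + b ^ 2 * S.enr g V E0 v v := by
    unfold Fn.enr
    rw [S.HH_add, HH_smul, HH_smul]
    have : (a • u + b • v) * (a • HH S.D g V u + b • HH S.D g V v - E0 • (a • u + b • v)) =
        (a ^ 2) • (u * (HH S.D g V u - E0 • u)) + (a * b) • (u * (HH S.D g V v - E0 • v)) +
          (a * b) • (v * (HH S.D g V u - E0 • u)) +
          (b ^ 2) • (v * (HH S.D g V v - E0 • v)) := by
      simp only [Algebra.smul_def, map_pow, map_mul]; ring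
    rw [this]
    simp only [map_add, map_smul, smul_eq_mul]
  rw [e1, S.enr_symm g V E0 u v]
  ring

/-- In a sector where the form is nonnegative, a null vector of the form in the sector is an
eigenfunction. -/
lemma residual_zero (Pr : A → Prop)
    (hadd : ∀ u v, Pr u → Pr v → Pr (u + v)) (hsmul : ∀ (c : ℝ) u, Pr u → Pr (c • u))
    {g : ℝ} {V : A} {E0 : ℝ} (hpos : ∀ u, Pr u → 0 ≤ S.enr g V E0 u u) {w : A} (hw : Pr w)
    (hr : Pr (HH S.D g V w - E0 • w)) (h0 : S.enr g V E0 w w = 0) :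
    S.nr (HH S.D g V w - E0 • w) = 0 := by
  obtain ⟨ρ, hρ⟩ : ∃ ρ : A, ρ = HH S.D g V w - E0 • w := ⟨_, rfl⟩
  rw [← hρ] at hr ⊢
  have h1 : (S.enr g V E0 ρ w) ^ 2 ≤ S.enr g V E0 w w * S.enr g V E0 ρ ρ := by
    refine Fn.sq_le_of_forall fun t => ?_
    have h := hpos ((1 : ℝ) • w + t • ρ) (hadd _ _ (hsmul 1 w hw) (hsmul t ρ hr))
    rw [enr_comb] at h
    linarith
  rw [h0, zero_mul] at h1
  have h2 : S.enr g V E0 ρ w = S.I (ρ * ρ) := by
    unfold Fn.enr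
    rw [← hρ]
  have h3 : S.enr g V E0 ρ w = 0 := by
    have := sq_nonneg (S.enr g V E0 ρ w)
    exact pow_eq_zero_iff two_ne_zero |>.1 (le_antisymm h1 this)
  unfold Fn.nr
  rw [← h2, h3, Real.sqrt_zero]

end fn

variable {G : Type*} [Group G] [TopologicalSpace G] {N n : ℕ} {L : LD G N n}
  [IsTopologicalGroup G] [CompactSpace G] [SecondCountableTopology G]
  [MeasurableSpace G] [BorelSpace G] (μ : Measure G) [IsProbabilityMeasure μ]
  [μ.IsMulLeftInvariant] [μ.IsOpenPosMeasure] [μ.IsMulRightInvariant]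

/-- There is a local gauge invariant function `r`, such that `r w` is a normalised state
orthogonal to `w` and all states in the span of `w` and `r w` have energy at most `E0 + ε`. -/
def Soft {D l : ℕ} [NeZero l] (L0 : ℕ) (g E0 ε : ℝ) (w : Sm L (Ed D l)) : Prop :=
  ∃ r : Sm L (Ed D l), Inv r ∧
    (∃ x0 : Fin D → ZMod l, ∀ U U' : Ed D l → G,
      (∀ s : Sb D L0, U (iot l x0 s) = U' (iot l x0 s)) → r.1 U = r.1 U') ∧
    L.I μ (w * (r * w)) = 0 ∧
    L.I μ (r * w * (r * w)) = 1 ∧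
    ∀ a b : ℝ, (fnE L μ (Ed D l)).enr g (VT L D l) E0 (a • w + b • (r * w))
      (a • w + b • (r * w)) ≤ ε * (a ^ 2 + b ^ 2)

set_option maxHeartbeats 4000000 in
/-- From a function of small residual norm to the pair of states. -/
lemma soft_pair {D l L0 : ℕ} [NeZero l] {g E0 ε δ : ℝ} (hε : 0 < ε) (hδ : 2 * δ ≤ ε)
    {w : Sm L (Ed D l)} (hw : Inv w) (hnorm : L.I μ (w * w) = 1)
    (hres : (fnE L μ (Ed D l)).nr (HH L.Dv g (VT L D l) w - E0 • w) ≤ δ)
    (hcore : ∃ r : Sm L (Ed D l), Inv r ∧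
          (∃ x0 : Fin D → ZMod l, ∀ U U' : Ed D l → G,
            (∀ s : Sb D L0, U (iot l x0 s) = U' (iot l x0 s)) → r.1 U = r.1 U') ∧
          L.I μ (r * w * w) = 0 ∧
          0 < L.I μ (r * w * (r * w)) ∧
          (fnE L μ (Ed D l)).enr g (VT L D l) E0 (r * w) (r * w) ≤
            ε / 2 * L.I μ (r * w * (r * w))) :
    Soft μ L0 g E0 ε w := by
  obtain ⟨r, hr, ⟨x0, hx0⟩, h1, h2, h3⟩ := hcore
  obtain ⟨Z, hZ⟩ : ∃ Z : ℝ, Z = L.I μ (r * w * (r * w)) := ⟨_, rfl⟩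
  rw [← hZ] at h2 h3
  obtain ⟨c, hc⟩ : ∃ c : ℝ, c = (Real.sqrt Z)⁻¹ := ⟨_, rfl⟩
  have hc2 : c ^ 2 * Z = 1 := by
    rw [hc, inv_pow, Real.sq_sqrt h2.le, inv_mul_cancel₀ h2.ne']
  have hψ : c • r * w = c • (r * w) := smul_mul_assoc c r w
  have hn1 : L.I μ (c • r * w * (c • r * w)) = 1 := by
    rw [hψ, smul_mul_assoc, mul_smul_comm, map_smul, map_smul, smul_eq_mul, smul_eq_mul, ← hZ,
      ← hc2]
    ring
  refine ⟨c • r, hr.smul c, ⟨x0, fun U U' h => ?_⟩, ?_, hn1, fun a b => ?_⟩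
  · show c * r.1 U = c * r.1 U'
    rw [hx0 U U' h]
  · rw [hψ, mul_comm, smul_mul_assoc, map_smul, h1, smul_zero]
  · obtain ⟨ψ, hψd⟩ : ∃ ψ : Sm L (Ed D l), ψ = c • r * w := ⟨_, rfl⟩
    rw [← hψd, enr_comb]
    have hnw : (fnE L μ (Ed D l)).nr w = 1 := by
      have h1 : (fnE L μ (Ed D l)).I (w * w) = 1 := hnorm
      unfold Fn.nr
      rw [h1, Real.sqrt_one]
    have hnψ : (fnE L μ (Ed D l)).nr ψ = 1 := by
      have h1 : (fnE L μ (Ed D l)).I (ψ * ψ) = 1 := by rw [hψd]; exact hn1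
      unfold Fn.nr
      rw [h1, Real.sqrt_one]
    have e1 : (fnE L μ (Ed D l)).enr g (VT L D l) E0 w w ≤ δ := by
      have h4 := (le_abs_self _).trans (nr_cs (S := fnE L μ (Ed D l)) w
        (HH L.Dv g (VT L D l) w - E0 • w))
      rw [hnw, one_mul] at h4
      exact h4.trans hres
    have e2 : |(fnE L μ (Ed D l)).enr g (VT L D l) E0 ψ w| ≤ δ := by
      have h4 := nr_cs (S := fnE L μ (Ed D l)) ψ
        (HH L.Dv g (VT L D l) w - E0 • w)
      rw [hnψ, one_mul] at h4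
      exact h4.trans hres
    have e3 : (fnE L μ (Ed D l)).enr g (VT L D l) E0 ψ ψ ≤ ε / 2 := by
      rw [hψd, hψ, enr_smul]
      calc c ^ 2 * (fnE L μ (Ed D l)).enr g (VT L D l) E0 (r * w) (r * w) ≤
            c ^ 2 * (ε / 2 * Z) := mul_le_mul_of_nonneg_left h3 (sq_nonneg c)
        _ = ε / 2 * (c ^ 2 * Z) := by ring
        _ = _ := by rw [hc2, mul_one]
    obtain ⟨x, hx⟩ : ∃ x : ℝ, x = (fnE L μ (Ed D l)).enr g (VT L D l) E0 w w := ⟨_, rfl⟩
    obtain ⟨y, hy⟩ : ∃ y : ℝ, y = (fnE L μ (Ed D l)).enr g (VT L D l) E0 ψ w :=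
      ⟨_, rfl⟩
    obtain ⟨z, hz⟩ : ∃ z : ℝ, z = (fnE L μ (Ed D l)).enr g (VT L D l) E0 ψ
      ψ := ⟨_, rfl⟩
    rw [← hx] at e1 ⊢
    rw [← hy] at e2 ⊢
    rw [← hz] at e3 ⊢
    have hδ0 : 0 ≤ δ := (abs_nonneg _).trans e2
    have f1 : a ^ 2 * x ≤ a ^ 2 * δ := mul_le_mul_of_nonneg_left e1 (sq_nonneg a)
    have f3 : b ^ 2 * z ≤ b ^ 2 * (ε / 2) := mul_le_mul_of_nonneg_left e3 (sq_nonneg b)
    have f2 : 2 * (a * b) * y ≤ (a ^ 2 + b ^ 2) * δ := by
      have g1 : 2 * (a * b) * y ≤ |2 * (a * b)| * |y| := by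
        rw [← abs_mul]; exact le_abs_self _
      have g2 : |2 * (a * b)| ≤ a ^ 2 + b ^ 2 := by
        rw [abs_le]; constructor <;> nlinarith [sq_nonneg (a + b), sq_nonneg (a - b)]
      exact g1.trans (mul_le_mul g2 e2 (abs_nonneg _) (by positivity))
    nlinarith [mul_nonneg (sq_nonneg a) hδ0, mul_nonneg (sq_nonneg b) hδ0, sq_nonneg a,
      sq_nonneg b, mul_le_mul_of_nonneg_left hδ (sq_nonneg a),
      mul_le_mul_of_nonneg_left hδ (sq_nonneg b)]

set_option maxHeartbeats 4000000 in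
/-- The final abstract statement. -/
theorem final_abs (L : LD G N n) (hn : 0 < n) (hN : 0 < N) {D : ℕ} {i0 i1 : Fin D}
    (h01 : i0 < i1) (ε : ℝ) (hε : 0 < ε) :
    ∃ g0 : ℝ, 0 < g0 ∧ ∃ L0 : ℕ, ∀ g : ℝ, 0 < g → g < g0 → ∀ (l : ℕ) [NeZero l], L0 ≤ l →
      ∀ E0 : ℝ, 0 ≤ E0 →
        (∀ u : Sm L (Ed D l), Inv u → 0 ≤ (fnE L μ (Ed D l)).enr g (VT L D l) E0 u u) →
        ((∀ δ : ℝ, 0 < δ → ∃ f : Sm L (Ed D l), Inv f ∧ L.I μ (f * f) = 1 ∧
          (fnE L μ (Ed D l)).enr g (VT L D l) E0 f f ≤ δ) →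
          ∀ δ : ℝ, 0 < δ → ∃ w : Sm L (Ed D l), Inv w ∧ L.I μ (w * w) = 1 ∧
            (fnE L μ (Ed D l)).enr g (VT L D l) E0 w w ≤ δ ∧ Soft μ L0 g E0 ε w) ∧
        (∀ w : Sm L (Ed D l), Inv w → L.I μ (w * w) = 1 →
          (fnE L μ (Ed D l)).enr g (VT L D l) E0 w w = 0 → Soft μ L0 g E0 ε w) := by
  obtain ⟨g0, hg0, L0, hmain⟩ := main_core μ L hn h01 (ε / 2) (half_pos hε)
  refine ⟨g0, hg0, L0, ?_⟩
  intro g hg hgg l _ hl E0 hE0 hpos
  obtain ⟨δ0, hδ0, hcore⟩ := hmain g hg hgg l hl E0 hE0 hpos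
  refine ⟨fun hinf δ hδ => ?_, fun w hw hnorm h0 => ?_⟩
  · have hδ' : 0 < min (min δ0 δ) (ε / 2) := lt_min (lt_min hδ0 hδ) (half_pos hε)
    obtain ⟨w, hw, hnorm, hres⟩ := approx_vac μ hN hg hE0 hpos hinf hδ'
    have hnw : (fnE L μ (Ed D l)).nr w = 1 := by
      have h1 : (fnE L μ (Ed D l)).I (w * w) = 1 := hnorm
      unfold Fn.nr
      rw [h1, Real.sqrt_one]
    have e1 : (fnE L μ (Ed D l)).enr g (VT L D l) E0 w w ≤ min (min δ0 δ) (ε / 2) := by
      have h4 := (le_abs_self _).trans (nr_cs (S := fnE L μ (Ed D l)) w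
        (HH L.Dv g (VT L D l) w - E0 • w))
      rw [hnw, one_mul] at h4
      exact h4.trans hres
    refine ⟨w, hw, hnorm, e1.trans ((min_le_left _ _).trans (min_le_right _ _)), ?_⟩
    have h2 : 2 * min (min δ0 δ) (ε / 2) ≤ ε := by
      have := min_le_right (min δ0 δ) (ε / 2)
      linarith
    exact soft_pair μ hε h2 hw hnorm hres
      (hcore w hw hnorm (hres.trans ((min_le_left _ _).trans (min_le_left _ _))))
  · have hr : Inv (HH L.Dv g (VT L D l) w - E0 • w) := hw.HH.sub (hw.smul E0)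
    have h1 : (fnE L μ (Ed D l)).nr (HH L.Dv g (VT L D l) w - E0 • w) = 0 :=
      residual_zero (S := fnE L μ (Ed D l)) Inv (fun u v hu hv => hu.add hv)
        (fun c u hu => hu.smul c) hpos hw hr h0
    exact soft_pair μ hε (δ := 0) (by linarith) hw hnorm h1.le
      (hcore w hw hnorm (h1.le.trans hδ0.le))

end

end Pool.Agent.H906R3.YM
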